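import Mathlib

/-! Choice of the parameters. -/

namespace Pool.Agent.Lib.MP_b07bdb_co.Nk

open Filter

/-- A larger power wins (`tendsto_rpow_atTop`, `Real.rpow_add`). -/
lemma ev_rpow_le (a b A c : ℝ) (hab : a < b) (hc : 0 < c) :
    ∀ᶠ k : ℕ in atTop, A * (k : ℝ) ^ a ≤ c * (k : ℝ) ^ b := by
  have h1 : Tendsto (fun k : ℕ => (k : ℝ) ^ (b - a)) atTop atTop :=
    (tendsto_rpow_atTop (sub_pos.2 hab)).comp tendsto_natCast_atTop_atTop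
  filter_upwards [h1.eventually_ge_atTop (A / c), eventually_gt_atTop 0] with k hk hk0
  have hk1 : (0 : ℝ) < k := by exact_mod_cast hk0
  have e : (k : ℝ) ^ b = (k : ℝ) ^ (b - a) * (k : ℝ) ^ a := by
    rw [← Real.rpow_add hk1]; congr 1; ring
  rw [div_le_iff₀ hc] at hk
  rw [e, ← mul_assoc]
  exact mul_le_mul_of_nonneg_right (by linarith) (Real.rpow_nonneg hk1.le _)

/-- All conditions are comparisons of powers of `k` (`ev_rpow_le`): with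
`T = k ^ (1 / 3 + θ / 2) / 10 ^ 5`, `T ^ 2 h = k / 10 ^ 10`, `(T / M) ^ 3` has exponent
`1 + 3 θ / 2`, and `T ^ (-θ) ≥ k ^ (-θ / 2)` when `1 ≤ T ≤ k ^ (1 / 2)`, so
`lam₀ T ^ (-θ) k T / M ≥ (lam₀ / (10 ^ 5 M)) k ^ (4 / 3)`. -/
lemma params (θ M t₀ lam₀ c : ℝ) (hθ0 : 0 < θ) (hθ : θ ≤ 1 / 10) (hM : 1 ≤ M) (hl : 0 < lam₀)
    (hc : 0 < c) : ∀ᶠ k : ℕ in atTop, ∃ T h : ℝ, 0 < T ∧ t₀ ≤ T ∧ 12 ≤ h ∧
      lam₀ * T ^ (-θ) ≤ c ∧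
      ∀ t : ℝ, T / M ≤ t → t ≤ T → t ^ 2 ≤ k ∧ (k : ℝ) ≤ c * t ^ 3 ∧ h ≤ t ∧
        t ^ 2 * h ≤ k / 10 ^ 10 ∧
        (k : ℝ) ^ ((4 : ℝ) / 3 - θ) ≤ min (h * k) (lam₀ * T ^ (-θ) * k * t) := by
  have hM0 : 0 < M := by linarith
  obtain ⟨α, hα⟩ : ∃ α : ℝ, α = 1 / 3 + θ / 2 := ⟨_, rfl⟩
  obtain ⟨D, hD⟩ : ∃ D : ℝ, D = ((10 : ℝ) ^ 5) ^ θ := ⟨_, rfl⟩
  have hD0 : 0 < D := by rw [hD]; positivity
  have hα0 : 0 < α := by linarith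
  have hαθ : 0 < α * θ := mul_pos hα0 hθ0
  have hαθ1 : α * θ ≤ θ := by nlinarith
  filter_upwards [ev_rpow_le 0 α t₀ (1 / 10 ^ 5) hα0 (by positivity),
    ev_rpow_le 0 (1 / 3 - θ) 12 1 (by linarith) one_pos,
    ev_rpow_le (-(α * θ)) 0 (lam₀ * D) c (by linarith) hc,
    ev_rpow_le 1 (α * 3) 1 (c / (10 ^ 5 * M) ^ 3) (by linarith) (by positivity),
    ev_rpow_le (1 / 3 - θ) α 1 (1 / (10 ^ 5 * M)) (by linarith) (by positivity),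
    ev_rpow_le (4 / 3 - θ) (-(α * θ) + 1 + α) 1 (lam₀ * D / (10 ^ 5 * M)) (by linarith)
      (by positivity),
    eventually_gt_atTop 0] with k h1 h2 h3 h4 h5 h6 hk0
  have hk : (0 : ℝ) < k := by exact_mod_cast hk0
  rw [Real.rpow_zero, mul_one] at h1 h2 h3
  rw [one_mul] at h2 h4 h5 h6
  rw [Real.rpow_one, Real.rpow_mul hk.le, show (3 : ℝ) = ((3 : ℕ) : ℝ) by norm_num,
    Real.rpow_natCast] at h4
  rw [Real.rpow_add hk, Real.rpow_add hk, Real.rpow_one] at h6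
  have hX : 0 < (k : ℝ) ^ α := Real.rpow_pos_of_pos hk _
  have hY : 0 < (k : ℝ) ^ (-(α * θ)) := Real.rpow_pos_of_pos hk _
  have eT : ((k : ℝ) ^ α / 10 ^ 5) ^ (-θ) = D * (k : ℝ) ^ (-(α * θ)) := by
    rw [Real.div_rpow hX.le (by positivity), ← Real.rpow_mul hk.le,
      Real.rpow_neg (x := (10 : ℝ) ^ 5) (by positivity), ← hD, mul_neg, div_inv_eq_mul, mul_comm]
  have eh : ((k : ℝ) ^ α) ^ 2 * (k : ℝ) ^ (1 / 3 - θ) = k := by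
    rw [sq, ← Real.rpow_add hk, ← Real.rpow_add hk,
      show α + α + (1 / 3 - θ) = 1 by rw [hα]; ring, Real.rpow_one]
  have ek : (k : ℝ) ^ ((4 : ℝ) / 3 - θ) = (k : ℝ) ^ (1 / 3 - θ) * k := by
    rw [show (4 : ℝ) / 3 - θ = (1 / 3 - θ) + 1 by ring, Real.rpow_add hk, Real.rpow_one]
  refine ⟨(k : ℝ) ^ α / 10 ^ 5, (k : ℝ) ^ (1 / 3 - θ), by positivity, by linarith, h2,
    by rw [eT, ← mul_assoc]; exact h3, fun t ht1 ht2 => ?_⟩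
  rw [eT]
  generalize (k : ℝ) ^ (-(α * θ)) = Y at *
  generalize (k : ℝ) ^ (1 / 3 - θ) = h at *
  generalize (k : ℝ) ^ α = X at *
  have e1 : X / 10 ^ 5 / M = X / (10 ^ 5 * M) := by rw [div_div]
  rw [e1] at ht1
  have hq : 0 < X / (10 ^ 5 * M) := by positivity
  have ht0 : 0 < t := lt_of_lt_of_le hq ht1
  have h7 : t ^ 2 * h ≤ k / 10 ^ 10 := by
    calc t ^ 2 * h ≤ (X / 10 ^ 5) ^ 2 * h := by gcongr
      _ = X ^ 2 * h / 10 ^ 10 := by ring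
      _ = _ := by rw [eh]
  refine ⟨?_, ?_, ?_, h7, le_min ek.le ?_⟩
  · have : t ^ 2 * 1 ≤ t ^ 2 * h := by gcongr; linarith
    have : (k : ℝ) / 10 ^ 10 ≤ k := div_le_self hk.le (by norm_num)
    linarith
  · calc (k : ℝ) ≤ c / (10 ^ 5 * M) ^ 3 * X ^ 3 := h4
      _ = c * (X / (10 ^ 5 * M)) ^ 3 := by rw [div_pow]; ring
      _ ≤ c * t ^ 3 := by gcongr
  · calc h ≤ 1 / (10 ^ 5 * M) * X := h5
      _ = X / (10 ^ 5 * M) := by ring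
      _ ≤ t := ht1
  · calc _ ≤ lam₀ * D / (10 ^ 5 * M) * (Y * k * X) := h6
      _ = lam₀ * (D * Y) * k * (X / (10 ^ 5 * M)) := by ring
      _ ≤ _ := by gcongr

end Pool.Agent.Lib.MP_b07bdb_co.Nk
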