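import Pool.Agent.Lib.MP_b07bdb_co.Nk.RelA

/-! The base of the induction: tiny waste forces an exact picture at a fixed scale. -/

namespace Pool.Agent.Lib.MP_b07bdb_co.Nk

open Metric MeasureTheory

/-- An edge of the packing from a centre near `z` in a direction near `d`. -/
def Edge (P : Finset ℂ) (z d : ℂ) (δ : ℝ) : Prop :=
  ∃ p ∈ P, ∃ q ∈ P, q ≠ p ∧ ‖q - p‖ ≤ 21 / 10 ∧ ‖p - z‖ ≤ δ ∧ ‖q - p - 2 * d‖ ≤ δ

/-- Rotate an edge by sixty degrees (`Loc.rot`, `w6_norm`). -/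
lemma Edge.rot {P : Finset ℂ} {w : ℂ → ℝ} (h : Loc P w) {z d : ℂ} {δ c : ℝ}
    (hE : Edge P z d δ) (hc : c ≤ 1 / 1000) (hw : ∀ p ∈ P, ‖p - z‖ ≤ δ → w p ≤ c) :
    Edge P z (d * w6) (δ + 100 * c) := by
  obtain ⟨p, hp, q, hq, h1, h2, h3, h4⟩ := hE
  have h5 := hw p hp h3
  have h6 := h.nonneg p hp
  obtain ⟨q', hq', k1, k2, k3⟩ := h.rot p hp (h5.trans hc) q hq h1 h2
  refine ⟨p, hp, q', hq', k1, k2, by linarith, ?_⟩
  have e : q' - p - 2 * (d * w6) = (q' - p - w6 * (q - p)) + w6 * (q - p - 2 * d) := by ring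
  rw [e]
  refine (norm_add_le _ _).trans ?_
  rw [norm_mul, w6_norm, one_mul]
  linarith

/-- Reverse an edge. -/
lemma Edge.flip {P : Finset ℂ} {z d : ℂ} {δ : ℝ} (hE : Edge P z d δ) :
    Edge P (z + 2 * d) (-d) (2 * δ) := by
  obtain ⟨p, hp, q, hq, h1, h2, h3, h4⟩ := hE
  have h5 := norm_nonneg (p - z)
  refine ⟨q, hq, p, hp, h1.symm, by rwa [norm_sub_rev], ?_, ?_⟩
  · have e : q - (z + 2 * d) = (q - p - 2 * d) + (p - z) := by ring
    rw [e]
    refine (norm_add_le _ _).trans ?_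
    linarith
  · have e : p - q - 2 * -d = -(q - p - 2 * d) := by ring
    rw [e, norm_neg]
    linarith

/-- Every nonzero lattice point has a neighbour of smaller norm (case analysis on the signs: try
the six steps `(±1, 0), (0, ±1), (1, -1), (-1, 1)`), and the step is `ω ^ j`. -/
lemma exists_pred (m n : ℤ) (h : ¬ (m = 0 ∧ n = 0)) :
    ∃ (m' n' : ℤ) (j : ℕ), j ≤ 5 ∧ m' ^ 2 + m' * n' + n' ^ 2 < m ^ 2 + m * n + n ^ 2 ∧
      (m : ℂ) + n * w6 = m' + n' * w6 + w6 ^ j := by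
  have h2 := w6_sq
  have hc : 1 < 2 * m + n ∨ 1 < m + 2 * n ∨ 1 < n - m ∨ 2 * m + n < -1 ∨ m + 2 * n < -1 ∨
      1 < m - n := by omega
  rcases hc with k | k | k | k | k | k
  · exact ⟨m - 1, n, 0, by norm_num, by nlinarith, by push_cast; ring⟩
  · exact ⟨m, n - 1, 1, by norm_num, by nlinarith, by push_cast; ring⟩
  · exact ⟨m + 1, n - 1, 2, by norm_num, by nlinarith, by push_cast; linear_combination -h2⟩
  · exact ⟨m + 1, n, 3, by norm_num, by nlinarith,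
      by push_cast; linear_combination (-(w6 + 1)) * h2⟩
  · exact ⟨m, n + 1, 4, by norm_num, by nlinarith,
      by push_cast; linear_combination (-(w6 * (w6 + 1))) * h2⟩
  · exact ⟨m - 1, n + 1, 5, by norm_num, by nlinarith,
      by push_cast; linear_combination (1 - w6 ^ 2 * (w6 + 1)) * h2⟩

lemma Base_mono {P : Finset ℂ} {z d : ℂ} {δ δ' : ℝ} (hE : Edge P z d δ) (h : δ ≤ δ') :
    Edge P z d δ' := by
  obtain ⟨p, hp, q, hq, h1, h2, h3, h4⟩ := hE
  exact ⟨p, hp, q, hq, h1, h2, h3.trans h, h4.trans h⟩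

lemma Base_rotn {P : Finset ℂ} {w : ℂ → ℝ} (h : Loc P w) {z d : ℂ} {δ c : ℝ}
    (hE : Edge P z d δ) (c0 : 0 ≤ c) (hc : c ≤ 1 / 1000) (hw : ∀ p ∈ P, ‖p - z‖ ≤ 1 → w p ≤ c)
    (j : ℕ) : δ + 100 * c * j ≤ 1 → Edge P z (d * w6 ^ j) (δ + 100 * c * j) := by
  induction j with
  | zero => exact fun _ => by simpa using hE
  | succ j ih =>
    intro k
    push_cast at k ⊢
    have k1 : δ + 100 * c * j ≤ 1 := by linarith
    have k2 := (ih k1).rot h hc fun p hp e => hw p hp (e.trans k1)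
    rw [mul_assoc, ← pow_succ] at k2
    exact Base_mono k2 (by linarith)

lemma Base_step {P : Finset ℂ} {w : ℂ → ℝ} (h : Loc P w) {z d : ℂ} {δ c : ℝ}
    (hE : Edge P z d δ) (c0 : 0 ≤ c) (hc : c ≤ 1 / 1000) {j : ℕ} (hj : j ≤ 5)
    (h1 : 2 * δ + 2000 * c ≤ 1) (hw : ∀ p ∈ P, ‖p - z‖ ≤ 1 → w p ≤ c)
    (hw' : ∀ p ∈ P, ‖p - (z + 2 * (d * w6 ^ j))‖ ≤ 1 → w p ≤ c) :
    Edge P (z + 2 * (d * w6 ^ j)) d (2 * δ + 2000 * c) := by
  have d0 : 0 ≤ δ := by
    obtain ⟨p, -, q, -, -, -, h3, -⟩ := hE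
    exact (norm_nonneg _).trans h3
  have j1 : (j : ℝ) ≤ 5 := by exact_mod_cast hj
  have j2 : ((9 - j : ℕ) : ℝ) ≤ 9 := by exact_mod_cast Nat.sub_le 9 j
  have j3 := mul_le_mul_of_nonneg_left j1 c0
  have j4 := mul_le_mul_of_nonneg_left j2 c0
  have k1 := (Base_rotn h hE c0 hc hw j (by linarith)).flip
  have k2 := Base_rotn h k1 c0 hc hw' (9 - j) (by linarith)
  have e : -(d * w6 ^ j) * w6 ^ (9 - j) = d := by
    have e1 : w6 ^ j * w6 ^ (9 - j) = w6 ^ 9 := by rw [← pow_add, Nat.add_sub_cancel' (by omega)]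
    have e2 : w6 ^ 9 = -1 := by
      have e3 : w6 ^ 9 = (w6 * (w6 * w6)) ^ 3 := by ring
      rw [e3, w6_cube]
      norm_num
    rw [neg_mul, mul_assoc, e1, e2]
    ring
  rw [e] at k2
  exact Base_mono k2 (by linarith)

lemma Base_norm (a : ℂ) {e : ℂ} (he : ‖e‖ = 1) (m n : ℤ) :
    ‖lp a e m n - a‖ ^ 2 = 4 * ((m ^ 2 + m * n + n ^ 2 : ℤ) : ℝ) := by
  rw [lp, add_sub_cancel_left, norm_mul, norm_mul, he, mul_pow, normsq_eis]
  push_cast
  norm_num

/-- If `c < 1`, `Wst.hole` gives a centre `p₀` within `3` of `x`; every centre `p` of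
`ball x (3 t)` has `w p ≤ c` (`Wst.pts` with a singleton). `Loc.ex` gives a neighbour `q`; put
`a = p₀`, `e = (q - p₀) / ‖q - p₀‖`, so `Edge P a e (100 c)` (`Loc.big`, `Sep`). Prove by induction
on `N : ℕ`: if `m² + m n + n² ≤ N`, `‖lp a e m n - a‖ ≤ 2 t + 4` and `A N * c ≤ 1`, then
`Edge P (lp a e m n) e (A N * c)` for `A N = 2000 * 4 ^ N` (`exists_pred`, `normsq_eis`; rotate
`j` times, flip, rotate `(9 - j)` times, using `w6 ^ 6 = 1` and `-1 = w6 ^ 3`; all base centres stay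
within `2` of a lattice point, so inside `ball x (3 t)`). Choose `N = ⌈(t + 2) ^ 2⌉₊` and
`c = min (1 / 1000) (min 1 η / A N)`. -/
theorem base_apx (t η : ℝ) (ht : 20 ≤ t) (hη : 0 < η) : ∃ c : ℝ, 0 < c ∧
    ∀ (P : Finset ℂ) (w : ℂ → ℝ) (μ : Measure ℂ) (x : ℂ), Wst P w μ →
      μ.real (ball x (3 * t)) ≤ c → ∃ a e : ℂ, ‖e‖ = 1 ∧ Apx P a e x (2 * t + 1) ∅ η := by
  set N : ℕ := ⌈(t + 2) ^ 2⌉₊ with hN
  have hA : ∀ k : ℕ, (2000 : ℝ) ≤ 2000 * 4 ^ k := fun k => by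
    have : (1 : ℝ) ≤ 4 ^ k := one_le_pow₀ (by norm_num)
    linarith
  have hA0 : (0 : ℝ) < 2000 * 4 ^ N := by positivity
  have hm : 0 < min 1 η := lt_min one_pos hη
  refine ⟨min (1 / 1000) (min 1 η / (2000 * 4 ^ N)), lt_min (by norm_num) (div_pos hm hA0), ?_⟩
  intro P w μ x hW hμ
  have c0 : 0 < min (1 / 1000 : ℝ) (min 1 η / (2000 * 4 ^ N)) :=
    lt_min (by norm_num) (div_pos hm hA0)
  have c1 : min (1 / 1000 : ℝ) (min 1 η / (2000 * 4 ^ N)) ≤ 1 / 1000 := min_le_left _ _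
  have c2 : 2000 * 4 ^ N * min (1 / 1000 : ℝ) (min 1 η / (2000 * 4 ^ N)) ≤ min 1 η := by
    rw [mul_comm, ← le_div_iff₀ hA0]
    exact min_le_right _ _
  generalize min (1 / 1000 : ℝ) (min 1 η / (2000 * 4 ^ N)) = c at hμ c0 c1 c2
  obtain ⟨a, ha, hax⟩ : ∃ a ∈ P, ‖a - x‖ < 3 := by
    by_contra hc
    have h1 := hW.hole x fun p hp => not_lt.1 fun h => hc ⟨p, hp, h⟩
    have h2 : μ.real (ball x 3) ≤ μ.real (ball x (3 * t)) :=
      measureReal_mono (ball_subset_ball (by linarith)) (hW.fin _ _)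
    linarith
  have hw : ∀ p ∈ P, ‖p - x‖ < 3 * t → w p ≤ c := fun p hp h => by
    have h1 := hW.pts {p} (ball x (3 * t)) (Finset.singleton_subset_iff.2 hp)
      (fun q hq => by rwa [Finset.mem_singleton.1 hq, mem_ball, dist_eq_norm]) (hW.fin _ _)
    rw [Finset.sum_singleton] at h1
    linarith
  have hwa := hw a ha (by linarith)
  obtain ⟨q, hq, q1, q2⟩ := hW.loc.ex a ha (hwa.trans c1)
  have q3 := hW.loc.big a ha q hq q1 q2
  have q4 := hW.loc.sep q hq a ha q1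
  rw [dist_eq_norm] at q4
  have q5 : ((‖q - a‖ : ℝ) : ℂ) ≠ 0 := by
    have : ‖q - a‖ ≠ 0 := by linarith
    exact_mod_cast this
  obtain ⟨e, he, he2⟩ : ∃ e : ℂ, ‖e‖ = 1 ∧ q - a = (‖q - a‖ : ℝ) * e := by
    refine ⟨(q - a) / (‖q - a‖ : ℝ), ?_, by field_simp⟩
    rw [norm_div, Complex.norm_real, norm_norm, div_self (by linarith)]
  have hE : Edge P a e (100 * c) := by
    refine ⟨a, ha, q, hq, q1, q2, by rw [sub_self, norm_zero]; linarith, ?_⟩
    have e1 : q - a - 2 * e = ((‖q - a‖ - 2 : ℝ) : ℂ) * e := by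
      push_cast
      linear_combination he2
    rw [e1, norm_mul, he, mul_one, Complex.norm_real, Real.norm_of_nonneg (by linarith)]
    linarith
  have hz : ∀ z : ℂ, ‖z - a‖ ≤ 2 * t + 4 → ∀ p ∈ P, ‖p - z‖ ≤ 1 → w p ≤ c := fun z h p hp k => by
    refine hw p hp ?_
    have e1 : p - x = (p - z) + (z - a) + (a - x) := by ring
    have e2 := norm_add₃_le (a := p - z) (b := z - a) (c := a - x)
    rw [e1]
    linarith
  have main : ∀ (k : ℕ) (m n : ℤ), m ^ 2 + m * n + n ^ 2 ≤ k → ‖lp a e m n - a‖ ≤ 2 * t + 4 →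
      2000 * 4 ^ k * c ≤ 1 → Edge P (lp a e m n) e (2000 * 4 ^ k * c) := by
    have zero : ∀ k : ℕ, Edge P (lp a e 0 0) e (2000 * 4 ^ k * c) := fun k => by
      rw [lp_zero]
      have := mul_le_mul_of_nonneg_right (hA k) c0.le
      exact Base_mono hE (by linarith)
    intro k
    induction k with
    | zero =>
      intro m n h1 _ _
      by_cases h0 : m = 0 ∧ n = 0
      · rw [h0.1, h0.2]
        exact zero 0
      · obtain ⟨m', n', j, -, k2, -⟩ := exists_pred m n h0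
        have : 0 ≤ m' ^ 2 + m' * n' + n' ^ 2 := by nlinarith [sq_nonneg (2 * m' + n'), sq_nonneg n']
        push_cast at h1
        omega
    | succ k ih =>
      intro m n h1 h2 h3
      by_cases h0 : m = 0 ∧ n = 0
      · rw [h0.1, h0.2]
        exact zero _
      · obtain ⟨m', n', j, k1, k2, k3⟩ := exists_pred m n h0
        have k4 : ‖lp a e m' n' - a‖ ≤ ‖lp a e m n - a‖ := by
          refine (pow_le_pow_iff_left₀ (norm_nonneg _) (norm_nonneg _) two_ne_zero).1 ?_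
          rw [Base_norm a he, Base_norm a he]
          have : ((m' ^ 2 + m' * n' + n' ^ 2 : ℤ) : ℝ) ≤ ((m ^ 2 + m * n + n ^ 2 : ℤ) : ℝ) := by
            exact_mod_cast k2.le
          linarith
        have k5 := mul_le_mul_of_nonneg_right (hA k) c0.le
        rw [pow_succ] at h3 ⊢
        have k6 := ih m' n' (by push_cast at h1; omega) (k4.trans h2) (by linarith)
        have k7 : lp a e m n = lp a e m' n' + 2 * (e * w6 ^ j) := by
          simp only [lp]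
          rw [k3]
          ring
        have k8 := Base_step hW.loc k6 c0.le c1 k1 (by linarith) (hz _ (k4.trans h2))
          (by rw [← k7]; exact hz _ h2)
        rw [← k7] at k8
        exact Base_mono k8 (by linarith)
  refine ⟨a, e, he, ?_⟩
  rintro _ ⟨m, n, rfl⟩ h1 -
  have h2 : ‖lp a e m n - a‖ ≤ 2 * t + 4 := by
    have e1 : lp a e m n - a = (lp a e m n - x) - (a - x) := by ring
    have e2 := norm_sub_le (lp a e m n - x) (a - x)
    rw [e1]
    linarith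
  have h3 : m ^ 2 + m * n + n ^ 2 ≤ (N : ℤ) := by
    have e1 := pow_le_pow_left₀ (norm_nonneg _) h2 2
    rw [Base_norm a he] at e1
    have e2 : (t + 2) ^ 2 ≤ (N : ℝ) := Nat.le_ceil _
    have e3 : ((m ^ 2 + m * n + n ^ 2 : ℤ) : ℝ) ≤ ((N : ℤ) : ℝ) := by
      rw [Int.cast_natCast]
      nlinarith
    exact_mod_cast e3
  obtain ⟨p, hp, -, -, -, -, h4, -⟩ := main N m n h3 h2 (c2.trans (min_le_left _ _))
  exact ⟨p, hp, h4.trans (c2.trans (min_le_right _ _))⟩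

end Pool.Agent.Lib.MP_b07bdb_co.Nk
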