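import Pool.Agent.Lib.MP_b07bdb_co.Nk.FitRow

/-! Refitting, part two: good rows and the refitting statement. -/

namespace Pool.Agent.Lib.MP_b07bdb_co.Nk

open Finset MeasureTheory
open scoped ComplexConjugate

open Classical in
/-- The displacement from `z` to a centre within `1 / 20`, if there is one. -/
noncomputable def fitU (P : Finset ℂ) (z : ℂ) : ℂ :=
  if h : ∃ p ∈ P, ‖p - z‖ ≤ 1 / 20 then h.choose - z else 0

lemma fitU_norm (P : Finset ℂ) (z : ℂ) : ‖fitU P z‖ ≤ 1 / 20 := by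
  unfold fitU
  split_ifs with h
  · exact h.choose_spec.2
  · simp

lemma fitU_mem {P : Finset ℂ} {z : ℂ} (h : ∃ p ∈ P, ‖p - z‖ ≤ 1 / 20) : z + fitU P z ∈ P := by
  unfold fitU
  rw [dif_pos h]
  simpa using h.choose_spec.1

lemma fitU_eq {P : Finset ℂ} (hs : Sep P) {z p : ℂ} (hp : p ∈ P) (h : ‖p - z‖ ≤ 1 / 20) :
    fitU P z = p - z := by
  have h1 := fitU_mem ⟨p, hp, h⟩
  have h2 := fitU_norm P z
  have : z + fitU P z = p := by
    apply fit_eq hs h1 hp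
    have e : z + fitU P z - p = fitU P z - (p - z) := by ring
    rw [e]
    refine (norm_sub_le _ _).trans_lt ?_
    linarith
  linear_combination this

lemma fit_q_re (m n : ℤ) : ((m : ℂ) + n * w6).re = m + n / 2 := by
  simp [w6]; ring

lemma fit_q_im (m n : ℤ) : ((m : ℂ) + n * w6).im = n * √3 / 2 := by
  simp [w6]; ring

lemma fit_q_one (m n : ℤ) (h : ¬ (m = 0 ∧ n = 0)) : 1 ≤ ‖(m : ℂ) + n * w6‖ := by
  have e : ‖(m : ℂ) + n * w6‖ ^ 2 = ((m ^ 2 + m * n + n ^ 2 : ℤ) : ℝ) := by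
    rw [Complex.sq_norm, Complex.normSq_apply, fit_q_re, fit_q_im]
    push_cast
    linear_combination (n : ℝ) ^ 2 / 4 * fit_s3
  have h1 : 1 ≤ m ^ 2 + m * n + n ^ 2 := by
    by_contra hc
    apply h
    have a1 : n ^ 2 ≤ 0 := by nlinarith [sq_nonneg (2 * m + n)]
    have a2 : m ^ 2 ≤ 0 := by nlinarith [sq_nonneg (2 * n + m)]
    exact ⟨by nlinarith, by nlinarith⟩
  have h2 : (1 : ℝ) ≤ ((m ^ 2 + m * n + n ^ 2 : ℤ) : ℝ) := by exact_mod_cast h1
  rw [← e] at h2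
  have := norm_nonneg ((m : ℂ) + n * w6)
  nlinarith

lemma fit_q_le (m n : ℤ) : ‖(m : ℂ) + n * w6‖ ≤ |(m : ℝ)| + |(n : ℝ)| := by
  refine (norm_add_le _ _).trans ?_
  rw [norm_mul, fit_w6_norm, mul_one, Complex.norm_intCast, Complex.norm_intCast]

lemma fit_lp_norm (a τ : ℂ) (hτ : ‖τ‖ = 1) (i j : ℤ) :
    ‖lp a τ i j - a‖ = 2 * ‖(i : ℂ) + j * w6‖ := by
  rw [lp, add_sub_cancel_left, norm_mul, norm_mul, hτ]; simp

lemma fit_lp_sep (a τ : ℂ) (hτ : ‖τ‖ = 1) {i j i' j' : ℤ}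
    (h : ‖lp a τ i j - lp a τ i' j'‖ < 2) : i = i' ∧ j = j' := by
  by_contra hc
  have h1 := fit_q_one (i - i') (j - j') (by omega)
  have e : lp a τ i j - lp a τ i' j' = lp a τ (i - i') (j - j') - a := by
    simp only [lp]; push_cast; ring
  rw [e, fit_lp_norm a τ hτ] at h
  linarith

lemma fit_mul_conj {τ : ℂ} (hτ : ‖τ‖ = 1) : τ * conj τ = 1 := by
  rw [Complex.mul_conj, Complex.normSq_eq_norm_sq, hτ]; simp

lemma fit_lp_im (a τ : ℂ) (hτ : ‖τ‖ = 1) (i j : ℤ) :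
    ((lp a τ i j - a) * conj τ).im = √3 * j := by
  have e : (lp a τ i j - a) * conj τ = 2 * ((i : ℂ) + j * w6) := by
    simp only [lp]; linear_combination 2 * ((i : ℂ) + j * w6) * fit_mul_conj hτ
  rw [e, Complex.mul_im, fit_q_im]; simp; ring

lemma fit_round (a e x : ℂ) (he : ‖e‖ = 1) : ∃ m n : ℤ, ‖lp a e m n - x‖ ≤ 2 := by
  set v := (x - a) * conj e with hv
  have h3 : √3 ≠ (0 : ℝ) := by have := fit_s3_lo; positivity
  set n := round (v.im / √3)
  set m := round ((v.re - n) / 2)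
  refine ⟨m, n, ?_⟩
  have e1 : lp a e m n - x = e * (2 * ((m : ℂ) + n * w6) - v) := by
    simp only [lp, hv]; linear_combination (x - a) * fit_mul_conj he
  rw [e1, norm_mul, he, one_mul]
  refine (Complex.norm_le_abs_re_add_abs_im _).trans ?_
  have a1 := abs_le.1 (abs_sub_round (v.im / √3))
  have a2 := abs_le.1 (abs_sub_round ((v.re - n) / 2))
  have e2 : (2 * ((m : ℂ) + n * w6) - v).re = 2 * m + n - v.re := by
    rw [Complex.sub_re, Complex.mul_re, fit_q_re]; simp; ring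
  have e3 : (2 * ((m : ℂ) + n * w6) - v).im = √3 * (n - v.im / √3) := by
    rw [Complex.sub_im, Complex.mul_im, fit_q_im]; simp; field_simp
  rw [e2, e3, abs_mul, abs_of_nonneg (Real.sqrt_nonneg 3)]
  have b1 : |2 * (m : ℝ) + n - v.re| ≤ 1 := by rw [abs_le]; constructor <;> linarith [a2.1, a2.2]
  have b2 : |(n : ℝ) - v.im / √3| ≤ 1 / 2 := by
    rw [abs_le]; constructor <;> linarith [a1.1, a1.2]
  have := fit_s3_hi
  have := abs_nonneg ((n : ℝ) - v.im / √3)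
  nlinarith

lemma fit_rowsX (a τ : ℂ) (hτ : ‖τ‖ = 1) (X : Set ℂ) (R : ℝ) (hX : Cov X R) :
    ∃ B : Finset ℤ, (B.card : ℝ) ≤ 3 * R ∧ ∀ i j : ℤ, j ∉ B → lp a τ i j ∉ X := by
  obtain ⟨E, h1, h2, h3⟩ := hX
  have s3 := fit_s3_lo
  refine ⟨E.biUnion fun b => Icc ⌈((b.1 - a) * conj τ).im / √3 - b.2⌉
    ⌊((b.1 - a) * conj τ).im / √3 + b.2⌋, ?_, ?_⟩
  · refine le_trans (Nat.cast_le.2 card_biUnion_le) ?_
    push_cast
    refine le_trans (sum_le_sum (g := fun b => 3 * b.2) fun b hb => ?_) ?_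
    · set c := ((b.1 - a) * conj τ).im / √3
      have r1 := h1 b hb
      have f1 := Int.floor_le (c + b.2)
      have f2 := Int.le_ceil (c - b.2)
      rw [Int.card_Icc]
      rcases le_total 0 (⌊c + b.2⌋ + 1 - ⌈c - b.2⌉) with h0 | h0
      · have e : (((⌊c + b.2⌋ + 1 - ⌈c - b.2⌉).toNat : ℤ) : ℝ) =
            ((⌊c + b.2⌋ + 1 - ⌈c - b.2⌉ : ℤ) : ℝ) := by rw [Int.toNat_of_nonneg h0]
        push_cast at e
        rw [e]; linarith
      · rw [Int.toNat_of_nonpos h0]; simp; linarith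
    · rw [← mul_sum]; linarith
  · intro i j hj hz
    obtain ⟨b, hb, hd⟩ := h3 _ hz
    apply hj
    rw [mem_biUnion]
    refine ⟨b, hb, ?_⟩
    have r1 := h1 b hb
    have e : ((lp a τ i j - b.1) * conj τ).im = √3 * j - ((b.1 - a) * conj τ).im := by
      rw [← fit_lp_im a τ hτ i j, ← Complex.sub_im]; congr 1; ring
    have a1 : |((lp a τ i j - b.1) * conj τ).im| ≤ b.2 := by
      refine (Complex.abs_im_le_norm _).trans ?_
      rwa [norm_mul, Complex.norm_conj, hτ, mul_one]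
    rw [e] at a1
    set y := ((b.1 - a) * conj τ).im
    have e2 : √3 * j - y = √3 * (j - y / √3) := by field_simp
    rw [e2, abs_mul, abs_of_nonneg (Real.sqrt_nonneg 3)] at a1
    have a2 : |(j : ℝ) - y / √3| ≤ b.2 := by nlinarith [abs_nonneg ((j : ℝ) - y / √3)]
    rw [abs_le] at a2
    rw [mem_Icc, Int.ceil_le, Int.le_floor]
    constructor <;> linarith [a2.1, a2.2]

/-- Apart from few rows, the longitudinal displacement is almost constant along each row. -/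
lemma fit_rows {P : Finset ℂ} {w : ℂ → ℝ} {μ : Measure ℂ} (h : Wst P w μ) (x a τ : ℂ)
    (hτ : ‖τ‖ = 1) (t R ε : ℝ) (K : ℕ) (X : Set ℂ) (ht : 10 ^ 4 ≤ t) (hK1 : (K : ℝ) ≤ t / 20)
    (hK2 : t ≤ 21 * K) (ha : ‖a - x‖ ≤ 2) (hX : Cov X R) (hR : R ≤ t / 10 ^ 9)
    (hA : ∀ i j : ℤ, ‖lp a τ i j - x‖ ≤ 2 * t + 1 → lp a τ i j ∉ X →
      ∃ p ∈ P, ‖p - lp a τ i j‖ ≤ 1 / 20)
    (hε : ε * t = μ.real (Metric.ball x (3 * t)) + 1) (hε1 : 10 ^ 12 * ε ≤ 1) :
    ∃ B : Finset ℤ, (B.card : ℝ) ≤ K / 10 ^ 7 ∧ ∃ f : ℤ → ℝ, ∀ i j : ℤ, |i| ≤ 8 * K →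
      |j| ≤ 8 * K → j ∉ B → lp a τ i j ∉ X ∧ lp a τ i j + fitU P (lp a τ i j) ∈ P ∧
        |(fitU P (lp a τ i j) * conj τ).re - f j| ≤ 2 * 10 ^ 11 * ε := by
  classical
  obtain ⟨BX, hBX, hBX'⟩ := fit_rowsX a τ hτ X R hX
  set μ0 := μ.real (Metric.ball x (3 * t))
  have hμ0 : 0 ≤ μ0 := measureReal_nonneg
  have hε0 : 0 < ε := by
    by_contra hc
    have : ε * t ≤ 0 := mul_nonpos_of_nonpos_of_nonneg (not_lt.1 hc) (by linarith)
    linarith
  have hnear : ∀ i j : ℤ, |i| ≤ 8 * K → |j| ≤ 8 * K → ‖lp a τ i j - x‖ ≤ 2 * t := by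
    intro i j hi hj
    have e : lp a τ i j - x = (lp a τ i j - a) + (a - x) := by ring
    have hi' : |(i : ℝ)| ≤ 8 * K := by exact_mod_cast hi
    have hj' : |(j : ℝ)| ≤ 8 * K := by exact_mod_cast hj
    rw [e]
    refine (norm_add_le _ _).trans ?_
    rw [fit_lp_norm a τ hτ]
    have := fit_q_le i j
    linarith
  have hmem : ∀ i j : ℤ, |i| ≤ 8 * K → |j| ≤ 8 * K → j ∉ BX →
      lp a τ i j + fitU P (lp a τ i j) ∈ P := fun i j hi hj hb =>
    fitU_mem (hA i j (by have := hnear i j hi hj; linarith) (hBX' i j hb))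
  set pt : ℤ × ℕ → ℂ := fun c => lp a τ (c.2 - 8 * K) c.1 + fitU P (lp a τ (c.2 - 8 * K) c.1)
    with hpt
  set BW := (Icc (-(8 * K : ℤ)) (8 * K)).filter fun j =>
    j ∉ BX ∧ 10 ^ 9 * ε < ∑ i ∈ range (16 * K + 1), w (pt (j, i)) with hBW
  have hcard : (BW.card : ℝ) * (10 ^ 9 * ε) ≤ μ0 := by
    have b1 : (BW.card : ℝ) * (10 ^ 9 * ε) ≤ ∑ j ∈ BW, ∑ i ∈ range (16 * K + 1), w (pt (j, i)) := by
      have := card_nsmul_le_sum BW (fun j => ∑ i ∈ range (16 * K + 1), w (pt (j, i)))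
        (10 ^ 9 * ε) (fun j hj => (mem_filter.1 hj).2.2.le)
      simpa using this
    have inj : Set.InjOn pt ↑(BW ×ˢ range (16 * K + 1)) := by
      intro c _ c' _ he
      have e : lp a τ (c.2 - 8 * K) c.1 - lp a τ (c'.2 - 8 * K) c'.1 =
          fitU P (lp a τ (c'.2 - 8 * K) c'.1) - fitU P (lp a τ (c.2 - 8 * K) c.1) := by
        simp only [hpt] at he; linear_combination he
      have := fit_lp_sep a τ hτ (i := c.2 - 8 * K) (j := c.1) (i' := c'.2 - 8 * K) (j' := c'.1) (by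
        rw [e]
        refine (norm_sub_le _ _).trans_lt ?_
        have := fitU_norm P (lp a τ (c'.2 - 8 * K) c'.1)
        have := fitU_norm P (lp a τ (c.2 - 8 * K) c.1)
        linarith)
      exact Prod.ext this.2 (by omega)
    have hc : ∀ c ∈ BW ×ˢ range (16 * K + 1), |(c.2 : ℤ) - 8 * K| ≤ 8 * K ∧ |c.1| ≤ 8 * K ∧
        c.1 ∉ BX := by
      intro c hc
      obtain ⟨c1, c2⟩ := mem_product.1 hc
      have c3 := mem_range.1 c2
      obtain ⟨c4, c5, -⟩ := mem_filter.1 c1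
      exact ⟨by rw [abs_le]; omega, abs_le.2 (mem_Icc.1 c4), c5⟩
    have b2 := h.pts ((BW ×ˢ range (16 * K + 1)).image pt) (Metric.ball x (3 * t)) (by
      intro p hp
      obtain ⟨c, hc', rfl⟩ := mem_image.1 hp
      obtain ⟨c1, c2, c3⟩ := hc c hc'
      exact hmem _ _ c1 c2 c3) (by
      intro p hp
      obtain ⟨c, hc', rfl⟩ := mem_image.1 hp
      obtain ⟨c1, c2, c3⟩ := hc c hc'
      rw [mem_ball_iff_norm]
      have e : pt c - x = (lp a τ (c.2 - 8 * K) c.1 - x) + fitU P (lp a τ (c.2 - 8 * K) c.1) := by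
        simp only [hpt]; ring
      rw [e]
      refine (norm_add_le _ _).trans_lt ?_
      have := hnear _ _ c1 c2
      have := fitU_norm P (lp a τ (c.2 - 8 * K) c.1)
      linarith) (h.fin _ _)
    rw [sum_image inj, sum_product] at b2
    exact b1.trans b2
  have hcard2 : (BW.card : ℝ) ≤ t / 10 ^ 9 := by
    have : (BW.card : ℝ) * 10 ^ 9 * ε ≤ t * ε := by linarith
    have := le_of_mul_le_mul_right this hε0
    rw [le_div_iff₀ (by norm_num)]; exact this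
  refine ⟨BX ∪ BW, ?_, fun j => (fitU P (lp a τ (-(8 * K)) j) * conj τ).re, ?_⟩
  · have : ((BX ∪ BW).card : ℝ) ≤ BX.card + BW.card := by exact_mod_cast card_union_le BX BW
    linarith
  · intro i j hi hj hb
    rw [mem_union, not_or] at hb
    refine ⟨hBX' i j hb.1, hmem i j hi hj hb.1, ?_⟩
    have hS : ∑ i ∈ range (16 * K + 1), w (pt (j, i)) ≤ 10 ^ 9 * ε := by
      by_contra hc
      exact hb.2 (mem_filter.2 ⟨mem_Icc.2 (abs_le.1 hj), hb.1, not_le.1 hc⟩)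
    have hKpos : (1 : ℝ) ≤ K := by linarith
    have hKn : 1 ≤ K := by exact_mod_cast hKpos
    have ez : ∀ i : ℕ, lp a τ (-(8 * K)) j + 2 * τ * (i : ℕ) = lp a τ (i - 8 * K) j := by
      intro i; simp only [lp]; push_cast; ring
    have hr := fit_row h.loc τ (lp a τ (-(8 * K)) j) hτ (16 * K) (by omega)
      (fun i => fitU P (lp a τ (i - 8 * K) j))
      (fun i hi => by rw [ez]; exact hmem _ _ (by rw [abs_le]; omega) hj hb.1)
      (fun i _ => fitU_norm _ _) (10 ^ 9 * ε) (by simp only [ez]; exact hS) (by linarith)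
    rw [abs_le] at hi
    obtain ⟨d, hd⟩ := Int.le.dest hi.1
    have h2 := hr d (by omega)
    have e1 : (d : ℤ) - 8 * K = i := by omega
    have e2 : ((0 : ℕ) : ℤ) - 8 * K = -(8 * K) := by omega
    simp only [e1, e2] at h2
    rw [sub_mul, Complex.sub_re] at h2
    have b : 1 / ((16 * K : ℕ) : ℝ) ≤ 2 * ε := by
      push_cast
      rw [div_le_iff₀ (by linarith)]
      have := mul_le_mul_of_nonneg_left hK2 hε0.le
      have := mul_pos hε0 (by linarith : (0 : ℝ) < K)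
      linarith
    linarith

lemma fit_comp (s : ℂ) (γ y c1 c2 A : ℝ) (m n : ℤ) (hy : √3 * y = 2 * c1 + c2)
    (h1 : |-s.re - √3 * γ * n - c2| ≤ A) (h2 : |(s * conj w6).re - √3 * γ * m - c1| ≤ A) :
    ‖s - (⟨-c2, y⟩ + γ * Complex.I * (2 * ((m : ℂ) + n * w6)))‖ ≤ 3 * A := by
  refine (Complex.norm_le_abs_re_add_abs_im _).trans ?_
  have e1 : (s - (⟨-c2, y⟩ + γ * Complex.I * (2 * ((m : ℂ) + n * w6)))).re =
      -(-s.re - √3 * γ * n - c2) := by
    simp [w6]; ring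
  have e2 : √3 * (s - (⟨-c2, y⟩ + γ * Complex.I * (2 * ((m : ℂ) + n * w6)))).im =
      2 * ((s * conj w6).re - √3 * γ * m - c1) + (-s.re - √3 * γ * n - c2) := by
    simp [w6]; linear_combination -hy
  rw [e1, abs_neg]
  set v := (s - (⟨-c2, y⟩ + γ * Complex.I * (2 * ((m : ℂ) + n * w6)))).im
  have a1 : |√3 * v| ≤ 3 * A := by
    rw [e2, abs_le]; rw [abs_le] at h1 h2
    constructor <;> linarith [h1.1, h1.2, h2.1, h2.2]
  rw [abs_mul, abs_of_nonneg (Real.sqrt_nonneg 3)] at a1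
  have := fit_s3_lo
  have := abs_nonneg v
  have : 0 ≤ A := (abs_nonneg _).trans h1
  nlinarith

/-- The displacement is almost an infinitesimal rigid motion on most of the box. -/
lemma fit_lin {P : Finset ℂ} {w : ℂ → ℝ} {μ : Measure ℂ} (h : Wst P w μ) (x a e : ℂ)
    (he : ‖e‖ = 1) (t R ε : ℝ) (K : ℕ) (X : Set ℂ) (ht : 10 ^ 4 ≤ t) (hK1 : (K : ℝ) ≤ t / 20)
    (hK2 : t ≤ 21 * K) (ha : ‖a - x‖ ≤ 2) (hX : Cov X R) (hR : R ≤ t / 10 ^ 9)
    (hA : ∀ i j : ℤ, ‖lp a e i j - x‖ ≤ 2 * t + 1 → lp a e i j ∉ X →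
      ∃ p ∈ P, ‖p - lp a e i j‖ ≤ 1 / 20)
    (hε : ε * t = μ.real (Metric.ball x (3 * t)) + 1) (hε1 : 10 ^ 12 * ε ≤ 1) :
    ∃ (B1 B2 : Finset ℤ) (β : ℂ) (γ : ℝ), (B1.card : ℝ) ≤ K / 10 ^ 7 ∧
      (B2.card : ℝ) ≤ K / 10 ^ 7 ∧ ∀ m n : ℤ, |m| ≤ K → |n| ≤ K → m ∉ B2 → n ∉ B1 →
        lp a e m n ∉ X ∧ lp a e m n + fitU P (lp a e m n) ∈ P ∧
        ‖fitU P (lp a e m n) * conj e - (β + γ * Complex.I * (2 * ((m : ℂ) + n * w6)))‖ ≤
          10 ^ 14 * ε := by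
  have q2 : ∀ i j : ℤ, lp a (e * w6) i j = lp a e (-j) (i + j) := by
    intro i j; simp only [lp]; push_cast; linear_combination 2 * e * j * fit_w6_sq
  have q3 : ∀ i j : ℤ, lp a (e * w6 * w6) i j = lp a e (-i - j) i := by
    intro i j; simp only [lp]; push_cast
    linear_combination 2 * e * (i + j * (w6 + 1)) * fit_w6_sq
  have n2 : ‖e * w6‖ = 1 := by rw [norm_mul, he, fit_w6_norm, mul_one]
  have n3 : ‖e * w6 * w6‖ = 1 := by rw [norm_mul, n2, fit_w6_norm, mul_one]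
  obtain ⟨B1, k1, f1, g1⟩ := fit_rows h x a e he t R ε K X ht hK1 hK2 ha hX hR hA hε hε1
  obtain ⟨B2, k2, f2, g2⟩ := fit_rows h x a (e * w6) n2 t R ε K X ht hK1 hK2 ha hX hR
    (fun i j => by rw [q2]; exact hA _ _) hε hε1
  obtain ⟨B3, k3, f3, g3⟩ := fit_rows h x a (e * w6 * w6) n3 t R ε K X ht hK1 hK2 ha hX hR
    (fun i j => by rw [q3]; exact hA _ _) hε hε1
  have hKpos : (1 : ℝ) ≤ K := by linarith
  have hKn : 1 ≤ K := by exact_mod_cast hKpos
  have c4 : ∀ B : Finset ℤ, (B.card : ℝ) ≤ K / 10 ^ 7 → 4 * B.card ≤ K := by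
    intro B hB
    have : ((4 * B.card : ℕ) : ℝ) ≤ K := by push_cast; linarith
    exact_mod_cast this
  have cn : ∀ B : Finset ℤ, (B.image Neg.neg).card = B.card := fun B =>
    card_image_of_injective _ neg_injective
  have mn : ∀ (B : Finset ℤ) (m : ℤ), m ∉ B.image Neg.neg → -m ∉ B := fun B m hm hc =>
    hm (mem_image.2 ⟨-m, hc, neg_neg m⟩)
  have G2 : ∀ m n : ℤ, |m| ≤ 4 * K → |n| ≤ 4 * K → -m ∉ B2 →
      |(fitU P (lp a e m n) * conj (e * w6)).re - f2 (-m)| ≤ 2 * 10 ^ 11 * ε := by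
    intro m n hm hn hb
    rw [abs_le] at hm hn
    have := (g2 (m + n) (-m) (by rw [abs_le]; omega) (by rw [abs_le]; omega) hb).2.2
    rwa [q2, neg_neg, show m + n + -m = n by ring] at this
  obtain ⟨α, c1, c2, p1, p2⟩ := fit_pex K hKn (fun n => -f1 n) (fun m => f2 (-m))
    (fun s => f3 (-s)) B1 (B2.image Neg.neg) (B3.image Neg.neg) (6 * 10 ^ 11 * ε) (c4 _ k1)
    (by rw [cn]; exact c4 _ k2) (by rw [cn]; exact c4 _ k3) (by
      intro m n hm hn b2 b1 b3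
      have a2 := G2 m n hm hn (mn _ _ b2)
      rw [abs_le] at hm hn
      have a1 := (g1 m n (by rw [abs_le]; omega) (by rw [abs_le]; omega) b1).2.2
      have a3 := (g3 n (-(m + n)) (by rw [abs_le]; omega) (by rw [abs_le]; omega)
        (mn _ _ b3)).2.2
      rw [q3, show -n - -(m + n) = m by ring] at a3
      have e1 : e * w6 = e + e * w6 * w6 := by linear_combination -e * fit_w6_sq
      have e2 : (fitU P (lp a e m n) * conj (e * w6)).re = (fitU P (lp a e m n) * conj e).re +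
          (fitU P (lp a e m n) * conj (e * w6 * w6)).re := by
        rw [← Complex.add_re, ← mul_add, ← map_add, ← e1]
      rw [abs_le] at *
      constructor <;> linarith [a1.1, a1.2, a2.1, a2.2, a3.1, a3.2])
  have s3 : √3 ≠ (0 : ℝ) := by have := fit_s3_lo; positivity
  refine ⟨B1, B2.image Neg.neg, ⟨-c2, (2 * c1 + c2) / √3⟩, α / √3, k1, by rw [cn]; exact k2, ?_⟩
  intro m n hm hn b2 b1
  have a1 := g1 m n (by rw [abs_le] at *; omega) (by rw [abs_le] at *; omega) b1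
  have a2 := G2 m n (by rw [abs_le] at *; omega) (by rw [abs_le] at *; omega) (mn _ _ b2)
  refine ⟨a1.1, a1.2.1, ?_⟩
  have r1 := abs_le.1 (p1 m hm b2)
  have r2 := abs_le.1 (p2 n hn b1)
  have a3 := abs_le.1 a1.2.2
  rw [map_mul, ← mul_assoc, abs_le] at a2
  have eα : √3 * (α / √3) = α := by field_simp
  have hε0 : 0 ≤ ε := by linarith [a3.1, a3.2]
  have := fit_comp (fitU P (lp a e m n) * conj e) (α / √3) ((2 * c1 + c2) / √3) c1 c2
    (254 * 10 ^ 11 * ε) m n (by field_simp)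
    (by rw [eα, abs_le]; constructor <;> linarith [r2.1, r2.2, a3.1, a3.2])
    (by rw [eα, abs_le]; constructor <;> linarith [r1.1, r1.2, a2.1, a2.2])
  linarith

lemma fit_sq_le {a b : ℝ} (hb : 0 ≤ b) (h : a ^ 2 ≤ b ^ 2) : a ≤ b :=
  (abs_le_of_sq_le_sq' h hb).2

lemma fit_nice (K : ℕ) (B1 B2 : Finset ℤ) (ZZ : Finset (ℤ × ℤ)) (hK : 1 ≤ K)
    (k1 : (B1.card : ℝ) ≤ K / 10 ^ 7) (k2 : (B2.card : ℝ) ≤ K / 10 ^ 7)
    (kZ : (ZZ.card : ℝ) ≤ (K : ℝ) ^ 2 / 4) (lo : ℤ) (l1 : -(K : ℤ) ≤ lo)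
    (l2 : lo + (K / 2 : ℕ) ≤ K) :
    ∃ m n : ℤ, |m| ≤ K ∧ lo ≤ n ∧ n ≤ lo + (K / 2 : ℕ) ∧ m ∉ B2 ∧ n ∉ B1 ∧ (m, n) ∉ ZZ := by
  set I := Icc (-(K : ℤ)) K with hI
  have cI : I.card = 2 * K + 1 := by rw [hI, Int.card_Icc]; omega
  have cJ : (Icc lo (lo + (K / 2 : ℕ))).card = K / 2 + 1 := by rw [Int.card_Icc]; omega
  have hKr : (1 : ℝ) ≤ K := by exact_mod_cast hK
  have hlt : (I ×ˢ B1 ∪ B2 ×ˢ I ∪ ZZ).card < (I ×ˢ Icc lo (lo + (K / 2 : ℕ))).card := by
    have a1 := card_union_le (I ×ˢ B1) (B2 ×ˢ I)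
    have a2 := card_union_le (I ×ˢ B1 ∪ B2 ×ˢ I) ZZ
    rw [card_product, card_product, cI] at a1
    rw [card_product, cI, cJ]
    have a3 : (K : ℝ) ≤ 2 * ((K / 2 + 1 : ℕ) : ℝ) := by
      have : K ≤ 2 * (K / 2 + 1) := by omega
      exact_mod_cast this
    have a4 : (((2 * K + 1) * B1.card + B2.card * (2 * K + 1) + ZZ.card : ℕ) : ℝ) <
        (((2 * K + 1) * (K / 2 + 1) : ℕ) : ℝ) := by
      rw [Nat.cast_mul (2 * K + 1) (K / 2 + 1)]
      set k := ((K / 2 + 1 : ℕ) : ℝ)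
      push_cast
      have b1 := mul_le_mul_of_nonneg_left k1 (by linarith : (0 : ℝ) ≤ 2 * K + 1)
      have b2 := mul_le_mul_of_nonneg_left k2 (by linarith : (0 : ℝ) ≤ 2 * K + 1)
      have b3 := mul_le_mul_of_nonneg_left a3 (by linarith : (0 : ℝ) ≤ 2 * K + 1)
      have b4 := mul_le_mul_of_nonneg_left hKr (by linarith : (0 : ℝ) ≤ K)
      linarith
    have a5 := Nat.cast_lt.1 a4
    omega
  obtain ⟨c, hc, hc'⟩ := exists_mem_notMem_of_card_lt_card hlt
  obtain ⟨c1, c2⟩ := mem_product.1 hc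
  have c3 := mem_Icc.1 c2
  have c4 : c.2 ∈ I := mem_Icc.2 ⟨by omega, by omega⟩
  simp only [mem_union, mem_product, not_or, not_and] at hc'
  exact ⟨c.1, c.2, abs_le.2 (mem_Icc.1 c1), c3.1, c3.2, fun hb => hc'.1.2 hb c4, hc'.1.1 c1,
    hc'.2⟩

/-- The refitting statement holds for every large constant. -/
theorem fit_main (C : ℝ) (hC : 10 ^ 17 ≤ C) : FitSt C := by
  classical
  intro P w μ x a e t η ζ R X Z h ht he hX hR hA hη hζ0 hζ hμ hZ hz
  set μ0 := μ.real (Metric.ball x (3 * t)) with hμ0d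
  have hμ0 : 0 ≤ μ0 := measureReal_nonneg
  have ht0 : 0 < t := by linarith
  set ε := (μ0 + 1) / t with hεd
  have hε : ε * t = μ0 + 1 := by rw [hεd]; field_simp
  have hε0 : 0 < ε := by positivity
  have hCε : C * ε ≤ 1 := by
    rw [hεd, ← mul_div_assoc, div_le_one ht0]; exact hμ
  have hCε' := mul_le_mul_of_nonneg_right hC hε0.le
  have hCζ' := mul_le_mul_of_nonneg_right hC hζ0
  have hε1 : 10 ^ 17 * ε ≤ 1 := hCε'.trans hCε
  have hζ1 : 10 ^ 17 * ζ ≤ 1 := hCζ'.trans hζ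
  set K := Kt t with hK
  have hK1 : (K : ℝ) ≤ t / 20 := Nat.floor_le (by linarith)
  have hK3 : t / 20 < K + 1 := Nat.lt_floor_add_one _
  have hK2 : t ≤ 21 * K := by linarith
  have hKr : (400 : ℝ) ≤ K := by linarith
  have hKn : 1 ≤ K := by
    have : (1 : ℝ) ≤ K := by linarith
    exact_mod_cast this
  obtain ⟨m0, n0, ha⟩ := fit_round a e x he
  set a0 := lp a e m0 n0 with ha0
  have hlat : ∀ m n : ℤ, lp a0 e m n ∈ Lat a e := fun m n =>
    ⟨m0 + m, n0 + n, by simp only [ha0, lp]; push_cast; ring⟩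
  obtain ⟨B1, B2, β, γ, k1, k2, g⟩ := fit_lin h x a0 e he t R ε K X ht hK1 hK2 ha hX hR
    (fun i j h1 h2 => by
      obtain ⟨p, hp, hd⟩ := hA _ (hlat i j) h1 h2
      exact ⟨p, hp, hd.trans hη⟩) hε (by linarith)
  set κ := ζ + 10 ^ 14 * ε with hκ
  have hq : ∀ m n : ℤ, |m| ≤ K → |n| ≤ K → ‖2 * ((m : ℂ) + n * w6)‖ ≤ 4 * K := by
    intro m n hm hn
    have hm' : |(m : ℝ)| ≤ K := by exact_mod_cast hm
    have hn' : |(n : ℝ)| ≤ K := by exact_mod_cast hn
    have := fit_q_le m n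
    rw [norm_mul]; simp only [Complex.norm_ofNat]; linarith
  set ZZ := (Icc (-(K : ℤ)) K ×ˢ Icc (-(K : ℤ)) K).filter fun c => lp a0 e c.1 c.2 ∈ Z with hZZ
  have kZ : (ZZ.card : ℝ) ≤ (K : ℝ) ^ 2 / 4 := by
    refine le_trans (Nat.cast_le.2 ?_) hZ
    apply card_le_card_of_injOn (fun c => lp a0 e c.1 c.2)
    · intro c hc; exact (mem_filter.1 hc).2
    · intro c _ c' _ hcc
      have := fit_lp_sep a0 e he (i := c.1) (j := c.2) (i' := c'.1) (j' := c'.2) (by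
        have hcc' : lp a0 e c.1 c.2 = lp a0 e c'.1 c'.2 := hcc
        rw [hcc']; simp)
      exact Prod.ext this.1 this.2
  have hnice : ∀ m n : ℤ, |m| ≤ K → |n| ≤ K → m ∉ B2 → n ∉ B1 → (m, n) ∉ ZZ →
      ‖β + γ * Complex.I * (2 * ((m : ℂ) + n * w6))‖ ≤ κ := by
    intro m n hm hn b2 b1 bz
    obtain ⟨g1, -, g3⟩ := g m n hm hn b2 b1
    have hm' : |(m : ℝ)| ≤ K := by exact_mod_cast hm
    have hn' : |(n : ℝ)| ≤ K := by exact_mod_cast hn
    have e2 : ‖(m : ℂ) + n * w6‖ ^ 2 = (m : ℝ) ^ 2 + m * n + n ^ 2 := by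
      rw [Complex.sq_norm, Complex.normSq_apply, fit_q_re, fit_q_im]
      linear_combination (n : ℝ) ^ 2 / 4 * fit_s3
    have e3 : ‖(m : ℂ) + n * w6‖ ≤ 7 / 4 * K := by
      apply fit_sq_le
      · linarith
      · rw [e2]
        have b1 := sq_le_sq' (abs_le.1 hm').1 (abs_le.1 hm').2
        have b2 := sq_le_sq' (abs_le.1 hn').1 (abs_le.1 hn').2
        have b3 := sq_nonneg ((m : ℝ) - n)
        have b4 := sq_nonneg (K : ℝ)
        linarith
    obtain ⟨p, hp, hd⟩ := hz _ (hlat m n) (by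
      have e1 : lp a0 e m n - x = (lp a0 e m n - a0) + (a0 - x) := by ring
      rw [e1]
      refine (norm_add_le _ _).trans ?_
      rw [fit_lp_norm a0 e he]
      linarith) g1 (fun hc => bz (mem_filter.2
        ⟨mem_product.2 ⟨mem_Icc.2 (abs_le.1 hm), mem_Icc.2 (abs_le.1 hn)⟩, hc⟩))
    have hu := fitU_eq h.loc.sep hp (hd.trans (by linarith))
    have n1 : ‖fitU P (lp a0 e m n) * conj e‖ ≤ ζ := by
      rwa [norm_mul, Complex.norm_conj, he, mul_one, hu]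
    have := norm_sub_le (fitU P (lp a0 e m n) * conj e) (fitU P (lp a0 e m n) * conj e -
      (β + γ * Complex.I * (2 * ((m : ℂ) + n * w6))))
    rw [sub_sub_cancel] at this
    linarith
  obtain ⟨m1, n1, u1, u2, u3, u4, u5, u6⟩ := fit_nice K B1 B2 ZZ hKn k1 k2 kZ (-K) le_rfl
    (by omega)
  obtain ⟨m2, n2, v1, v2, v3, v4, v5, v6⟩ := fit_nice K B1 B2 ZZ hKn k1 k2 kZ
    (K - (K / 2 : ℕ)) (by omega) (by omega)
  have hn1 : |n1| ≤ K := by rw [abs_le]; omega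
  have w1 := hnice m1 n1 u1 hn1 u4 u5 u6
  have w2 := hnice m2 n2 v1 (by rw [abs_le]; omega) v4 v5 v6
  have hκ0 : 0 ≤ κ := by positivity
  have hκ1 : 110 * κ ≤ 1 / 5 := by rw [hκ]; linarith
  have hγ : |γ| * K ≤ 6 / 5 * κ := by
    have a1 := (Complex.abs_re_le_norm _).trans ((norm_sub_le _ _).trans (add_le_add w1 w2))
    have e1 : (β + γ * Complex.I * (2 * ((m1 : ℂ) + n1 * w6)) -
        (β + γ * Complex.I * (2 * ((m2 : ℂ) + n2 * w6)))).re = γ * (√3 * (n2 - n1)) := by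
      simp [w6]; ring
    have a2 : (K : ℝ) ≤ n2 - n1 := by
      have : (K : ℤ) ≤ n2 - n1 := by omega
      exact_mod_cast this
    have a3 : 17 / 10 * (K : ℝ) ≤ √3 * (n2 - n1) :=
      mul_le_mul fit_s3_lo a2 (by linarith) (Real.sqrt_nonneg 3)
    rw [e1, abs_mul, abs_of_nonneg (by linarith : 0 ≤ √3 * ((n2 : ℝ) - n1))] at a1
    have := mul_le_mul_of_nonneg_left a3 (abs_nonneg γ)
    linarith
  have nγ : ‖(γ : ℂ) * Complex.I‖ = |γ| := by simp
  have hβ : ‖β‖ ≤ 6 * κ := by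
    have a1 := norm_sub_le (β + γ * Complex.I * (2 * ((m1 : ℂ) + n1 * w6)))
      (γ * Complex.I * (2 * ((m1 : ℂ) + n1 * w6)))
    rw [add_sub_cancel_right, norm_mul (γ * Complex.I), nγ] at a1
    have a2 := mul_le_mul_of_nonneg_left (hq m1 n1 u1 hn1) (abs_nonneg γ)
    linarith
  have hγ0 := abs_nonneg γ
  have hγε : |γ| ≤ ε := by
    have : |γ| * t ≤ ε * t := by
      have := mul_le_mul_of_nonneg_left hK2 hγ0
      linarith
    exact le_of_mul_le_mul_right this ht0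
  set ρ := Complex.exp (γ * Complex.I) with hρ
  have ρ1 : ‖ρ‖ = 1 := Complex.norm_exp_ofReal_mul_I γ
  have ρ2 : ‖ρ - 1 - γ * Complex.I‖ ≤ |γ| ^ 2 := by
    have := Complex.norm_exp_sub_one_sub_id_le (x := γ * Complex.I) (by rw [nγ]; linarith)
    rwa [nγ] at this
  have ρ3 : ‖ρ - 1‖ ≤ 2 * |γ| := by
    have := norm_add_le (ρ - 1 - γ * Complex.I) (γ * Complex.I)
    rw [sub_add_cancel, nγ] at this
    have := mul_le_mul_of_nonneg_left (by linarith : |γ| ≤ 1) hγ0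
    linarith
  have he' : ‖e * ρ‖ = 1 := by rw [norm_mul, he, ρ1, mul_one]
  have ha' : ‖a0 + e * β - x‖ ≤ 3 := by
    have e1 : a0 + e * β - x = (a0 - x) + e * β := by ring
    rw [e1]
    refine (norm_add_le _ _).trans ?_
    rw [norm_mul, he]; linarith
  have eC : C * (μ0 + 1) / t = C * ε := by rw [hεd, mul_div_assoc]
  refine ⟨a0 + e * β, e * ρ, ⟨he', ha', ?_⟩, ?_⟩
  · set I := Icc (-(K : ℤ)) K with hI
    have cI : I.card = 2 * K + 1 := by rw [hI, Int.card_Icc]; omega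
    have hsub : bad P (a0 + e * β) (e * ρ) K (C * (μ0 + 1) / t) ⊆ I ×ˢ B1 ∪ B2 ×ˢ I := by
      intro c hc
      obtain ⟨c1, c2⟩ := mem_filter.1 hc
      obtain ⟨c3, c4⟩ := mem_product.1 c1
      by_contra hn
      simp only [mem_union, mem_product, not_or, not_and] at hn
      have d3 := abs_le.2 (mem_Icc.1 c3)
      have d4 := abs_le.2 (mem_Icc.1 c4)
      obtain ⟨-, g2, g3⟩ := g c.1 c.2 d3 d4 (fun hb => hn.2 hb c4) (hn.1 c3)
      refine c2 ⟨_, g2, ?_⟩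
      have e1 : lp a0 e c.1 c.2 + fitU P (lp a0 e c.1 c.2) - lp (a0 + e * β) (e * ρ) c.1 c.2 =
          e * ((fitU P (lp a0 e c.1 c.2) * conj e -
            (β + γ * Complex.I * (2 * ((c.1 : ℂ) + c.2 * w6)))) -
            (ρ - 1 - γ * Complex.I) * (2 * ((c.1 : ℂ) + c.2 * w6))) := by
        have := fit_mul_conj he
        generalize fitU P (lp a0 e c.1 c.2) = U
        simp only [lp]
        linear_combination -U * this
      rw [e1, norm_mul, he, one_mul, eC]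
      refine (norm_sub_le _ _).trans ?_
      rw [norm_mul (ρ - 1 - _)]
      have a1 := mul_le_mul ρ2 (hq _ _ d3 d4) (norm_nonneg _) (by positivity)
      have a2 := mul_le_mul_of_nonneg_left (by linarith : |γ| * K ≤ 1 / 4) hγ0
      linarith
    have a1 := (card_le_card hsub).trans (card_union_le _ _)
    rw [card_product, card_product, cI] at a1
    have a2 := (Nat.cast_le (α := ℝ)).2 a1
    push_cast at a2
    have a3 := mul_le_mul_of_nonneg_left k1 (by linarith : (0 : ℝ) ≤ 2 * K + 1)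
    have a4 := mul_le_mul_of_nonneg_left k2 (by linarith : (0 : ℝ) ≤ 2 * K + 1)
    have a5 := mul_le_mul_of_nonneg_left hKr (by linarith : (0 : ℝ) ≤ K)
    linarith
  · obtain ⟨E, E1, E2, E3⟩ := hX
    refine ⟨{z | ∃ b ∈ E, ‖z - b.1‖ ≤ 2 * b.2}, ⟨E.image fun b => (b.1, 2 * b.2), ?_, ?_, ?_⟩, ?_⟩
    · intro b hb
      obtain ⟨c, hc, rfl⟩ := mem_image.1 hb
      have := E1 c hc
      simp only; linarith
    · rw [sum_image (by
        intro c _ c' _ hcc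
        simp only [Prod.mk.injEq] at hcc
        exact Prod.ext hcc.1 (by linarith [hcc.2]))]
      simp only
      rw [← mul_sum]; linarith
    · rintro z ⟨b, hb, hd⟩
      exact ⟨_, mem_image_of_mem _ hb, hd⟩
    · rintro z ⟨m, n, rfl⟩ hd hx
      have a1 : ‖2 * ((m : ℂ) + n * w6)‖ ≤ 43 * K := by
        have b1 := fit_lp_norm (a0 + e * β) (e * ρ) he' m n
        have b2 := norm_sub_le (lp (a0 + e * β) (e * ρ) m n - x) (a0 + e * β - x)
        rw [sub_sub_sub_cancel_right] at b2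
        rw [norm_mul]; simp only [Complex.norm_ofNat]; linarith
      have a2 : ‖lp a0 e m n - lp (a0 + e * β) (e * ρ) m n‖ ≤ 110 * κ := by
        have e1 : lp a0 e m n - lp (a0 + e * β) (e * ρ) m n =
            -e * (β + (ρ - 1) * (2 * ((m : ℂ) + n * w6))) := by simp only [lp]; ring
        rw [e1, norm_mul, norm_neg, he, one_mul]
        refine (norm_add_le _ _).trans ?_
        rw [norm_mul (ρ - 1)]
        have := mul_le_mul ρ3 a1 (norm_nonneg _) (by positivity)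
        linarith
      obtain ⟨p, hp, hpd⟩ := hA _ (hlat m n) (by
        have := norm_add_le (lp a0 e m n - lp (a0 + e * β) (e * ρ) m n)
          (lp (a0 + e * β) (e * ρ) m n - x)
        rw [sub_add_sub_cancel] at this
        linarith) (by
        intro hc
        obtain ⟨b, hb, hbd⟩ := E3 _ hc
        refine hx ⟨b, hb, ?_⟩
        have := norm_sub_le (lp a0 e m n - b.1) (lp a0 e m n - lp (a0 + e * β) (e * ρ) m n)
        rw [sub_sub_sub_cancel_left] at this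
        have := E1 b hb
        linarith)
      refine ⟨p, hp, ?_⟩
      have := norm_add_le (p - lp a0 e m n) (lp a0 e m n - lp (a0 + e * β) (e * ρ) m n)
      rw [sub_add_sub_cancel] at this
      have : 110 * κ ≤ C * (ζ + ε) := by rw [hκ]; linarith
      linarith

theorem exists_fitSt : ∃ C : ℝ, 1 ≤ C ∧ FitSt C :=
  ⟨10 ^ 17, by norm_num, fit_main _ le_rfl⟩

end Pool.Agent.Lib.MP_b07bdb_co.Nk
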