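import Pool.Agent.Lib.MP_b07bdb_co.Nk.RelA

/-! Two lattices that fit the same packing on overlapping boxes are close. -/

namespace Pool.Agent.Lib.MP_b07bdb_co.Nk

open Metric MeasureTheory

/-- Pigeonhole on rows: if fewer than `q * (2 L + 1)` pairs are bad then some row `|n| ≤ L` has
fewer than `q` bad pairs (`Finset.exists_lt_card_fiber_of_mul_lt_card_of_maps_to` or a direct
count with `Finset.card_eq_sum_card_fiberwise`). -/
lemma exists_good_row (D : Finset (ℤ × ℤ)) (L q : ℕ) (h : D.card < q * (2 * L + 1)) :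
    ∃ n : ℤ, |n| ≤ L ∧ (D.filter fun g => g.2 = n).card < q := by
  by_contra hcon
  have hall : ∀ n ∈ Finset.Icc (-(L : ℤ)) L, q ≤ (D.filter fun g => g.2 = n).card := by
    intro n hn
    by_contra hlt
    exact hcon ⟨n, abs_le.2 (Finset.mem_Icc.1 hn), not_le.1 hlt⟩
  have h1 : ∑ n ∈ Finset.Icc (-(L : ℤ)) L, q ≤
      ∑ n ∈ Finset.Icc (-(L : ℤ)) L, (D.filter fun g => g.2 = n).card := Finset.sum_le_sum hall
  have h2 : ∑ n ∈ Finset.Icc (-(L : ℤ)) L, (D.filter fun g => g.2 = n).card ≤ D.card := by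
    rw [Finset.sum_card_fiberwise_eq_card_filter]
    exact Finset.card_filter_le _ _
  have h3 : (Finset.Icc (-(L : ℤ)) L).card = 2 * L + 1 := by
    rw [Int.card_Icc]
    omega
  rw [Finset.sum_const, h3, smul_eq_mul, mul_comm] at h1
  omega

lemma LatF_sq3_lb : (17 / 10 : ℝ) ≤ √3 := by
  apply Real.le_sqrt_of_sq_le
  norm_num

lemma LatF_sq3_ub : √3 ≤ (7 / 4 : ℝ) := by
  apply Real.sqrt_le_iff.2
  norm_num

/-- The fibres of a nearest point map have at most nine elements. -/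
lemma LatF_fibre {a e : ℂ} (he : ‖e‖ = 1) (S : Finset (ℤ × ℤ)) (c : ℂ)
    (h : ∀ g ∈ S, ‖c - lp a e g.1 g.2‖ ≤ 6 / 5) : S.card ≤ 9 := by
  rcases S.eq_empty_or_nonempty with rfl | ⟨g0, hg0⟩
  · simp
  have hsub : S ⊆ Finset.Icc (g0.1 - 1) (g0.1 + 1) ×ˢ Finset.Icc (g0.2 - 1) (g0.2 + 1) := by
    intro g hg
    have h1 : ‖lp a e g.1 g.2 - lp a e g0.1 g0.2‖ ≤ 12 / 5 := by
      have e1 : lp a e g.1 g.2 - lp a e g0.1 g0.2 =
          (c - lp a e g0.1 g0.2) - (c - lp a e g.1 g.2) := by ring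
      rw [e1]
      have := norm_sub_le (c - lp a e g0.1 g0.2) (c - lp a e g.1 g.2)
      linarith [h g hg, h g0 hg0]
    obtain ⟨h2, h3⟩ := lp_coord (a := a) he g.1 g.2 g0.1 g0.2
    have key : ∀ k : ℤ, √3 * |(k : ℝ)| ≤ 12 / 5 → |k| ≤ 1 := by
      intro k hk
      have h4 : |(k : ℝ)| < 2 := by
        have := mul_le_mul_of_nonneg_right LatF_sq3_lb (abs_nonneg (k : ℝ))
        linarith
      have h5 : |k| < 2 := by
        rw [← Int.cast_abs] at h4
        exact_mod_cast h4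
      omega
    have h4 := abs_le.1 (key _ (h2.trans h1))
    have h5 := abs_le.1 (key _ (h3.trans h1))
    simp only [Finset.mem_product, Finset.mem_Icc]
    omega
  refine (Finset.card_le_card hsub).trans ?_
  rw [Finset.card_product, Int.card_Icc, Int.card_Icc]
  have e1 : (g0.1 + 1 + 1 - (g0.1 - 1)).toNat = 3 := by omega
  have e2 : (g0.2 + 1 + 1 - (g0.2 - 1)).toNat = 3 := by omega
  rw [e1, e2]

/-- Off a small set of coordinates the points of the first lattice are close to points of the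
second lattice. -/
lemma LatF_exc {P : Finset ℂ} {y y' a e a' e' : ℂ} {t ε : ℝ} (hP : Sep P) (ht : 10 ^ 4 ≤ t)
    (hy : ‖y - y'‖ ≤ t / 50) (hε : ε ≤ 1 / 20) (hF : Fit P a e y t ε)
    (hF' : Fit P a' e' y' t ε) :
    ∃ D : Finset (ℤ × ℤ), (D.card : ℝ) ≤ (Kt t : ℝ) ^ 2 / 10 ^ 4 ∧
      ∀ m n : ℤ, |m| ≤ (Kt t / 4 : ℕ) → |n| ≤ (Kt t / 4 : ℕ) → (m, n) ∉ D →
        ∃ m' n' : ℤ, ‖lp a' e' m' n' - lp a e m n‖ ≤ 2 * ε := by
  classical
  obtain ⟨he, ha, hb⟩ := hF
  obtain ⟨he', ha', hb'⟩ := hF'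
  have hK1 := le_Kt ht
  set K := Kt t with hK
  set L := K / 4 with hL
  have hLK : (L : ℝ) ≤ K / 4 := by
    have : 4 * L ≤ K := by omega
    have : (4 : ℝ) * L ≤ K := by exact_mod_cast this
    linarith
  choose μ ν hμν using fun g : ℤ × ℤ => near_lp (a := a') he' (lp a e g.1 g.2)
  set B := Finset.Icc (-(L : ℤ)) L ×ˢ Finset.Icc (-(L : ℤ)) L with hB
  set D2 := B.filter fun g => (μ g, ν g) ∈ bad P a' e' K ε with hD2
  have hD2c : D2.card ≤ 9 * (bad P a' e' K ε).card := by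
    refine Finset.card_le_mul_card_image_of_maps_to (f := fun g => (μ g, ν g)) ?_ 9 ?_
    · intro g hg
      exact (Finset.mem_filter.1 hg).2
    · intro c _
      refine LatF_fibre (a := a) he _ (lp a' e' c.1 c.2) ?_
      intro g hg
      have h1 := (Finset.mem_filter.1 hg).2
      have h2 := hμν g
      rw [← h1]
      exact h2
  refine ⟨bad P a e K ε ∪ D2, ?_, ?_⟩
  · have h1 : ((bad P a e K ε ∪ D2).card : ℝ) ≤ (bad P a e K ε).card + D2.card := by
      exact_mod_cast Finset.card_union_le _ _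
    have h2 : (D2.card : ℝ) ≤ 9 * (bad P a' e' K ε).card := by exact_mod_cast hD2c
    linarith
  · intro m n hm hn hD
    rw [Finset.mem_union, not_or] at hD
    obtain ⟨hD1, hD3⟩ := hD
    have hmB : (m, n) ∈ B := by
      simp only [hB, Finset.mem_product, Finset.mem_Icc]
      exact ⟨abs_le.1 hm, abs_le.1 hn⟩
    have hD4 : (μ (m, n), ν (m, n)) ∉ bad P a' e' K ε := fun h =>
      hD3 (Finset.mem_filter.2 ⟨hmB, h⟩)
    have hnear : ‖lp a' e' (μ (m, n)) (ν (m, n)) - lp a e m n‖ ≤ 6 / 5 := hμν (m, n)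
    have hmR : |(m : ℝ)| ≤ L := by
      rw [← Int.cast_abs]
      exact_mod_cast hm
    have hnR : |(n : ℝ)| ≤ L := by
      rw [← Int.cast_abs]
      exact_mod_cast hn
    have hz := lp_norm_le (a := a) he hmR hnR
    have hfar : ‖lp a' e' (μ (m, n)) (ν (m, n)) - a'‖ ≤ 17 / 10 * K := by
      have e1 : lp a' e' (μ (m, n)) (ν (m, n)) - a' =
          (lp a' e' (μ (m, n)) (ν (m, n)) - lp a e m n) + (lp a e m n - a) + (a - y) +
            (y - y') - (a' - y') := by ring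
      rw [e1]
      have h1 := norm_sub_le ((lp a' e' (μ (m, n)) (ν (m, n)) - lp a e m n) + (lp a e m n - a) +
        (a - y) + (y - y')) (a' - y')
      have h2 := norm_add_le ((lp a' e' (μ (m, n)) (ν (m, n)) - lp a e m n) + (lp a e m n - a) +
        (a - y)) (y - y')
      have h3 := norm_add₃_le (a := lp a' e' (μ (m, n)) (ν (m, n)) - lp a e m n)
        (b := lp a e m n - a) (c := a - y)
      have h4 := mul_le_mul_of_nonneg_right LatF_sq3_ub (Nat.cast_nonneg (α := ℝ) L)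
      linarith
    have key : ∀ k : ℤ, √3 * |(k : ℝ)| ≤ 17 / 10 * K → |k| ≤ K := by
      intro k hk
      have h4 : |(k : ℝ)| ≤ K := by
        have := mul_le_mul_of_nonneg_right LatF_sq3_lb (abs_nonneg (k : ℝ))
        linarith
      rw [← Int.cast_abs] at h4
      exact_mod_cast h4
    obtain ⟨c1, c2⟩ := lp_coord0 (a := a') he' (μ (m, n)) (ν (m, n))
    have hLK' : (L : ℤ) ≤ K := by omega
    rw [mem_bad, not_and, not_not] at hD1 hD4
    obtain ⟨p, hp, hp1⟩ := hD1 ⟨hm.trans hLK', hn.trans hLK'⟩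
    obtain ⟨p', hp', hp1'⟩ := hD4 ⟨key _ (c1.trans hfar), key _ (c2.trans hfar)⟩
    have hpp : p = p' := by
      refine hP.eq_of_lt hp hp' ?_
      have e1 : p - p' = (p - lp a e m n) - (lp a' e' (μ (m, n)) (ν (m, n)) - lp a e m n) -
          (p' - lp a' e' (μ (m, n)) (ν (m, n))) := by ring
      rw [e1]
      have h1 := norm_sub_le ((p - lp a e m n) - (lp a' e' (μ (m, n)) (ν (m, n)) - lp a e m n))
        (p' - lp a' e' (μ (m, n)) (ν (m, n)))
      have h2 := norm_sub_le (p - lp a e m n) (lp a' e' (μ (m, n)) (ν (m, n)) - lp a e m n)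
      linarith
    subst hpp
    refine ⟨μ (m, n), ν (m, n), ?_⟩
    have e1 : lp a' e' (μ (m, n)) (ν (m, n)) - lp a e m n =
        (p - lp a e m n) - (p - lp a' e' (μ (m, n)) (ν (m, n))) := by ring
    rw [e1]
    have h1 := norm_sub_le (p - lp a e m n) (p - lp a' e' (μ (m, n)) (ν (m, n)))
    linarith

/-- In a row with few exceptional pairs every small shift is realised by two good pairs. -/
lemma LatF_shift (D : Finset (ℤ × ℤ)) (L q j : ℕ) (n : ℤ)
    (h : (D.filter fun g => g.2 = n).card < q) (hj : 2 * q + j ≤ 2 * L + 1) :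
    ∃ m : ℤ, |m| ≤ L ∧ |m + j| ≤ L ∧ (m, n) ∉ D ∧ (m + j, n) ∉ D := by
  classical
  set R := D.filter fun g => g.2 = n with hR
  have h1 : (R.image (fun g => g.1) ∪ R.image (fun g => g.1 - j)).card <
      (Finset.Icc (-(L : ℤ)) (L - j)).card := by
    have h2 := Finset.card_union_le (R.image (fun g => g.1)) (R.image (fun g => g.1 - j))
    have h3 := Finset.card_image_le (s := R) (f := fun g => g.1)
    have h4 := Finset.card_image_le (s := R) (f := fun g => g.1 - j)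
    rw [Int.card_Icc]
    omega
  obtain ⟨m, hm, hm'⟩ := Finset.exists_mem_notMem_of_card_lt_card h1
  rw [Finset.mem_Icc] at hm
  rw [Finset.mem_union, not_or] at hm'
  refine ⟨m, by rw [abs_le]; omega, by rw [abs_le]; omega, fun hD => hm'.1 ?_, fun hD => hm'.2 ?_⟩
  · exact Finset.mem_image.2 ⟨(m, n), Finset.mem_filter.2 ⟨hD, rfl⟩, rfl⟩
  · exact Finset.mem_image.2 ⟨(m + j, n), Finset.mem_filter.2 ⟨hD, rfl⟩, by simp⟩

/-- The rotation and translation built from a common direction and a pair of close points. -/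
lemma LatF_rel {y a e a' e' τ z z' : ℂ} (he : ‖e‖ = 1) (he' : ‖e'‖ = 1) (hτ : IsDir e' τ)
    (hz : z ∈ Lat a e) (hz' : z' ∈ Lat a' e') :
    Rel y (‖z' - z‖ + ‖e - τ‖ * ‖z - y‖) ‖e - τ‖ a e a' e' := by
  have hc : ‖(starRingEnd ℂ) e‖ = 1 := by rw [Complex.norm_conj, he]
  have hee : e * (starRingEnd ℂ) e = 1 := by
    rw [Complex.mul_conj, Complex.normSq_eq_norm_sq, he]
    simp
  have hρ : ‖τ * (starRingEnd ℂ) e - 1‖ = ‖e - τ‖ := by
    have e1 : τ * (starRingEnd ℂ) e - 1 = -((e - τ) * (starRingEnd ℂ) e) := by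
      linear_combination hee
    rw [e1, norm_neg, norm_mul, hc, mul_one]
  refine ⟨τ * (starRingEnd ℂ) e, z' - y - τ * (starRingEnd ℂ) e * (z - y), ?_, ?_, hρ.le, ?_⟩
  · rw [norm_mul, hτ.1, hc, mul_one]
  · have e1 : z' - y - τ * (starRingEnd ℂ) e * (z - y) =
        (z' - z) - (τ * (starRingEnd ℂ) e - 1) * (z - y) := by ring
    rw [e1]
    refine (norm_sub_le _ _).trans ?_
    rw [norm_mul, hρ]
  · intro u hu
    rw [← Lat_rebase hz] at hu
    obtain ⟨m, n, rfl⟩ := hu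
    rw [← Lat_rebase hz', ← Lat_dir he' hτ]
    refine ⟨m, n, ?_⟩
    simp only [lp]
    linear_combination (2 * τ * ((m : ℂ) + n * w6)) * hee

/-- Take `C = 1000`. Let `K = Kt t ≥ 476`, `L = K / 4`, `H = K / 8` (natural division). For
`|m|, |n| ≤ L` the point `z = lp a e m n` has `‖z - a‖ ≤ 2 √3 L`, and
`‖a - a'‖ ≤ t / 50 + 6 ≤ 21 K / 50 + 6`; a point `z' = lp a' e' m' n'` within `6 / 5` of `z`
(`near_lp`, choose `(m', n') = ν (m, n)`) has `|m'|, |n'| ≤ K` (`lp_coord0`). The fibres of `ν` have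
at most `9` elements (two members are within `12 / 5`, so their coordinates differ by at most one,
`lp_coord`). Let `D` be the set of pairs of the small box with `(m, n) ∈ bad P a e K ε` or
`ν (m, n) ∈ bad P a' e' K ε`; `card D ≤ 10 K ^ 2 / 10 ^ 5`. Off `D` both points have centres within
`ε`, these coincide (`Sep.eq_of_lt`), so `‖z - z'‖ ≤ 2 ε`. By `exists_good_row` with
`q = K / 100` some row `n` has fewer than `K / 100` bad pairs; for `1 ≤ j ≤ H` there is
`m ∈ [-L, L - j]` with `(m, n), (m + j, n) ∉ D`, which gives a vector of the second lattice within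
`4 ε ≤ 1 / 4` of `2 j e` (`lp_sub`). `dir_of_approx` gives `IsDir e' τ`, `2 H ‖e - τ‖ ≤ 4 ε`. Take
one pair `z₀, z₀'` off `D`, `ρ = τ * conj e`, `b = z₀' - y - ρ (z₀ - y) =
(z₀' - z₀) + (1 - ρ) (z₀ - y)`; `z ↦ z₀' + ρ (z - z₀)` maps `Lat a e = Lat z₀ e` into
`Lat z₀' τ = Lat z₀' e' = Lat a' e'` (`Lat_rebase`, `Lat_dir`). -/
theorem exists_latSt : ∃ C : ℝ, 1 ≤ C ∧ LatSt C := by
  refine ⟨1000, by norm_num, ?_⟩
  intro P y y' a e a' e' t ε hP ht hy hε0 hε hF hF'
  obtain ⟨D, hD, hgood⟩ := LatF_exc hP ht hy hε hF hF'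
  obtain ⟨he, ha, -⟩ := hF
  obtain ⟨he', -, -⟩ := hF'
  have hK1 := le_Kt ht
  set K := Kt t with hK
  have hK2 : 476 ≤ K := by
    have : (476 : ℝ) ≤ K := by linarith
    exact_mod_cast this
  set L := K / 4 with hL
  set H := K / 8 with hH
  set q := K / 100 with hq
  have hcard : D.card < q * (2 * L + 1) := by
    have h1 : K ≤ 200 * q := by omega
    have h2 : K ≤ 3 * (2 * L + 1) := by omega
    have h3 : K * K ≤ 200 * q * (3 * (2 * L + 1)) := Nat.mul_le_mul h1 h2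
    have h4 : 10 ^ 4 * D.card ≤ K * K := by
      have : (10 : ℝ) ^ 4 * D.card ≤ K * K := by nlinarith
      exact_mod_cast this
    have h5 : 0 < q * (2 * L + 1) := Nat.mul_pos (by omega) (by omega)
    have h6 : 200 * q * (3 * (2 * L + 1)) = 600 * (q * (2 * L + 1)) := by ring
    omega
  obtain ⟨n, hn, hrow⟩ := exists_good_row D L q hcard
  have happ : ∀ j : ℕ, 1 ≤ j → j ≤ H →
      ∃ m n : ℤ, ‖2 * e' * (m + n * w6) - 2 * j * e‖ ≤ 4 * ε := by
    intro j _ hj
    obtain ⟨m, h1, h2, h3, h4⟩ := LatF_shift D L q j n hrow (by omega)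
    obtain ⟨m1, n1, h5⟩ := hgood m n h1 hn h3
    obtain ⟨m2, n2, h6⟩ := hgood (m + j) n h2 hn h4
    refine ⟨m2 - m1, n2 - n1, ?_⟩
    have e1 : 2 * e' * (((m2 - m1 : ℤ) : ℂ) + ((n2 - n1 : ℤ) : ℂ) * w6) - 2 * j * e =
        (lp a' e' m2 n2 - lp a e (m + j) n) - (lp a' e' m1 n1 - lp a e m n) := by
      simp only [lp]
      push_cast
      ring
    rw [e1]
    have h7 := norm_sub_le (lp a' e' m2 n2 - lp a e (m + j) n) (lp a' e' m1 n1 - lp a e m n)
    linarith
  obtain ⟨τ, hτ, hτe⟩ := dir_of_approx he' he (H := H) (by omega) (ε := 4 * ε) (by linarith) happ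
  obtain ⟨m, h1, -, h3, -⟩ := LatF_shift D L q 0 n hrow (by omega)
  obtain ⟨m1, n1, h5⟩ := hgood m n h1 hn h3
  have hrel := LatF_rel (y := y) he he' hτ (lp_mem a e m n) (lp_mem a' e' m1 n1)
  have hmR : |(m : ℝ)| ≤ L := by
    rw [← Int.cast_abs]
    exact_mod_cast h1
  have hnR : |(n : ℝ)| ≤ L := by
    rw [← Int.cast_abs]
    exact_mod_cast hn
  have hz := lp_norm_le (a := a) he hmR hnR
  have hLH : (L : ℝ) ≤ 2 * H + 1 := by
    have : L ≤ 2 * H + 1 := by omega
    exact_mod_cast this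
  have hH1 : (59 : ℝ) ≤ H := by
    have : 59 ≤ H := by omega
    exact_mod_cast this
  have hKH : (K : ℝ) ≤ 8 * H + 7 := by
    have : K ≤ 8 * H + 7 := by omega
    exact_mod_cast this
  have hzy : ‖lp a e m n - y‖ ≤ 8 * H := by
    have e1 : lp a e m n - y = (lp a e m n - a) + (a - y) := by ring
    rw [e1]
    have h6 := norm_add_le (lp a e m n - a) (a - y)
    have h7 := mul_le_mul_of_nonneg_right LatF_sq3_ub (Nat.cast_nonneg (α := ℝ) L)
    linarith
  have hn0 := norm_nonneg (e - τ)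
  refine hrel.mono ?_ ?_
  · have h6 := mul_le_mul_of_nonneg_left hzy hn0
    linarith
  · have ht0 : 0 < t := by linarith
    rw [le_div_iff₀ ht0]
    have h6 : t ≤ 200 * H := by linarith
    have h7 := mul_le_mul_of_nonneg_left h6 hn0
    linarith

end Pool.Agent.Lib.MP_b07bdb_co.Nk
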