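import Pool.Agent.Lib.MP_b07bdb_co.Nk.StepF
import Pool.Agent.Lib.MP_b07bdb_co.Nk.Base
import Pool.Agent.Lib.MP_b07bdb_co.Nk.FitF
import Pool.Agent.Lib.MP_b07bdb_co.Nk.LatF

/-! Rigidity at all scales. -/

namespace Pool.Agent.Lib.MP_b07bdb_co.Nk

open Metric MeasureTheory

/-- The start of the induction. Apply `base_apx t η₀` with `η₀ = 1 / (100 (1 + C))`, take
`lam = min c 1 / t`, so `W ≤ min c 1`; then `FitSt` with `X = ∅`, `Z = ∅`, `R = 0`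
(`cov_empty`), `η = ζ = η₀` (`Apx` at radius `2 t + 1` contains radius `t / 5`); the resulting error
is `η₀ + C (η₀ + 2 / t) ≤ 1 / 40`. -/
lemma base_st {C : ℝ} (hC : 1 ≤ C) (hF : FitSt C) (t : ℝ) (ht : 10 ^ 4 ≤ t) (htC : 200 * C ≤ t) :
    ∃ lam₀ : ℝ, 0 < lam₀ ∧ ∀ lam : ℝ, 0 < lam → lam ≤ lam₀ → St C t lam (1 / 40) := by
  have ht0 : 0 < t := lt_of_lt_of_le (by norm_num) ht
  have hC0 : 0 < 1 + C := by linarith
  set η₀ : ℝ := 1 / (100 * (1 + C)) with hη₀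
  have hη0 : 0 < η₀ := by positivity
  have hη1 : η₀ * (1 + C) = 1 / 100 := by
    rw [hη₀]
    field_simp
  obtain ⟨c, hc, hb⟩ := base_apx t η₀ (le_trans (by norm_num) ht) hη0
  refine ⟨min c 1 / t, by positivity, fun lam hlam hl P w μ x hW hμ => ?_⟩
  have hW0 : 0 ≤ μ.real (ball x (3 * t)) := measureReal_nonneg
  have hW1 : μ.real (ball x (3 * t)) ≤ min c 1 := hμ.trans ((le_div_iff₀ ht0).1 hl)
  have hWc := hW1.trans (min_le_left _ _)
  have hW2 := hW1.trans (min_le_right _ _)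
  obtain ⟨a, e, he, hA⟩ := hb P w μ x hW hWc
  have hCη : C * η₀ ≤ 1 / 100 := by nlinarith
  have hCη0 : 0 ≤ C * η₀ := by positivity
  have hCW : C * (μ.real (ball x (3 * t)) + 1) ≤ 2 * C := by nlinarith
  obtain ⟨a', e', h⟩ := hF P w μ x a e t η₀ η₀ 0 ∅ ∅ hW ht he (cov_empty le_rfl)
    (by positivity) hA (by nlinarith) hη0.le (by linarith) (by linarith)
    (by simp only [Finset.card_empty, Nat.cast_zero]; positivity)
    (fun z hz h1 h2 _ => hA z hz (by linarith) h2)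
  refine ⟨a', e', h.mono ?_ (by rw [mul_zero]; positivity) le_rfl⟩
  have h3 : C * (μ.real (ball x (3 * t)) + 1) / t ≤ 1 / 100 := by
    rw [div_le_iff₀ ht0]
    linarith
  have h4 : C * (η₀ + (μ.real (ball x (3 * t)) + 1) / t) =
      C * η₀ + C * (μ.real (ball x (3 * t)) + 1) / t := by ring
  rw [h4]
  nlinarith

lemma St.use {C t lam lam' η : ℝ} (h : St C t lam η) (ht : 0 ≤ t) (hlam : 0 < lam)
    (hl : lam' ≤ lam) (hη : η ≤ 1 / 20) : Use C t lam' := by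
  intro P w μ x hW hμ
  have h1 : μ.real (ball x (3 * t)) ≤ lam * t := hμ.trans (mul_le_mul_of_nonneg_right hl ht)
  obtain ⟨a, e, h2⟩ := h P w μ x hW h1
  refine ⟨a, e, h2.mono hη ?_ le_rfl⟩
  rw [div_le_div_iff₀ (by positivity) (by positivity)]
  nlinarith

/-- For every `C₂` and `δ > 0`, `C₂ (1 + log M) ≤ M ^ δ` for some `M ≥ 1000`
(`isLittleO_log_rpow_atTop`). -/
lemma exists_ratio (C₂ δ : ℝ) (hδ : 0 < δ) :
    ∃ M : ℝ, 1000 ≤ M ∧ C₂ * (1 + Real.log M) ≤ M ^ δ := by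
  have hc : 0 < |C₂| + 1 := by positivity
  have h1 := (isLittleO_log_rpow_atTop hδ).def (c := 1 / (2 * (|C₂| + 1))) (by positivity)
  have h2 := (tendsto_rpow_atTop hδ).eventually_ge_atTop (2 * (|C₂| + 1))
  obtain ⟨M, hM1, hM2, hM3⟩ := (h1.and (h2.and (Filter.eventually_ge_atTop (1000 : ℝ)))).exists
  refine ⟨M, hM3, ?_⟩
  have hl : 0 ≤ Real.log M := Real.log_nonneg (by linarith)
  have hp : 0 ≤ M ^ δ := Real.rpow_nonneg (by linarith) _
  rw [Real.norm_of_nonneg hl, Real.norm_of_nonneg hp, one_div, inv_mul_eq_div,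
    le_div_iff₀ (by positivity)] at hM1
  have h3 : C₂ * (1 + Real.log M) ≤ (|C₂| + 1) * (1 + Real.log M) :=
    mul_le_mul_of_nonneg_right (by linarith [le_abs_self C₂]) (by linarith)
  nlinarith

lemma Scale_ind {C₁ D M Q t₀ lam₀ : ℝ} (hD : 0 < D) (hM : 2 ≤ M) (hQ : 2 ≤ Q)
    (ht : 10 ^ 4 ≤ t₀) (hlam : 0 < lam₀) (hk : D * (lam₀ + 1 / t₀) ≤ 1 / 80)
    (h0 : St C₁ t₀ lam₀ (1 / 40))
    (hstep : ∀ s lam η : ℝ, 10 ^ 4 ≤ s → 0 < lam → 0 ≤ η → η + D * (lam + 1 / s) ≤ 1 / 20 →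
      St C₁ s lam η → St C₁ (M * s) (lam / Q) (η + D * (lam + 1 / s))) (j : ℕ) :
    10 ^ 4 ≤ M ^ j * t₀ ∧ D * (lam₀ / Q ^ j + 1 / (M ^ j * t₀)) ≤ 1 / 80 ∧
      St C₁ (M ^ j * t₀) (lam₀ / Q ^ j)
        (1 / 20 - 2 * (D * (lam₀ / Q ^ j + 1 / (M ^ j * t₀)))) := by
  induction j with
  | zero =>
    simp only [pow_zero, one_mul, div_one]
    exact ⟨ht, hk, h0.mono (by linarith)⟩
  | succ j ih =>
    obtain ⟨h1, h2, h3⟩ := ih
    have e1 : M ^ (j + 1) * t₀ = M * (M ^ j * t₀) := by ring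
    have e2 : lam₀ / Q ^ (j + 1) = lam₀ / Q ^ j / Q := by rw [pow_succ, div_div]
    rw [e1, e2]
    have hl : 0 < lam₀ / Q ^ j := by
      have : 0 < Q := by linarith
      positivity
    generalize lam₀ / Q ^ j = l at h2 h3 hl ⊢
    generalize M ^ j * t₀ = s at h1 h2 h3 ⊢
    have hs : 0 < s := lt_of_lt_of_le (by norm_num) h1
    have a1 : l / Q ≤ l / 2 := div_le_div_of_nonneg_left hl.le (by norm_num) hQ
    have a2 : 1 / (M * s) ≤ 1 / (2 * s) :=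
      one_div_le_one_div_of_le (by positivity) (mul_le_mul_of_nonneg_right hM hs.le)
    have a3 : 1 / (2 * s) = 1 / s / 2 := by rw [div_div, mul_comm]
    have a4 : D * (l / Q + 1 / (M * s)) ≤ D * ((l + 1 / s) / 2) :=
      mul_le_mul_of_nonneg_left (by linarith) hD.le
    have a5 : D * ((l + 1 / s) / 2) = D * (l + 1 / s) / 2 := by ring
    have a6 : 0 ≤ D * (l + 1 / s) := by positivity
    refine ⟨by nlinarith, by linarith, ?_⟩
    exact (hstep s l _ h1 hl (by linarith) (by linarith) h3).mono (by linarith)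

/-- Take `C₁` from `exists_fitSt`, `C₂` from `step_st`, `M` from `exists_ratio`,
`t₀ = max (10 ^ 4) (max (200 C₁) (160 C₂ M ^ 2))`, `lam₀ ≤ 1 / (160 C₂ M ^ 2)` from `base_st`.
With `Q = C₂ (1 + log M) ≥ 2`, `t j = M ^ j t₀`, `lam j = lam₀ / Q ^ j`,
`η j = 1 / 20 - 2 C₂ M ^ 2 (lam j + 1 / t j) ≥ 1 / 40`, prove `St C₁ (t j) (lam j) (η j)` by
induction (`St.mono`; `lam j + 1 / t j` at least halves in each step). For `T ≥ t₀` take the `j`
with `M ^ j ≤ T / t₀ < M ^ (j + 1)` (`exists_nat_pow_near`); `Q ^ j ≤ (M ^ j) ^ δ ≤ T ^ δ`. -/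
theorem use_all_scales : ∃ C : ℝ, 1 ≤ C ∧ ∀ δ : ℝ, 0 < δ → ∃ M t₀ lam₀ : ℝ, 1 ≤ M ∧ 0 < lam₀ ∧
    ∀ T : ℝ, t₀ ≤ T → ∃ t : ℝ, T / M ≤ t ∧ t ≤ T ∧ 10 ^ 4 ≤ t ∧
      Use C t (lam₀ * T ^ (-δ)) := by
  obtain ⟨C₁, h₁, hF⟩ := exists_fitSt
  obtain ⟨CL, hL, hLat⟩ := exists_latSt
  obtain ⟨C₂, h₂, hstep⟩ := step_st h₁ hL hF hLat
  refine ⟨C₁, h₁, fun δ hδ => ?_⟩
  obtain ⟨M, hM, hMδ⟩ := exists_ratio C₂ δ hδ
  have hM0 : 0 < M := by linarith
  have hC0 : 0 < C₂ := by linarith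
  set D : ℝ := C₂ * M ^ 2 with hD
  have hD0 : 0 < D := by positivity
  set t₀ : ℝ := max (10 ^ 4) (max (200 * C₁) (160 * D)) with ht₀
  have ht1 : (10 : ℝ) ^ 4 ≤ t₀ := le_max_left _ _
  have ht2 : 200 * C₁ ≤ t₀ := (le_max_left _ _).trans (le_max_right _ _)
  have ht3 : 160 * D ≤ t₀ := (le_max_right _ _).trans (le_max_right _ _)
  have ht0 : 0 < t₀ := lt_of_lt_of_le (by norm_num) ht1
  obtain ⟨l₁, hl₁, hb⟩ := base_st h₁ hF t₀ ht1 ht2
  set lam₀ : ℝ := min l₁ (1 / (160 * D)) with hlam₀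
  have hl0 : 0 < lam₀ := by positivity
  have hk : D * (lam₀ + 1 / t₀) ≤ 1 / 80 := by
    have a1 : lam₀ ≤ 1 / (160 * D) := min_le_right _ _
    have a2 : 1 / t₀ ≤ 1 / (160 * D) := one_div_le_one_div_of_le (by positivity) ht3
    have a3 : D * (2 * (1 / (160 * D))) = 1 / 80 := by
      field_simp
      norm_num
    rw [← a3]
    exact mul_le_mul_of_nonneg_left (by linarith) hD0.le
  have hlog : 0 ≤ Real.log M := Real.log_nonneg (by linarith)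
  have hQ : 2 ≤ C₂ * (1 + Real.log M) := by nlinarith
  have key := Scale_ind hD0 (by linarith : (2 : ℝ) ≤ M) hQ ht1 hl0 hk
    (hb lam₀ hl0 (min_le_left _ _)) (fun s lam η a b c d e => hstep M s lam η hM a b c d e)
  generalize C₂ * (1 + Real.log M) = Q at hQ key hMδ
  have hQ0 : 0 < Q := by linarith
  refine ⟨M, t₀, lam₀, by linarith, hl0, fun T hT => ?_⟩
  have hT0 : 0 < T := ht0.trans_le hT
  obtain ⟨j, hj1, hj2⟩ :=
    exists_nat_pow_near ((one_le_div ht0).2 hT) (by linarith : (1 : ℝ) < M)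
  obtain ⟨k1, k2, k3⟩ := key j
  rw [le_div_iff₀ ht0] at hj1
  rw [div_lt_iff₀ ht0] at hj2
  have hMj : 0 < M ^ j := by positivity
  refine ⟨M ^ j * t₀, ?_, hj1, k1, k3.use (by positivity) (by positivity) ?_ ?_⟩
  · rw [div_le_iff₀ hM0]
    calc T ≤ M ^ (j + 1) * t₀ := hj2.le
      _ = M ^ j * t₀ * M := by ring
  · have b1 : M ^ j ≤ T := by
      have : (1 : ℝ) ≤ t₀ := le_trans (by norm_num) ht1
      nlinarith
    have b2 : Q ^ j ≤ T ^ δ :=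
      calc Q ^ j ≤ (M ^ δ) ^ j := pow_le_pow_left₀ hQ0.le hMδ j
        _ = (M ^ j) ^ δ := by
          rw [← Real.rpow_mul_natCast hM0.le, ← Real.rpow_natCast_mul hM0.le, mul_comm]
        _ ≤ T ^ δ := Real.rpow_le_rpow hMj.le b1 hδ.le
    rw [Real.rpow_neg hT0.le, ← div_eq_mul_inv]
    exact div_le_div_of_nonneg_left hl0.le (by positivity) b2
  · have : 0 ≤ D * (lam₀ / Q ^ j + 1 / (M ^ j * t₀)) := by positivity
    linarith

end Pool.Agent.Lib.MP_b07bdb_co.Nk
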