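import Pool.Agent.Lib.MP_b07bdb_co.Nk.WstA

/-! The waste measure of a finite packing and its total mass. -/

namespace Pool.Agent.Lib.MP_b07bdb_co.Nk

open Metric MeasureTheory Real

theorem wseg_int {R θ : ℝ} (hR : 0 < R) (h0 : 0 ≤ θ) (h1 : θ ≤ π) :
    ∫ x in R * cos θ..R, 2 * √(R ^ 2 - x ^ 2) = R ^ 2 * whh θ := by
  have e := intervalIntegral.integral_comp_mul_deriv (a := θ) (b := 0) (f := fun t => R * cos t)
    (f' := fun t => R * -sin t) (g := fun x => 2 * √(R ^ 2 - x ^ 2))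
    (fun t _ => (hasDerivAt_cos t).const_mul R) (by fun_prop) (by fun_prop)
  rw [cos_zero, mul_one] at e
  rw [← e, intervalIntegral.integral_congr (g := fun t => -(2 * R ^ 2) * sin t ^ 2),
    intervalIntegral.integral_const_mul, integral_sin_sq, sin_zero, whh]
  · ring
  · intro t ht
    rw [Set.uIcc_of_ge h0] at ht
    have s0 := sin_nonneg_of_nonneg_of_le_pi ht.1 (ht.2.trans h1)
    have e2 : √(R ^ 2 - (R * cos t) ^ 2) = R * sin t := by
      rw [show R ^ 2 - (R * cos t) ^ 2 = (R * sin t) ^ 2 by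
        linear_combination (-R ^ 2) * sin_sq_add_cos_sq t, sqrt_sq (by positivity)]
    simp only [Function.comp_apply, e2]
    ring

theorem wseg_vol {R θ : ℝ} (hR : 0 < R) (h0 : 0 ≤ θ) (h1 : θ ≤ π) :
    volume {y : ℂ | ‖y‖ < R ∧ R * cos θ ≤ y.re} ≤ ENNReal.ofReal (R ^ 2 * whh θ) := by
  have c1 : Continuous fun x : ℝ => √(R ^ 2 - x ^ 2) := by fun_prop
  have c2 : Continuous fun x : ℝ => -√(R ^ 2 - x ^ 2) := by fun_prop
  have le : R * cos θ ≤ R := mul_le_of_le_one_right hR.le (cos_le_one θ)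
  have sub : {y : ℂ | ‖y‖ < R ∧ R * cos θ ≤ y.re} ⊆ Complex.measurableEquivRealProd ⁻¹'
      regionBetween (fun x => -√(R ^ 2 - x ^ 2)) (fun x => √(R ^ 2 - x ^ 2))
        (Set.Icc (R * cos θ) R) := by
    rintro y ⟨a, b⟩
    have h3 : ‖y‖ ^ 2 = y.re ^ 2 + y.im ^ 2 := by
      rw [Complex.sq_norm, Complex.normSq_apply]; ring
    have h4 : ‖y‖ ^ 2 < R ^ 2 := by gcongr
    exact ⟨⟨b, (Complex.re_le_norm y).trans a.le⟩, Real.sq_lt.1 (by
      change y.im ^ 2 < R ^ 2 - y.re ^ 2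
      linarith)⟩
  refine (measure_mono sub).trans (le_of_eq ?_)
  rw [Complex.volume_preserving_equiv_real_prod.measure_preimage
    (measurableSet_regionBetween c2.measurable c1.measurable
      measurableSet_Icc).nullMeasurableSet, Measure.volume_eq_prod,
    volume_regionBetween_eq_integral c2.integrableOn_Icc c1.integrableOn_Icc measurableSet_Icc
      fun x _ => neg_le_self (sqrt_nonneg _), integral_Icc_eq_integral_Ioc,
    ← intervalIntegral.integral_of_le le, ← wseg_int hR h0 h1]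
  congr 2
  funext x
  simp only [Pi.sub_apply]
  ring

theorem wR_pos : 0 < 2 / √3 := by positivity

theorem wR_sq : (2 / √3) ^ 2 = 4 / 3 := by
  rw [div_pow, sq_sqrt (by norm_num)]; norm_num

theorem wR_le : 2 / √3 ≤ 2 := div_le_self (by norm_num) (by linarith [ws3.1])

theorem whh_nonneg {θ : ℝ} (h0 : 0 ≤ θ) : 0 ≤ whh θ := by
  have e : sin θ * cos θ = sin (2 * θ) / 2 := by rw [sin_two_mul]; ring
  have := sin_le (x := 2 * θ) (by linarith)
  unfold whh
  linarith

theorem wseg_real {p q : ℂ} (h : q ≠ p) :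
    volume.real {z : ℂ | ‖z - p‖ < 2 / √3 ∧ ‖z - q‖ ≤ ‖z - p‖} ≤ 4 / 3 * whh (wth (q - p)) := by
  have d0 : 0 < ‖q - p‖ := norm_pos_iff.2 (sub_ne_zero.2 h)
  obtain ⟨a, ha⟩ : ∃ a : Circle, (a : ℂ) * (q - p) = ‖q - p‖ := by
    refine ⟨Circle.exp (-(q - p).arg), ?_⟩
    have := Complex.norm_mul_exp_arg_mul_I (q - p)
    rw [Circle.coe_exp]
    generalize (q - p).arg = φ at this
    rw [← this, mul_left_comm, ← Complex.exp_add]
    simp
  have mp := (rotation a).measurePreserving.comp (measurePreserving_sub_right volume p)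
  have hc : 2 / √3 * cos (wth (q - p)) ≤ ‖q - p‖ / 2 := by
    have h1 : cos (wth (q - p)) ≤ √3 * ‖q - p‖ / 4 := by
      rcases le_total (√3 * ‖q - p‖ / 4) 1 with b | b
      · exact (wth_cos b).le
      · exact (cos_le_one _).trans b
    refine (mul_le_mul_of_nonneg_left h1 wR_pos.le).trans (le_of_eq ?_)
    field_simp
    norm_num
  have sub : {z : ℂ | ‖z - p‖ < 2 / √3 ∧ ‖z - q‖ ≤ ‖z - p‖} ⊆ (rotation a ∘ fun z => z - p) ⁻¹'
      {y : ℂ | ‖y‖ < 2 / √3 ∧ 2 / √3 * cos (wth (q - p)) ≤ y.re} := by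
    rintro z ⟨b, c⟩
    have n1 : ‖(a : ℂ) * (z - p)‖ = ‖z - p‖ := by rw [norm_mul, Circle.norm_coe, one_mul]
    have n2 : ‖(a : ℂ) * (z - p) - ‖q - p‖‖ = ‖z - q‖ := by
      rw [← ha, ← mul_sub, norm_mul, Circle.norm_coe, one_mul, sub_sub_sub_cancel_right]
    change ‖(a : ℂ) * (z - p)‖ < _ ∧ _ ≤ ((a : ℂ) * (z - p)).re
    refine ⟨n1 ▸ b, hc.trans ?_⟩
    rw [← n1, ← n2] at c
    generalize (a : ℂ) * (z - p) = y at c
    generalize ‖q - p‖ = d at c d0
    have c2 : ‖y - d‖ ^ 2 ≤ ‖y‖ ^ 2 := by gcongr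
    rw [Complex.sq_norm, Complex.sq_norm, Complex.normSq_apply, Complex.normSq_apply] at c2
    simp only [Complex.sub_re, Complex.sub_im, Complex.ofReal_re, Complex.ofReal_im] at c2
    nlinarith
  have ms : MeasurableSet {y : ℂ | ‖y‖ < 2 / √3 ∧ 2 / √3 * cos (wth (q - p)) ≤ y.re} :=
    (measurableSet_lt measurable_norm measurable_const).inter
      (measurableSet_le measurable_const Complex.measurable_re)
  have := (measure_mono sub).trans ((mp.measure_preimage ms.nullMeasurableSet).le.trans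
    (wseg_vol wR_pos (wth_nonneg _) (arccos_le_pi _)))
  rw [wR_sq] at this
  exact ENNReal.toReal_le_of_le_ofReal (mul_nonneg (by norm_num) (whh_nonneg (wth_nonneg _))) this

theorem wball (a : ℂ) {r : ℝ} (hr : 0 ≤ r) : volume.real (ball a r) = π * r ^ 2 := by
  rw [measureReal_def, Complex.volume_ball]
  simp [hr, mul_comm]

/-- The truncated Voronoi cell. -/
def wcell (P : Finset ℂ) (p : ℂ) : Set ℂ :=
  {z | ‖z - p‖ < 2 / √3 ∧ ∀ q ∈ P.erase p, ‖z - p‖ < ‖z - q‖}

/-- The points that are far from all centres. -/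
def wfar (P : Finset ℂ) : Set ℂ := {z | ∀ p ∈ P, 2 / √3 ≤ ‖z - p‖}

theorem wcell_meas (P : Finset ℂ) (p : ℂ) : MeasurableSet (wcell P p) := by
  have : wcell P p = {z | ‖z - p‖ < 2 / √3} ∩ ⋂ q ∈ P.erase p, {z | ‖z - p‖ < ‖z - q‖} := by
    ext z; simp only [wcell, Set.mem_ofPred_eq, Set.mem_inter_iff, Set.mem_iInter]
  rw [this]
  exact (measurableSet_lt (by fun_prop) (by fun_prop)).inter
    (Finset.measurableSet_biInter _ fun _ _ => measurableSet_lt (by fun_prop) (by fun_prop))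

theorem wfar_meas (P : Finset ℂ) : MeasurableSet (wfar P) := by
  have : wfar P = ⋂ p ∈ P, {z | 2 / √3 ≤ ‖z - p‖} := by
    ext z; simp only [wfar, Set.mem_ofPred_eq, Set.mem_iInter]
  rw [this]
  exact Finset.measurableSet_biInter _ fun _ _ => measurableSet_le (by fun_prop) (by fun_prop)

theorem wcell_vol (P : Finset ℂ) (p : ℂ) : wst P p + 2 * √3 ≤ volume.real (wcell P p) := by
  have sub : ball p (2 / √3) ⊆ wcell P p ∪
      ⋃ q ∈ P.erase p, {z : ℂ | ‖z - p‖ < 2 / √3 ∧ ‖z - q‖ ≤ ‖z - p‖} := by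
    intro z hz
    rw [mem_ball, dist_eq_norm] at hz
    by_cases h : ∀ q ∈ P.erase p, ‖z - p‖ < ‖z - q‖
    · exact Or.inl ⟨hz, h⟩
    · push Not at h
      obtain ⟨q, hq, h⟩ := h
      exact Or.inr (Set.mem_biUnion hq ⟨hz, h⟩)
  have fin : volume (wcell P p ∪
      ⋃ q ∈ P.erase p, {z : ℂ | ‖z - p‖ < 2 / √3 ∧ ‖z - q‖ ≤ ‖z - p‖}) ≠ ⊤ := by
    refine measure_ne_top_of_subset ?_ (measure_ball_lt_top (x := p) (r := 2 / √3)).ne
    rintro z (hz | hz)
    · exact mem_ball_iff_norm.2 hz.1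
    · obtain ⟨q, -, hq⟩ := Set.mem_iUnion₂.1 hz
      exact mem_ball_iff_norm.2 hq.1
  have h1 := (measureReal_mono sub fin).trans ((measureReal_union_le _ _).trans
    (add_le_add le_rfl ((measureReal_biUnion_finset_le _ _).trans
      (Finset.sum_le_sum fun q hq => wseg_real (Finset.ne_of_mem_erase hq)))))
  rw [wball _ wR_pos.le, wR_sq, ← Finset.mul_sum] at h1
  unfold wst
  linarith

theorem warea (P : Finset ℂ) {r : ℝ} (hr : 0 ≤ r) (h : ∀ p ∈ P, ‖p‖ ≤ r) :
    ∑ p ∈ P, wst P p + volume.real (ball 0 r ∩ wfar P) + 2 * √3 * (P.card : ℝ) ≤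
      π * (r + 2) ^ 2 := by
  have s1 : ∀ p ∈ P, wcell P p ⊆ ball 0 (r + 2) := by
    intro p hp z hz
    have a := h p hp
    have b := hz.1
    have c := norm_add_le (z - p) p
    have d := wR_le
    rw [sub_add_cancel] at c
    rw [mem_ball_zero_iff]
    linarith
  have s2 : ball 0 r ∩ wfar P ⊆ ball 0 (r + 2) :=
    Set.inter_subset_left.trans (ball_subset_ball (by linarith))
  have s3 : (⋃ p ∈ P, wcell P p) ⊆ ball 0 (r + 2) := Set.iUnion₂_subset s1
  have f0 : volume (ball (0 : ℂ) (r + 2)) ≠ ⊤ := measure_ball_lt_top.ne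
  have e1 : volume.real (⋃ p ∈ P, wcell P p) = ∑ p ∈ P, volume.real (wcell P p) := by
    refine measureReal_biUnion_finset (fun p hp q hq pq => ?_) (fun p _ => wcell_meas P p)
      fun p hp => measure_ne_top_of_subset (s1 p hp) f0
    rw [Function.onFun, Set.disjoint_left]
    intro z a b
    exact lt_asymm (a.2 q (Finset.mem_erase.2 ⟨pq.symm, hq⟩)) (b.2 p (Finset.mem_erase.2 ⟨pq, hp⟩))
  have e2 := measureReal_union (μ := volume) (s₁ := ⋃ p ∈ P, wcell P p) (s₂ := ball 0 r ∩ wfar P)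
    (Set.disjoint_iUnion₂_left.2 fun p hp => Set.disjoint_left.2 fun z a b =>
      (b.2 p hp).not_gt a.1)
    (measurableSet_ball.inter (wfar_meas P)) (measure_ne_top_of_subset s3 f0)
    (measure_ne_top_of_subset s2 f0)
  have e3 := measureReal_mono (μ := volume) (Set.union_subset s3 s2) f0
  have e4 := Finset.sum_le_sum fun p (_ : p ∈ P) => wcell_vol P p
  rw [Finset.sum_add_distrib, Finset.sum_const, nsmul_eq_mul] at e4
  rw [e2, e1, wball _ (by linarith)] at e3
  linarith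

theorem exists_wst (P : Finset ℂ) (hP : Sep P) : ∃ (w : ℂ → ℝ) (μ : MeasureTheory.Measure ℂ),
    Wst P w μ ∧ ∀ r : ℝ, 0 ≤ r → (∀ p ∈ P, ‖p‖ ≤ r) →
      μ.real (Metric.ball 0 r) + 2 * √3 * (P.card : ℝ) ≤ Real.pi * (r + 2) ^ 2 := by
  obtain ⟨μ, hμ⟩ : ∃ μ : Measure ℂ, ∀ S, μ S =
      ∑ p ∈ P, ENNReal.ofReal (wst P p) * Measure.dirac p S + volume (S ∩ wfar P) :=
    ⟨∑ p ∈ P, ENNReal.ofReal (wst P p) • Measure.dirac p + volume.restrict (wfar P), fun S => by
      simp only [Measure.add_apply, Measure.finsetSum_apply, Measure.smul_apply, smul_eq_mul,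
        Measure.restrict_apply' (wfar_meas P)]⟩
  have w0 := fun p hp => wst_nonneg (p := p) hP hp
  have up : ∀ S, ∑ p ∈ P, ENNReal.ofReal (wst P p) * Measure.dirac p S ≤
      ENNReal.ofReal (∑ p ∈ P, wst P p) := by
    intro S
    rw [ENNReal.ofReal_sum_of_nonneg w0]
    exact Finset.sum_le_sum fun p _ => mul_le_of_le_one_right' prob_le_one
  have f0 : ∀ (x : ℂ) (r : ℝ), volume (ball x r ∩ wfar P) ≠ ⊤ := fun x r =>
    measure_ne_top_of_subset Set.inter_subset_left measure_ball_lt_top.ne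
  have fin : ∀ (x : ℂ) (r : ℝ), μ (ball x r) ≠ ⊤ := fun x r => by
    rw [hμ]
    exact ENNReal.add_ne_top.2 ⟨ne_top_of_le_ne_top ENNReal.ofReal_ne_top (up _), f0 x r⟩
  refine ⟨wst P, μ, ⟨loc_wst hP, fin, fun F S hF hS hf => ?_, fun z hz => ?_⟩, fun r hr h => ?_⟩
  · rw [measureReal_def, ← ENNReal.ofReal_le_iff_le_toReal hf,
      ENNReal.ofReal_sum_of_nonneg fun p hp => w0 p (hF hp), hμ]
    refine le_add_right (le_trans (le_of_eq ?_) (Finset.sum_le_sum_of_subset hF))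
    exact Finset.sum_congr rfl fun p hp => by rw [Measure.dirac_apply_of_mem (hS p hp), mul_one]
  · have sub : ball z 1 ⊆ ball z 3 ∩ wfar P := by
      intro y hy
      refine ⟨ball_subset_ball (by norm_num) hy, fun p hp => ?_⟩
      have a := hz p hp
      have b := norm_sub_le_norm_sub_add_norm_sub p y z
      have c := mem_ball_iff_norm.1 hy
      have d := wR_le
      rw [norm_sub_rev p y] at b
      linarith
    have h1 : volume (ball z 1) ≤ μ (ball z 3) := by
      rw [hμ]; exact le_add_left (measure_mono sub)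
    have h2 := ENNReal.toReal_mono (fin z 3) h1
    have h3 := wball z zero_le_one
    have h4 := pi_gt_three
    rw [measureReal_def] at h3 ⊢
    linarith
  · have h1 : μ (ball 0 r) ≤ ENNReal.ofReal (∑ p ∈ P, wst P p) + volume (ball 0 r ∩ wfar P) := by
      rw [hμ]; exact add_le_add (up _) le_rfl
    have h2 := ENNReal.toReal_mono (ENNReal.add_ne_top.2 ⟨ENNReal.ofReal_ne_top, f0 0 r⟩) h1
    rw [ENNReal.toReal_add ENNReal.ofReal_ne_top (f0 0 r),
      ENNReal.toReal_ofReal (Finset.sum_nonneg w0)] at h2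
    have h3 := warea P hr h
    rw [measureReal_def] at h3 ⊢
    linarith

end Pool.Agent.Lib.MP_b07bdb_co.Nk
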