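import Pool.Agent.Lib.MP_b07bdb_co.Nk.Count
import Pool.Agent.Lib.MP_b07bdb_co.Nk.Scale
import Pool.Agent.Lib.MP_b07bdb_co.Nk.Param
import Pool.Agent.Lib.MP_b07bdb_co.Nk.WstF

/-! The asymptotic upper bound for the number of discs. -/

namespace Pool.Agent.Lib.MP_b07bdb_co.Nk

open Metric MeasureTheory Filter

theorem card_upper (ε : ℝ) (hε : 0 < ε) : ∀ᶠ k : ℕ in atTop, ∀ S : Finset ℂ, Good S k →
    (S.card : ℝ) ≤ 2 * Real.pi / √3 * (k : ℝ) ^ 2 - (k : ℝ) ^ ((4 : ℝ) / 3 - ε) := by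
  obtain ⟨C, hC, hU⟩ := use_all_scales
  obtain ⟨CL, hL, hLat⟩ := exists_latSt
  obtain ⟨c, hc, hT⟩ := total_waste hC hL hLat
  set θ : ℝ := min (ε / 2) (1 / 10) with hθ
  have hθ0 : 0 < θ := lt_min (by linarith) (by norm_num)
  have hθ1 : θ ≤ 1 / 10 := min_le_right _ _
  have hθ2 : θ ≤ ε / 2 := min_le_left _ _
  obtain ⟨M, t₀, lam₀, hM, hl, hU⟩ := hU θ hθ0
  filter_upwards [params θ M t₀ lam₀ c hθ0 hθ1 hM hl hc,
    ev_rpow_le ((4 : ℝ) / 3 - ε) ((4 : ℝ) / 3 - θ) 8 c (by linarith) hc,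
    ev_rpow_le 1 ((4 : ℝ) / 3 - θ) 100 c (by linarith) hc, eventually_ge_atTop 1]
    with k hk h1 h2 h3 S hS
  obtain ⟨T, h, hT0, hT1, hh, hlc, hk⟩ := hk
  obtain ⟨t, ht1, ht2, ht3, hUse⟩ := hU T hT1
  obtain ⟨a1, a2, a3, a4, a5⟩ := hk t ht1 ht2
  obtain ⟨w, μ, hW, hA⟩ := exists_wst S hS.2.1
  have hA := hA (2 * k) (by positivity) (fun p hp => Reach.norm_le (hS.2.2 p hp))
  have hB := hT S k w μ t h _ hS hW ht3 a1 a2 hh a3 a4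
    (mul_nonneg hl.le (Real.rpow_nonneg hT0.le _)) hlc hUse
  have hB' : c * (k : ℝ) ^ ((4 : ℝ) / 3 - θ) ≤ μ.real (ball 0 (2 * k)) :=
    le_trans (mul_le_mul_of_nonneg_left a5 hc.le) hB
  rw [Real.rpow_one] at h2
  have hk1 : (1 : ℝ) ≤ k := by exact_mod_cast h3
  have hs := sq3
  have hs0 := sq3_pos
  have hs2 : √3 ≤ 2 := by nlinarith
  have hpi := Real.pi_le_four
  have hpi0 := Real.pi_pos
  have hx : 0 ≤ (k : ℝ) ^ ((4 : ℝ) / 3 - ε) := by positivity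
  have key : 2 * √3 * (S.card : ℝ) ≤
      2 * √3 * (2 * Real.pi / √3 * (k : ℝ) ^ 2 - (k : ℝ) ^ ((4 : ℝ) / 3 - ε)) := by
    have e1 : 2 * √3 * (2 * Real.pi / √3 * (k : ℝ) ^ 2 - (k : ℝ) ^ ((4 : ℝ) / 3 - ε)) =
        4 * Real.pi * (k : ℝ) ^ 2 - 2 * √3 * (k : ℝ) ^ ((4 : ℝ) / 3 - ε) := by
      field_simp
      ring
    rw [e1]
    have e2 : Real.pi * (2 * (k : ℝ) + 2) ^ 2 = 4 * Real.pi * (k : ℝ) ^ 2 + Real.pi * (8 * k + 4) := by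
      ring
    have e3 : Real.pi * (8 * (k : ℝ) + 4) ≤ 48 * k := by nlinarith
    have e4 : 2 * √3 * (k : ℝ) ^ ((4 : ℝ) / 3 - ε) ≤ 4 * (k : ℝ) ^ ((4 : ℝ) / 3 - ε) := by
      nlinarith
    linarith
  exact le_of_mul_le_mul_left key (by positivity)

end Pool.Agent.Lib.MP_b07bdb_co.Nk
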