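import Pool.Agent.Lib.MP_b07bdb_co.Nk.Ovl

/-! A strip without far centres contains a large hole. -/

namespace Pool.Agent.Lib.MP_b07bdb_co.Nk

open Metric MeasureTheory

lemma Cap_exists (y r : ℝ) (h : y ^ 2 + 9 ≤ r ^ 2) (hr : 0 ≤ r) :
    ∃ z : ℂ, z.im = y ∧ ‖z‖ = r ∧ 3 ≤ z.re := by
  refine ⟨⟨√(r ^ 2 - y ^ 2), y⟩, rfl, ?_, ?_⟩
  · have h1 : ‖(⟨√(r ^ 2 - y ^ 2), y⟩ : ℂ)‖ ^ 2 = r ^ 2 := by
      rw [Complex.sq_norm, Complex.normSq_apply]
      simp only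
      rw [Real.mul_self_sqrt (by linarith)]
      ring
    exact (pow_left_inj₀ (norm_nonneg _) hr two_ne_zero).1 h1
  · exact Real.le_sqrt_of_sq_le (by linarith)

/-- For `a < ⌊v / 3⌋₊`, `b < ⌊h / 6⌋₊` let `z a b` have imaginary part
`y = 2 k σ - v + 3 + 6 a`, norm `r = 2 k - 3 - 6 b` and real part `√(r ^ 2 - y ^ 2) ≥ 3`. A centre
`p` with `‖p - z a b‖ < 3` would contradict `hno`, so `Wst.hole` applies. The balls of radius `3`
are pairwise disjoint (imaginary parts or norms differ by at least `6`) and lie in the set;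
`sum_real_le_of_disjoint`; `⌊v / 3⌋₊ ⌊h / 6⌋₊ ≥ (v / 4) (h / 12)`. -/
theorem cap_waste {P : Finset ℂ} {w : ℂ → ℝ} {μ : Measure ℂ} (hW : Wst P w μ) {k h v σ : ℝ}
    (hv : 12 ≤ v) (hvk : v ≤ k / 100) (hh : 12 ≤ h) (hhk : h ≤ k / 10) (hσ0 : 0 ≤ σ)
    (hσ : σ ≤ 1 / 10)
    (hno : ∀ p ∈ P, |p.im - 2 * k * σ| < v → 0 < p.re → ‖p‖ < 2 * k - h) :
    h * v / 100 ≤ μ.real {z : ℂ | 2 * k - h < ‖z‖ ∧ ‖z‖ < 2 * k ∧ |z.im - 2 * k * σ| < v} := by
  classical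
  have hk : 1200 ≤ k := by linarith
  set A : ℕ := ⌊v / 3⌋₊ with hA
  set B : ℕ := ⌊h / 6⌋₊ with hB
  have hA1 : (A : ℝ) ≤ v / 3 := Nat.floor_le (by positivity)
  have hB1 : (B : ℝ) ≤ h / 6 := Nat.floor_le (by positivity)
  have hA2 : v / 4 ≤ (A : ℝ) := by
    have := Nat.lt_floor_add_one (v / 3)
    rw [← hA] at this
    linarith
  have hB2 : h / 12 ≤ (B : ℝ) := by
    have := Nat.lt_floor_add_one (h / 6)
    rw [← hB] at this
    linarith
  have hkσ0 : 0 ≤ k * σ := by positivity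
  have hkσ : k * σ ≤ k / 10 := by nlinarith
  have hex : ∀ g : ℕ × ℕ, ∃ z : ℂ, g ∈ Finset.range A ×ˢ Finset.range B →
      z.im = 2 * k * σ - v + 3 + 6 * g.1 ∧ ‖z‖ = 2 * k - 3 - 6 * g.2 ∧ 3 ≤ z.re := by
    intro g
    by_cases hg : g ∈ Finset.range A ×ˢ Finset.range B
    · obtain ⟨h1, h2⟩ := Finset.mem_product.1 hg
      have h1' : (g.1 : ℝ) + 1 ≤ A := by exact_mod_cast Finset.mem_range.1 h1
      have h2' : (g.2 : ℝ) + 1 ≤ B := by exact_mod_cast Finset.mem_range.1 h2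
      have g1 : (0 : ℝ) ≤ g.1 := Nat.cast_nonneg _
      have g2 : (0 : ℝ) ≤ g.2 := Nat.cast_nonneg _
      obtain ⟨z, hz⟩ := Cap_exists (2 * k * σ - v + 3 + 6 * g.1) (2 * k - 3 - 6 * g.2) (by
        have e1 : |2 * k * σ - v + 3 + 6 * g.1| ≤ k := by
          rw [abs_le]; constructor <;> nlinarith
        have e2 := sq_le_sq' (abs_le.1 e1).1 (abs_le.1 e1).2
        have e3 : 3 / 2 * k ≤ 2 * k - 3 - 6 * g.2 := by linarith
        nlinarith) (by linarith)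
      exact ⟨z, fun _ => hz⟩
    · exact ⟨0, fun hg' => absurd hg' hg⟩
  choose z hz using hex
  have hb : ∀ g ∈ Finset.range A ×ˢ Finset.range B,
      |(z g).im - 2 * k * σ| ≤ v - 3 ∧ 2 * k - h + 3 ≤ ‖z g‖ ∧ ‖z g‖ ≤ 2 * k - 3 := by
    intro g hg
    obtain ⟨e1, e2, -⟩ := hz g hg
    obtain ⟨h1, h2⟩ := Finset.mem_product.1 hg
    have h1' : (g.1 : ℝ) + 1 ≤ A := by exact_mod_cast Finset.mem_range.1 h1
    have h2' : (g.2 : ℝ) + 1 ≤ B := by exact_mod_cast Finset.mem_range.1 h2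
    have g1 : (0 : ℝ) ≤ g.1 := Nat.cast_nonneg _
    have g2 : (0 : ℝ) ≤ g.2 := Nat.cast_nonneg _
    rw [e1, e2, abs_le]
    refine ⟨⟨?_, ?_⟩, ?_, ?_⟩ <;> linarith
  have hnear : ∀ g ∈ Finset.range A ×ˢ Finset.range B, ∀ p : ℂ, ‖p - z g‖ < 3 →
      2 * k - h < ‖p‖ ∧ ‖p‖ < 2 * k ∧ |p.im - 2 * k * σ| < v ∧ 0 < p.re := by
    intro g hg p hp
    obtain ⟨b1, b2, b3⟩ := hb g hg
    have c1 := abs_le.1 (abs_norm_sub_norm_le p (z g))
    have c2 := abs_le.1 (Complex.abs_im_le_norm (p - z g))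
    have c3 := abs_le.1 (Complex.abs_re_le_norm (p - z g))
    rw [Complex.sub_im] at c2
    rw [Complex.sub_re] at c3
    have c4 := (hz g hg).2.2
    have c5 := abs_le.1 b1
    refine ⟨by linarith [c1.1], by linarith [c1.2], ?_, by linarith [c3.1]⟩
    rw [abs_lt]
    constructor <;> linarith [c2.1, c2.2, c5.1, c5.2]
  have hfin : μ {z : ℂ | 2 * k - h < ‖z‖ ∧ ‖z‖ < 2 * k ∧ |z.im - 2 * k * σ| < v} ≠ ⊤ :=
    ne_top_of_le_ne_top (hW.fin 0 (2 * k)) (measure_mono fun p hp => by simpa using hp.2.1)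
  have hsum := sum_real_le_of_disjoint μ (Finset.range A ×ˢ Finset.range B)
    (fun g => ball (z g) 3) _ (fun g _ => measurableSet_ball) (fun g hg p hp => by
      obtain ⟨d1, d2, d3, -⟩ := hnear g hg p (by simpa [dist_eq_norm] using hp)
      exact ⟨d1, d2, d3⟩) hfin (by
      intro g hg g' hg' hne
      apply ball_disjoint_ball
      rw [dist_eq_norm]
      obtain ⟨e1, e2, -⟩ := hz g hg
      obtain ⟨e1', e2', -⟩ := hz g' hg'
      have c1 := abs_le.1 (abs_norm_sub_norm_le (z g) (z g'))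
      have c2 := abs_le.1 (Complex.abs_im_le_norm (z g - z g'))
      rw [Complex.sub_im, e1, e1'] at c2
      rw [e2, e2'] at c1
      by_cases h1 : g.1 = g'.1
      · have h2 : g.2 ≠ g'.2 := fun h2 => hne (Prod.ext h1 h2)
        rcases lt_or_gt_of_ne h2 with h3 | h3
        · have : (g.2 : ℝ) + 1 ≤ g'.2 := by exact_mod_cast h3
          linarith [c1.2]
        · have : (g'.2 : ℝ) + 1 ≤ g.2 := by exact_mod_cast h3
          linarith [c1.1]
      · rcases lt_or_gt_of_ne h1 with h3 | h3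
        · have : (g.1 : ℝ) + 1 ≤ g'.1 := by exact_mod_cast h3
          linarith [c2.1]
        · have : (g'.1 : ℝ) + 1 ≤ g.1 := by exact_mod_cast h3
          linarith [c2.2])
  have hone : ∀ g ∈ Finset.range A ×ˢ Finset.range B, (1 : ℝ) ≤ μ.real (ball (z g) 3) := by
    intro g hg
    apply hW.hole
    intro p hp
    by_contra hc
    obtain ⟨d1, -, d3, d4⟩ := hnear g hg p (not_le.1 hc)
    linarith [hno p hp d3 d4]
  have h1 := Finset.sum_le_sum hone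
  simp only [Finset.sum_const, Finset.card_product, Finset.card_range, nsmul_eq_mul, mul_one,
    Nat.cast_mul] at h1
  have h2 : v / 4 * (h / 12) ≤ (A : ℝ) * B :=
    mul_le_mul hA2 hB2 (by positivity) (Nat.cast_nonneg _)
  nlinarith [mul_nonneg (by linarith : (0 : ℝ) ≤ h) (by linarith : (0 : ℝ) ≤ v)]

end Pool.Agent.Lib.MP_b07bdb_co.Nk
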