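import Pool.Agent.Lib.MP_b07bdb_co.Nk.RelA

/-! Cartan's covering lemma. -/

namespace Pool.Agent.Lib.MP_b07bdb_co.Nk

open Metric MeasureTheory

open Classical in
lemma Cartan_harm (z : ℂ) (h : ℝ) (hh : 0 < h) (n : ℕ) : ∀ S : Finset ℂ, S.card = n →
    (∀ j : ℕ, 1 ≤ j → (S.filter fun b => ‖b - z‖ ≤ j * h).card < j) →
    ∑ b ∈ S, 1 / ‖b - z‖ ≤ ((harmonic n : ℚ) : ℝ) / h := by
  induction n with
  | zero =>
    intro S hS _
    rw [Finset.card_eq_zero] at hS
    subst hS
    simp
  | succ n ih =>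
    intro S hS hs
    have h1 := hs (n + 1) (by omega)
    have h2 : ∃ b ∈ S, ¬ ‖b - z‖ ≤ ((n + 1 : ℕ) : ℝ) * h := by
      by_contra hc
      push Not at hc
      rw [Finset.filter_true_of_mem hc] at h1
      omega
    obtain ⟨b, hb, hbz⟩ := h2
    push Not at hbz
    have hcard : (S.erase b).card = n := by
      rw [Finset.card_erase_of_mem hb]; omega
    have h3 := ih (S.erase b) hcard (fun j hj => lt_of_le_of_lt
      (Finset.card_le_card (Finset.filter_subset_filter _ (Finset.erase_subset b S))) (hs j hj))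
    rw [← Finset.add_sum_erase S _ hb, harmonic_succ]
    have hpos : (0 : ℝ) < ((n + 1 : ℕ) : ℝ) * h := by positivity
    have h4 : 1 / ‖b - z‖ ≤ 1 / (((n + 1 : ℕ) : ℝ) * h) :=
      one_div_le_one_div_of_le hpos hbz.le
    have h5 : ((harmonic n + ((n + 1 : ℕ) : ℚ)⁻¹ : ℚ) : ℝ) / h
        = 1 / (((n + 1 : ℕ) : ℝ) * h) + ((harmonic n : ℚ) : ℝ) / h := by
      push_cast
      field_simp
      ring
    rw [h5]
    linarith

open Classical in
/-- If every disc `closedBall z (j h)`, `j ≥ 1`, contains fewer than `j` points of `S` then the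
sum of the reciprocal distances is at most `harmonic (card S) / h`. Induction on `card S`: remove
a farthest point `b`; with `n = card S` the hypothesis for `j = n` gives `n h < ‖b - z‖`. Then use
`harmonic_le_one_add_log`. -/
lemma sum_inv_le_of_sparse (S : Finset ℂ) (z : ℂ) (h : ℝ) (hh : 0 < h)
    (hs : ∀ j : ℕ, 1 ≤ j → (S.filter fun b => ‖b - z‖ ≤ j * h).card < j) :
    ∑ b ∈ S, 1 / ‖b - z‖ ≤ (1 + Real.log S.card) / h := by
  refine (Cartan_harm z h hh S.card S rfl hs).trans ?_
  exact div_le_div_of_nonneg_right (harmonic_le_one_add_log _) hh.le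

/-- Let `X` be the set of `z` for which some `j ≥ 1` has at least `j` points of `S` within `j h`
of `z` (then `j ≤ card S`). Vitali
(`Vitali.exists_disjoint_subfamily_covering_enlargement_closedBall` for the index set of pairs
`(z, j)`) gives a disjoint subfamily whose five-fold enlargements cover `X`; each member contains
at least `j ≥ 1` points of `S`, so the subfamily is finite with `∑ j ≤ card S`. (Alternatively
the greedy choice with doubled discs, by induction on `card S`.) Off `X` use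
`sum_inv_le_of_sparse`; `j = 1` gives `h ≤ ‖b - z‖`. -/
theorem cartan (S : Finset ℂ) (h : ℝ) (hh : 1 ≤ h) :
    ∃ X : Set ℂ, Cov X (5 * h * S.card) ∧ ∀ z ∉ X, (∀ b ∈ S, h ≤ ‖b - z‖) ∧
      ∑ b ∈ S, 1 / ‖b - z‖ ≤ (1 + Real.log S.card) / h := by
  classical
  have h0 : 0 < h := by linarith
  set F : ℂ × ℕ → Finset ℂ := fun a => S.filter fun b => ‖b - a.1‖ ≤ a.2 * h with hF
  set t : Set (ℂ × ℕ) := {a | 1 ≤ a.2 ∧ a.2 ≤ (F a).card} with ht
  have hr : ∀ a ∈ t, (a.2 : ℝ) * h ≤ S.card * h := by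
    intro a ha
    have : a.2 ≤ S.card := ha.2.trans (Finset.card_le_card (Finset.filter_subset _ _))
    exact mul_le_mul_of_nonneg_right (by exact_mod_cast this) h0.le
  obtain ⟨u, hut, hdis, hcov⟩ :=
    Vitali.exists_disjoint_subfamily_covering_enlargement_closedBall t (fun a => a.1)
      (fun a => (a.2 : ℝ) * h) (S.card * h) hr 5 (by norm_num)
  have hFd : ∀ a ∈ u, ∀ a' ∈ u, a ≠ a' → Disjoint (F a) (F a') := by
    intro a ha a' ha' hne
    rw [Finset.disjoint_left]
    intro b hb hb'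
    have hd := hdis ha ha' hne
    rw [Function.onFun, Set.disjoint_left] at hd
    refine hd (a := b) ?_ ?_
    · rw [mem_closedBall, dist_eq_norm]; exact (Finset.mem_filter.1 hb).2
    · rw [mem_closedBall, dist_eq_norm]; exact (Finset.mem_filter.1 hb').2
  have hfin : u.Finite := by
    refine Set.Finite.of_finite_image (f := F) ?_ ?_
    · refine (S.powerset.finite_toSet).subset ?_
      rintro _ ⟨a, _, rfl⟩
      exact Finset.mem_coe.2 (Finset.mem_powerset.2 (Finset.filter_subset _ _))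
    · intro a ha a' ha' he
      by_contra hne
      have hd := hFd a ha a' ha' hne
      rw [← he, disjoint_self, Finset.bot_eq_empty] at hd
      have h1 := (hut ha).1
      have h2 := (hut ha).2
      rw [hd, Finset.card_empty] at h2
      omega
  set U := hfin.toFinset with hU
  have hUm : ∀ a, a ∈ U ↔ a ∈ u := fun a => Set.Finite.mem_toFinset _
  have hsum : ∑ a ∈ U, a.2 ≤ S.card := by
    calc ∑ a ∈ U, a.2 ≤ ∑ a ∈ U, (F a).card :=
          Finset.sum_le_sum fun a ha => (hut ((hUm a).1 ha)).2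
      _ = (U.biUnion F).card := by
          rw [Finset.card_biUnion]
          intro a ha a' ha' hne
          exact hFd a ((hUm a).1 ha) a' ((hUm a').1 ha') hne
      _ ≤ S.card := Finset.card_le_card (Finset.biUnion_subset.2 fun a _ =>
          Finset.filter_subset _ _)
  refine ⟨{z | ∃ j : ℕ, (z, j) ∈ t}, ⟨U.image fun a => (a.1, 5 * ((a.2 : ℝ) * h)), ?_, ?_, ?_⟩, ?_⟩
  · intro b hb
    obtain ⟨a, ha, rfl⟩ := Finset.mem_image.1 hb
    have h1 : (1 : ℝ) ≤ a.2 := by exact_mod_cast (hut ((hUm a).1 ha)).1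
    show 1 ≤ 5 * ((a.2 : ℝ) * h)
    nlinarith
  · refine (Finset.sum_image_le_of_nonneg ?_).trans ?_
    · intro b hb
      obtain ⟨a, ha, rfl⟩ := Finset.mem_image.1 hb
      show 0 ≤ 5 * ((a.2 : ℝ) * h)
      positivity
    · have h1 : ((∑ a ∈ U, a.2 : ℕ) : ℝ) ≤ S.card := by exact_mod_cast hsum
      have h2 : ∑ a ∈ U, 5 * ((a.2 : ℝ) * h) = 5 * h * ((∑ a ∈ U, a.2 : ℕ) : ℝ) := by
        push_cast
        rw [Finset.mul_sum]
        exact Finset.sum_congr rfl fun a _ => by ring
      show ∑ a ∈ U, 5 * ((a.2 : ℝ) * h) ≤ _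
      rw [h2]
      exact mul_le_mul_of_nonneg_left h1 (by positivity)
  · rintro z ⟨j, hj⟩
    obtain ⟨b, hb, hsub⟩ := hcov (z, j) hj
    refine ⟨(b.1, 5 * ((b.2 : ℝ) * h)), Finset.mem_image.2 ⟨b, (hUm b).2 hb, rfl⟩, ?_⟩
    have := hsub (mem_closedBall_self (show (0 : ℝ) ≤ (j : ℝ) * h by positivity))
    rwa [mem_closedBall, dist_eq_norm] at this
  · intro z hz
    have hs : ∀ j : ℕ, 1 ≤ j → (S.filter fun b => ‖b - z‖ ≤ j * h).card < j := by
      intro j hj
      by_contra hc
      exact hz ⟨j, hj, not_lt.1 hc⟩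
    refine ⟨fun b hb => ?_, sum_inv_le_of_sparse S z h h0 (by convert hs)⟩
    by_contra hc
    have h1 := hs 1 le_rfl
    have h2 : b ∈ S.filter fun b => ‖b - z‖ ≤ ((1 : ℕ) : ℝ) * h :=
      Finset.mem_filter.2 ⟨hb, by push_cast; linarith [not_le.1 hc]⟩
    have := Finset.card_pos.2 ⟨b, h2⟩
    omega

end Pool.Agent.Lib.MP_b07bdb_co.Nk
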