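import Pool.Agent.Lib.MP_b07bdb_co.Step

/-! The construction: geometry of one sector. -/

namespace Pool.Agent.Lib.MP_b07bdb_co.Nk

/-- The rotation `ρ` between neighbouring sectors and the radius `R` of the inner ring. -/
structure CPar (ρ : ℂ) (R : ℝ) : Prop where
  unit : ρ.re ^ 2 + ρ.im ^ 2 = 1
  s_pos : 0 < ρ.im
  s_le : ρ.im ≤ 1 / 10
  c_ge : 9 / 10 ≤ ρ.re
  R_pos : 0 < R
  R_sq : R ^ 2 * (1 - ρ.re) = 2

/-- Distance from the upper boundary line of the sector. -/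
def cv (ρ z : ℂ) : ℝ := z.re * ρ.im - z.im * ρ.re

/-- Length of the broken path along the two boundary directions. -/
noncomputable def cL (ρ z : ℂ) : ℝ := z.re + z.im * ((1 - ρ.re) / ρ.im)

/-- The lattice of the sector. -/
noncomputable def cz (R : ℝ) (j : ℕ) (n : ℤ) : ℂ := ⟨R + j + 2 * n, √3 * j⟩

/-- First index of a row. -/
noncomputable def cn0 (ρ : ℂ) (R : ℝ) (j : ℕ) : ℤ := ⌈((3 + √3 * j * ρ.re) / ρ.im - R - j) / 2⌉

/-- Last index of a row. -/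
noncomputable def cn1 (ρ : ℂ) (R K : ℝ) (j : ℕ) : ℤ :=
  ⌊(2 * K - R - j - √3 * j * ((1 - ρ.re) / ρ.im)) / 2⌋

/-- The direction from the first disc of a row to its connector. -/
structure Conn (ρ : ℂ) (R : ℝ) (j : ℕ) (e : ℂ) : Prop where
  unit : e.re ^ 2 + e.im ^ 2 = 1
  re : e.re ≤ 0
  im : 0 ≤ e.im
  touch : ∃ n : ℤ, dist (cz R j (cn0 ρ R j) + 2 * e) (ρ * cz R 0 n) = 2
  far : ∀ n : ℤ, 2 ≤ dist (cz R j (cn0 ρ R j) + 2 * e) (ρ * cz R 0 n)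

/-- The centres used in one sector. -/
inductive CPt (ρ : ℂ) (R : ℝ) (e : ℕ → ℂ) : ℂ → Prop
  | tr (n : ℤ) : 0 ≤ n → CPt ρ R e (cz R 0 n)
  | row (j : ℕ) (n : ℤ) : 1 ≤ j → cn0 ρ R j ≤ n → CPt ρ R e (cz R j n)
  | con (j : ℕ) : 1 ≤ j → CPt ρ R e (cz R j (cn0 ρ R j) + 2 * e j)

variable {ρ : ℂ} {R : ℝ} {e : ℕ → ℂ}

lemma c_dist_sq (p q : ℂ) : dist p q ^ 2 = (p.re - q.re) ^ 2 + (p.im - q.im) ^ 2 := by
  rw [dist_eq_norm, Complex.sq_norm, Complex.normSq_apply, Complex.sub_re, Complex.sub_im]; ring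

lemma c_two_le {p q : ℂ} : 2 ≤ dist p q ↔ 4 ≤ dist p q ^ 2 :=
  ⟨fun h => by nlinarith, fun h => by
    by_contra h2
    push Not at h2
    nlinarith [dist_nonneg (x := p) (y := q)]⟩

lemma c_eq_two {p q : ℂ} (h : dist p q ^ 2 = 4) : dist p q = 2 := by
  have : dist p q ^ 2 = 2 ^ 2 := by rw [h]; norm_num
  exact (pow_left_inj₀ dist_nonneg (by norm_num) two_ne_zero).1 this

lemma c_sq3 : (17 / 10 : ℝ) ≤ √3 ∧ √3 ≤ 18 / 10 := by
  constructor <;> nlinarith [sq3, sq3_pos]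

lemma CPar.c_le (h : CPar ρ R) : ρ.re ≤ 1 := by nlinarith [h.unit, h.c_ge, sq_nonneg ρ.im]

lemma CPar.norm (h : CPar ρ R) : ‖ρ‖ = 1 := by
  have : ‖ρ‖ ^ 2 = 1 ^ 2 := by
    rw [Complex.sq_norm, Complex.normSq_apply]; linear_combination h.unit
  exact (pow_left_inj₀ (norm_nonneg _) (by norm_num) two_ne_zero).1 this

lemma CPar.Rs (h : CPar ρ R) : 1 ≤ R * ρ.im ∧ R * ρ.im ≤ 2 := by
  have h1 : (R * ρ.im) ^ 2 = 2 * (1 + ρ.re) := by
    linear_combination (1 + ρ.re) * h.R_sq + R ^ 2 * h.unit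
  have h2 := mul_pos h.R_pos h.s_pos
  constructor <;> nlinarith [h.c_ge, h.c_le]

lemma CPar.tau (h : CPar ρ R) : 0 ≤ (1 - ρ.re) / ρ.im ∧ (1 - ρ.re) / ρ.im ≤ 1 := by
  refine ⟨div_nonneg (by linarith [h.c_le]) h.s_pos.le, (div_le_one h.s_pos).2 ?_⟩
  nlinarith [h.unit, h.s_pos, h.s_le, h.c_ge, h.c_le]

lemma cv_ge (h : CPar ρ R) {j : ℕ} {n : ℤ} (hn : cn0 ρ R j ≤ n) : 3 ≤ cv ρ (cz R j n) := by
  have h1 : ((3 + √3 * j * ρ.re) / ρ.im - R - j) / 2 ≤ n := Int.ceil_le.1 hn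
  have h2 : (3 + √3 * j * ρ.re) / ρ.im ≤ R + j + 2 * n := by linarith
  rw [div_le_iff₀ h.s_pos] at h2
  simp only [cv, cz]
  linarith

lemma cv_lt (h : CPar ρ R) (j : ℕ) : cv ρ (cz R j (cn0 ρ R j)) ≤ 3 + 2 * ρ.im := by
  have h1 : (cn0 ρ R j : ℝ) < ((3 + √3 * j * ρ.re) / ρ.im - R - j) / 2 + 1 := Int.ceil_lt_add_one _
  have h2 : R + j + 2 * cn0 ρ R j - 2 ≤ (3 + √3 * j * ρ.re) / ρ.im := by linarith
  rw [le_div_iff₀ h.s_pos] at h2
  simp only [cv, cz]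
  linarith

lemma cv_sq (h : CPar ρ R) (p q : ℂ) : (cv ρ p - cv ρ q) ^ 2 ≤ dist p q ^ 2 := by
  rw [c_dist_sq]
  have : (p.re - q.re) ^ 2 + (p.im - q.im) ^ 2 = (cv ρ p - cv ρ q) ^ 2 +
      ((p.re - q.re) * ρ.re + (p.im - q.im) * ρ.im) ^ 2 := by
    simp only [cv]
    linear_combination (-(p.re - q.re) ^ 2 - (p.im - q.im) ^ 2) * h.unit
  nlinarith [sq_nonneg ((p.re - q.re) * ρ.re + (p.im - q.im) * ρ.im)]

lemma two_le_of_cv (h : CPar ρ R) {p q : ℂ} (H : 2 ≤ cv ρ p - cv ρ q) : 2 ≤ dist p q :=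
  c_two_le.2 (by nlinarith [cv_sq h p q])

lemma two_le_of_re {p q : ℂ} (H : 2 ≤ p.re - q.re) : 2 ≤ dist p q :=
  c_two_le.2 (by rw [c_dist_sq]; nlinarith [sq_nonneg (p.im - q.im)])

lemma cv_mul (h : CPar ρ R) (q : ℂ) : cv ρ (ρ * q) = -q.im := by
  simp only [cv, Complex.mul_re, Complex.mul_im]
  linear_combination (-q.im) * h.unit

lemma trunk_sq (h : CPar ρ R) (p : ℂ) (n : ℤ) : dist p (ρ * cz R 0 n) ^ 2 =
    (p.re * ρ.re + p.im * ρ.im - R - 2 * n) ^ 2 + cv ρ p ^ 2 := by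
  rw [c_dist_sq]
  simp only [cv, cz, Complex.mul_re, Complex.mul_im, Nat.cast_zero, mul_zero, add_zero, sub_zero,
    zero_add]
  linear_combination ((R + 2 * n) ^ 2 - p.re ^ 2 - p.im ^ 2) * h.unit

lemma exists_conn (h : CPar ρ R) (j : ℕ) : ∃ e, Conn ρ R j e := by
  set F := cz R j (cn0 ρ R j) with hF
  have hv1 : 3 ≤ cv ρ F := cv_ge h le_rfl
  have hv2 : cv ρ F ≤ 3 + 2 * ρ.im := cv_lt h j
  let w : ℝ → ℝ := fun t =>
    ((F.re - 2 * √(1 - t ^ 2)) * ρ.re + (F.im + 2 * t) * ρ.im - R) / 2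
  let y : ℝ → ℝ := fun t => (F.re - 2 * √(1 - t ^ 2)) * ρ.im - (F.im + 2 * t) * ρ.re
  let f : ℝ → ℝ := fun t => 4 * ‖((w t : ℝ) : UnitAddCircle)‖ ^ 2 + y t ^ 2
  have hw : Continuous w := by fun_prop
  have hy : Continuous y := by fun_prop
  have hf : Continuous f :=
    (continuous_const.mul ((continuous_quotient_mk'.comp hw).norm.pow 2)).add (hy.pow 2)
  have hf' : ∀ t, f t = 4 * (w t - round (w t)) ^ 2 + y t ^ 2 := fun t => by
    simp only [f, UnitAddCircle.norm_eq, sq_abs]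
  have h0 : 4 ≤ f 0 := by
    have : y 0 = cv ρ F - 2 * ρ.im := by simp [y, cv]; ring
    rw [hf', this]
    nlinarith [sq_nonneg (w 0 - round (w 0)), h.s_le, h.s_pos]
  have h1 : f 1 ≤ 4 := by
    have : y 1 = cv ρ F - 2 * ρ.re := by simp [y, cv]; ring
    have h2 := abs_le.1 (abs_sub_round (w 1))
    rw [hf', this]
    nlinarith [h.s_le, h.c_ge, h.c_le, h2.1, h2.2]
  obtain ⟨t, ht, hft⟩ := intermediate_value_Icc' zero_le_one hf.continuousOn ⟨h1, h0⟩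
  have hs : √(1 - t ^ 2) ^ 2 = 1 - t ^ 2 := Real.sq_sqrt (by nlinarith [ht.1, ht.2])
  have key : ∀ n : ℤ, dist (F + 2 * (⟨-√(1 - t ^ 2), t⟩ : ℂ)) (ρ * cz R 0 n) ^ 2 =
      4 * (w t - n) ^ 2 + y t ^ 2 := fun n => by
    rw [trunk_sq h]
    simp only [w, y, cv, Complex.add_re, Complex.add_im, Complex.mul_re, Complex.mul_im,
      Complex.re_ofNat, Complex.im_ofNat]
    ring
  refine ⟨⟨-√(1 - t ^ 2), t⟩, by simp only; linarith, by simp, ht.1,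
    ⟨round (w t), c_eq_two ?_⟩, fun n => c_two_le.2 ?_⟩
  · rw [key, ← hf', hft]
  · rw [key]
    have := sq_le_sq.2 (round_le (w t) n)
    linarith [hf' t]

lemma Conn.bd {j : ℕ} {e : ℂ} (h : Conn ρ R j e) : -1 ≤ e.re ∧ e.im ≤ 1 := by
  constructor <;> nlinarith [h.unit, sq_nonneg e.re, sq_nonneg e.im, h.re, h.im]

lemma cz_sep {j j' : ℕ} {n n' : ℤ} (h : cz R j n ≠ cz R j' n') :
    2 ≤ dist (cz R j n) (cz R j' n') := by
  rw [c_two_le, c_dist_sq]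
  have e1 : ((cz R j n).re - (cz R j' n').re) ^ 2 + ((cz R j n).im - (cz R j' n').im) ^ 2 =
      ((4 * (((j : ℤ) - j') ^ 2 + ((j : ℤ) - j') * (n - n') + (n - n') ^ 2) : ℤ) : ℝ) := by
    simp only [cz]
    push_cast
    linear_combination ((j : ℝ) - j') ^ 2 * sq3
  rw [e1]
  have h2 : ((j : ℤ) - j') ≠ 0 ∨ n - n' ≠ 0 := by
    by_contra hc
    push Not at hc
    exact h (by rw [show j = j' by omega, show n = n' by omega])
  generalize (j : ℤ) - j' = a at h2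
  generalize n - n' = b at h2
  have h3 : 0 < a ^ 2 + a * b + b ^ 2 := by
    rcases h2 with h2 | h2
    · nlinarith [sq_pos_of_ne_zero h2, sq_nonneg (a + 2 * b)]
    · nlinarith [sq_pos_of_ne_zero h2, sq_nonneg (2 * a + b)]
  exact_mod_cast (by omega : (4 : ℤ) ≤ 4 * (a ^ 2 + a * b + b ^ 2))

lemma con_low {j j' : ℕ} {n0 n : ℤ} {e : ℂ} (h1 : e.re ^ 2 + e.im ^ 2 = 1) (h2 : e.re ≤ 0)
    (h3 : 0 ≤ e.im) (h : j' < j ∨ j' = j ∧ n0 ≤ n) :
    2 ≤ dist (cz R j n0 + 2 * e) (cz R j' n) := by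
  rw [c_two_le, c_dist_sq]
  have h4 : -1 ≤ e.re := by nlinarith [sq_nonneg e.im]
  obtain ⟨D, rfl⟩ : ∃ D, j = j' + D := ⟨j - j', by omega⟩
  obtain ⟨a, ha⟩ : ∃ a : ℤ, a = D + 2 * (n0 - n) := ⟨_, rfl⟩
  have e1 : ((cz R (j' + D) n0 + 2 * e).re - (cz R j' n).re) ^ 2 +
      ((cz R (j' + D) n0 + 2 * e).im - (cz R j' n).im) ^ 2 =
      4 + (a : ℝ) ^ 2 + 4 * a * e.re + 3 * (D : ℝ) ^ 2 + 4 * (√3 * D * e.im) := by
    simp only [cz, ha, Complex.add_re, Complex.add_im, Complex.mul_re, Complex.mul_im,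
      Complex.re_ofNat, Complex.im_ofNat]
    push_cast
    linear_combination 4 * h1 + (D : ℝ) ^ 2 * sq3
  rw [e1]
  have h5 : 0 ≤ √3 * D * e.im := by positivity
  rcases le_or_gt a 0 with h6 | h6
  · have : (a : ℝ) ≤ 0 := by exact_mod_cast h6
    nlinarith [mul_nonneg_of_nonpos_of_nonpos this h2, sq_nonneg (a : ℝ), sq_nonneg (D : ℝ)]
  · have h7 : (0 : ℝ) ≤ a := by exact_mod_cast h6.le
    have h8 : (0 : ℤ) ≤ a ^ 2 - 4 * a + 3 * (D : ℤ) ^ 2 := by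
      rcases Nat.lt_or_ge D 2 with hD | hD
      · have hD1 : D = 1 := by omega
        subst hD1
        have : a = 1 ∨ 3 ≤ a := by omega
        rw [Nat.cast_one]
        rcases this with h | h <;> nlinarith
      · have : (2 : ℤ) ≤ D := by exact_mod_cast hD
        nlinarith [sq_nonneg (a - 2)]
    have h9 : (0 : ℝ) ≤ (a : ℝ) ^ 2 - 4 * a + 3 * (D : ℝ) ^ 2 := by exact_mod_cast h8
    nlinarith [mul_nonneg h7 (by linarith : 0 ≤ e.re + 1)]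

lemma row_gap (h : CPar ρ R) {j j' : ℕ} {n : ℤ} (hj : j < j') (hn : cn0 ρ R j' ≤ n) :
    (cz R j (cn0 ρ R j)).re + 4 ≤ (cz R j' n).re := by
  have h1 := cv_ge h hn
  have h2 := cv_lt h j
  have h3 : (j : ℝ) + 1 ≤ j' := by exact_mod_cast hj
  have h4 : 1 ≤ √3 * ρ.re := by nlinarith [c_sq3.1, h.c_ge]
  simp only [cv, cz] at h1 h2 ⊢
  by_contra hc
  push Not at hc
  nlinarith [mul_lt_mul_of_pos_right hc h.s_pos, h.s_le, mul_le_mul_of_nonneg_left h3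
    (by linarith : 0 ≤ √3 * ρ.re)]

lemma con_re (z e : ℂ) : (z + 2 * e).re = z.re + 2 * e.re := by simp

lemma con_im (z e : ℂ) : (z + 2 * e).im = z.im + 2 * e.im := by simp

lemma con_lat (h : CPar ρ R) (he : ∀ j, Conn ρ R j (e j)) {j j' : ℕ} {n : ℤ}
    (H : j' < j ∨ cn0 ρ R j' ≤ n) : 2 ≤ dist (cz R j (cn0 ρ R j) + 2 * e j) (cz R j' n) := by
  rcases lt_trichotomy j' j with h1 | rfl | h1
  · exact con_low (he j).unit (he j).re (he j).im (Or.inl h1)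
  · exact con_low (he _).unit (he _).re (he _).im (Or.inr ⟨rfl, H.resolve_left (lt_irrefl _)⟩)
  · rw [dist_comm]
    apply two_le_of_re
    have := row_gap h h1 (H.resolve_left (by omega))
    rw [con_re]
    linarith [(he j).re]

lemma con_con (h : CPar ρ R) (he : ∀ j, Conn ρ R j (e j)) {j j' : ℕ} (H : j < j') :
    2 ≤ dist (cz R j' (cn0 ρ R j') + 2 * e j') (cz R j (cn0 ρ R j) + 2 * e j) := by
  apply two_le_of_re
  have := row_gap h H le_rfl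
  rw [con_re, con_re]
  linarith [(he j).re, (he j').bd.1]

lemma CPt.sep0 (h : CPar ρ R) (he : ∀ j, Conn ρ R j (e j)) {p q : ℂ} (hp : CPt ρ R e p)
    (hq : CPt ρ R e q) (hne : p ≠ q) : 2 ≤ dist p q := by
  rcases hp with ⟨n, hn⟩ | ⟨j, n, hj, hn⟩ | ⟨j, hj⟩ <;>
    rcases hq with ⟨n', hn'⟩ | ⟨j', n', hj', hn'⟩ | ⟨j', hj'⟩
  · exact cz_sep hne
  · exact cz_sep hne
  · rw [dist_comm]; exact con_lat h he (Or.inl hj')
  · exact cz_sep hne
  · exact cz_sep hne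
  · rw [dist_comm]; exact con_lat h he (Or.inr hn)
  · exact con_lat h he (Or.inl hj)
  · exact con_lat h he (Or.inr hn')
  · rcases lt_trichotomy j j' with h1 | rfl | h1
    · rw [dist_comm]; exact con_con h he h1
    · exact absurd rfl hne
    · exact con_con h he h1

lemma CPt.bd (h : CPar ρ R) (he : ∀ j, Conn ρ R j (e j)) {p : ℂ} (hp : CPt ρ R e p) :
    0 ≤ p.im ∧ 1 ≤ cv ρ p ∧ R ≤ p.re := by
  have key : ∀ z : ℂ, 17 / 10 ≤ z.im → 1 ≤ cv ρ z → R ≤ z.re := fun z h1 h2 => by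
    by_contra hc
    push Not at hc
    simp only [cv] at h2
    nlinarith [mul_lt_mul_of_pos_right hc h.s_pos, h.Rs.2, h.c_ge]
  have him : ∀ (j : ℕ) (n : ℤ), 1 ≤ j → 17 / 10 ≤ (cz R j n).im := fun j n hj => by
    have : (1 : ℝ) ≤ j := by exact_mod_cast hj
    simp only [cz]
    nlinarith [c_sq3.1]
  rcases hp with ⟨n, hn⟩ | ⟨j, n, hj, hn⟩ | ⟨j, hj⟩
  · have : (0 : ℝ) ≤ n := by exact_mod_cast hn
    simp only [cv, cz, Nat.cast_zero, mul_zero, add_zero, zero_mul, sub_zero]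
    exact ⟨le_rfl, by nlinarith [h.Rs.1, h.s_pos], by linarith⟩
  · have h1 := cv_ge h hn
    exact ⟨by linarith [him j n hj], by linarith, key _ (him j n hj) (by linarith)⟩
  · have h1 := cv_ge (j := j) h le_rfl
    have h2 : 17 / 10 ≤ (cz R j (cn0 ρ R j) + 2 * e j).im := by
      rw [con_im]; linarith [him j (cn0 ρ R j) hj, (he j).im]
    have h3 : 1 ≤ cv ρ (cz R j (cn0 ρ R j) + 2 * e j) := by
      have h4 : -1 ≤ (e j).re * ρ.im - (e j).im * ρ.re := by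
        nlinarith [(he j).unit, h.unit, sq_nonneg ((e j).re + ρ.im), sq_nonneg ((e j).im - ρ.re)]
      simp only [cv, con_re, con_im] at h1 ⊢
      linarith
    exact ⟨by linarith, h3, key _ h2 h3⟩

lemma CPt.sep1 (h : CPar ρ R) (he : ∀ j, Conn ρ R j (e j)) {p q : ℂ} (hp : CPt ρ R e p)
    (hq : CPt ρ R e q) : 2 ≤ dist p (ρ * q) := by
  have hb := (hp.bd h he).2.1
  have him : ∀ (j : ℕ) (n : ℤ), 1 ≤ j → 1 ≤ (cz R j n).im := fun j n hj => by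
    have : (1 : ℝ) ≤ j := by exact_mod_cast hj
    simp only [cz]
    nlinarith [c_sq3.1]
  rcases hq with ⟨n', hn'⟩ | ⟨j', n', hj', hn'⟩ | ⟨j', hj'⟩
  · rcases hp with ⟨n, hn⟩ | ⟨j, n, hj, hn⟩ | ⟨j, hj⟩
    · have h1 : (0 : ℝ) ≤ n := by exact_mod_cast hn
      have h2 : (0 : ℝ) ≤ n' := by exact_mod_cast hn'
      rw [c_two_le, trunk_sq h]
      simp only [cv, cz, Nat.cast_zero, mul_zero, add_zero, zero_mul, sub_zero]
      have h3 : R ^ 2 ≤ (R + 2 * n) * (R + 2 * n') := by nlinarith [h.R_pos]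
      have h4 := mul_le_mul_of_nonneg_right h3 (by linarith [h.c_le] : 0 ≤ 1 - ρ.re)
      have h5 : ((R + 2 * n) * ρ.re - R - 2 * n') ^ 2 + ((R + 2 * n) * ρ.im) ^ 2 =
          (2 * n - 2 * n') ^ 2 + 2 * ((R + 2 * n) * (R + 2 * n') * (1 - ρ.re)) := by
        linear_combination (R + 2 * n) ^ 2 * h.unit
      nlinarith [h.R_sq, sq_nonneg (2 * (n : ℝ) - 2 * n')]
    · apply two_le_of_cv h
      rw [cv_mul h]
      have := cv_ge h hn
      simp only [cz, Nat.cast_zero, mul_zero, neg_zero, sub_zero] at this ⊢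
      linarith
    · exact (he j).far n'
  · apply two_le_of_cv h
    rw [cv_mul h]
    linarith [him j' n' hj']
  · apply two_le_of_cv h
    rw [cv_mul h, con_im]
    linarith [him j' (cn0 ρ R j') hj', (he j').im]

end Pool.Agent.Lib.MP_b07bdb_co.Nk
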