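import Pool.Agent.Lib.MP_b07bdb_co.Nk.ConA

/-! The construction: all sectors, contact paths and the count. -/

namespace Pool.Agent.Lib.MP_b07bdb_co.Nk

open Finset

variable {ρ : ℂ} {R : ℝ} {e : ℕ → ℂ}

lemma c_polar {θ : ℝ} (h0 : 0 < θ) {p : ℂ} (him : 0 ≤ p.im) (hre : 0 < p.re)
    (hv : 0 ≤ p.re * Real.sin θ - p.im * Real.cos θ) :
    ∃ α, 0 ≤ α ∧ α ≤ θ ∧ p = ‖p‖ * Complex.exp (α * Complex.I) := by
  refine ⟨p.arg, Complex.arg_nonneg_iff.2 him, ?_, (Complex.norm_mul_exp_arg_mul_I p).symm⟩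
  by_contra hc
  push Not at hc
  have h1 := Real.sin_neg_of_neg_of_neg_pi_lt (x := θ - p.arg) (by linarith)
    (by linarith [Complex.arg_le_pi p])
  have h2 : 0 < ‖p‖ := lt_of_lt_of_le hre (Complex.re_le_norm p)
  rw [← Complex.norm_mul_cos_arg, ← Complex.norm_mul_sin_arg] at hv
  rw [Real.sin_sub] at h1
  nlinarith [mul_pos h2 (neg_pos.2 h1)]

lemma c_cos_le {θ Δ : ℝ} (h0 : 0 ≤ θ) (h1 : θ ≤ Δ) (h2 : Δ ≤ 2 * Real.pi - θ) :
    Real.cos Δ ≤ Real.cos θ := by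
  rcases le_total Δ Real.pi with h | h
  · exact Real.cos_le_cos_of_nonneg_of_le_pi h0 h h1
  · rw [← Real.cos_two_pi_sub]
    exact Real.cos_le_cos_of_nonneg_of_le_pi h0 (by linarith) (by linarith)

lemma c_polar_sq (r r' a b : ℝ) :
    dist (r * Complex.exp (a * Complex.I)) (r' * Complex.exp (b * Complex.I)) ^ 2 =
      r ^ 2 + r' ^ 2 - 2 * r * r' * Real.cos (b - a) := by
  rw [c_dist_sq, Real.cos_sub]
  simp only [Complex.re_ofReal_mul, Complex.im_ofReal_mul, Complex.exp_ofReal_mul_I_re,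
    Complex.exp_ofReal_mul_I_im]
  linear_combination r ^ 2 * Real.cos_sq_add_sin_sq a + r' ^ 2 * Real.cos_sq_add_sin_sq b

lemma CPt.sep_far {θ : ℝ} (h0 : 0 < θ) (hρ : ρ = Complex.exp (θ * Complex.I)) (h : CPar ρ R)
    (he : ∀ j, Conn ρ R j (e j)) {p q : ℂ} (hp : CPt ρ R e p) (hq : CPt ρ R e q) {i : ℕ}
    (h1 : 2 ≤ i) (h2 : (i + 2) * θ ≤ 2 * Real.pi) : 2 ≤ dist p (ρ ^ i * q) := by
  have hre : ρ.re = Real.cos θ := by rw [hρ, Complex.exp_ofReal_mul_I_re]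
  have him : ρ.im = Real.sin θ := by rw [hρ, Complex.exp_ofReal_mul_I_im]
  have key : ∀ z, CPt ρ R e z → ∃ r α : ℝ, R ≤ r ∧ 0 ≤ α ∧ α ≤ θ ∧
      z = r * Complex.exp (α * Complex.I) := fun z hz => by
    obtain ⟨k1, k2, k3⟩ := hz.bd h he
    obtain ⟨α, k4⟩ := c_polar h0 k1 (h.R_pos.trans_le k3) (by
      rw [← hre, ← him]; exact zero_le_one.trans k2)
    exact ⟨_, α, k3.trans (Complex.re_le_norm z), k4⟩
  obtain ⟨r, α, a1, a2, a3, rfl⟩ := key p hp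
  obtain ⟨r', β, b1, b2, b3, rfl⟩ := key q hq
  have e1 : ρ ^ i * (r' * Complex.exp (β * Complex.I)) =
      r' * Complex.exp ((i * θ + β : ℝ) * Complex.I) := by
    rw [hρ, ← Complex.exp_nat_mul, mul_left_comm, ← Complex.exp_add]
    congr 2
    push_cast
    ring
  rw [e1, c_two_le, c_polar_sq]
  have h3 : (2 : ℝ) ≤ i := by exact_mod_cast h1
  have h4 := c_cos_le (Δ := i * θ + β - α) h0.le (by nlinarith) (by linarith)
  rw [← hre] at h4
  have h5 : R ^ 2 ≤ r * r' := by nlinarith [h.R_pos]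
  have h6 := mul_le_mul_of_nonneg_right h5 (by linarith [h.c_le] : 0 ≤ 1 - ρ.re)
  have h7 := mul_le_mul_of_nonneg_left h4 (by nlinarith [h.R_pos] : 0 ≤ r * r')
  nlinarith [h.R_sq, sq_nonneg (r - r')]

lemma c_dist_mul (h : CPar ρ R) (i : ℕ) (p q : ℂ) : dist (ρ ^ i * p) (ρ ^ i * q) = dist p q := by
  rw [dist_eq_norm, ← mul_sub, norm_mul, norm_pow, h.norm, one_pow, one_mul, dist_eq_norm]

lemma exists_par {m : ℕ} (hm : 64 ≤ m) : ∃ (ρ : ℂ) (R : ℝ), CPar ρ R ∧ ρ ^ m = 1 ∧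
    2 * Real.pi - 42 / (m : ℝ) ^ 2 ≤ m * ρ.im ∧ ∀ e : ℕ → ℂ, (∀ j, Conn ρ R j (e j)) →
      ∀ p q, CPt ρ R e p → CPt ρ R e q → ∀ i, 1 ≤ i → i < m → 2 ≤ dist p (ρ ^ i * q) := by
  have hm' : (64 : ℝ) ≤ m := by exact_mod_cast hm
  obtain ⟨θ, hθ⟩ : ∃ θ : ℝ, θ = 2 * Real.pi / m := ⟨_, rfl⟩
  have hmθ : m * θ = 2 * Real.pi := by rw [hθ]; field_simp
  have hp1 := Real.pi_gt_three
  have hp2 := Real.pi_lt_d2
  have h0 : 0 < θ := by rw [hθ]; positivity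
  have h1 : θ ≤ 1 / 10 := by nlinarith
  obtain ⟨ρ, hρ⟩ : ∃ ρ : ℂ, ρ = Complex.exp (θ * Complex.I) := ⟨_, rfl⟩
  have hre : ρ.re = Real.cos θ := by rw [hρ, Complex.exp_ofReal_mul_I_re]
  have him : ρ.im = Real.sin θ := by rw [hρ, Complex.exp_ofReal_mul_I_im]
  have hs : 0 < Real.sin θ := Real.sin_pos_of_pos_of_lt_pi h0 (by linarith)
  have hc : 9 / 10 ≤ Real.cos θ := by nlinarith [Real.one_sub_sq_div_two_le_cos (x := θ)]
  have hc1 : 0 < 1 - Real.cos θ := by nlinarith [Real.cos_sq_add_sin_sq θ]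
  have h : CPar ρ √(2 / (1 - Real.cos θ)) := by
    refine ⟨by rw [hre, him, Real.cos_sq_add_sin_sq], him ▸ hs,
      him ▸ (Real.sin_le h0.le).trans h1, hre ▸ hc, Real.sqrt_pos.2 (by positivity), ?_⟩
    rw [Real.sq_sqrt (by positivity), hre]
    field_simp
  have hpow : ρ ^ m = 1 := by
    rw [hρ, ← Complex.exp_nat_mul, ← mul_assoc, ← Complex.exp_two_pi_mul_I]
    congr 2
    exact_mod_cast hmθ
  refine ⟨ρ, _, h, hpow, ?_, fun e he p q hp hq i i1 i2 => ?_⟩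
  · have h2 := mul_lt_mul_of_pos_left (Real.sin_gt_sub_cube h0) (by linarith : (0 : ℝ) < m)
    have h3 : m * θ ^ 3 / 6 ≤ 42 / (m : ℝ) ^ 2 := by
      rw [le_div_iff₀ (by positivity)]
      have : m * θ ^ 3 / 6 * (m : ℝ) ^ 2 = (m * θ) ^ 3 / 6 := by ring
      rw [this, hmθ]
      have : Real.pi ^ 3 ≤ 3.15 ^ 3 := pow_le_pow_left₀ (by linarith) hp2.le 3
      nlinarith
    rw [him]
    nlinarith
  · rcases eq_or_ne i 1 with rfl | i3
    · rw [pow_one]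
      exact hp.sep1 h he hq
    rcases eq_or_ne (i + 1) m with i4 | i4
    · rw [← c_dist_mul h 1, ← mul_assoc, ← pow_add, add_comm, i4, hpow, one_mul, pow_one,
        dist_comm]
      exact hq.sep1 h he hp
    · have : (i : ℝ) + 2 ≤ m := by exact_mod_cast (by omega : i + 2 ≤ m)
      exact hp.sep_far h0 hρ h he hq (by omega) (by nlinarith)

lemma Reach.le {S : Finset ℂ} {k k' : ℕ} {x : ℂ} (h : Reach S k x) (hk : k ≤ k') :
    Reach S k' x := by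
  induction hk with
  | refl => exact h
  | step _ ih => exact Or.inl ih

lemma cL_le (h : CPar ρ R) {p q : ℂ} (H : dist p q = 2) : |cL ρ p - cL ρ q| ≤ 4 := by
  have h1 := c_dist_sq p q
  rw [H] at h1
  have h2 : |p.re - q.re| ≤ 2 := abs_le.2 ⟨by nlinarith [sq_nonneg (p.im - q.im)],
    by nlinarith [sq_nonneg (p.im - q.im)]⟩
  have h3 : |p.im - q.im| ≤ 2 := abs_le.2 ⟨by nlinarith [sq_nonneg (p.re - q.re)],
    by nlinarith [sq_nonneg (p.re - q.re)]⟩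
  have h4 : cL ρ p - cL ρ q = (p.re - q.re) + (p.im - q.im) * ((1 - ρ.re) / ρ.im) := by
    simp only [cL]; ring
  rw [h4]
  refine (abs_add_le _ _).trans ?_
  rw [abs_mul, abs_of_nonneg h.tau.1]
  nlinarith [h.tau.1, h.tau.2, abs_nonneg (p.im - q.im)]

lemma con_dist {j : ℕ} {e : ℂ} (h : Conn ρ R j e) (z : ℂ) : dist z (z + 2 * e) = 2 := by
  apply c_eq_two
  rw [c_dist_sq, con_re, con_im]
  linear_combination 4 * h.unit

lemma con_index (h : CPar ρ R) {j : ℕ} (hj : 1 ≤ j) {e : ℂ} (he : Conn ρ R j e) (K : ℕ) :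
    ∃ n : ℕ, dist (cz R j (cn0 ρ R j) + 2 * e) (ρ * cz R 0 n) = 2 ∧
      n + (cn1 ρ R K j - cn0 ρ R j) ≤ K + 4 := by
  obtain ⟨n, hn⟩ := he.touch
  have h1 := abs_le.1 (cL_le h hn)
  have h2 := abs_le.1 (cL_le h (con_dist he (cz R j (cn0 ρ R j))))
  have h3 : cL ρ (ρ * cz R 0 n) = R + 2 * n := by
    have := h.s_pos.ne'
    simp only [cL, cz, Complex.mul_re, Complex.mul_im, Nat.cast_zero, mul_zero, add_zero,
      sub_zero, zero_add]
    field_simp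
    ring
  rw [h3] at h1
  have h4 : (cn1 ρ R K j : ℝ) ≤ (2 * K - R - j - √3 * j * ((1 - ρ.re) / ρ.im)) / 2 :=
    Int.floor_le _
  have h5 : cL ρ (cz R j (cn0 ρ R j)) =
      R + j + 2 * cn0 ρ R j + √3 * j * ((1 - ρ.re) / ρ.im) := rfl
  have h6 : cL ρ (cz R j (cn0 ρ R j)) * ρ.im = cv ρ (cz R j (cn0 ρ R j)) + √3 * j := by
    have := h.s_pos.ne'
    simp only [cL, cv, cz]
    field_simp
    ring
  have h7 := cv_ge (j := j) h le_rfl
  have h8 : (1 : ℝ) ≤ j := by exact_mod_cast hj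
  have h9 : (0 : ℝ) ≤ n := by
    by_contra hc
    push Not at hc
    have : cL ρ (cz R j (cn0 ρ R j)) ≤ R + 8 := by linarith [h1.1, h1.2, h2.1, h2.2]
    nlinarith [mul_le_mul_of_nonneg_right this h.s_pos.le, h.Rs.2, h.s_le, c_sq3.1]
  obtain ⟨n, rfl⟩ := Int.eq_ofNat_of_zero_le (by exact_mod_cast h9 : (0 : ℤ) ≤ n)
  refine ⟨n, hn, ?_⟩
  have : ((n : ℤ) : ℝ) + (cn1 ρ R K j - cn0 ρ R j) ≤ K + 4 := by
    linarith [h1.1, h1.2, h2.1, h2.2, h.R_pos]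
  exact_mod_cast this

open Classical in
/-- The centres of one sector. -/
noncomputable def cW (ρ : ℂ) (R : ℝ) (e : ℕ → ℂ) (K J : ℕ) : Finset ℂ :=
  (range (K + 5)).image (fun n : ℕ => cz R 0 n) ∪
    (Icc 1 J).biUnion (fun j => (Icc (cn0 ρ R j) (cn1 ρ R K j)).image (cz R j)) ∪
    ((Icc 1 J).filter fun j => cn0 ρ R j ≤ cn1 ρ R K j).image
      fun j => cz R j (cn0 ρ R j) + 2 * e j

lemma mem_cW {K J : ℕ} {p : ℂ} : p ∈ cW ρ R e K J ↔ (∃ n : ℕ, n ≤ K + 4 ∧ cz R 0 n = p) ∨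
    (∃ j, (1 ≤ j ∧ j ≤ J) ∧ ∃ n, (cn0 ρ R j ≤ n ∧ n ≤ cn1 ρ R K j) ∧ cz R j n = p) ∨
    ∃ j, ((1 ≤ j ∧ j ≤ J) ∧ cn0 ρ R j ≤ cn1 ρ R K j) ∧ cz R j (cn0 ρ R j) + 2 * e j = p := by
  simp only [cW, mem_union, mem_image, mem_biUnion, mem_filter, mem_Icc, mem_range, or_assoc,
    Nat.lt_succ_iff]

lemma cW_pt {K J : ℕ} {p : ℂ} (hp : p ∈ cW ρ R e K J) : CPt ρ R e p := by
  rcases mem_cW.1 hp with ⟨n, -, rfl⟩ | ⟨j, hj, n, hn, rfl⟩ | ⟨j, hj, rfl⟩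
  · exact .tr _ (Int.natCast_nonneg n)
  · exact .row _ _ hj.1 hn.1
  · exact .con _ hj.1.1

lemma cW_reach (h : CPar ρ R) (he : ∀ j, Conn ρ R j (e j)) {K J : ℕ} {S : Finset ℂ}
    (hS : ∀ i, ∀ p ∈ cW ρ R e K J, ρ ^ i * p - R ∈ S) (i : ℕ) :
    ∀ p ∈ cW ρ R e K J, Reach S (i + K + 7) (ρ ^ i * p - R) := by
  have step : ∀ (i k : ℕ) (p q : ℂ), ρ ^ i * q - R ∈ S → Reach S k (ρ ^ i * q - R) →
      dist p q = 2 → Reach S (k + 1) (ρ ^ i * p - R) := fun i k p q h1 h2 h3 =>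
    Or.inr ⟨_, h1, h2, by rw [dist_sub_right, c_dist_mul h, h3]⟩
  have next : ∀ (j : ℕ) (n : ℤ), dist (cz R j (n + 1)) (cz R j n) = 2 := fun j n => by
    apply c_eq_two
    rw [c_dist_sq]
    simp only [cz]
    push_cast
    ring
  have mt : ∀ n : ℕ, n ≤ K + 4 → cz R 0 n ∈ cW ρ R e K J := fun n hn =>
    mem_cW.2 (Or.inl ⟨n, hn, rfl⟩)
  have ring0 : ∀ i, Reach S i (ρ ^ i * cz R 0 (0 : ℕ) - R) := fun i => by
    induction i with
    | zero =>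
      show _ = (0 : ℂ)
      apply Complex.ext <;> simp [cz]
    | succ i ih =>
      rw [pow_succ, mul_assoc]
      refine step i i _ _ (hS i _ (mt 0 (by omega))) ih ?_
      rw [dist_comm]
      apply c_eq_two
      rw [trunk_sq h]
      simp only [cv, cz, Nat.cast_zero, Int.cast_zero, mul_zero, add_zero, zero_mul, sub_zero]
      linear_combination 2 * h.R_sq + R ^ 2 * h.unit
  have trunk : ∀ i n : ℕ, n ≤ K + 4 → Reach S (i + n) (ρ ^ i * cz R 0 n - R) := fun i n => by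
    induction n with
    | zero => exact fun _ => ring0 i
    | succ n ih =>
      intro hn
      refine step i _ _ _ (hS i _ (mt n (by omega))) (ih (by omega)) ?_
      exact_mod_cast next 0 n
  have con : ∀ j, 1 ≤ j → cn0 ρ R j ≤ cn1 ρ R K j → ∃ n : ℕ,
      n + (cn1 ρ R K j - cn0 ρ R j) ≤ K + 4 ∧
      Reach S (i + n + 2) (ρ ^ i * (cz R j (cn0 ρ R j) + 2 * e j) - R) := fun j hj hn => by
    obtain ⟨n, h1, h2⟩ := con_index h hj (he j) K
    have h3 := trunk (i + 1) n (by omega)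
    have h4 := hS (i + 1) _ (mt n (by omega))
    rw [pow_succ, mul_assoc] at h3 h4
    exact ⟨n, h2, Reach.le (step i _ _ _ h4 h3 h1) (by omega)⟩
  intro p hp
  rcases mem_cW.1 hp with ⟨n, hn, rfl⟩ | ⟨j, hj, n, hn, rfl⟩ | ⟨j, hj, rfl⟩
  · exact Reach.le (trunk i n hn) (by omega)
  · obtain ⟨n', h1, h2⟩ := con j hj.1 (hn.1.trans hn.2)
    have row : ∀ d : ℕ, cn0 ρ R j + d ≤ cn1 ρ R K j →
        Reach S (i + n' + 2 + 1 + d) (ρ ^ i * cz R j (cn0 ρ R j + d) - R) := fun d => by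
      induction d with
      | zero =>
        intro _
        rw [Nat.cast_zero, add_zero, add_zero]
        exact step i _ _ _ (hS i _ (mem_cW.2 (Or.inr (Or.inr ⟨j, ⟨hj, hn.1.trans hn.2⟩, rfl⟩))))
          h2 (con_dist (he j) _)
      | succ d ih =>
        intro hd
        refine step i _ _ _ (hS i _ (mem_cW.2 (Or.inr (Or.inl ⟨j, hj, _, ⟨?_, ?_⟩, rfl⟩))))
          (ih (by omega)) ?_
        · omega
        · omega
        · rw [Nat.cast_succ, ← add_assoc]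
          exact next _ _
    obtain ⟨d, rfl⟩ : ∃ d : ℕ, n = cn0 ρ R j + d := ⟨(n - cn0 ρ R j).toNat, by omega⟩
    exact Reach.le (row d hn.2) (by omega)
  · obtain ⟨n', h1, h2⟩ := con j hj.1.1 hj.2
    exact Reach.le h2 (by omega)

lemma cW_card (h : CPar ρ R) (K : ℕ) :
    (K : ℝ) ^ 2 * ρ.im / √3 - 5 * K ≤ (cW ρ R e K ⌊2 * K * ρ.im / √3⌋₊).card := by
  classical
  have hs := h.s_pos
  have h3 := sq3_pos
  obtain ⟨X, hX⟩ : ∃ X : ℝ, X = 2 * K * ρ.im / √3 := ⟨_, rfl⟩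
  have hX0 : 0 ≤ X := by rw [hX]; positivity
  have hXK : √3 * X / ρ.im = 2 * K := by rw [hX]; field_simp
  have hX1 : X ≤ K := by
    rw [hX, div_le_iff₀ h3]
    nlinarith [h.s_le, c_sq3.1, Nat.cast_nonneg (α := ℝ) K]
  have e0 : (K : ℝ) ^ 2 * ρ.im / √3 = X * K / 2 := by rw [hX]; ring
  rw [e0, ← hX]
  set J := ⌊X⌋₊ with hJ
  have hJ1 : (J : ℝ) ≤ X := Nat.floor_le hX0
  have hJ2 : X < J + 1 := Nat.lt_floor_add_one X
  have h1 : ((Icc 1 J).biUnion fun j => (Icc (cn0 ρ R j) (cn1 ρ R K j)).image (cz R j)).card ≤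
      (cW ρ R e K J).card :=
    card_le_card (subset_union_right.trans subset_union_left)
  rw [card_biUnion] at h1
  swap
  · intro j _ j' _ hne
    refine disjoint_left.2 fun p hp hp' => hne ?_
    obtain ⟨n, -, rfl⟩ := mem_image.1 hp
    obtain ⟨n', -, e1⟩ := mem_image.1 hp'
    have : √3 * (j' : ℝ) = √3 * j := congrArg Complex.im e1
    exact_mod_cast (mul_left_cancel₀ h3.ne' this).symm
  have h2 : ∀ j : ℕ, K - 1 - 3 / ρ.im / 2 - √3 / ρ.im / 2 * j ≤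
      (((Icc (cn0 ρ R j) (cn1 ρ R K j)).image (cz R j)).card : ℝ) := fun j => by
    rw [card_image_of_injective _ fun n n' e1 => by
      have : R + j + 2 * (n : ℝ) = R + j + 2 * n' := congrArg Complex.re e1
      exact_mod_cast (by linarith : (n : ℝ) = n'), Int.card_Icc]
    have a1 : (cn0 ρ R j : ℝ) < ((3 + √3 * j * ρ.re) / ρ.im - R - j) / 2 + 1 :=
      Int.ceil_lt_add_one _
    have a2 : (2 * K - R - j - √3 * j * ((1 - ρ.re) / ρ.im)) / 2 < cn1 ρ R K j + 1 :=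
      Int.lt_floor_add_one _
    have a3 : ((cn1 ρ R K j + 1 - cn0 ρ R j : ℤ) : ℝ) ≤
        ((cn1 ρ R K j + 1 - cn0 ρ R j).toNat : ℝ) := by
      exact_mod_cast Int.self_le_toNat _
    have a4 : (3 + √3 * j * ρ.re) / ρ.im + √3 * j * ((1 - ρ.re) / ρ.im) =
        3 / ρ.im + √3 / ρ.im * j := by field_simp; ring
    push_cast at a3
    linarith
  have h4 : ∀ (A B : ℝ) (J : ℕ), ∑ j ∈ Icc 1 J, (A - B * j) = J * A - B * (J * (J + 1) / 2) :=
    fun A B J => by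
      induction J with
      | zero => simp
      | succ J ih => rw [sum_Icc_succ_top (by omega), ih]; push_cast; ring
  have h5 := sum_le_sum (s := Icc 1 J) fun j _ => h2 j
  rw [h4, ← Nat.cast_sum] at h5
  have h6 := h5.trans (Nat.cast_le.2 h1)
  refine le_trans ?_ h6
  have hK := Nat.cast_nonneg (α := ℝ) K
  have hJ0 := Nat.cast_nonneg (α := ℝ) J
  obtain ⟨B, hB⟩ : ∃ B : ℝ, B = √3 / ρ.im := ⟨_, rfl⟩
  have hB0 : 0 ≤ B := by rw [hB]; positivity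
  have b1 : B * X = 2 * K := by rw [hB, ← hXK]; ring
  have b2 : 3 / ρ.im = √3 * B := by rw [hB, ← mul_div_assoc, sq3]
  rw [b2, ← hB]
  have b3 : B * J ≤ 2 * K := b1 ▸ mul_le_mul_of_nonneg_left hJ1 hB0
  have b4 : B * J * (J + 1) ≤ 2 * K * (X + 1) :=
    mul_le_mul b3 (by linarith) (by positivity) (by positivity)
  have b5 : √3 * (B * J) ≤ 18 / 10 * (2 * K) :=
    mul_le_mul c_sq3.2 b3 (by positivity) (by norm_num)
  nlinarith [mul_le_mul_of_nonneg_right hJ2.le hK]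

lemma con_aux {m : ℕ} (hm : 64 ≤ m) (K : ℕ) : ∃ S : Finset ℂ, Good S (m + K + 6) ∧
    (K : ℝ) ^ 2 * (2 * Real.pi - 42 / (m : ℝ) ^ 2) / √3 - 5 * K * m ≤ S.card := by
  classical
  obtain ⟨ρ, R, h, hpow, hms, hsep⟩ := exists_par hm
  choose e he using exists_conn h
  set W := cW ρ R e K ⌊2 * K * ρ.im / √3⌋₊ with hW
  let f : ℕ × ℂ → ℂ := fun x => ρ ^ x.1 * x.2 - R
  have hS : ∀ i, ∀ p ∈ W, ρ ^ i * p - R ∈ (range m ×ˢ W).image f := fun i p hp =>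
    mem_image.2 ⟨(i % m, p), mem_product.2 ⟨mem_range.2 (Nat.mod_lt _ (by omega)), hp⟩, by
      simp only [f]
      rw [← pow_eq_pow_mod i hpow]⟩
  have hlt : ∀ x ∈ range m ×ˢ W, ∀ y ∈ range m ×ˢ W, x.1 < y.1 → 2 ≤ dist (f x) (f y) := by
    rintro ⟨i, p⟩ hx ⟨i', q⟩ hy hi
    obtain ⟨d, rfl⟩ := Nat.exists_eq_add_of_lt hi
    have := mem_range.1 (mem_product.1 hy).1
    simp only [f]
    rw [dist_sub_right, add_assoc, pow_add, mul_assoc, c_dist_mul h]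
    exact hsep e he p q (cW_pt (mem_product.1 hx).2) (cW_pt (mem_product.1 hy).2) _ (by omega)
      (by omega)
  have hne : ∀ x ∈ range m ×ˢ W, ∀ y ∈ range m ×ˢ W, x ≠ y → 2 ≤ dist (f x) (f y) := by
    intro x hx y hy hxy
    rcases lt_trichotomy x.1 y.1 with h1 | h1 | h1
    · exact hlt x hx y hy h1
    · simp only [f]
      rw [dist_sub_right, ← h1, c_dist_mul h]
      exact (cW_pt (mem_product.1 hx).2).sep0 h he (cW_pt (mem_product.1 hy).2)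
        fun h2 => hxy (Prod.ext h1 h2)
    · rw [dist_comm]
      exact hlt y hy x hx h1
  refine ⟨(range m ×ˢ W).image f, ⟨?_, ?_, ?_⟩, ?_⟩
  · have := hS 0 _ (mem_cW.2 (Or.inl ⟨0, by omega, rfl⟩))
    rwa [show ρ ^ 0 * cz R 0 (0 : ℕ) - R = 0 by apply Complex.ext <;> simp [cz]] at this
  · intro x hx y hy hxy
    obtain ⟨x, hx', rfl⟩ := mem_image.1 hx
    obtain ⟨y, hy', rfl⟩ := mem_image.1 hy
    exact hne x hx' y hy' fun h2 => hxy (by rw [h2])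
  · intro x hx
    obtain ⟨⟨i, p⟩, hx', rfl⟩ := mem_image.1 hx
    have := mem_range.1 (mem_product.1 hx').1
    exact Reach.le (cW_reach h he hS i p (mem_product.1 hx').2) (by omega)
  · rw [card_image_of_injOn fun x hx y hy hxy => by
      by_contra h2
      have := hne x hx y hy h2
      rw [hxy, dist_self] at this
      linarith, card_product, card_range, Nat.cast_mul]
    have h1 := mul_le_mul_of_nonneg_left (cW_card (e := e) h K) (Nat.cast_nonneg (α := ℝ) m)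
    refine le_trans ?_ h1
    have h2 := div_le_div_of_nonneg_right
      (mul_le_mul_of_nonneg_left hms (sq_nonneg (K : ℝ))) sq3_pos.le
    have h3 : m * ((K : ℝ) ^ 2 * ρ.im / √3 - 5 * K) = K ^ 2 * (m * ρ.im) / √3 - 5 * K * m := by
      ring
    linarith

theorem con_main : ∃ C : ℝ, ∀ k : ℕ, 1 ≤ k → ∃ S : Finset ℂ, Good S k ∧
    2 * Real.pi / √3 * (k : ℝ) ^ 2 - C * (k : ℝ) ^ ((4 : ℝ) / 3) ≤ (S.card : ℝ) := by
  refine ⟨1000, fun k hk => ?_⟩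
  have hk' : (1 : ℝ) ≤ k := by exact_mod_cast hk
  obtain ⟨x, hx⟩ : ∃ x : ℝ, x = (k : ℝ) ^ ((1 : ℝ) / 3) := ⟨_, rfl⟩
  have hx1 : 1 ≤ x := hx ▸ Real.one_le_rpow hk' (by norm_num)
  have hx3 : (k : ℝ) = x ^ 3 := by
    rw [hx, ← Real.rpow_natCast, ← Real.rpow_mul (by linarith)]; norm_num
  have hx4 : (k : ℝ) ^ ((4 : ℝ) / 3) = x ^ 4 := by
    rw [hx, ← Real.rpow_natCast, ← Real.rpow_mul (by linarith)]; norm_num
  obtain ⟨m, hm⟩ : ∃ m : ℕ, m = ⌈x⌉₊ + 64 := ⟨_, rfl⟩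
  have hm1 : x ≤ m := by
    rw [hm]; push_cast; linarith [Nat.le_ceil x]
  have hm2 : (m : ℝ) ≤ 66 * x := by
    rw [hm]; push_cast; linarith [Nat.ceil_lt_add_one (by linarith : 0 ≤ x)]
  obtain ⟨A, hA⟩ : ∃ A : ℝ, A = 2 * Real.pi / √3 := ⟨_, rfl⟩
  have hA0 : 0 ≤ A := by rw [hA]; positivity
  have hA1 : A ≤ 4 := by
    rw [hA, div_le_iff₀ sq3_pos]; linarith [Real.pi_lt_d2, c_sq3.1]
  have hx0 : 0 < x := by linarith
  have hmk : ((m : ℝ) + 6) * k ≤ 72 * x ^ 4 := by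
    rw [hx3]; nlinarith [pow_pos hx0 3]
  rw [hx4, ← hA]
  rcases le_or_gt (m + 6) k with hk2 | hk2
  · obtain ⟨K, rfl⟩ : ∃ K, k = m + K + 6 := ⟨k - m - 6, by omega⟩
    obtain ⟨S, h1, h2⟩ := con_aux (by omega : 64 ≤ m) K
    refine ⟨S, h1, le_trans ?_ h2⟩
    have hK := Nat.cast_nonneg (α := ℝ) K
    have hm0 : (0 : ℝ) < m := by linarith
    push_cast at hx3 hmk ⊢
    have e1 : (K : ℝ) ^ 2 * (2 * Real.pi - 42 / (m : ℝ) ^ 2) / √3 =
        A * K ^ 2 - 42 * (K ^ 2 / m ^ 2) / √3 := by rw [hA]; ring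
    have e2 : (K : ℝ) ^ 2 / m ^ 2 ≤ x ^ 4 := by
      rw [div_le_iff₀ (by positivity)]
      have a1 : (K : ℝ) ≤ x ^ 2 * m := by nlinarith [pow_pos hx0 2]
      nlinarith [pow_le_pow_left₀ hK a1 2]
    have e3 : 42 * ((K : ℝ) ^ 2 / m ^ 2) / √3 ≤ 42 * x ^ 4 := by
      rw [div_le_iff₀ sq3_pos]; nlinarith [c_sq3.1, pow_pos hx0 4]
    have e4 : ((m : ℝ) + K + 6) ^ 2 - K ^ 2 ≤ 144 * x ^ 4 := by nlinarith
    have e5 := mul_le_mul hA1 e4 (by nlinarith) (by norm_num)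
    have e6 : (K : ℝ) * m ≤ 72 * x ^ 4 := by nlinarith
    rw [e1]
    nlinarith [pow_pos hx0 4]
  · refine ⟨{0}, ⟨mem_singleton_self _, by simp, fun y hy => ?_⟩, ?_⟩
    · exact Reach.le (k := 0) (mem_singleton.1 hy) (Nat.zero_le _)
    · have a1 : (k : ℝ) ≤ m + 6 := by exact_mod_cast hk2.le
      have a2 : (k : ℝ) ^ 2 ≤ 72 * x ^ 4 := by nlinarith
      have a3 := mul_le_mul hA1 a2 (by positivity) (by norm_num)
      rw [card_singleton, Nat.cast_one]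
      nlinarith [pow_pos hx0 4]

end Pool.Agent.Lib.MP_b07bdb_co.Nk
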