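import Pool.Agent.Lib.MP_b07bdb_co.Nk.Sect

/-! Summing over the sectors. -/

namespace Pool.Agent.Lib.MP_b07bdb_co.Nk

open Metric MeasureTheory

/-- Let `c₀` be the constant of `sect_waste` and `c = c₀ / 4000`. The sectors with
`σ i = 2 i * (100 / t)`, `i < m = ⌊t / 2000⌋₊`, are pairwise disjoint (`sect_disjoint`) open subsets
of `ball 0 (2 k)`; `m ≥ t / 4000`; `sum_real_le_of_disjoint`. -/
theorem total_waste {C CL : ℝ} (hC : 1 ≤ C) (hL : 1 ≤ CL) (hLat : LatSt CL) :
    ∃ c : ℝ, 0 < c ∧ ∀ (S : Finset ℂ) (k : ℕ) (w : ℂ → ℝ) (μ : Measure ℂ) (t h lam : ℝ),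
      Good S k → Wst S w μ → 10 ^ 4 ≤ t → t ^ 2 ≤ k → (k : ℝ) ≤ c * t ^ 3 → 12 ≤ h → h ≤ t →
      t ^ 2 * h ≤ k / 10 ^ 10 → 0 ≤ lam → lam ≤ c → Use C t lam →
      c * min (h * k) (lam * k * t) ≤ μ.real (ball 0 (2 * k)) := by
  obtain ⟨c₀, hc₀, H⟩ := sect_waste hC hL hLat
  refine ⟨c₀ / 4000, by positivity, fun S k w μ t h lam hG hW ht htk hkc h12 hht hth hl0 hlc hU => ?_⟩
  have t0 : 0 < t := by linarith
  have hc : c₀ / 4000 ≤ c₀ := by linarith
  have hkc' : (k : ℝ) ≤ c₀ * t ^ 3 := hkc.trans (by gcongr)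
  have hα : (0 : ℝ) ≤ 100 / t := by positivity
  set m := ⌊t / 2000⌋₊ with hm
  have hm1 : (m : ℝ) ≤ t / 2000 := Nat.floor_le (by positivity)
  have hm2 : t / 4000 ≤ m := by
    have := Nat.lt_floor_add_one (t / 2000)
    linarith
  have key : ∀ i j : ℕ, i < j →
      Disjoint (sect k (2 * i * (100 / t)) (100 / t)) (sect k (2 * j * (100 / t)) (100 / t)) := by
    intro i j hij
    refine sect_disjoint _ _ _ _ hα ?_
    have h1 : (i : ℝ) + 1 ≤ j := by exact_mod_cast hij
    nlinarith [mul_le_mul_of_nonneg_right h1 hα]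
  have h1 := sum_real_le_of_disjoint μ (Finset.range m)
    (fun i : ℕ => sect k (2 * i * (100 / t)) (100 / t)) (ball 0 (2 * k))
    (fun i _ => (isOpen_sect _ _ _).measurableSet) (fun i _ => sect_subset_ball _ _ _)
    (hW.fin _ _) fun i _ j _ hij => by
      rcases lt_or_gt_of_ne hij with a | a
      · exact key i j a
      · exact (key j i a).symm
  have h2 : ∀ i ∈ Finset.range m,
      c₀ * min (h * k / t) (lam * k) ≤ μ.real (sect k (2 * i * (100 / t)) (100 / t)) := by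
    intro i hi
    refine H S k w μ t h lam _ hG hW ht htk hkc' h12 hht hth hl0 (hlc.trans hc) hU
      (by positivity) ?_
    have h3 : (i : ℝ) + 1 ≤ m := by exact_mod_cast Finset.mem_range.1 hi
    have h4 : 2 * (i : ℝ) * (100 / t) + 100 / t = (2 * i + 1) * 100 / t := by ring
    rw [h4, div_le_iff₀ t0]
    linarith
  have h3 := Finset.sum_le_sum h2
  rw [Finset.sum_const, Finset.card_range, nsmul_eq_mul] at h3
  have h4 : min (h * k) (lam * k * t) = min (h * k / t) (lam * k) * t := by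
    rw [min_mul_of_nonneg _ _ t0.le, div_mul_cancel₀ _ t0.ne']
  have h5 : 0 ≤ c₀ * min (h * k / t) (lam * k) :=
    mul_nonneg hc₀.le (le_min (by have : 0 ≤ h := by linarith
                                  positivity) (by positivity))
  rw [h4]
  calc c₀ / 4000 * (min (h * k / t) (lam * k) * t)
      = t / 4000 * (c₀ * min (h * k / t) (lam * k)) := by ring
    _ ≤ m * (c₀ * min (h * k / t) (lam * k)) := mul_le_mul_of_nonneg_right hm2 h5
    _ ≤ _ := h3.trans h1

end Pool.Agent.Lib.MP_b07bdb_co.Nk
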