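import Pool.Agent.Lib.MP_b07bdb_co.Nk.RelA

/-! Coverings by discs. -/

namespace Pool.Agent.Lib.MP_b07bdb_co.Nk

open Metric MeasureTheory

lemma Cov.nonneg {X : Set ℂ} {R : ℝ} (h : Cov X R) : 0 ≤ R := by
  obtain ⟨E, h1, h2, -⟩ := h
  exact le_trans (Finset.sum_nonneg fun b hb => by linarith [h1 b hb]) h2

lemma cov_empty {R : ℝ} (hR : 0 ≤ R) : Cov ∅ R :=
  ⟨∅, by simp, by simpa using hR, by simp⟩

/-- Take `E ∪ E'`; the sum over a union is at most the sum of the sums (radii are nonnegative). -/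
lemma Cov.union {X Y : Set ℂ} {R R' : ℝ} (h : Cov X R) (h' : Cov Y R') :
    Cov (X ∪ Y) (R + R') := by
  classical
  obtain ⟨E, h1, h2, h3⟩ := h
  obtain ⟨E', h1', h2', h3'⟩ := h'
  refine ⟨E ∪ E', ?_, ?_, ?_⟩
  · intro b hb
    rcases Finset.mem_union.1 hb with hb | hb
    · exact h1 b hb
    · exact h1' b hb
  · have hu := Finset.sum_union_inter (s₁ := E) (s₂ := E') (f := fun b : ℂ × ℝ => b.2)
    have hi : 0 ≤ ∑ b ∈ E ∩ E', b.2 :=
      Finset.sum_nonneg fun b hb => by linarith [h1 b (Finset.mem_inter.1 hb).1]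
    linarith
  · rintro z (hz | hz)
    · obtain ⟨b, hb, hz⟩ := h3 z hz
      exact ⟨b, Finset.mem_union_left _ hb, hz⟩
    · obtain ⟨b, hb, hz⟩ := h3' z hz
      exact ⟨b, Finset.mem_union_right _ hb, hz⟩

/-- Induction on `s` with `Cov.union`. -/
lemma cov_biUnion {ι : Type*} (s : Finset ι) (X : ι → Set ℂ) (R : ι → ℝ)
    (h : ∀ i ∈ s, Cov (X i) (R i)) : Cov (⋃ i ∈ s, X i) (∑ i ∈ s, R i) := by
  classical
  induction s using Finset.induction_on with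
  | empty => simpa using cov_empty le_rfl
  | insert a s ha ih =>
    rw [Finset.sum_insert ha, Finset.set_biUnion_insert]
    exact (h a (Finset.mem_insert_self a s)).union
      (ih fun i hi => h i (Finset.mem_insert_of_mem hi))

/-- The closed neighbourhood of radius `d`. -/
def thick (X : Set ℂ) (d : ℝ) : Set ℂ := {z | ∃ y ∈ X, ‖z - y‖ ≤ d}

/-- Replace each disc `(c, r)` by `(c, r + d)` (an injective map) and use `d ≤ d * r`. -/
lemma Cov.thick {X : Set ℂ} {R d : ℝ} (h : Cov X R) (hd : 0 ≤ d) :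
    Cov (thick X d) ((1 + d) * R) := by
  classical
  obtain ⟨E, h1, h2, h3⟩ := h
  refine ⟨E.image fun b => (b.1, b.2 + d), ?_, ?_, ?_⟩
  · intro b hb
    obtain ⟨c, hc, rfl⟩ := Finset.mem_image.1 hb
    have := h1 c hc
    simp only
    linarith
  · rw [Finset.sum_image]
    · have hle : ∑ b ∈ E, (b.2 + d) ≤ ∑ b ∈ E, (1 + d) * b.2 :=
        Finset.sum_le_sum fun b hb => by nlinarith [h1 b hb]
      rw [← Finset.mul_sum] at hle
      exact hle.trans (mul_le_mul_of_nonneg_left h2 (by linarith))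
    · intro b _ c _ hbc
      simp only [Prod.mk.injEq, add_left_inj] at hbc
      exact Prod.ext hbc.1 hbc.2
  · rintro z ⟨y, hy, hz⟩
    obtain ⟨b, hb, hyb⟩ := h3 y hy
    refine ⟨_, Finset.mem_image_of_mem _ hb, ?_⟩
    have := norm_add_le (z - y) (y - b.1)
    rw [sub_add_sub_cancel] at this
    simp only
    linarith

/-- Number of integers in a real interval. -/
lemma CovA_card (a b : ℝ) (hab : a ≤ b) : ((Finset.Icc ⌈a⌉ ⌊b⌋).card : ℝ) ≤ b - a + 1 := by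
  rw [Int.card_Icc]
  have h1 := Int.le_ceil a
  have h2 := Int.floor_le b
  rcases le_total 0 (⌊b⌋ + 1 - ⌈a⌉) with h | h
  · have h3 : (((⌊b⌋ + 1 - ⌈a⌉).toNat : ℤ) : ℝ) = ((⌊b⌋ + 1 - ⌈a⌉ : ℤ) : ℝ) := by
      rw [Int.toNat_of_nonneg h]
    push_cast at h3
    rw [h3]
    linarith
  · rw [Int.toNat_of_nonpos h]
    push_cast
    linarith

/-- The integers within `2` of `f X`, for a `1`-Lipschitz function `f`. A disc `(c, r)`
contributes integers of the interval `[f c - r - 2, f c + r + 2]`, at most `2 r + 5 ≤ 7 r`. -/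
lemma Cov.lines {X : Set ℂ} {R : ℝ} (h : Cov X R) (f : ℂ → ℝ)
    (hf : ∀ z z', |f z - f z'| ≤ ‖z - z'‖) :
    ∃ B : Finset ℤ, (B.card : ℝ) ≤ 7 * R ∧ ∀ z ∈ X, ∀ n : ℤ, |f z - n| ≤ 2 → n ∈ B := by
  classical
  obtain ⟨E, h1, h2, h3⟩ := h
  refine ⟨E.biUnion fun b => Finset.Icc ⌈f b.1 - b.2 - 2⌉ ⌊f b.1 + b.2 + 2⌋, ?_, ?_⟩
  · have hc : ((E.biUnion fun b => Finset.Icc ⌈f b.1 - b.2 - 2⌉ ⌊f b.1 + b.2 + 2⌋).card : ℝ) ≤
        ∑ b ∈ E, ((Finset.Icc ⌈f b.1 - b.2 - 2⌉ ⌊f b.1 + b.2 + 2⌋).card : ℝ) := by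
      exact_mod_cast Finset.card_biUnion_le
    have hs : ∑ b ∈ E, ((Finset.Icc ⌈f b.1 - b.2 - 2⌉ ⌊f b.1 + b.2 + 2⌋).card : ℝ) ≤
        ∑ b ∈ E, 7 * b.2 := by
      refine Finset.sum_le_sum fun b hb => ?_
      have hb1 := h1 b hb
      have := CovA_card (f b.1 - b.2 - 2) (f b.1 + b.2 + 2) (by linarith)
      linarith
    rw [← Finset.mul_sum] at hs
    linarith
  · intro z hz n hn
    obtain ⟨b, hb, hzb⟩ := h3 z hz
    refine Finset.mem_biUnion.2 ⟨b, hb, Finset.mem_Icc.2 ⟨?_, ?_⟩⟩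
    · rw [Int.ceil_le]
      linarith [abs_le.1 hn, abs_le.1 ((hf z b.1).trans hzb)]
    · rw [Int.le_floor]
      linarith [abs_le.1 hn, abs_le.1 ((hf z b.1).trans hzb)]

end Pool.Agent.Lib.MP_b07bdb_co.Nk
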