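import Pool.Agent.Lib.MP_b07bdb_co.Step

/-! Second order term of the higher-order Newton numbers of the disk: working definitions.
Centres are complex numbers; a packing is a finite set with mutual distances at least `2`. -/

namespace Pool.Agent.Lib.MP_b07bdb_co.Nk

open Metric MeasureTheory

/-- The sixth root of unity `exp (i pi / 3)`. -/
noncomputable def w6 : ℂ := ⟨1 / 2, √3 / 2⟩

/-- The point with coordinates `m, n` of the triangular lattice of edge length `2` through `a`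
with direction `e`. -/
noncomputable def lp (a e : ℂ) (m n : ℤ) : ℂ := a + 2 * e * (m + n * w6)

/-- The triangular lattice through `a` with direction `e`. -/
def Lat (a e : ℂ) : Set ℂ := {z | ∃ m n : ℤ, z = lp a e m n}

/-- `τ` is one of the six unit directions of the lattices with direction `e`. -/
def IsDir (e τ : ℂ) : Prop := ‖τ‖ = 1 ∧ ∃ m n : ℤ, τ = e * (m + n * w6)

/-- Mutual distances at least `2`. -/
def Sep (P : Finset ℂ) : Prop := ∀ x ∈ P, ∀ y ∈ P, x ≠ y → 2 ≤ dist x y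

/-- `w p` is a local waste at the centre `p`: if it is small the neighbourhood of `p` is almost
a regular hexagon, with linear error. -/
structure Loc (P : Finset ℂ) (w : ℂ → ℝ) : Prop where
  sep : Sep P
  nonneg : ∀ p ∈ P, 0 ≤ w p
  big : ∀ p ∈ P, ∀ q ∈ P, q ≠ p → ‖q - p‖ ≤ 21 / 10 → ‖q - p‖ ≤ 2 + 100 * w p
  ex : ∀ p ∈ P, w p ≤ 1 / 1000 → ∃ q ∈ P, q ≠ p ∧ ‖q - p‖ ≤ 21 / 10
  rot : ∀ p ∈ P, w p ≤ 1 / 1000 → ∀ q ∈ P, q ≠ p → ‖q - p‖ ≤ 21 / 10 →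
    ∃ q' ∈ P, q' ≠ p ∧ ‖q' - p‖ ≤ 21 / 10 ∧ ‖q' - p - w6 * (q - p)‖ ≤ 100 * w p

/-- A waste measure: it dominates the local wastes and charges holes of the packing. -/
structure Wst (P : Finset ℂ) (w : ℂ → ℝ) (μ : Measure ℂ) : Prop where
  loc : Loc P w
  fin : ∀ (x : ℂ) (r : ℝ), μ (ball x r) ≠ ⊤
  pts : ∀ (F : Finset ℂ) (S : Set ℂ), F ⊆ P → (∀ p ∈ F, p ∈ S) → μ S ≠ ⊤ →
    ∑ p ∈ F, w p ≤ μ.real S
  hole : ∀ z : ℂ, (∀ p ∈ P, 3 ≤ ‖p - z‖) → 1 ≤ μ.real (ball z 3)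

/-- `X` is covered by finitely many discs of radii at least `1` and total radius at most `R`. -/
def Cov (X : Set ℂ) (R : ℝ) : Prop :=
  ∃ E : Finset (ℂ × ℝ), (∀ b ∈ E, 1 ≤ b.2) ∧ ∑ b ∈ E, b.2 ≤ R ∧
    ∀ z ∈ X, ∃ b ∈ E, ‖z - b.1‖ ≤ b.2

/-- Every lattice point in the disc of radius `r` about `x` and outside `X` has a centre of the
packing within `η`. -/
def Apx (P : Finset ℂ) (a e x : ℂ) (r : ℝ) (X : Set ℂ) (η : ℝ) : Prop :=
  ∀ z ∈ Lat a e, ‖z - x‖ ≤ r → z ∉ X → ∃ p ∈ P, ‖p - z‖ ≤ η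

/-- Half side of the coordinate box used at scale `t`. -/
noncomputable def Kt (t : ℝ) : ℕ := ⌊t / 20⌋₊

open Classical in
/-- Coordinates in the box whose lattice point has no centre within `ε`. -/
noncomputable def bad (P : Finset ℂ) (a e : ℂ) (K : ℕ) (ε : ℝ) : Finset (ℤ × ℤ) :=
  (Finset.Icc (-(K : ℤ)) K ×ˢ Finset.Icc (-(K : ℤ)) K).filter fun mn =>
    ¬ ∃ p ∈ P, ‖p - lp a e mn.1 mn.2‖ ≤ ε

/-- Almost all lattice points of the box at scale `t` about `x` have a centre within `ε`. -/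
def Fit (P : Finset ℂ) (a e x : ℂ) (t ε : ℝ) : Prop :=
  ‖e‖ = 1 ∧ ‖a - x‖ ≤ 3 ∧ ((bad P a e (Kt t) ε).card : ℝ) ≤ (Kt t : ℝ) ^ 2 / 10 ^ 5

/-- Rigidity of the packing in the disc of radius `2 t` about `x`. -/
def RigAt (P : Finset ℂ) (a e x : ℂ) (t η R ε : ℝ) : Prop :=
  Fit P a e x t ε ∧ ∃ X : Set ℂ, Cov X R ∧ Apx P a e x (2 * t) X η

/-- A rotation about `x` by at most `σ` followed by a translation by at most `β` maps the first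
lattice into the second. -/
def Rel (x : ℂ) (β σ : ℝ) (a e a' e' : ℂ) : Prop :=
  ∃ ρ b : ℂ, ‖ρ‖ = 1 ∧ ‖b‖ ≤ β ∧ ‖ρ - 1‖ ≤ σ ∧ ∀ z ∈ Lat a e, x + b + ρ * (z - x) ∈ Lat a' e'

/-- The induction statement at scale `t`. -/
def St (C t lam η : ℝ) : Prop :=
  ∀ (P : Finset ℂ) (w : ℂ → ℝ) (μ : Measure ℂ) (x : ℂ), Wst P w μ →
    μ.real (ball x (3 * t)) ≤ lam * t →
    ∃ a e : ℂ, RigAt P a e x t η (μ.real (ball x (3 * t)) / (10 ^ 9 * lam))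
      (C * (μ.real (ball x (3 * t)) + 1) / t)

/-- The form of rigidity that is used at the end. -/
def Use (C t lam : ℝ) : Prop :=
  ∀ (P : Finset ℂ) (w : ℂ → ℝ) (μ : Measure ℂ) (x : ℂ), Wst P w μ →
    μ.real (ball x (3 * t)) ≤ lam * t →
    ∃ a e : ℂ, RigAt P a e x t (1 / 20) (t / 10 ^ 9) (C * (μ.real (ball x (3 * t)) + 1) / t)

/-- The refitting statement. -/
def FitSt (C : ℝ) : Prop :=
  ∀ (P : Finset ℂ) (w : ℂ → ℝ) (μ : Measure ℂ) (x a e : ℂ) (t η ζ R : ℝ) (X : Set ℂ)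
    (Z : Finset ℂ), Wst P w μ → 10 ^ 4 ≤ t → ‖e‖ = 1 → Cov X R → R ≤ t / 10 ^ 9 →
    Apx P a e x (2 * t + 1) X η → η ≤ 1 / 20 → 0 ≤ ζ → C * ζ ≤ 1 →
    C * (μ.real (ball x (3 * t)) + 1) ≤ t → (Z.card : ℝ) ≤ (Kt t : ℝ) ^ 2 / 4 →
    (∀ z ∈ Lat a e, ‖z - x‖ ≤ t / 5 → z ∉ X → z ∉ Z → ∃ p ∈ P, ‖p - z‖ ≤ ζ) →
    ∃ a' e' : ℂ, RigAt P a' e' x t (η + C * (ζ + (μ.real (ball x (3 * t)) + 1) / t)) (2 * R)
      (C * (μ.real (ball x (3 * t)) + 1) / t)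

/-- Two lattices that fit the packing on overlapping boxes are close. -/
def LatSt (C : ℝ) : Prop :=
  ∀ (P : Finset ℂ) (y y' a e a' e' : ℂ) (t ε : ℝ), Sep P → 10 ^ 4 ≤ t → ‖y - y'‖ ≤ t / 50 →
    0 ≤ ε → ε ≤ 1 / 20 → Fit P a e y t ε → Fit P a' e' y' t ε →
    Rel y (C * ε) (C * ε / t) a e a' e'

/-- The open neighbourhood of radius `r` of the segment from `X` to `Y`. -/
def tube (X Y : ℂ) (r : ℝ) : Set ℂ :=
  {z | ∃ τ : ℝ, 0 ≤ τ ∧ τ ≤ 1 ∧ ‖z - (X + τ * (Y - X))‖ < r}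

end Pool.Agent.Lib.MP_b07bdb_co.Nk
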