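import Pool.Agent.Lib.MP_b07bdb_co.Nk.Defs

/-! Refitting, part one: the estimate along one row and an approximate Pexider equation. -/

namespace Pool.Agent.Lib.MP_b07bdb_co.Nk

open Finset
open scoped ComplexConjugate

lemma fit_s3 : √3 * √3 = (3 : ℝ) := Real.mul_self_sqrt (by norm_num)

lemma fit_s3_lo : (17 / 10 : ℝ) ≤ √3 := by
  apply Real.le_sqrt_of_sq_le; norm_num

lemma fit_s3_hi : √3 ≤ (7 / 4 : ℝ) := by
  apply Real.sqrt_le_iff.2; norm_num

lemma fit_w6_sq : w6 * w6 = w6 - 1 := by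
  have h := fit_s3
  apply Complex.ext
  · simp only [w6, Complex.mul_re, Complex.sub_re, Complex.one_re]; nlinarith
  · simp only [w6, Complex.mul_im, Complex.sub_im, Complex.one_im]; ring

lemma fit_w6_norm : ‖w6‖ = 1 := by
  have h := fit_s3
  have h2 : ‖w6‖ ^ 2 = 1 := by
    rw [Complex.sq_norm, Complex.normSq_apply]; simp only [w6]; nlinarith
  have := norm_nonneg w6
  nlinarith

lemma fit_eq {P : Finset ℂ} (h : Sep P) {p q : ℂ} (hp : p ∈ P) (hq : q ∈ P)
    (hd : ‖p - q‖ < 2) : p = q := by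
  by_contra hne
  have := h p hp q hq hne
  rw [dist_eq_norm] at this
  linarith

lemma fit_opp {P : Finset ℂ} {w : ℂ → ℝ} (h : Loc P w) {p q q' : ℂ} (hp : p ∈ P) (hq : q ∈ P)
    (hq' : q' ∈ P) (hw : w p ≤ 1 / 1000) (hne : q ≠ p) (hd : ‖q - p‖ ≤ 21 / 10)
    (ho : ‖(q - p) + (q' - p)‖ ≤ 1) : ‖(q - p) + (q' - p)‖ ≤ 300 * w p := by
  obtain ⟨q2, h2, n2, d2, e2⟩ := h.rot p hp hw q hq hne hd
  obtain ⟨q3, h3, n3, d3, e3⟩ := h.rot p hp hw q2 h2 n2 d2
  obtain ⟨q4, h4, -, -, e4⟩ := h.rot p hp hw q3 h3 n3 d3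
  have key : (q - p) + (q4 - p) = (q4 - p - w6 * (q3 - p)) + w6 * (q3 - p - w6 * (q2 - p)) +
      w6 * (w6 * (q2 - p - w6 * (q - p))) := by
    linear_combination (q - p) * (w6 + 1) * fit_w6_sq
  have hb : ‖(q - p) + (q4 - p)‖ ≤ 300 * w p := by
    rw [key]
    refine (norm_add₃_le).trans ?_
    simp only [norm_mul, fit_w6_norm, one_mul]
    linarith
  have : q4 = q' := by
    apply fit_eq h.sep h4 hq'
    have e : q4 - q' = ((q - p) + (q4 - p)) - ((q - p) + (q' - p)) := by ring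
    rw [e]
    refine (norm_sub_le _ _).trans_lt ?_
    linarith
  rw [← this]; exact hb

lemma fit_re_le (a b : ℂ) : |(a * conj b).re| ≤ ‖a‖ * ‖b‖ := by
  refine (Complex.abs_re_le_norm _).trans ?_
  rw [norm_mul, Complex.norm_conj]

lemma fit_re_self (a : ℂ) : (a * conj a).re = ‖a‖ ^ 2 := by
  rw [Complex.mul_conj, Complex.sq_norm]; simp

/-- The analytic core of the row estimate. -/
lemma fit_core (τ : ℂ) (N : ℕ) (hN : 1 ≤ N) (u : ℕ → ℂ) (W : ℕ → ℝ) (S : ℝ)
    (hu : ∀ i ≤ N, ‖u i‖ ≤ 1 / 20) (hW : ∀ i ≤ N, 0 ≤ W i)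
    (hS : ∑ i ∈ range (N + 1), W i ≤ S)
    (h2 : ∀ i, i + 2 ≤ N → ‖(u (i + 2) - u (i + 1)) - (u (i + 1) - u i)‖ ≤ 300 * W (i + 1))
    (h1 : ∀ i, i + 1 ≤ N → |((u (i + 1) - u i) * conj τ).re| ≤
      ‖u (i + 1) - u i‖ ^ 2 / 4 + 103 * W i) :
    ∀ i ≤ N, |((u i - u 0) * conj τ).re| ≤ 130 * S + 1 / N := by
  set d : ℕ → ℂ := fun i => u (i + 1) - u i with hd
  have hNr : (1 : ℝ) ≤ N := by exact_mod_cast hN
  have hsub : ∀ n ≤ N + 1, ∑ i ∈ range n, W i ≤ S := by
    intro n hn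
    refine le_trans ?_ hS
    apply sum_le_sum_of_subset_of_nonneg (range_mono hn)
    intro i hi _
    exact hW i (by have := mem_range.1 hi; omega)
  have hS0 : 0 ≤ S := by simpa using hsub 0 (by omega)
  have hA : ∀ n, n + 1 ≤ N → ‖d n - d 0‖ ≤ 300 * ∑ i ∈ range (n + 1), W i := by
    intro n
    induction n with
    | zero => intro _; simpa using hW 0 (by omega)
    | succ n ih =>
      intro hn
      have e : d (n + 1) - d 0 = (d (n + 1) - d n) + (d n - d 0) := by ring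
      rw [e, sum_range_succ _ (n + 1)]
      refine (norm_add_le _ _).trans ?_
      have := ih (by omega)
      have := h2 n hn
      simp only [hd] at *
      linarith
  have hA' : ∀ n, n + 1 ≤ N → ‖d n - d 0‖ ≤ 300 * S := by
    intro n hn
    have := hA n hn
    have := hsub (n + 1) (by omega)
    linarith
  have htel : ∀ n, ∑ i ∈ range n, d i = u n - u 0 := fun n => sum_range_sub u n
  have hd0 : ‖d 0‖ ≤ 300 * S + 1 / (10 * N) := by
    have e : (N : ℂ) * d 0 = (u N - u 0) - ∑ i ∈ range N, (d i - d 0) := by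
      rw [sum_sub_distrib, htel]; simp
    have b1 : ‖∑ i ∈ range N, (d i - d 0)‖ ≤ N * (300 * S) := by
      refine (norm_sum_le _ _).trans ?_
      have := sum_le_card_nsmul (range N) (fun i => ‖d i - d 0‖) (300 * S)
        (fun i hi => hA' i (by have := mem_range.1 hi; omega))
      simpa using this
    have b2 : ‖u N - u 0‖ ≤ 1 / 10 := by
      refine (norm_sub_le _ _).trans ?_
      have := hu N le_rfl
      have := hu 0 (by omega)
      linarith
    have b3 : (N : ℝ) * ‖d 0‖ ≤ 1 / 10 + N * (300 * S) := by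
      have := norm_sub_le (u N - u 0) (∑ i ∈ range N, (d i - d 0))
      rw [← e, norm_mul, Complex.norm_natCast] at this
      linarith
    have hN0 : (0 : ℝ) < N := by linarith
    have e2 : 300 * S + 1 / (10 * (N : ℝ)) = (1 / 10 + N * (300 * S)) / N := by
      field_simp; ring
    rw [e2, le_div_iff₀ hN0]; linarith
  have hdn : ∀ n, n + 1 ≤ N → ‖d n‖ ≤ 600 * S + 1 / (10 * N) := by
    intro n hn
    have e : d n = (d n - d 0) + d 0 := by ring
    have := norm_add_le (d n - d 0) (d 0)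
    rw [← e] at this
    have := hA' n hn
    linarith
  have hB : ∀ n, n + 1 ≤ N → ∑ i ∈ range (n + 1), ‖d i‖ ^ 2 ≤
      (d n * conj (u (n + 1))).re - (d 0 * conj (u 0)).re + 15 * ∑ i ∈ range (n + 1), W i := by
    have hsq : ∀ i, ‖d i‖ ^ 2 = (d i * conj (u (i + 1))).re - (d i * conj (u i)).re := by
      intro i
      rw [← fit_re_self, ← Complex.sub_re, ← mul_sub, ← map_sub]
    intro n
    induction n with
    | zero =>
      intro _
      have := hW 0 (by omega)
      simp only [zero_add, range_one, sum_singleton]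
      rw [hsq 0]; simp only [zero_add]; linarith
    | succ n ih =>
      intro hn
      rw [sum_range_succ _ (n + 1), sum_range_succ _ (n + 1), hsq (n + 1)]
      have i1 := ih (by omega)
      have i2 := fit_re_le (d (n + 1) - d n) (u (n + 1))
      have i3 : ‖d (n + 1) - d n‖ ≤ 300 * W (n + 1) := h2 n hn
      have i4 := hu (n + 1) (by omega)
      have i5 : ‖d (n + 1) - d n‖ * ‖u (n + 1)‖ ≤ 300 * W (n + 1) * (1 / 20) :=
        mul_le_mul i3 i4 (norm_nonneg _) ((norm_nonneg _).trans i3)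
      rw [sub_mul, Complex.sub_re] at i2
      have := neg_abs_le ((d (n + 1) * conj (u (n + 1))).re - (d n * conj (u (n + 1))).re)
      linarith
  have hC : ∀ n ≤ N, ∑ i ∈ range n, ‖d i‖ ^ 2 ≤ 75 * S + 1 / N := by
    have hpos : (0 : ℝ) < 1 / N := by positivity
    have e2 : 1 / (10 * (N : ℝ)) = (1 / N) / 10 := by field_simp
    intro n hn
    rcases n with _ | n
    · simp only [range_zero, sum_empty]; linarith
    · have i1 := hB n hn
      have i2 := fit_re_le (d n) (u (n + 1))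
      have i3 := fit_re_le (d 0) (u 0)
      have i4 : ‖d n‖ * ‖u (n + 1)‖ ≤ (600 * S + 1 / (10 * N)) * (1 / 20) :=
        mul_le_mul (hdn n hn) (hu _ hn) (norm_nonneg _) ((norm_nonneg _).trans (hdn n hn))
      have i5 : ‖d 0‖ * ‖u 0‖ ≤ (600 * S + 1 / (10 * N)) * (1 / 20) :=
        mul_le_mul (hdn 0 hN) (hu _ (by omega)) (norm_nonneg _)
          ((norm_nonneg _).trans (hdn 0 hN))
      have i6 := hsub (n + 1) (by omega)
      have := le_abs_self (d n * conj (u (n + 1))).re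
      have := neg_abs_le (d 0 * conj (u 0)).re
      rw [e2] at i4 i5
      linarith
  intro n hn
  rw [← htel, sum_mul, Complex.re_sum]
  refine (abs_sum_le_sum_abs _ _).trans ?_
  have b : ∑ i ∈ range n, |(d i * conj τ).re| ≤ ∑ i ∈ range n, (‖d i‖ ^ 2 / 4 + 103 * W i) :=
    sum_le_sum fun i hi => h1 i (by have := mem_range.1 hi; omega)
  rw [sum_add_distrib, ← sum_div, ← mul_sum] at b
  have := hC n hn
  have := hsub n (by omega)
  have hpos : (0 : ℝ) < 1 / N := by positivity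
  linarith

/-- Along a row of the lattice with small waste the longitudinal displacement is almost
constant. -/
lemma fit_row {P : Finset ℂ} {w : ℂ → ℝ} (h : Loc P w) (τ z0 : ℂ) (hτ : ‖τ‖ = 1) (N : ℕ)
    (hN : 1 ≤ N) (u : ℕ → ℂ) (hP : ∀ i ≤ N, z0 + 2 * τ * (i : ℕ) + u i ∈ P)
    (hu : ∀ i ≤ N, ‖u i‖ ≤ 1 / 20) (S : ℝ)
    (hS : ∑ i ∈ range (N + 1), w (z0 + 2 * τ * (i : ℕ) + u i) ≤ S) (hS1 : S ≤ 1 / 1000) :
    ∀ i ≤ N, |((u i - u 0) * conj τ).re| ≤ 130 * S + 1 / N := by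
  set p : ℕ → ℂ := fun i => z0 + 2 * τ * (i : ℕ) + u i with hp
  have hW : ∀ i ≤ N, 0 ≤ w (p i) := fun i hi => h.nonneg _ (hP i hi)
  have hW1 : ∀ i ≤ N, w (p i) ≤ 1 / 1000 := by
    intro i hi
    have := single_le_sum (f := fun i => w (p i)) (s := range (N + 1))
      (fun j hj => hW j (by have := mem_range.1 hj; omega)) (mem_range.2 (by omega : i < N + 1))
    simp only [hp] at this ⊢
    linarith
  have hdd : ∀ i, i + 1 ≤ N → ‖u (i + 1) - u i‖ ≤ 1 / 10 := by
    intro i hi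
    refine (norm_sub_le _ _).trans ?_
    have := hu (i + 1) hi
    have := hu i (by omega)
    linarith
  have hst : ∀ i, p (i + 1) - p i = 2 * τ + (u (i + 1) - u i) := by
    intro i; simp only [hp]; push_cast; ring
  have h2τ : ‖2 * τ‖ = 2 := by rw [norm_mul, hτ]; simp
  have hle : ∀ i, i + 1 ≤ N → ‖p (i + 1) - p i‖ ≤ 21 / 10 := by
    intro i hi
    rw [hst]
    refine (norm_add_le _ _).trans ?_
    have := hdd i hi
    linarith
  have hne : ∀ i, i + 1 ≤ N → p (i + 1) ≠ p i := by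
    intro i hi he
    have e := hst i
    rw [he, sub_self] at e
    have e2 : u (i + 1) - u i = -(2 * τ) := by linear_combination -e
    have := hdd i hi
    rw [e2, norm_neg, h2τ] at this
    linarith
  apply fit_core τ N hN u (fun i => w (p i)) S hu hW hS
  · intro i hi
    have e : (u (i + 2) - u (i + 1)) - (u (i + 1) - u i) =
        (p (i + 2) - p (i + 1)) + (p i - p (i + 1)) := by
      have a := hst i
      have b := hst (i + 1)
      linear_combination a - b
    have hb : ‖(u (i + 2) - u (i + 1)) - (u (i + 1) - u i)‖ ≤ 1 := by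
      refine (norm_sub_le _ _).trans ?_
      have := hdd (i + 1) hi
      have := hdd i (by omega)
      linarith
    rw [e] at hb ⊢
    exact fit_opp h (hP (i + 1) (by omega)) (hP (i + 2) hi) (hP i (by omega))
      (hW1 (i + 1) (by omega)) (hne (i + 1) hi) (hle (i + 1) hi) hb
  · intro i hi
    have lo : 2 ≤ ‖p (i + 1) - p i‖ := by
      have := h.sep _ (hP (i + 1) hi) _ (hP i (by omega)) (hne i hi)
      rwa [dist_eq_norm] at this
    have hi2 := h.big _ (hP i (by omega)) _ (hP (i + 1) hi) (hne i hi) (hle i hi)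
    change ‖p (i + 1) - p i‖ ≤ 2 + 100 * w (p i) at hi2
    rw [hst] at lo hi2
    set d := u (i + 1) - u i
    have e : ‖2 * τ + d‖ ^ 2 = 4 + 4 * (d * conj τ).re + ‖d‖ ^ 2 := by
      have t1 := normSq_of_norm hτ
      simp only [Complex.sq_norm, Complex.normSq_apply, Complex.add_re, Complex.add_im,
        Complex.mul_re, Complex.mul_im, Complex.conj_re, Complex.conj_im, Complex.re_ofNat,
        Complex.im_ofNat]
      linear_combination 4 * t1
    have w0 := hW i (by omega)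
    have w1 := hW1 i (by omega)
    have a1 : 4 ≤ ‖2 * τ + d‖ ^ 2 := by nlinarith
    have a2 : ‖2 * τ + d‖ ^ 2 ≤ (2 + 100 * w (p i)) ^ 2 := by
      apply pow_le_pow_left₀ (norm_nonneg _) hi2
    have a3 : 0 ≤ ‖d‖ ^ 2 := by positivity
    rw [abs_le]
    constructor <;> nlinarith

/-- An almost additive function on an interval of naturals is almost linear. -/
lemma fit_hyers (φ : ℕ → ℝ) (D : ℕ) (hD : 1 ≤ D) (κ : ℝ)
    (h : ∀ a b, a + b ≤ D → |φ (a + b) - φ a - φ b| ≤ κ) :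
    ∀ a ≤ D, |φ a - a * (φ D / D)| ≤ 3 * κ := by
  set ψ : ℕ → ℝ := fun a => φ a - a * (φ D / D) with hψ
  have hD0 : (D : ℝ) ≠ 0 := by positivity
  have hψD : ψ D = 0 := by simp only [hψ]; field_simp; ring
  have h' : ∀ a b, a + b ≤ D → |ψ (a + b) - ψ a - ψ b| ≤ κ := by
    intro a b hab
    have e : ψ (a + b) - ψ a - ψ b = φ (a + b) - φ a - φ b := by
      simp only [hψ]; push_cast; ring
    rw [e]; exact h a b hab
  obtain ⟨c, hc, hM⟩ := exists_max_image (range (D + 1)) (fun a => |ψ a|) ⟨0, by simp⟩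
  have hM' : ∀ a ≤ D, |ψ a| ≤ |ψ c| := fun a ha => hM a (mem_range.2 (by omega))
  have hc' : c ≤ D := by have := mem_range.1 hc; omega
  have hκ : 0 ≤ κ := (abs_nonneg _).trans (h 0 0 (by omega))
  have hb : |ψ c| ≤ 3 * κ := by
    by_cases h2 : c + c ≤ D
    · have a1 := abs_le.1 (h' c c h2)
      have a2 := abs_le.1 (hM' _ h2)
      rcases abs_cases (ψ c) with a3 | a3 <;> linarith [a1.1, a1.2, a2.1, a2.2, a3.1, a3.2]
    · obtain ⟨r, hr⟩ : ∃ r, D = c + r := ⟨D - c, by omega⟩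
      have a0 := abs_le.1 (h' c r hr.ge)
      rw [← hr, hψD] at a0
      have a1 := abs_le.1 (h' r r (by omega))
      have a2 := abs_le.1 (hM' (r + r) (by omega))
      rcases abs_cases (ψ c) with a3 | a3 <;>
        linarith [a0.1, a0.2, a1.1, a1.2, a2.1, a2.2, a3.1, a3.2]
  intro a ha
  exact (hM' a ha).trans hb

lemma fit_avoid (K : ℕ) (B : Finset ℤ) (hB : B.card ≤ K) : ∃ s : ℤ, 0 ≤ s ∧ s ≤ K ∧ s ∉ B := by
  have : B.card < (Icc (0 : ℤ) K).card := by
    rw [Int.card_Icc]; omega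
  obtain ⟨s, hs, hs'⟩ := exists_mem_notMem_of_card_lt_card this
  exact ⟨s, (mem_Icc.1 hs).1, (mem_Icc.1 hs).2, hs'⟩

lemma fit_avoid4 (K : ℕ) (B1 B2 B3 B4 : Finset ℤ) (f1 f2 f3 f4 : ℤ → ℤ)
    (g1 g2 g3 g4 : ℤ → ℤ) (e1 : ∀ s, g1 (f1 s) = s) (e2 : ∀ s, g2 (f2 s) = s)
    (e3 : ∀ s, g3 (f3 s) = s) (e4 : ∀ s, g4 (f4 s) = s)
    (hB : B1.card + B2.card + B3.card + B4.card ≤ K) :
    ∃ s : ℤ, 0 ≤ s ∧ s ≤ K ∧ f1 s ∉ B1 ∧ f2 s ∉ B2 ∧ f3 s ∉ B3 ∧ f4 s ∉ B4 := by
  obtain ⟨s, h0, h1, h2⟩ := fit_avoid K (B1.image g1 ∪ B2.image g2 ∪ B3.image g3 ∪ B4.image g4) (by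
    have a1 := card_image_le (s := B1) (f := g1)
    have a2 := card_image_le (s := B2) (f := g2)
    have a3 := card_image_le (s := B3) (f := g3)
    have a4 := card_image_le (s := B4) (f := g4)
    have b1 := card_union_le (B1.image g1) (B2.image g2)
    have b2 := card_union_le (B1.image g1 ∪ B2.image g2) (B3.image g3)
    have b3 := card_union_le (B1.image g1 ∪ B2.image g2 ∪ B3.image g3) (B4.image g4)
    omega)
  simp only [mem_union, mem_image, not_or, not_exists, not_and] at h2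
  exact ⟨s, h0, h1, fun h => h2.1.1.1 _ h (e1 s), fun h => h2.1.1.2 _ h (e2 s),
    fun h => h2.1.2 _ h (e3 s), fun h => h2.2 _ h (e4 s)⟩

/-- Approximate Pexider equation on dense sets of integers. -/
lemma fit_pex (K : ℕ) (hK : 1 ≤ K) (F G H : ℤ → ℝ) (BF BG BH : Finset ℤ) (δ : ℝ)
    (hF : 4 * BF.card ≤ K) (hG : 4 * BG.card ≤ K) (hH : 4 * BH.card ≤ K)
    (h : ∀ m n : ℤ, |m| ≤ 4 * K → |n| ≤ 4 * K → m ∉ BG → n ∉ BF → m + n ∉ BH →
      |G m + F n - H (m + n)| ≤ δ) :
    ∃ α c1 c2 : ℝ, (∀ m : ℤ, |m| ≤ K → m ∉ BG → |G m - α * m - c1| ≤ 42 * δ) ∧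
      (∀ n : ℤ, |n| ≤ K → n ∉ BF → |F n - α * n - c2| ≤ 42 * δ) := by
  have hB : ∀ (d : ℕ) (s s' : ℤ), d ≤ 2 * K → |s| ≤ 3 * K → |s'| ≤ 3 * K → s ∉ BH → s + d ∉ BH →
      s' ∉ BH → s' + d ∉ BH → |(H (s + d) - H s) - (H (s' + d) - H s')| ≤ 4 * δ := by
    intro d s s' hd hs hs' a1 a2 a3 a4
    obtain ⟨m, m0, m1, b1, b2, b3, b4⟩ := fit_avoid4 K BG BG BF BF (fun m => m) (fun m => m + d)
      (fun m => s - m) (fun m => s' - m) (fun m => m) (fun m => m - d) (fun m => s - m)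
      (fun m => s' - m) (by simp) (by simp) (by simp) (by simp) (by omega)
    rw [abs_le] at hs hs'
    have c1 := h m (s - m) (by rw [abs_le]; omega) (by rw [abs_le]; omega) b1 b3
      (by simpa using a1)
    have c2 := h (m + d) (s - m) (by rw [abs_le]; omega) (by rw [abs_le]; omega) b2 b3
      (by rwa [show m + d + (s - m) = s + d by ring])
    have c3 := h m (s' - m) (by rw [abs_le]; omega) (by rw [abs_le]; omega) b1 b4
      (by simpa using a3)
    have c4 := h (m + d) (s' - m) (by rw [abs_le]; omega) (by rw [abs_le]; omega) b2 b4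
      (by rwa [show m + d + (s' - m) = s' + d by ring])
    rw [show m + (s - m) = s by ring] at c1
    rw [show m + d + (s - m) = s + d by ring] at c2
    rw [show m + (s' - m) = s' by ring] at c3
    rw [show m + d + (s' - m) = s' + d by ring] at c4
    rw [abs_le] at *
    constructor <;> linarith [c1.1, c1.2, c2.1, c2.2, c3.1, c3.2, c4.1, c4.2]
  have hex : ∀ a b : ℕ, ∃ s : ℤ, 0 ≤ s ∧ s ≤ K ∧ s ∉ BH ∧ s + a ∉ BH ∧ s + a + b ∉ BH := by
    intro a b
    obtain ⟨s, s0, s1, b1, b2, b3, -⟩ := fit_avoid4 K BH BH BH BH (fun m => m) (fun m => m + a)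
      (fun m => m + a + b) (fun m => m) (fun m => m) (fun m => m - a) (fun m => m - b - a)
      (fun m => m) (by simp) (by simp) (by simp) (by simp) (by omega)
    exact ⟨s, s0, s1, b1, b2, b3⟩
  choose σ σ0 σ1 σ2 σ3 _ using fun a => hex a 0
  set φ : ℕ → ℝ := fun a => H (σ a + a) - H (σ a) with hφ
  have hφ' : ∀ (d : ℕ) (s : ℤ), d ≤ 2 * K → |s| ≤ 3 * K → s ∉ BH → s + d ∉ BH →
      |(H (s + d) - H s) - φ d| ≤ 4 * δ := by
    intro d s hd hs a1 a2
    exact hB d s (σ d) hd hs (by have := σ0 d; have := σ1 d; rw [abs_le]; omega) a1 a2 (σ2 d)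
      (σ3 d)
  have hadd : ∀ a b : ℕ, a + b ≤ 2 * K → |φ (a + b) - φ a - φ b| ≤ 12 * δ := by
    intro a b hab
    obtain ⟨s, s0, s1, b1, b2, b3⟩ := hex a b
    have c1 := hφ' a s (by omega) (by rw [abs_le]; omega) b1 b2
    have c2 := hφ' b (s + a) (by omega) (by rw [abs_le]; omega) b2 b3
    have c3 := hφ' (a + b) s hab (by rw [abs_le]; omega) b1 (by
      push_cast; rwa [← add_assoc])
    push_cast at c3
    rw [← add_assoc] at c3
    rw [abs_le] at *
    constructor <;> linarith [c1.1, c1.2, c2.1, c2.2, c3.1, c3.2]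
  have hy := fit_hyers φ (2 * K) (by omega) (12 * δ) hadd
  set α := φ (2 * K) / ((2 * K : ℕ) : ℝ)
  have gen : ∀ (F G : ℤ → ℝ) (BF BG : Finset ℤ), 4 * BF.card ≤ K → 4 * BG.card ≤ K →
      (∀ m n : ℤ, |m| ≤ 4 * K → |n| ≤ 4 * K → m ∉ BG → n ∉ BF → m + n ∉ BH →
        |G m + F n - H (m + n)| ≤ δ) →
      ∃ c : ℝ, ∀ m : ℤ, |m| ≤ K → m ∉ BG → |G m - α * m - c| ≤ 42 * δ := by
    intro F G BF BG hF hG h
    have key : ∀ (m : ℤ) (d : ℕ), |m| ≤ K → |m + d| ≤ K → m ∉ BG → m + d ∉ BG →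
        |G (m + d) - G m - d * α| ≤ 42 * δ := by
      intro m d hm hmd a1 a2
      obtain ⟨n, n0, n1, b1, b2, b3, -⟩ := fit_avoid4 K BF BH BH BH (fun n => n) (fun n => m + n)
        (fun n => m + n + d) (fun n => n) (fun n => n) (fun n => n - m) (fun n => n - d - m)
        (fun n => n) (by simp) (by simp) (by simp) (by simp) (by omega)
      rw [abs_le] at hm hmd
      have c1 := h m n (by rw [abs_le]; omega) (by rw [abs_le]; omega) a1 b1 b2
      have c2 := h (m + d) n (by rw [abs_le]; omega) (by rw [abs_le]; omega) a2 b1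
        (by rwa [show m + d + n = m + n + d by ring])
      rw [show m + d + n = m + n + d by ring] at c2
      have c3 := hφ' d (m + n) (by omega) (by rw [abs_le]; omega) b2 b3
      have c4 := hy d (by omega)
      rw [abs_le] at *
      constructor <;> linarith [c1.1, c1.2, c2.1, c2.2, c3.1, c3.2, c4.1, c4.2]
    obtain ⟨m0, a0, a1, a2⟩ := fit_avoid K BG (by omega)
    have a3 : |m0| ≤ K := by rw [abs_le]; omega
    refine ⟨G m0 - α * m0, fun m hm hb => ?_⟩
    rcases le_total m0 m with hl | hl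
    · obtain ⟨d, rfl⟩ := Int.le.dest hl
      have := key m0 d a3 hm a2 hb
      have e : G (m0 + d) - α * ((m0 + d : ℤ) : ℝ) - (G m0 - α * m0) =
          G (m0 + d) - G m0 - d * α := by push_cast; ring
      rw [e]; exact this
    · obtain ⟨d, rfl⟩ := Int.le.dest hl
      have := key m d hm a3 hb a2
      have e : G m - α * m - (G (m + d) - α * ((m + d : ℤ) : ℝ)) =
          -(G (m + d) - G m - d * α) := by push_cast; ring
      rw [e, abs_neg]; exact this
  obtain ⟨c1, h1⟩ := gen F G BF BG hF hG h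
  obtain ⟨c2, h2⟩ := gen G F BG BF hG hF (by
    intro m n hm hn a1 a2 a3
    have := h n m hn hm a2 a1 (by rwa [add_comm])
    rwa [add_comm (G n), add_comm n] at this)
  exact ⟨α, c1, c2, h1, h2⟩

end Pool.Agent.Lib.MP_b07bdb_co.Nk
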