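import Pool.Agent.Lib.MP_b07bdb_co.Nk.Ori

/-! Chains of touching discs that reach far are almost straight. -/

namespace Pool.Agent.Lib.MP_b07bdb_co.Nk

open Metric MeasureTheory

/-- The component of `z` in the direction `u`. -/
noncomputable def cp (u z : ℂ) : ℝ := ((starRingEnd ℂ) u * z).re

/-- A chain of `n` contact steps from the origin that loses at most `h` in the direction `u`. -/
structure Chain (P : Finset ℂ) (u : ℂ) (c : ℕ → ℂ) (n : ℕ) (h : ℝ) : Prop where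
  unit : ‖u‖ = 1
  zero : c 0 = 0
  mem : ∀ l ≤ n, c l ∈ P
  step : ∀ l < n, ‖c (l + 1) - c l‖ = 2
  exc : 2 * n - h ≤ cp u (c n)

/-- Induction on `k`. -/
lemma Reach.norm_le {S : Finset ℂ} {k : ℕ} {p : ℂ} (h : Reach S k p) : ‖p‖ ≤ 2 * k := by
  induction k generalizing p with
  | zero =>
    have h0 : p = 0 := h
    simp [h0]
  | succ k ih =>
    rcases h with h | ⟨y, _, h1, h2⟩
    · have := ih h
      push_cast
      linarith
    · have h3 := ih h1
      rw [dist_eq_norm] at h2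
      have h4 : ‖p‖ ≤ ‖p - y‖ + ‖y‖ := by simpa using norm_add_le (p - y) y
      push_cast
      linarith

/-- Induction on `k` (extend a path with `fun l => if l ≤ n then c l else p`). -/
lemma Reach.path {S : Finset ℂ} {k : ℕ} {p : ℂ} (h : Reach S k p) (hp : p ∈ S) :
    ∃ (n : ℕ) (c : ℕ → ℂ), n ≤ k ∧ c 0 = 0 ∧ c n = p ∧ (∀ l ≤ n, c l ∈ S) ∧
      ∀ l < n, ‖c (l + 1) - c l‖ = 2 := by
  induction k generalizing p with
  | zero =>
    have h0 : p = 0 := h
    exact ⟨0, fun _ => p, le_rfl, h0, rfl, fun _ _ => hp,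
      fun l hl => absurd hl (Nat.not_lt_zero l)⟩
  | succ k ih =>
    rcases h with h | ⟨y, hy, h1, h2⟩
    · obtain ⟨n, c, a1, a2⟩ := ih h hp
      exact ⟨n, c, by omega, a2⟩
    · obtain ⟨n, c, a1, a2, a3, a4, a5⟩ := ih h1 hy
      refine ⟨n + 1, fun l => if l ≤ n then c l else p, by omega, by simp [a2], by simp,
        fun l _ => ?_, fun l hl => ?_⟩
      · by_cases h : l ≤ n
        · simp only [if_pos h]
          exact a4 l h
        · simp only [if_neg h]
          exact hp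
      · by_cases h : l < n
        · simp only [if_pos (show l + 1 ≤ n from h), if_pos h.le]
          exact a5 l h
        · obtain rfl : l = n := by omega
          rw [dist_eq_norm] at h2
          simpa [a3] using h2

lemma cp_le {u : ℂ} (hu : ‖u‖ = 1) (z : ℂ) : cp u z ≤ ‖z‖ := by
  refine (Complex.re_le_norm _).trans (le_of_eq ?_)
  rw [norm_mul, Complex.norm_conj, hu, one_mul]

lemma cp_add (u z z' : ℂ) : cp u (z + z') = cp u z + cp u z' := by
  simp only [cp, mul_add, Complex.add_re]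

lemma cp_sub (u z z' : ℂ) : cp u (z - z') = cp u z - cp u z' := by
  simp only [cp, mul_sub, Complex.sub_re]

/-- `‖z - L u‖ ^ 2 = ‖z‖ ^ 2 - 2 L cp u z + L ^ 2 ≤ 2 L h`. -/
lemma norm_sub_sq_le {u z : ℂ} {L h : ℝ} (hu : ‖u‖ = 1) (hL : 0 ≤ L) (h1 : ‖z‖ ≤ L)
    (h2 : L - h ≤ cp u z) : ‖z - L * u‖ ^ 2 ≤ 2 * L * h := by
  have e1 := normSq_of_norm hu
  have e2 : ‖z - L * u‖ ^ 2 = ‖z‖ ^ 2 - 2 * L * cp u z + L ^ 2 := by
    rw [Complex.sq_norm, Complex.sq_norm]
    simp only [cp, Complex.normSq_apply, Complex.sub_re, Complex.sub_im, Complex.mul_re,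
      Complex.mul_im, Complex.ofReal_re, Complex.ofReal_im, Complex.conj_re, Complex.conj_im]
    linear_combination L ^ 2 * e1
  have e3 : ‖z‖ ^ 2 ≤ L ^ 2 := pow_le_pow_left₀ (norm_nonneg z) h1 2
  have e4 := mul_le_mul_of_nonneg_left h2 hL
  rw [e2]
  linarith

lemma Geo_tri {c : ℕ → ℂ} {n : ℕ} (hs : ∀ l < n, ‖c (l + 1) - c l‖ = 2) {l j : ℕ}
    (hl : l + j ≤ n) : ‖c (l + j) - c l‖ ≤ 2 * j := by
  induction j with
  | zero => simp
  | succ j ih =>
    have h1 := ih (by omega)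
    have h2 := hs (l + j) (by omega)
    have h3 := norm_add_le (c (l + j + 1) - c (l + j)) (c (l + j) - c l)
    rw [sub_add_sub_cancel] at h3
    rw [← add_assoc]
    push_cast
    linarith

lemma Geo_sq {x : ℝ} (h : x ^ 2 ≤ 1 / 10 ^ 4) : x ≤ 1 / 100 := by
  by_contra hc
  have h1 := not_le.1 hc
  nlinarith

/-- A far point gives a chain in its own direction: `u = p / ‖p‖`, `cp u p = ‖p‖ ≤ 2 n`. -/
lemma exists_chain {S : Finset ℂ} {k : ℕ} {p : ℂ} {h : ℝ} (hr : Reach S k p) (hp : p ∈ S)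
    (hp0 : p ≠ 0) (hfar : 2 * k - h ≤ ‖p‖) :
    ∃ (n : ℕ) (c : ℕ → ℂ), n ≤ k ∧ (k : ℝ) - h / 2 ≤ n ∧ Chain S (p / ‖p‖) c n h := by
  obtain ⟨n, c, a1, a2, a3, a4, a5⟩ := Reach.path hr hp
  have hn0 : ‖p‖ ≠ 0 := norm_ne_zero_iff.2 hp0
  have hn : (‖p‖ : ℂ) ≠ 0 := by exact_mod_cast hn0
  have hcp : cp (p / ‖p‖) p = ‖p‖ := by
    have e : (starRingEnd ℂ) (p / ‖p‖) * p = (‖p‖ : ℂ) := by
      rw [map_div₀, Complex.conj_ofReal, div_mul_eq_mul_div, Complex.conj_mul', div_eq_iff hn]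
      ring
    rw [cp, e, Complex.ofReal_re]
  have hle : ‖p‖ ≤ 2 * n := by
    have := Geo_tri a5 (l := 0) (j := n) (by omega)
    rwa [zero_add, a2, a3, sub_zero] at this
  have hnk : (n : ℝ) ≤ k := by exact_mod_cast a1
  refine ⟨n, c, a1, by linarith, ?_, a2, a4, a5, ?_⟩
  · rw [norm_div, Complex.norm_real, norm_norm, div_self hn0]
  · rw [a3, hcp]
    linarith

/-- Triangle inequality along the chain. -/
lemma Chain.norm_sub_le {P : Finset ℂ} {u : ℂ} {c : ℕ → ℂ} {n : ℕ} {h : ℝ}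
    (hc : Chain P u c n h) {l j : ℕ} (hl : l + j ≤ n) : ‖c (l + j) - c l‖ ≤ 2 * j := by
  exact Geo_tri hc.step hl

/-- `cp u (c n) = cp u (c l) + cp u (c n - c l) ≤ cp u (c l) + 2 (n - l)`. -/
lemma Chain.cp_ge {P : Finset ℂ} {u : ℂ} {c : ℕ → ℂ} {n : ℕ} {h : ℝ}
    (hc : Chain P u c n h) {l : ℕ} (hl : l ≤ n) : ‖c l‖ ≤ 2 * l ∧ 2 * l - h ≤ cp u (c l) := by
  constructor
  · have := hc.norm_sub_le (l := 0) (j := l) (by omega)
    rwa [zero_add, hc.zero, sub_zero] at this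
  · obtain ⟨j, rfl⟩ := Nat.exists_eq_add_of_le hl
    have h1 := hc.norm_sub_le (l := l) (j := j) le_rfl
    have h2 := cp_le hc.unit (c (l + j) - c l)
    have h3 := hc.exc
    rw [cp_sub] at h2
    push_cast at h3
    linarith

/-- A window with small loss is straight: for `j ≤ t / 2 ≤ T`, `‖c (l + j) - c l‖ ≤ 2 j` and
`2 j - h' ≤ cp u (c (l + j) - c l)`, so `norm_sub_sq_le` bounds the square of the distance by
`4 j h' ≤ 4 T h'`. -/
lemma Chain.straight {P : Finset ℂ} {u : ℂ} {c : ℕ → ℂ} {n : ℕ} {h h' t : ℝ}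
    (hc : Chain P u c n h) {l T : ℕ} (hl : l + T ≤ n) (hT : t / 2 ≤ T) (hh : 0 ≤ h')
    (hw : 2 * T - h' ≤ cp u (c (l + T) - c l)) (hs : 4 * T * h' ≤ 1 / 10 ^ 4) :
    Straight P (c l) u t := by
  intro j hj
  have hjT : j ≤ T := by exact_mod_cast hj.trans hT
  obtain ⟨i, rfl⟩ := Nat.exists_eq_add_of_le hjT
  refine ⟨c (l + j), hc.mem _ (by omega), ?_⟩
  have h1 := hc.norm_sub_le (l := l) (j := j) (by omega)
  have h2 := hc.norm_sub_le (l := l + j) (j := i) (by omega)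
  have h3 := cp_le hc.unit (c (l + j + i) - c (l + j))
  rw [← add_assoc, cp_sub] at hw
  rw [cp_sub] at h3
  have h4 : 2 * (j : ℝ) - h' ≤ cp u (c (l + j) - c l) := by
    rw [cp_sub]
    push_cast at hw
    linarith
  have h5 := norm_sub_sq_le hc.unit (by positivity) h1 h4
  have e : c (l + j) - (c l + 2 * j * u) = c (l + j) - c l - ((2 * (j : ℝ) : ℝ) : ℂ) * u := by
    push_cast
    ring
  rw [e]
  have h6 : (0 : ℝ) ≤ (i : ℝ) * h' := by positivity
  push_cast at hs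
  refine Geo_sq ?_
  linarith

open Classical in
/-- Markov. The losses `2 T - cp u (c (l₀ + (j + 1) T) - c (l₀ + j T))` are nonnegative and
telescope to `2 J T - cp u (c (l₀ + J T)) + cp u (c l₀) ≤ h` (`Chain.cp_ge`, `cp_le`). -/
lemma Chain.windows {P : Finset ℂ} {u : ℂ} {c : ℕ → ℂ} {n : ℕ} {h h' : ℝ}
    (hc : Chain P u c n h) {l₀ T J : ℕ} (hl : l₀ + J * T ≤ n) (hh : 0 < h') :
    (((Finset.range J).filter fun j =>
      ¬ (2 * T - h' ≤ cp u (c (l₀ + j * T + T) - c (l₀ + j * T)))).card : ℝ) ≤ h / h' := by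
  set f : ℕ → ℝ := fun j => cp u (c (l₀ + j * T)) with hf
  set g : ℕ → ℝ := fun j => 2 * T - cp u (c (l₀ + j * T + T) - c (l₀ + j * T)) with hg
  have g0 : ∀ j ∈ Finset.range J, 0 ≤ g j := by
    intro j hj
    have hj' : j + 1 ≤ J := Finset.mem_range.1 hj
    have h0 : (j + 1) * T ≤ J * T := Nat.mul_le_mul_right T hj'
    have h1 := hc.norm_sub_le (l := l₀ + j * T) (j := T) (by rw [add_mul, one_mul] at h0; omega)
    have h2 := cp_le hc.unit (c (l₀ + j * T + T) - c (l₀ + j * T))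
    simp only [hg]
    linarith
  have gs : ∑ j ∈ Finset.range J, g j ≤ h := by
    have e1 : ∀ j, g j = 2 * T - (f (j + 1) - f j) := by
      intro j
      simp only [hg, hf, cp_sub, add_mul, one_mul, add_assoc]
    rw [Finset.sum_congr rfl fun j _ => e1 j, Finset.sum_sub_distrib, Finset.sum_range_sub,
      Finset.sum_const, Finset.card_range, nsmul_eq_mul]
    have h1 := (hc.cp_ge hl).2
    have h2 := (hc.cp_ge (l := l₀) (by omega)).1
    have h3 := cp_le hc.unit (c l₀)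
    simp only [hf, zero_mul, add_zero]
    push_cast at h1
    linarith
  rw [le_div_iff₀ hh]
  refine le_trans ?_ (le_trans (Finset.sum_le_sum_of_subset_of_nonneg
    (Finset.filter_subset (fun j =>
      ¬ (2 * T - h' ≤ cp u (c (l₀ + j * T + T) - c (l₀ + j * T)))) _)
    fun j hj _ => g0 j hj) gs)
  rw [← nsmul_eq_mul, ← Finset.sum_const]
  refine Finset.sum_le_sum fun j hj => ?_
  have := not_le.1 (Finset.mem_filter.1 hj).2
  simp only [hg]
  linarith

end Pool.Agent.Lib.MP_b07bdb_co.Nk
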