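import Pool.Agent.Lib.MP_b07bdb_co.Nk.CovA

/-! Gluing the local pictures along one lattice. -/

namespace Pool.Agent.Lib.MP_b07bdb_co.Nk

open Metric MeasureTheory

lemma Glue_move {x z ρ b : ℂ} {t γ : ℝ} (ht : 1 ≤ t) (hγ : 0 ≤ γ) (hb : ‖b‖ ≤ γ)
    (hρ : ‖ρ - 1‖ ≤ γ / t) (hz : ‖z - x‖ ≤ 2 * t + 1) : ‖x + b + ρ * (z - x) - z‖ ≤ 4 * γ := by
  have e : x + b + ρ * (z - x) - z = b + (ρ - 1) * (z - x) := by ring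
  have h1 : ‖ρ - 1‖ * ‖z - x‖ ≤ γ / t * (3 * t) :=
    mul_le_mul hρ (by linarith) (norm_nonneg _) (by positivity)
  have h2 : γ / t * (3 * t) = 3 * γ := by field_simp
  have h3 := norm_add_le b ((ρ - 1) * (z - x))
  rw [norm_mul] at h3
  rw [e]
  linarith

lemma Glue_card {s t c k K : ℝ} (hs : 10 ^ 4 ≤ s) (ht : 1000 * s ≤ t) (k0 : 0 ≤ k)
    (hc : c ≤ (2 * (t / 5 + s / 200) / (s / 200) + 1) ^ 2) (hk : k ≤ s / 20) (hK : t / 21 ≤ K) :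
    c * (k ^ 2 / 10 ^ 5) ≤ K ^ 2 / 4 := by
  have s0 : 0 < s := by linarith
  have t0 : 0 < t := by linarith
  have h1 : c * (k ^ 2 / 10 ^ 5) ≤
      (2 * (t / 5 + s / 200) / (s / 200) + 1) ^ 2 * ((s / 20) ^ 2 / 10 ^ 5) := by gcongr
  have h2 : (2 * (t / 5 + s / 200) / (s / 200) + 1) ^ 2 * ((s / 20) ^ 2 / 10 ^ 5) =
      (4 * t + 3 * s / 20) ^ 2 / 10 ^ 5 := by field_simp; ring
  have h3 : (4 * t + 3 * s / 20) ^ 2 ≤ (5 * t) ^ 2 := by gcongr; linarith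
  have h4 : (t / 21) ^ 2 ≤ K ^ 2 := by gcongr
  nlinarith

lemma Glue_coord {s : ℝ} {m : ℤ} (hs : 10 ^ 4 ≤ s) (h : √3 * |(m : ℝ)| ≤ s / 200 + 4) :
    |m| ≤ (Kt s : ℤ) := by
  have h1 := le_Kt hs
  have h2 : (1 : ℝ) ≤ √3 := Real.one_le_sqrt.2 (by norm_num)
  have h3 := le_mul_of_one_le_left (abs_nonneg (m : ℝ)) h2
  have h4 : |(m : ℝ)| ≤ (Kt s : ℝ) := by linarith
  exact_mod_cast h4

open Classical in
/-- For `y ∈ G` with `Rel x γ (γ / t) a₀ e₀ (A y) (E y)` choose `ρ y, b y` once and let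
`φ y z = x + b y + ρ y (z - x)`; `‖φ y z - z‖ ≤ γ + γ / t * (2 t + 1) ≤ 4 γ ≤ 1` if
`‖z - x‖ ≤ 2 t + 1`. Put `X = X₀ ∪ ⋃ y ∈ G, thick (Xy y) 1` (`Cov.union`, `cov_biUnion`,
`Cov.thick`). For a lattice point `z ∉ X`, `φ y z` is a point of `Lat (A y) (E y)` outside `Xy y`
within `s / 200 + 1 ≤ 2 s` of `y`. Put
`Z = ⋃ y ∈ G.filter (‖y - x‖ ≤ t / 5 + s / 200), image (fun g => x + (lp (A y) (E y) g.1 g.2 - x - b y) / ρ y) (bad P (A y) (E y) (Kt s) ε)`;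
`card Z ≤ (80 t / s + 3) ^ 2 (s / 20) ^ 2 / 10 ^ 5 ≤ (t / 21) ^ 2 / 4` (`Kt_le`, `le_Kt`). If
`‖z - x‖ ≤ t / 5`, `z ∉ X`, `z ∉ Z` then `φ y z = lp (A y) (E y) m n` has
`√3 |m|, √3 |n| ≤ s / 200 + 4` (`lp_coord0`), so `|m|, |n| ≤ Kt s`, and `(m, n)` is not bad
(`mem_bad`). -/
theorem glue (P : Finset ℂ) (x a₀ e₀ : ℂ) (s t η ε γ R₀ : ℝ) (G : Finset ℂ) (A E : ℂ → ℂ)
    (Xy : ℂ → Set ℂ) (r : ℂ → ℝ) (X₀ : Set ℂ) (hs : 10 ^ 4 ≤ s) (ht : 1000 * s ≤ t)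
    (hγ0 : 0 ≤ γ) (hγ : 4 * γ ≤ 1)
    (hloc : ∀ y ∈ G, Fit P (A y) (E y) y s ε ∧ Cov (Xy y) (r y) ∧
      Apx P (A y) (E y) y (2 * s) (Xy y) η)
    (hX₀ : Cov X₀ R₀)
    (hreach : ∀ z : ℂ, ‖z - x‖ ≤ 2 * t + 1 → z ∉ X₀ → ∃ y ∈ G, ‖y - z‖ ≤ s / 200 ∧
      Rel x γ (γ / t) a₀ e₀ (A y) (E y))
    (hcount : ∀ (z : ℂ) (ρ : ℝ), 0 ≤ ρ →
      ((G.filter fun y => ‖y - z‖ ≤ ρ).card : ℝ) ≤ (2 * ρ / (s / 200) + 1) ^ 2) :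
    ∃ (X : Set ℂ) (Z : Finset ℂ), Cov X (R₀ + 2 * ∑ y ∈ G, r y) ∧
      Apx P a₀ e₀ x (2 * t + 1) X (η + 4 * γ) ∧ (Z.card : ℝ) ≤ (Kt t : ℝ) ^ 2 / 4 ∧
      ∀ z ∈ Lat a₀ e₀, ‖z - x‖ ≤ t / 5 → z ∉ X → z ∉ Z → ∃ p ∈ P, ‖p - z‖ ≤ ε + 4 * γ := by
  have t1 : 1 ≤ t := by linarith
  have ch : ∀ y : ℂ, ∃ ρ b : ℂ, Rel x γ (γ / t) a₀ e₀ (A y) (E y) → ‖ρ‖ = 1 ∧ ‖b‖ ≤ γ ∧
      ‖ρ - 1‖ ≤ γ / t ∧ ∀ z ∈ Lat a₀ e₀, x + b + ρ * (z - x) ∈ Lat (A y) (E y) := by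
    intro y
    by_cases h : Rel x γ (γ / t) a₀ e₀ (A y) (E y)
    · obtain ⟨ρ, b, h'⟩ := h
      exact ⟨ρ, b, fun _ => h'⟩
    · exact ⟨0, 0, fun h' => absurd h' h⟩
  choose ρ b hρ using ch
  have key : ∀ z ∈ Lat a₀ e₀, ‖z - x‖ ≤ 2 * t + 1 → z ∉ X₀ ∪ ⋃ y ∈ G, thick (Xy y) 1 →
      ∃ y ∈ G, ‖y - z‖ ≤ s / 200 ∧ ρ y ≠ 0 ∧ x + b y + ρ y * (z - x) ∈ Lat (A y) (E y) ∧
        x + b y + ρ y * (z - x) ∉ Xy y ∧ ‖x + b y + ρ y * (z - x) - z‖ ≤ 4 * γ ∧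
        ‖x + b y + ρ y * (z - x) - y‖ ≤ s / 200 + 1 := by
    intro z hz h1 h2
    obtain ⟨y, hy, h3, h4⟩ := hreach z h1 fun h => h2 (Or.inl h)
    obtain ⟨a1, a2, a3, a4⟩ := hρ y h4
    have a5 := Glue_move t1 hγ0 a2 a3 h1
    refine ⟨y, hy, h3, norm_ne_zero_iff.1 (a1 ▸ one_ne_zero), a4 z hz, fun h => h2 (Or.inr
      (Set.mem_biUnion hy ⟨_, h, by rw [norm_sub_rev]; linarith⟩)), a5, ?_⟩
    have := norm_sub_le_norm_sub_add_norm_sub (x + b y + ρ y * (z - x)) z y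
    rw [norm_sub_rev z y] at this
    linarith
  refine ⟨X₀ ∪ ⋃ y ∈ G, thick (Xy y) 1,
    (G.filter fun y => ‖y - x‖ ≤ t / 5 + s / 200).biUnion fun y =>
      (bad P (A y) (E y) (Kt s) ε).image fun g => x + (lp (A y) (E y) g.1 g.2 - x - b y) / ρ y,
    ?_, fun z hz h1 h2 => ?_, ?_, fun z hz h1 h2 h3 => ?_⟩
  · refine (hX₀.union (cov_biUnion G _ _ fun y hy =>
      (hloc y hy).2.1.thick zero_le_one)).mono subset_rfl (le_of_eq ?_)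
    rw [← Finset.mul_sum]
    norm_num
  · obtain ⟨y, hy, -, -, a1, a2, a3, a4⟩ := key z hz h1 h2
    obtain ⟨p, hp, a5⟩ := (hloc y hy).2.2 _ a1 (by linarith) a2
    have := norm_sub_le_norm_sub_add_norm_sub p (x + b y + ρ y * (z - x)) z
    exact ⟨p, hp, by linarith⟩
  · refine le_trans ?_ (Glue_card hs ht (Nat.cast_nonneg (Kt s))
      (hcount x (t / 5 + s / 200) (by linarith)) (Kt_le (by linarith)) (le_Kt (by linarith)))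
    rw [← nsmul_eq_mul, ← Finset.sum_const]
    refine le_trans (Nat.cast_le.2 Finset.card_biUnion_le) ?_
    rw [Nat.cast_sum]
    exact Finset.sum_le_sum fun y hy => (Nat.cast_le.2 Finset.card_image_le).trans
      (hloc y (Finset.mem_filter.1 hy).1).1.2.2
  · obtain ⟨y, hy, a0, a6, ⟨m, n, a1⟩, -, a3, a4⟩ := key z hz (by linarith) h2
    obtain ⟨he, ha, -⟩ := (hloc y hy).1
    have b1 := norm_sub_le_norm_sub_add_norm_sub y z x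
    have b2 := norm_sub_le_norm_sub_add_norm_sub (x + b y + ρ y * (z - x)) y (A y)
    rw [norm_sub_rev y (A y)] at b2
    obtain ⟨c1, c2⟩ := lp_coord0 (a := A y) he m n
    rw [← a1] at c1 c2
    have nb : (m, n) ∉ bad P (A y) (E y) (Kt s) ε := fun h => h3 (Finset.mem_biUnion.2
      ⟨y, Finset.mem_filter.2 ⟨hy, by linarith⟩, Finset.mem_image.2 ⟨_, h, by
        simp only [← a1]
        field_simp
        ring⟩⟩)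
    rw [mem_bad, not_and, not_not, ← a1] at nb
    obtain ⟨p, hp, a5⟩ := nb ⟨Glue_coord hs (by linarith), Glue_coord hs (by linarith)⟩
    have := norm_sub_le_norm_sub_add_norm_sub p (x + b y + ρ y * (z - x)) z
    exact ⟨p, hp, by linarith⟩

end Pool.Agent.Lib.MP_b07bdb_co.Nk
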