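import Pool.Agent.Lib.MP_b07bdb_co.Nk.Defs

/-! Elementary facts on the triangular lattice. -/

namespace Pool.Agent.Lib.MP_b07bdb_co.Nk

open Metric MeasureTheory

lemma w6_re : w6.re = 1 / 2 := rfl

lemma w6_im : w6.im = √3 / 2 := rfl

lemma w6_sq : w6 * w6 = w6 - 1 := by
  have h := sq3
  apply Complex.ext <;> simp [w6, Complex.mul_re, Complex.mul_im] <;> linarith

lemma w6_norm : ‖w6‖ = 1 := by
  have h := sq3
  have : ‖w6‖ ^ 2 = 1 := by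
    rw [Complex.sq_norm, Complex.normSq_apply, w6_re, w6_im]; linarith
  nlinarith [norm_nonneg w6]

lemma w6_cube : w6 * (w6 * w6) = -1 := by
  have h := w6_sq
  linear_combination (w6 + 1) * h

/-- `‖m + n ω‖ ^ 2 = m ^ 2 + m n + n ^ 2` (real and imaginary parts `m + n / 2`, `√3 n / 2`). -/
lemma normsq_eis (m n : ℤ) :
    ‖(m : ℂ) + n * w6‖ ^ 2 = (m : ℝ) ^ 2 + m * n + (n : ℝ) ^ 2 := by
  have h := sq3
  rw [Complex.sq_norm, Complex.normSq_apply]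
  simp only [Complex.add_re, Complex.intCast_re, Complex.mul_re, Complex.intCast_im, w6_re, w6_im,
    Complex.add_im, Complex.mul_im]
  linear_combination ((n : ℝ) ^ 2 / 4) * h

/-- From `normsq_eis`: `4 (m² + m n + n²) = (2 m + n)² + 3 n² = (m + 2 n)² + 3 m²`. -/
lemma coord_le (m n : ℤ) :
    √3 * |(m : ℝ)| ≤ 2 * ‖(m : ℂ) + n * w6‖ ∧ √3 * |(n : ℝ)| ≤ 2 * ‖(m : ℂ) + n * w6‖ := by
  have h := sq3
  have h1 := normsq_eis m n
  have h2 := norm_nonneg ((m : ℂ) + n * w6)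
  constructor
  · refine abs_le_of_sq_le_sq' ?_ (by positivity) |>.2
    rw [mul_pow, mul_pow, sq_abs, h1, Real.sq_sqrt (by norm_num)]
    nlinarith [sq_nonneg ((m : ℝ) + 2 * n)]
  · refine abs_le_of_sq_le_sq' ?_ (by positivity) |>.2
    rw [mul_pow, mul_pow, sq_abs, h1, Real.sq_sqrt (by norm_num)]
    nlinarith [sq_nonneg (2 * (m : ℝ) + n)]

/-- `m² + m n + n² ≤ 3 K²`. -/
lemma eis_le {m n : ℤ} {K : ℝ} (hm : |(m : ℝ)| ≤ K) (hn : |(n : ℝ)| ≤ K) :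
    ‖(m : ℂ) + n * w6‖ ≤ √3 * K := by
  have hK : 0 ≤ K := (abs_nonneg _).trans hm
  refine abs_le_of_sq_le_sq' ?_ (by positivity) |>.2
  rw [normsq_eis, mul_pow, Real.sq_sqrt (by norm_num)]
  obtain ⟨a1, a2⟩ := abs_le.1 hm
  obtain ⟨b1, b2⟩ := abs_le.1 hn
  nlinarith [sq_nonneg ((m : ℝ) - n)]

lemma lp_sub (a e : ℂ) (m n m' n' : ℤ) :
    lp a e m n - lp a e m' n' = 2 * e * (((m - m' : ℤ) : ℂ) + ((n - n' : ℤ) : ℂ) * w6) := by
  simp only [lp]; push_cast; ring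

lemma lp_zero (a e : ℂ) : lp a e 0 0 = a := by simp [lp]

lemma lp_mem (a e : ℂ) (m n : ℤ) : lp a e m n ∈ Lat a e := ⟨m, n, rfl⟩

lemma self_mem_Lat (a e : ℂ) : a ∈ Lat a e := ⟨0, 0, (lp_zero a e).symm⟩

lemma Lat0_norm {a e : ℂ} (he : ‖e‖ = 1) (m n m' n' : ℤ) : ‖lp a e m n - lp a e m' n'‖ =
    2 * ‖((m - m' : ℤ) : ℂ) + ((n - n' : ℤ) : ℂ) * w6‖ := by
  rw [lp_sub, norm_mul, norm_mul, he, Complex.norm_ofNat, mul_one]

lemma Lat0_small {m n : ℤ} (h : ‖(m : ℂ) + n * w6‖ < 1) : m = 0 ∧ n = 0 := by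
  have h1 := normsq_eis m n
  have h2 : ((m ^ 2 + m * n + n ^ 2 : ℤ) : ℝ) < ((1 : ℤ) : ℝ) := by
    push_cast
    nlinarith [norm_nonneg ((m : ℂ) + n * w6)]
  have h3 := Int.cast_lt.1 h2
  constructor <;> nlinarith [sq_nonneg (m + 2 * n), sq_nonneg (2 * m + n), sq_nonneg m, sq_nonneg n]

lemma Lat0_tri {α β : ℝ} (a0 : 0 ≤ α) (b0 : 0 ≤ β) (h : α + β ≤ 1)
    (k0 : 1 / 3 < α ^ 2 + α * β + β ^ 2) (k1 : 1 / 3 < (α - 1) ^ 2 + (α - 1) * β + β ^ 2)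
    (k2 : 1 / 3 < α ^ 2 + α * (β - 1) + (β - 1) ^ 2) : False := by
  have h1 := mul_nonneg a0 (sub_pos.2 k1).le
  have h2 := mul_nonneg b0 (sub_pos.2 k2).le
  have h3 := mul_nonneg (sub_nonneg.2 h) (sub_pos.2 k0).le
  have h4 : α = 1 / 3 := by nlinarith [sq_nonneg (α - 1 / 3), sq_nonneg (2 * β + α - 1)]
  have h5 : β = 1 / 3 := by nlinarith [sq_nonneg (β - 1 / 3), sq_nonneg (2 * α + β - 1)]
  rw [h4, h5] at k0
  norm_num at k0

/-- Coordinates are bounded by the distance. -/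
lemma lp_coord {a e : ℂ} (he : ‖e‖ = 1) (m n m' n' : ℤ) :
    √3 * |((m - m' : ℤ) : ℝ)| ≤ ‖lp a e m n - lp a e m' n'‖ ∧
      √3 * |((n - n' : ℤ) : ℝ)| ≤ ‖lp a e m n - lp a e m' n'‖ := by
  rw [Lat0_norm he]
  exact coord_le _ _

lemma lp_coord0 {a e : ℂ} (he : ‖e‖ = 1) (m n : ℤ) :
    √3 * |(m : ℝ)| ≤ ‖lp a e m n - a‖ ∧ √3 * |(n : ℝ)| ≤ ‖lp a e m n - a‖ := by
  simpa [lp_zero] using lp_coord (a := a) he m n 0 0

lemma lp_norm_le {a e : ℂ} (he : ‖e‖ = 1) {m n : ℤ} {K : ℝ} (hm : |(m : ℝ)| ≤ K)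
    (hn : |(n : ℝ)| ≤ K) : ‖lp a e m n - a‖ ≤ 2 * √3 * K := by
  have h := Lat0_norm (a := a) he m n 0 0
  rw [lp_zero, sub_zero, sub_zero] at h
  have := eis_le hm hn
  linarith

lemma lp_inj {a e : ℂ} (he : ‖e‖ = 1) {m n m' n' : ℤ} (h : lp a e m n = lp a e m' n') :
    m = m' ∧ n = n' := by
  have h1 := lp_coord (a := a) he m n m' n'
  rw [h, sub_self, norm_zero] at h1
  have h3 : (0 : ℝ) < √3 := by positivity
  have k : ∀ t : ℤ, √3 * |(t : ℝ)| ≤ 0 → t = 0 := fun t ht => by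
    have : |(t : ℝ)| ≤ 0 := by nlinarith [abs_nonneg (t : ℝ)]
    exact_mod_cast abs_nonpos_iff.1 this
  exact ⟨sub_eq_zero.1 (k _ h1.1), sub_eq_zero.1 (k _ h1.2)⟩

/-- Distinct lattice points are at distance at least `2` (`m² + m n + n²` is a positive
integer). -/
lemma lat_sep {a e : ℂ} (he : ‖e‖ = 1) {z z' : ℂ} (hz : z ∈ Lat a e) (hz' : z' ∈ Lat a e)
    (h : ‖z - z'‖ < 2) : z = z' := by
  obtain ⟨m, n, rfl⟩ := hz
  obtain ⟨m', n', rfl⟩ := hz'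
  rw [Lat0_norm he] at h
  obtain ⟨h1, h2⟩ := Lat0_small (m := m - m') (n := n - n') (by linarith)
  rw [sub_eq_zero.1 h1, sub_eq_zero.1 h2]

/-- Covering radius. Write `(y - a) / (2 e) = ξ + ζ ω` with real `ξ, ζ` and let `α, β ∈ [0, 1)` be
their fractional parts; one of the four corners `(i, j) ∈ {0, 1}²` has
`(α - i)² + (α - i) (β - j) + (β - j)² ≤ 1 / 3 ≤ 9 / 25` (if `α + β ≤ 1` the weighted mean with
weights `1 - α - β, α, β` of the values at `(0, 0), (1, 0), (0, 1)` equals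
`α + β - α² - α β - β² ≤ 1 / 3`; symmetric otherwise). -/
lemma near_lp {a e : ℂ} (he : ‖e‖ = 1) (y : ℂ) : ∃ m n : ℤ, ‖lp a e m n - y‖ ≤ 6 / 5 := by
  have h := sq3
  have h3 : (0 : ℝ) < √3 := by positivity
  have he0 : e ≠ 0 := by rintro rfl; simp at he
  set u := (y - a) / (2 * e) with hu
  set ζ := 2 * u.im / √3 with hζ
  set ξ := u.re - ζ / 2 with hξ
  have key : ∀ m n : ℤ, (ξ - m) ^ 2 + (ξ - m) * (ζ - n) + (ζ - n) ^ 2 ≤ 1 / 3 →
      ‖lp a e m n - y‖ ≤ 6 / 5 := by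
    intro m n hmn
    have e1 : lp a e m n - y = 2 * e * ((m + n * w6) - u) := by
      rw [hu, lp]
      field_simp
      ring
    have e2 : u.im = ζ * √3 / 2 := by rw [hζ]; field_simp
    have e3 : u.re = ξ + ζ / 2 := by rw [hξ]; ring
    have e4 : ‖(m + n * w6 : ℂ) - u‖ ^ 2 = (ξ - m) ^ 2 + (ξ - m) * (ζ - n) + (ζ - n) ^ 2 := by
      rw [Complex.sq_norm, Complex.normSq_apply]
      simp only [Complex.add_re, Complex.intCast_re, Complex.mul_re, Complex.intCast_im, w6_re,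
        w6_im, Complex.add_im, Complex.mul_im, Complex.sub_re, Complex.sub_im, e2, e3]
      linear_combination ((ζ - n) ^ 2 / 4) * h
    rw [e1, norm_mul, norm_mul, he, Complex.norm_ofNat]
    nlinarith [norm_nonneg ((m + n * w6 : ℂ) - u)]
  clear_value ξ ζ
  by_contra hc
  push Not at hc
  have k : ∀ m n : ℤ, 1 / 3 < (ξ - m) ^ 2 + (ξ - m) * (ζ - n) + (ζ - n) ^ 2 := fun m n =>
    not_le.1 fun h => (hc m n).not_ge (key m n h)
  have k0 := k ⌊ξ⌋ ⌊ζ⌋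
  have k1 := k (⌊ξ⌋ + 1) ⌊ζ⌋
  have k2 := k ⌊ξ⌋ (⌊ζ⌋ + 1)
  have k3 := k (⌊ξ⌋ + 1) (⌊ζ⌋ + 1)
  push_cast at k1 k2 k3
  rw [← sub_sub] at k1 k2
  rw [← sub_sub, ← sub_sub] at k3
  have a0 : 0 ≤ ξ - ⌊ξ⌋ := sub_nonneg.2 (Int.floor_le ξ)
  have a1 : ξ - ⌊ξ⌋ ≤ 1 := by linarith [Int.lt_floor_add_one ξ]
  have b0 : 0 ≤ ζ - ⌊ζ⌋ := sub_nonneg.2 (Int.floor_le ζ)
  have b1 : ζ - ⌊ζ⌋ ≤ 1 := by linarith [Int.lt_floor_add_one ζ]
  generalize ξ - ⌊ξ⌋ = α at k0 k1 k2 k3 a0 a1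
  generalize ζ - ⌊ζ⌋ = β at k0 k1 k2 k3 b0 b1
  rcases le_total (α + β) 1 with h1 | h1
  · exact Lat0_tri a0 b0 h1 k0 k1 k2
  · exact Lat0_tri (α := 1 - α) (β := 1 - β) (by linarith) (by linarith) (by linarith)
      (by linarith) (by linarith) (by linarith)

/-- A lattice can be based at any of its points. -/
lemma Lat_rebase {a e z : ℂ} (hz : z ∈ Lat a e) : Lat z e = Lat a e := by
  obtain ⟨m, n, rfl⟩ := hz
  ext z
  constructor
  · rintro ⟨m', n', rfl⟩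
    exact ⟨m + m', n + n', by simp only [lp]; push_cast; ring⟩
  · rintro ⟨m', n', rfl⟩
    exact ⟨m' - m, n' - n, by simp only [lp]; push_cast; ring⟩

lemma isDir_self {e : ℂ} (he : ‖e‖ = 1) : IsDir e e := ⟨he, 1, 0, by simp⟩

lemma isDir_w6 {e : ℂ} (he : ‖e‖ = 1) : IsDir e (e * w6) :=
  ⟨by rw [norm_mul, he, w6_norm, one_mul], 0, 1, by simp⟩

/-- Two directions differ by `e` times an Eisenstein integer, whose norm is `0` or at least
`1`. -/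
lemma IsDir.unique {e τ τ' : ℂ} (he : ‖e‖ = 1) (h : IsDir e τ) (h' : IsDir e τ')
    (hd : ‖τ - τ'‖ < 1) : τ = τ' := by
  obtain ⟨-, m, n, rfl⟩ := h
  obtain ⟨-, m', n', rfl⟩ := h'
  have e1 : e * (m + n * w6) - e * (m' + n' * w6) =
      e * (((m - m' : ℤ) : ℂ) + ((n - n' : ℤ) : ℂ) * w6) := by push_cast; ring
  rw [e1, norm_mul, he, one_mul] at hd
  obtain ⟨h1, h2⟩ := Lat0_small hd
  rw [sub_eq_zero.1 h1, sub_eq_zero.1 h2]

/-- If `τ = e υ` with `υ = m + n ω` of norm one then `υ` times an Eisenstein integer is an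
Eisenstein integer (`w6_sq`), and `υ * ((m + n) - n ω) = m² + m n + n² = 1`. -/
lemma Lat_dir {a e τ : ℂ} (he : ‖e‖ = 1) (h : IsDir e τ) : Lat a τ = Lat a e := by
  obtain ⟨h1, m, n, rfl⟩ := h
  rw [norm_mul, he, one_mul] at h1
  have h2 := normsq_eis m n
  rw [h1] at h2
  have h3 : (m : ℂ) ^ 2 + m * n + (n : ℂ) ^ 2 = 1 := by
    have : m ^ 2 + m * n + n ^ 2 = 1 := by exact_mod_cast h2.symm.trans (one_pow 2)
    exact_mod_cast this
  have h4 := w6_sq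
  ext z
  constructor
  · rintro ⟨k, l, rfl⟩
    refine ⟨m * k - n * l, m * l + n * k + n * l, ?_⟩
    simp only [lp]
    push_cast
    linear_combination (2 * e * n * l) * h4
  · rintro ⟨k, l, rfl⟩
    refine ⟨(m + n) * k + n * l, m * l - n * k, ?_⟩
    simp only [lp]
    push_cast
    linear_combination (-2 * e * (k + l * w6)) * h3 - (2 * e * n * (m * l - n * k)) * h4

/-- If `2 h u` is close to a lattice vector `2 e v_h` for every `1 ≤ h ≤ H` then `u` is very close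
to a lattice direction. `‖v_1‖ ∈ [7 / 8, 9 / 8]` forces `‖v_1‖² = 1` (it is an integer); put
`τ = e v_1`. By induction `v_h = h v_1`, because
`‖2 e (v_(h+1) - v_h - v_1)‖ ≤ 3 ε < 2` (`lat_sep`). -/
lemma dir_of_approx {e u : ℂ} (he : ‖e‖ = 1) (hu : ‖u‖ = 1) {H : ℕ} (hH : 1 ≤ H) {ε : ℝ}
    (hε : ε ≤ 1 / 4)
    (h : ∀ j : ℕ, 1 ≤ j → j ≤ H → ∃ m n : ℤ, ‖2 * e * (m + n * w6) - 2 * j * u‖ ≤ ε) :
    ∃ τ : ℂ, IsDir e τ ∧ 2 * H * ‖u - τ‖ ≤ ε := by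
  obtain ⟨m, n, h1⟩ := h 1 le_rfl hH
  rw [Nat.cast_one, mul_one] at h1
  have h2 : |‖2 * e * (m + n * w6)‖ - ‖2 * u‖| ≤ ε := (abs_norm_sub_norm_le _ _).trans h1
  rw [norm_mul, norm_mul, norm_mul, he, hu, Complex.norm_ofNat] at h2
  obtain ⟨h3, h4⟩ := abs_le.1 h2
  have h5 := normsq_eis m n
  have h6 := norm_nonneg ((m : ℂ) + n * w6)
  have h7 : m ^ 2 + m * n + n ^ 2 = 1 := by
    have a1 : ((0 : ℤ) : ℝ) < ((m ^ 2 + m * n + n ^ 2 : ℤ) : ℝ) := by push_cast; nlinarith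
    have a2 : ((m ^ 2 + m * n + n ^ 2 : ℤ) : ℝ) < ((2 : ℤ) : ℝ) := by push_cast; nlinarith
    have := Int.cast_lt.1 a1
    have := Int.cast_lt.1 a2
    omega
  have h8 : ‖(m : ℂ) + n * w6‖ = 1 := by
    have a1 : (m : ℝ) ^ 2 + m * n + (n : ℝ) ^ 2 = 1 := by exact_mod_cast h7
    rw [a1] at h5
    exact (pow_eq_one_iff_of_nonneg h6 two_ne_zero).1 h5
  refine ⟨e * (m + n * w6), ⟨by rw [norm_mul, he, h8, one_mul], m, n, rfl⟩, ?_⟩
  have key : ∀ j : ℕ, j ≤ H → ‖2 * j * (e * (m + n * w6)) - 2 * j * u‖ ≤ ε := by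
    intro j
    induction j with
    | zero => exact fun _ => by simpa using (norm_nonneg _).trans h1
    | succ j ih =>
      intro hj
      obtain ⟨k, l, h9⟩ := h (j + 1) (by omega) hj
      have a1 := ih (by omega)
      have a2 : lp 0 e k l = lp 0 e ((j + 1) * m) ((j + 1) * n) := by
        refine lat_sep he (lp_mem _ _ _ _) (lp_mem _ _ _ _) ?_
        have a3 : lp 0 e k l - lp 0 e ((j + 1) * m) ((j + 1) * n) =
            (2 * e * (k + l * w6) - 2 * ((j + 1 : ℕ) : ℂ) * u) -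
              (2 * j * (e * (m + n * w6)) - 2 * j * u) - (2 * e * (m + n * w6) - 2 * u) := by
          simp only [lp]
          push_cast
          ring
        rw [a3]
        have a4 := norm_sub_le (2 * e * (k + l * w6) - 2 * ((j + 1 : ℕ) : ℂ) * u)
          (2 * j * (e * (m + n * w6)) - 2 * j * u)
        exact (norm_sub_le _ _).trans_lt (by linarith)
      convert h9 using 3
      simp only [lp] at a2
      push_cast at a2 ⊢
      linear_combination -a2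
  have a5 := key H le_rfl
  rwa [← mul_sub, norm_mul, norm_sub_rev, norm_mul, Complex.norm_ofNat, Complex.norm_natCast] at a5

lemma Sep.eq_of_lt {P : Finset ℂ} (hP : Sep P) {p q : ℂ} (hp : p ∈ P) (hq : q ∈ P)
    (h : ‖p - q‖ < 2) : p = q := by
  by_contra hne
  have := hP p hp q hq hne
  rw [dist_eq_norm] at this
  linarith

lemma Kt_le {t : ℝ} (ht : 0 ≤ t) : (Kt t : ℝ) ≤ t / 20 := Nat.floor_le (by positivity)

lemma le_Kt {t : ℝ} (ht : 10 ^ 4 ≤ t) : t / 21 ≤ (Kt t : ℝ) := by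
  have := Nat.lt_floor_add_one (t / 20)
  unfold Kt
  linarith

end Pool.Agent.Lib.MP_b07bdb_co.Nk
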