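import Pool.Agent.Lib.MP_b07bdb_co.Nk.Transfer
import Pool.Agent.Lib.MP_b07bdb_co.Nk.Asym
import Pool.Agent.Lib.MP_b07bdb_co.Nk.ConMain

/-! The second order term of the Newton numbers. -/

namespace Pool.Agent.Lib.MP_b07bdb_co.Nk

open Filter

theorem newton_upper (ε : ℝ) (hε : 0 < ε) : ∀ᶠ k : ℕ in atTop, ∃ N : ℕ, newton k = N ∧
    (N : ℝ) ≤ 2 * Real.pi / √3 * (k : ℝ) ^ 2 - (k : ℝ) ^ ((4 : ℝ) / 3 - ε) := by
  filter_upwards [card_upper ε hε] with k hk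
  set B : ℝ := 2 * Real.pi / √3 * (k : ℝ) ^ 2 - (k : ℝ) ^ ((4 : ℝ) / 3 - ε) with hB
  have hB0 : 0 ≤ B := by
    have := hk {0} ⟨by simp, by simp, fun x hx => by
      have hx0 : x = 0 := by simpa using hx
      subst hx0
      induction k with
      | zero => rfl
      | succ k ih =>
        clear ih
        have : ∀ j : ℕ, Reach {0} j 0 := fun j => by
          induction j with
          | zero => rfl
          | succ j ih => exact Or.inl ih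
        exact this _⟩
    exact le_trans (by positivity) this
  have h1 : newton k ≤ (⌊B⌋₊ : ℕ∞) := by
    refine iSup_le fun P => iSup_le fun hP => iSup_le fun A => ?_
    obtain ⟨S, hS, h2⟩ := packing_to_good hP A k
    exact h2.trans (by exact_mod_cast Nat.le_floor (hk S hS))
  obtain ⟨N, hN⟩ := ENat.ne_top_iff_exists.1 (ne_top_of_le_ne_top (ENat.natCast_ne_top _) h1)
  refine ⟨N, hN.symm, ?_⟩
  rw [← hN] at h1
  have h2 : N ≤ ⌊B⌋₊ := by exact_mod_cast h1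
  exact le_trans (by exact_mod_cast h2) (Nat.floor_le hB0)

theorem newton_lower : ∃ C : ℝ, ∀ k : ℕ, 1 ≤ k → ∀ N : ℕ, newton k = N →
    2 * Real.pi / √3 * (k : ℝ) ^ 2 - C * (k : ℝ) ^ ((4 : ℝ) / 3) ≤ N := by
  obtain ⟨C, hC⟩ := con_main
  refine ⟨C + 1, fun k hk N hN => ?_⟩
  obtain ⟨S, hS, h1⟩ := hC k hk
  have hc : 1 ≤ S.card := Finset.card_pos.2 ⟨0, hS.1⟩
  obtain ⟨P, hP, A, h2⟩ := good_to_packing (n := S.card - 1) hS (by omega)
  have h3 : ((S.card - 1 : ℕ) : ℕ∞) ≤ newton k :=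
    h2.trans (le_iSup_of_le P (le_iSup_of_le hP (le_iSup_of_le A le_rfl)))
  rw [hN] at h3
  have h4 : S.card - 1 ≤ N := by exact_mod_cast h3
  have h5 : (S.card : ℝ) ≤ N + 1 := by exact_mod_cast (by omega : S.card ≤ N + 1)
  have h6 : (1 : ℝ) ≤ (k : ℝ) ^ ((4 : ℝ) / 3) :=
    Real.one_le_rpow (by exact_mod_cast hk) (by norm_num)
  linarith

theorem second_order : ∃ C : ℝ, ∀ ε : ℝ, 0 < ε → ∀ᶠ k : ℕ in atTop, ∃ N : ℕ, newton k = N ∧
    (k : ℝ) ^ ((4 : ℝ) / 3 - ε) ≤ 2 * Real.pi / √3 * (k : ℝ) ^ 2 - N ∧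
    2 * Real.pi / √3 * (k : ℝ) ^ 2 - N ≤ C * (k : ℝ) ^ ((4 : ℝ) / 3) := by
  obtain ⟨C, hC⟩ := newton_lower
  refine ⟨C, fun ε hε => ?_⟩
  filter_upwards [newton_upper ε hε, eventually_ge_atTop 1] with k hk h1
  obtain ⟨N, hN, h2⟩ := hk
  have := hC k h1 N hN
  exact ⟨N, hN, by linarith, by linarith⟩

end Pool.Agent.Lib.MP_b07bdb_co.Nk
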