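import Pool.Agent.Lib.MP_b07bdb_co.Defs

/-! The higher-order Newton numbers of the disk. -/

namespace Pool.Agent.Lib.MP_b07bdb_co.Nk

/-- The `k`-th Newton number of the disk: the supremum, over all packings of unit disks and all
members `A`, of the number of members that are `j`-th order neighbours of `A` for some
`1 ≤ j ≤ k`. -/
noncomputable def newton (k : ℕ) : ℕ∞ :=
  ⨆ (P : Set Plane) (_ : IsPacking P) (A : P), (neighborsUpTo P A k).encard

end Pool.Agent.Lib.MP_b07bdb_co.Nk
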