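import Pool.Agent.Lib.MP_b07bdb_co.Nk.CovA

/-! A straight chain of centres determines the orientation of a fitting lattice. -/

namespace Pool.Agent.Lib.MP_b07bdb_co.Nk

open Metric MeasureTheory

/-- The packing has a centre within `1 / 100` of `x + 2 l u` for all `0 ≤ l ≤ t / 2`. -/
def Straight (P : Finset ℂ) (x u : ℂ) (t : ℝ) : Prop :=
  ∀ l : ℕ, (l : ℝ) ≤ t / 2 → ∃ p ∈ P, ‖p - (x + 2 * l * u)‖ ≤ 1 / 100

/-- `Cov.lines` with `f z = Re (conj u * (z - x)) / 2` gives `B` with `card ≤ 7 t / 10 ^ 9`. For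
`0 ≤ l ≤ t / 2`, `l ∉ B`, let `p` be the centre near `x + 2 l u` and `z` a lattice point within
`6 / 5` of `p` (`near_lp`); `|f z - l| ≤ 2`, so `z ∉ X`, and `‖z - x‖ ≤ t + 2 ≤ 2 t`; the centre
within `1 / 20` of `z` is `p` (`Sep.eq_of_lt`), so `‖z - (x + 2 l u)‖ ≤ 6 / 100`. Let
`H = ⌊t / 8⌋₊`. For `1 ≤ j ≤ H` there is `0 ≤ l ≤ H` with `l, l + j ∉ B` (at most `2 card B ≤ H`
values are excluded), which gives a lattice vector within `12 / 100` of `2 j u` (`lp_sub`).
`dir_of_approx` gives `2 H ‖u - τ‖ ≤ 12 / 100`, and `H ≥ t / 9`. -/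
theorem orient {P : Finset ℂ} (hP : Sep P) {a e x u : ℂ} {t : ℝ} {X : Set ℂ} (ht : 10 ^ 4 ≤ t)
    (he : ‖e‖ = 1) (hu : ‖u‖ = 1) (hX : Cov X (t / 10 ^ 9))
    (hA : Apx P a e x (2 * t) X (1 / 20)) (hS : Straight P x u t) :
    ∃ τ : ℂ, IsDir e τ ∧ ‖τ - u‖ ≤ 1 / t := by
  classical
  have ht0 : 0 < t := by linarith
  obtain ⟨B, hB, hBX⟩ := hX.lines (fun z => ((starRingEnd ℂ) u * (z - x)).re / 2) (by
    intro z z'
    have e1 : ((starRingEnd ℂ) u * (z - x)).re / 2 - ((starRingEnd ℂ) u * (z' - x)).re / 2 =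
        ((starRingEnd ℂ) u * (z - z')).re / 2 := by
      have : (starRingEnd ℂ) u * (z - z') =
          (starRingEnd ℂ) u * (z - x) - (starRingEnd ℂ) u * (z' - x) := by ring
      rw [this, Complex.sub_re]; ring
    rw [e1, abs_div]
    have h1 := Complex.abs_re_le_norm ((starRingEnd ℂ) u * (z - z'))
    rw [norm_mul, Complex.norm_conj, hu, one_mul] at h1
    have h2 : |(2 : ℝ)| = 2 := by norm_num
    rw [h2]
    linarith [norm_nonneg (z - z')])
  have huu : (starRingEnd ℂ) u * u = 1 := by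
    rw [Complex.conj_mul', hu]; simp
  have good : ∀ l : ℕ, (l : ℝ) ≤ t / 2 → (l : ℤ) ∉ B →
      ∃ m n : ℤ, ‖lp a e m n - (x + 2 * l * u)‖ ≤ 6 / 100 := by
    intro l hl hlB
    obtain ⟨p, hp, h1⟩ := hS l hl
    obtain ⟨m, n, h2⟩ := near_lp (a := a) he p
    have h3 : ‖lp a e m n - (x + 2 * l * u)‖ ≤ 121 / 100 := by
      have : lp a e m n - (x + 2 * l * u) = (lp a e m n - p) + (p - (x + 2 * l * u)) := by ring
      rw [this]
      exact (norm_add_le _ _).trans (by linarith)
    have hzX : lp a e m n ∉ X := by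
      intro hz
      apply hlB
      apply hBX _ hz
      have e1 : (starRingEnd ℂ) u * (lp a e m n - x) =
          (starRingEnd ℂ) u * (lp a e m n - (x + 2 * l * u)) + 2 * l := by
        linear_combination (2 * l) * huu
      have h4 := Complex.abs_re_le_norm ((starRingEnd ℂ) u * (lp a e m n - (x + 2 * l * u)))
      rw [norm_mul, Complex.norm_conj, hu, one_mul] at h4
      have e2 : (2 * (l : ℂ)).re = 2 * l := by simp
      rw [e1, Complex.add_re, e2]
      have h5 := abs_le.1 (h4.trans h3)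
      push_cast
      rw [abs_le]
      constructor <;> linarith [h5.1, h5.2]
    have h6 : ‖lp a e m n - x‖ ≤ 2 * t := by
      have : lp a e m n - x = (lp a e m n - (x + 2 * l * u)) + 2 * l * u := by ring
      rw [this]
      refine (norm_add_le _ _).trans ?_
      have e3 : ‖2 * (l : ℂ) * u‖ = 2 * l := by
        rw [norm_mul, norm_mul, hu]; simp
      rw [e3]
      linarith
    obtain ⟨p', hp', h7⟩ := hA _ (lp_mem a e m n) h6 hzX
    have h8 : p' = p := by
      apply hP.eq_of_lt hp' hp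
      have : p' - p = (p' - lp a e m n) + (lp a e m n - p) := by ring
      rw [this]
      exact (norm_add_le _ _).trans_lt (by linarith)
    refine ⟨m, n, ?_⟩
    have : lp a e m n - (x + 2 * l * u) = (p - (x + 2 * l * u)) - (p' - lp a e m n) := by
      rw [h8]; ring
    rw [this]
    exact (norm_sub_le _ _).trans (by linarith)
  set H : ℕ := ⌊t / 8⌋₊ with hH
  have hH1 : (H : ℝ) ≤ t / 8 := Nat.floor_le (by positivity)
  have hH2 : t / 9 ≤ (H : ℝ) := by
    have := Nat.lt_floor_add_one (t / 8)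
    rw [← hH] at this
    linarith
  have hH3 : 1 ≤ H := by
    have : (1 : ℝ) ≤ H := by linarith
    exact_mod_cast this
  obtain ⟨τ, hτ, h9⟩ := dir_of_approx he hu hH3 (ε := 12 / 100) (by norm_num) (by
    intro j hj1 hjH
    have hex : ∃ l ∈ Finset.Icc (0 : ℤ) H, l ∉ B ∪ B.image (fun b => b - j) := by
      by_contra hc
      push Not at hc
      have h1 := Finset.card_le_card (s := Finset.Icc (0 : ℤ) H) hc
      have h2 := Finset.card_union_le B (B.image (fun b => b - (j : ℤ)))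
      have h3 := Finset.card_image_le (s := B) (f := fun b => b - (j : ℤ))
      have h4 : (Finset.Icc (0 : ℤ) H).card = H + 1 := by simp
      have h5 : H + 1 ≤ 2 * B.card := by omega
      have h6 : (H : ℝ) + 1 ≤ 2 * B.card := by exact_mod_cast h5
      linarith
    obtain ⟨l, hl, hlB⟩ := hex
    obtain ⟨hl0, hlH⟩ := Finset.mem_Icc.1 hl
    obtain ⟨l, rfl⟩ := Int.eq_ofNat_of_zero_le hl0
    have hlH' : l ≤ H := by exact_mod_cast hlH
    have hlH'' : (l : ℝ) ≤ H := by exact_mod_cast hlH'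
    have hjH' : (j : ℝ) ≤ H := by exact_mod_cast hjH
    rw [Finset.mem_union, not_or] at hlB
    obtain ⟨m, n, h1⟩ := good l (by linarith) hlB.1
    obtain ⟨m', n', h2⟩ := good (l + j) (by push_cast; linarith) (fun hb =>
      hlB.2 (Finset.mem_image.2 ⟨_, hb, by push_cast; ring⟩))
    refine ⟨m' - m, n' - n, ?_⟩
    rw [← lp_sub a e m' n' m n]
    have : lp a e m' n' - lp a e m n - 2 * j * u =
        (lp a e m' n' - (x + 2 * ((l + j : ℕ) : ℂ) * u)) - (lp a e m n - (x + 2 * l * u)) := by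
      push_cast; ring
    rw [this]
    exact (norm_sub_le _ _).trans (by linarith))
  refine ⟨τ, hτ, ?_⟩
  rw [norm_sub_rev, le_div_iff₀ ht0]
  nlinarith [norm_nonneg (u - τ)]

end Pool.Agent.Lib.MP_b07bdb_co.Nk
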