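import Pool.Agent.Lib.MP_b07bdb_co.Nk.Defs

/-! Bounded overlap and square nets. -/

namespace Pool.Agent.Lib.MP_b07bdb_co.Nk

open Metric MeasureTheory

open Classical in
/-- Bounded overlap. `∑ μ (S i) = ∫⁻ ∑ indicator (S i) ≤ ∫⁻ C * indicator T` (the multiplicity is
at most `⌊C⌋₊` and vanishes off `T`). -/
lemma sum_real_le_of_overlap {ι : Type*} (μ : Measure ℂ) (I : Finset ι) (S : ι → Set ℂ)
    (T : Set ℂ) (C : ℝ) (hS : ∀ i ∈ I, MeasurableSet (S i)) (hT : MeasurableSet T)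
    (hST : ∀ i ∈ I, S i ⊆ T) (hfin : μ T ≠ ⊤) (hC0 : 0 ≤ C)
    (hC : ∀ z : ℂ, ((I.filter fun i => z ∈ S i).card : ℝ) ≤ C) :
    ∑ i ∈ I, μ.real (S i) ≤ C * μ.real T := by
  have key : ∑ i ∈ I, μ (S i) ≤ ENNReal.ofReal C * μ T := by
    have h1 : ∑ i ∈ I, μ (S i)
        = ∫⁻ z, ∑ i ∈ I, (S i).indicator (fun _ => (1 : ENNReal)) z ∂μ := by
      rw [lintegral_finsetSum _ (fun i hi => measurable_const.indicator (hS i hi))]
      refine Finset.sum_congr rfl fun i hi => ?_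
      rw [lintegral_indicator_const (hS i hi), one_mul]
    have h2 : ENNReal.ofReal C * μ T
        = ∫⁻ z, T.indicator (fun _ => ENNReal.ofReal C) z ∂μ := by
      rw [lintegral_indicator_const hT]
    rw [h1, h2]
    refine lintegral_mono fun z => ?_
    by_cases hz : z ∈ T
    · simp only [Set.indicator_of_mem hz]
      have h3 : ∑ i ∈ I, (S i).indicator (fun _ => (1 : ENNReal)) z
          = ((I.filter fun i => z ∈ S i).card : ENNReal) := by
        rw [Finset.card_filter]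
        push_cast
        refine Finset.sum_congr rfl fun i _ => ?_
        rw [Set.indicator_apply]
      rw [h3]
      have h4 := ENNReal.ofReal_le_ofReal (hC z)
      rwa [ENNReal.ofReal_natCast] at h4
    · simp only [Set.indicator_of_notMem hz]
      exact le_of_eq (Finset.sum_eq_zero fun i hi =>
        Set.indicator_of_notMem (fun h => hz (hST i hi h)) _)
  have hfi : ∀ i ∈ I, μ (S i) ≠ ⊤ := fun i hi =>
    ne_top_of_le_ne_top hfin (measure_mono (hST i hi))
  simp only [Measure.real]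
  rw [← ENNReal.toReal_sum hfi]
  calc _ ≤ (ENNReal.ofReal C * μ T).toReal :=
        ENNReal.toReal_mono (ENNReal.mul_ne_top ENNReal.ofReal_ne_top hfin) key
    _ = _ := by rw [ENNReal.toReal_mul, ENNReal.toReal_ofReal hC0]

/-- Pairwise disjoint measurable subsets of a set of finite measure (`measureReal_biUnion_finset`
and `measureReal_mono`). -/
lemma sum_real_le_of_disjoint {ι : Type*} (μ : Measure ℂ) (I : Finset ι) (S : ι → Set ℂ)
    (T : Set ℂ) (hS : ∀ i ∈ I, MeasurableSet (S i)) (hST : ∀ i ∈ I, S i ⊆ T) (hfin : μ T ≠ ⊤)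
    (hd : ∀ i ∈ I, ∀ j ∈ I, i ≠ j → Disjoint (S i) (S j)) :
    ∑ i ∈ I, μ.real (S i) ≤ μ.real T := by
  have hfi : ∀ i ∈ I, μ (S i) ≠ ⊤ := fun i hi =>
    ne_top_of_le_ne_top hfin (measure_mono (hST i hi))
  rw [← measureReal_biUnion_finset (fun i hi j hj hij => hd i hi j hj hij) hS hfi]
  exact measureReal_mono (Set.iUnion₂_subset fun i hi => hST i hi) hfin

/-- A finite set of integers inside a real interval of length `L` has at most `L + 1`
elements. -/
lemma card_le_of_interval (B : Finset ℤ) (c L : ℝ) (hL : 0 ≤ L)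
    (h : ∀ n ∈ B, c ≤ (n : ℝ) ∧ (n : ℝ) ≤ c + L) : (B.card : ℝ) ≤ L + 1 := by
  have hsub : B ⊆ Finset.Icc ⌈c⌉ ⌊c + L⌋ := fun n hn =>
    Finset.mem_Icc.2 ⟨Int.ceil_le.2 (h n hn).1, Int.le_floor.2 (h n hn).2⟩
  have h1 : (B.card : ℝ) ≤ ((Finset.Icc ⌈c⌉ ⌊c + L⌋).card : ℝ) := by
    exact_mod_cast Finset.card_le_card hsub
  refine h1.trans ?_
  rw [Int.card_Icc]
  have h2 := Int.le_ceil c
  have h3 := Int.floor_le (c + L)
  rcases le_total 0 (⌊c + L⌋ + 1 - ⌈c⌉) with h4 | h4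
  · have h5 : (((⌊c + L⌋ + 1 - ⌈c⌉).toNat : ℤ) : ℝ) = ((⌊c + L⌋ + 1 - ⌈c⌉ : ℤ) : ℝ) := by
      rw [Int.toNat_of_nonneg h4]
    rw [Int.cast_natCast] at h5
    rw [h5]
    push_cast
    linarith
  · rw [Int.toNat_eq_zero.2 h4]
    push_cast
    linarith

open Classical in
/-- A square net of mesh `σ`: the points `x + σ (i + j I)` within `r + σ` of `x`. Rounding both
coordinates gives a net point within `σ`. The net points within `ρ` of `z` have `i` and `j` in
intervals of length `2 ρ / σ` (`card_le_of_interval`). -/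
lemma exists_net (x : ℂ) (σ r : ℝ) (hσ : 0 < σ) (hr : 0 ≤ r) :
    ∃ N : Finset ℂ, (∀ z : ℂ, ‖z - x‖ ≤ r → ∃ y ∈ N, ‖y - z‖ ≤ σ) ∧
      (∀ y ∈ N, ‖y - x‖ ≤ r + σ) ∧
      ∀ (z : ℂ) (ρ : ℝ), 0 ≤ ρ →
        ((N.filter fun y => ‖y - z‖ ≤ ρ).card : ℝ) ≤ (2 * ρ / σ + 1) ^ 2 := by
  set M : ℤ := ⌈r / σ⌉ + 1 with hM
  set f : ℤ × ℤ → ℂ := fun ij => x + ⟨σ * ij.1, σ * ij.2⟩ with hf
  have hre : ∀ ij : ℤ × ℤ, (f ij).re = x.re + σ * ij.1 := fun ij => by simp [hf]
  have him : ∀ ij : ℤ × ℤ, (f ij).im = x.im + σ * ij.2 := fun ij => by simp [hf]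
  have hrnd : ∀ u : ℝ, |u| ≤ r →
      round (u / σ) ∈ Finset.Icc (-M) M ∧ |σ * (round (u / σ) : ℝ) - u| ≤ σ / 2 := by
    intro u hu
    have h1 := abs_sub_round (u / σ)
    have h2 : |u / σ| ≤ r / σ := by
      rw [abs_div, abs_of_pos hσ]
      exact div_le_div_of_nonneg_right hu hσ.le
    have h3 := Int.le_ceil (r / σ)
    have h4 := abs_le.1 h1
    have h5 := abs_le.1 h2
    refine ⟨Finset.mem_Icc.2 ⟨?_, ?_⟩, ?_⟩
    · have h6 : ((-M : ℤ) : ℝ) ≤ (round (u / σ) : ℝ) := by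
        rw [hM]; push_cast; linarith [h4.2, h5.1]
      exact_mod_cast h6
    · have h6 : (round (u / σ) : ℝ) ≤ ((M : ℤ) : ℝ) := by
        rw [hM]; push_cast; linarith [h4.1, h5.2]
      exact_mod_cast h6
    · have h6 : σ * (round (u / σ) : ℝ) - u = -σ * (u / σ - (round (u / σ) : ℝ)) := by
        field_simp
        ring
      rw [h6, abs_mul, abs_neg, abs_of_pos hσ]
      have := mul_le_mul_of_nonneg_left h1 hσ.le
      linarith
  have hint : ∀ (c ρ : ℝ) (u : ℝ), 0 ≤ ρ →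
      (((Finset.Icc (-M) M).filter fun i : ℤ => |c + σ * (i : ℝ) - u| ≤ ρ).card : ℝ)
        ≤ 2 * ρ / σ + 1 := by
    intro c ρ u hρ
    refine card_le_of_interval _ ((u - c - ρ) / σ) (2 * ρ / σ) (by positivity) fun n hn => ?_
    have h1 := abs_le.1 (Finset.mem_filter.1 hn).2
    constructor
    · rw [div_le_iff₀ hσ]; linarith [h1.1]
    · rw [← add_div, le_div_iff₀ hσ]; linarith [h1.2]
  refine ⟨((Finset.Icc (-M) M ×ˢ Finset.Icc (-M) M).image f).filter fun y => ‖y - x‖ ≤ r + σ,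
    ?_, fun y hy => (Finset.mem_filter.1 hy).2, ?_⟩
  · intro z hz
    have h1 : |z.re - x.re| ≤ r := by
      have := Complex.abs_re_le_norm (z - x)
      rw [Complex.sub_re] at this
      linarith
    have h2 : |z.im - x.im| ≤ r := by
      have := Complex.abs_im_le_norm (z - x)
      rw [Complex.sub_im] at this
      linarith
    obtain ⟨a1, a2⟩ := hrnd _ h1
    obtain ⟨b1, b2⟩ := hrnd _ h2
    have h3 : ‖f (round ((z.re - x.re) / σ), round ((z.im - x.im) / σ)) - z‖ ≤ σ := by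
      refine (Complex.norm_le_abs_re_add_abs_im _).trans ?_
      rw [Complex.sub_re, Complex.sub_im, hre, him]
      have e1 : x.re + σ * (round ((z.re - x.re) / σ) : ℝ) - z.re
          = σ * (round ((z.re - x.re) / σ) : ℝ) - (z.re - x.re) := by ring
      have e2 : x.im + σ * (round ((z.im - x.im) / σ) : ℝ) - z.im
          = σ * (round ((z.im - x.im) / σ) : ℝ) - (z.im - x.im) := by ring
      simp only [e1, e2]
      linarith
    refine ⟨_, Finset.mem_filter.2 ⟨Finset.mem_image.2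
      ⟨(round ((z.re - x.re) / σ), round ((z.im - x.im) / σ)),
        Finset.mem_product.2 ⟨a1, b1⟩, rfl⟩, ?_⟩, h3⟩
    have h4 := norm_sub_le_norm_sub_add_norm_sub
      (f (round ((z.re - x.re) / σ), round ((z.im - x.im) / σ))) z x
    linarith
  · intro z ρ hρ
    have hsub : ((((Finset.Icc (-M) M ×ˢ Finset.Icc (-M) M).image f).filter
        fun y => ‖y - x‖ ≤ r + σ).filter fun y => ‖y - z‖ ≤ ρ) ⊆
        (((Finset.Icc (-M) M).filter fun i : ℤ => |x.re + σ * (i : ℝ) - z.re| ≤ ρ) ×ˢ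
          ((Finset.Icc (-M) M).filter fun i : ℤ => |x.im + σ * (i : ℝ) - z.im| ≤ ρ)).image f := by
      intro y hy
      obtain ⟨hy1, hy2⟩ := Finset.mem_filter.1 hy
      obtain ⟨ij, hij, rfl⟩ := Finset.mem_image.1 (Finset.mem_filter.1 hy1).1
      obtain ⟨hi, hj⟩ := Finset.mem_product.1 hij
      refine Finset.mem_image.2 ⟨ij, Finset.mem_product.2 ⟨Finset.mem_filter.2 ⟨hi, ?_⟩,
        Finset.mem_filter.2 ⟨hj, ?_⟩⟩, rfl⟩
      · have := Complex.abs_re_le_norm (f ij - z)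
        rw [Complex.sub_re, hre] at this
        linarith
      · have := Complex.abs_im_le_norm (f ij - z)
        rw [Complex.sub_im, him] at this
        linarith
    have h1 := (Finset.card_le_card hsub).trans Finset.card_image_le
    rw [Finset.card_product] at h1
    have h2 := hint x.re ρ z.re hρ
    have h3 := hint x.im ρ z.im hρ
    have h4 : (0 : ℝ) ≤ 2 * ρ / σ + 1 := by positivity
    calc _ ≤ ((((Finset.Icc (-M) M).filter
            fun i : ℤ => |x.re + σ * (i : ℝ) - z.re| ≤ ρ).card : ℝ) *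
          (((Finset.Icc (-M) M).filter
            fun i : ℤ => |x.im + σ * (i : ℝ) - z.im| ≤ ρ).card : ℝ)) := by exact_mod_cast h1
      _ ≤ (2 * ρ / σ + 1) * (2 * ρ / σ + 1) := mul_le_mul h2 h3 (Nat.cast_nonneg _) h4
      _ = _ := by ring

end Pool.Agent.Lib.MP_b07bdb_co.Nk
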