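import Pool.Agent.Lib.MP_b07bdb_co.Nk.Geo

/-! Geometry of two chains in neighbouring directions. -/

namespace Pool.Agent.Lib.MP_b07bdb_co.Nk

open Metric MeasureTheory

/-- The part of the disc of radius `2 k` whose slope `Im z / ‖z‖` lies between `σ - α / 3` and
`σ + 4 α / 3`. -/
def sect (k σ α : ℝ) : Set ℂ :=
  {z | ‖z‖ < 2 * k ∧ (σ - α / 3) * ‖z‖ < z.im ∧ z.im < (σ + 4 * α / 3) * ‖z‖}

lemma isOpen_sect (k σ α : ℝ) : IsOpen (sect k σ α) := by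
  have h1 : IsOpen {z : ℂ | ‖z‖ < 2 * k} := isOpen_lt (by fun_prop) (by fun_prop)
  have h2 : IsOpen {z : ℂ | (σ - α / 3) * ‖z‖ < z.im} := isOpen_lt (by fun_prop) (by fun_prop)
  have h3 : IsOpen {z : ℂ | z.im < (σ + 4 * α / 3) * ‖z‖} := isOpen_lt (by fun_prop) (by fun_prop)
  exact h1.inter (h2.inter h3)

lemma sect_subset_ball (k σ α : ℝ) : sect k σ α ⊆ ball 0 (2 * k) := by
  intro z hz
  simpa using hz.1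

lemma sect_disjoint (k σ σ' α : ℝ) (hα : 0 ≤ α) (h : σ + 2 * α ≤ σ') :
    Disjoint (sect k σ α) (sect k σ' α) := by
  refine Set.disjoint_left.2 fun z hz hz' => ?_
  have h1 : (σ + 4 * α / 3) * ‖z‖ ≤ (σ' - α / 3) * ‖z‖ :=
    mul_le_mul_of_nonneg_right (by linarith) (norm_nonneg z)
  linarith [hz.2.2, hz'.2.1]

lemma Pair_basic {k t : ℝ} (ht : 10 ^ 4 ≤ t) (hk : t ^ 2 ≤ k) :
    0 < t ∧ t ≤ k / t ∧ 10 ^ 4 * t ≤ k ∧ 10 ^ 4 ≤ k := by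
  have t0 : 0 < t := by linarith
  have h1 : 10 ^ 4 * t ≤ k := by nlinarith
  exact ⟨t0, by rw [le_div_iff₀ t0]; linarith, h1, by linarith⟩

lemma Pair_strip {p : ℂ} {k t h σ : ℝ} (ht : 10 ^ 4 ≤ t) (hk : t ^ 2 ≤ k) (hh : h ≤ t)
    (hσ0 : 0 ≤ σ) (hσ : σ ≤ 1 / 10) (h1 : 2 * k - h ≤ ‖p‖) (h2 : ‖p‖ ≤ 2 * k)
    (h3 : |p.im - 2 * k * σ| < 20 * k / t) : |p.im - σ * ‖p‖| < 100 / t / 8 * ‖p‖ := by
  obtain ⟨t0, q1, q2, -⟩ := Pair_basic ht hk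
  have a1 : σ * (2 * k - ‖p‖) ≤ 1 / 10 * t :=
    mul_le_mul hσ (by linarith) (by linarith) (by norm_num)
  have a2 : 0 ≤ σ * (2 * k - ‖p‖) := mul_nonneg hσ0 (by linarith)
  have a3 : 100 / t / 8 * (19 / 10 * k) ≤ 100 / t / 8 * ‖p‖ :=
    mul_le_mul_of_nonneg_left (by linarith) (by positivity)
  have a4 : 100 / t / 8 * (19 / 10 * k) = 95 / 4 * (k / t) := by ring
  have a5 : 20 * k / t = 20 * (k / t) := by ring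
  obtain ⟨b1, b2⟩ := abs_lt.1 h3
  rw [abs_lt]
  constructor <;> linarith

/-- The direction of a far point of a strip. `Im u - σ = (Im p - σ ‖p‖) / ‖p‖`,
`|Im p - σ ‖p‖| ≤ 20 k / t + h / 10 ≤ 21 k / t` and `‖p‖ ≥ 1.9 k`. -/
lemma dir_of_far {p : ℂ} {k t h σ : ℝ} (ht : 10 ^ 4 ≤ t) (hk : t ^ 2 ≤ k) (hh0 : 0 ≤ h)
    (hh : h ≤ t) (hσ0 : 0 ≤ σ) (hσ : σ ≤ 1 / 10) (h1 : 2 * k - h ≤ ‖p‖) (h2 : ‖p‖ ≤ 2 * k)
    (h3 : |p.im - 2 * k * σ| < 20 * k / t) (h4 : 0 < p.re) :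
    p ≠ 0 ∧ 0 < (p / ‖p‖ : ℂ).re ∧ |(p / ‖p‖ : ℂ).im - σ| ≤ 100 / t / 8 := by
  obtain ⟨-, -, h5, -⟩ := Pair_basic ht hk
  have h6 := Pair_strip ht hk hh hσ0 hσ h1 h2 h3
  have h7 : 0 < ‖p‖ := by linarith
  refine ⟨norm_pos_iff.1 h7, ?_, ?_⟩
  · rw [Complex.div_ofReal_re]
    exact div_pos h4 h7
  · rw [Complex.div_ofReal_im, show p.im / ‖p‖ - σ = (p.im - σ * ‖p‖) / ‖p‖ by field_simp,
      abs_div, abs_of_pos h7, div_le_iff₀ h7]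
    exact h6.le

/-- The cap region of a strip lies in the sector (`s = σ` or `s = σ + α`, `α = 100 / t`):
`|Im z - s ‖z‖| < 20 k / t + h / 10 ≤ 21 k / t ≤ α / 3 * ‖z‖`. -/
lemma cap_subset_sect {k t h σ s : ℝ} (ht : 10 ^ 4 ≤ t) (hk : t ^ 2 ≤ k) (hh0 : 0 ≤ h)
    (hh : h ≤ t) (hs0 : 0 ≤ s) (hs : s ≤ 1 / 10) (h1 : σ ≤ s) (h2 : s ≤ σ + 100 / t) :
    {z : ℂ | 2 * k - h < ‖z‖ ∧ ‖z‖ < 2 * k ∧ |z.im - 2 * k * s| < 20 * k / t} ⊆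
      sect k σ (100 / t) := by
  rintro z ⟨a1, a2, a3⟩
  have h6 := abs_lt.1 (Pair_strip ht hk hh hs0 hs a1.le a2.le a3)
  have h7 : 0 ≤ 100 / t * ‖z‖ := by positivity
  have h8 := mul_le_mul_of_nonneg_right h1 (norm_nonneg z)
  have h9 := mul_le_mul_of_nonneg_right h2 (norm_nonneg z)
  refine ⟨a2, ?_, ?_⟩ <;> linarith [h6.1, h6.2]

/-- Two unit vectors in the right half plane with prescribed slopes. The imaginary parts differ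
by an amount in `[3 α / 4, 5 α / 4]`, both are at most `1 / 8` in absolute value, the real parts
are at least `9 / 10`, and `(Re u₁ - Re u₂) (Re u₁ + Re u₂) = (Im u₂ - Im u₁) (Im u₂ + Im u₁)`. -/
lemma dir_gap {u₁ u₂ : ℂ} {σ α : ℝ} (hu₁ : ‖u₁‖ = 1) (hu₂ : ‖u₂‖ = 1) (hr₁ : 0 < u₁.re)
    (hr₂ : 0 < u₂.re) (hα0 : 0 ≤ α) (hα : α ≤ 1 / 100) (hσ0 : 0 ≤ σ) (hσ : σ + α ≤ 1 / 10)
    (h₁ : |u₁.im - σ| ≤ α / 8) (h₂ : |u₂.im - (σ + α)| ≤ α / 8) :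
    3 * α / 4 ≤ ‖u₁ - u₂‖ ∧ ‖u₁ - u₂‖ ≤ 3 * α / 2 := by
  obtain ⟨a1, a2⟩ := abs_le.1 h₁
  obtain ⟨b1, b2⟩ := abs_le.1 h₂
  have n1 := normSq_of_norm hu₁
  have n2 := normSq_of_norm hu₂
  have key : ∀ x y : ℝ, x * x + y * y = 1 → 0 < x → -(1 / 8) ≤ y → y ≤ 1 / 8 → 9 / 10 ≤ x := by
    intro x y e hx y1 y2
    by_contra hc
    nlinarith
  have r1 := key _ _ n1 hr₁ (by linarith) (by linarith)
  have r2 := key _ _ n2 hr₂ (by linarith) (by linarith)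
  have d0 : 0 ≤ u₂.im - u₁.im := by linarith
  have e1 : |(u₁ - u₂).im| = u₂.im - u₁.im := by
    rw [Complex.sub_im, abs_sub_comm, abs_of_nonneg d0]
  have e2 : |(u₁ - u₂).re| ≤ (u₂.im - u₁.im) / 5 := by
    have e3 : (u₁.re - u₂.re) * (u₁.re + u₂.re) = (u₂.im - u₁.im) * (u₂.im + u₁.im) := by
      linear_combination n1 - n2
    have e4 := congrArg abs e3
    rw [abs_mul, abs_mul, abs_of_nonneg d0, abs_of_pos (add_pos hr₁ hr₂)] at e4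
    have e5 : |u₂.im + u₁.im| ≤ 1 / 4 := abs_le.2 ⟨by linarith, by linarith⟩
    have e6 := mul_le_mul_of_nonneg_left e5 d0
    have e7 : |u₁.re - u₂.re| * (9 / 5) ≤ |u₁.re - u₂.re| * (u₁.re + u₂.re) :=
      mul_le_mul_of_nonneg_left (by linarith) (abs_nonneg _)
    rw [Complex.sub_re]
    linarith
  have l1 := Complex.abs_im_le_norm (u₁ - u₂)
  have l2 := Complex.norm_le_abs_re_add_abs_im (u₁ - u₂)
  constructor <;> linarith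

lemma Pair_dist {u X : ℂ} {k t h l : ℝ} (t0 : 0 < t) (k0 : 10 ^ 4 ≤ k)
    (hth : t ^ 2 * h ≤ k / 10 ^ 10) (hl2 : l ≤ 4 * k / 5) (l0 : 0 ≤ l) (hh0 : 0 ≤ h)
    (hu : ‖u‖ = 1) (hX : ‖X‖ ≤ 2 * l) (hc : 2 * l - h ≤ cp u X) :
    ‖X - (2 * l : ℝ) * u‖ ≤ k / t / 10 ^ 4 := by
  have a := norm_sub_sq_le hu (L := 2 * l) (by linarith) hX hc
  have k1 : 0 ≤ k := by linarith
  refine le_of_sq_le_sq (a.trans ?_) (by positivity)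
  have b : h ≤ k / 10 ^ 10 / t ^ 2 := by rw [le_div_iff₀ (by positivity)]; linarith
  calc 2 * (2 * l) * h ≤ 100 * k * (k / 10 ^ 10 / t ^ 2) :=
        mul_le_mul (by linarith) b hh0 (by positivity)
    _ = (k / t / 10 ^ 4) ^ 2 := by field_simp; norm_num

lemma Pair_cp {u₁ u₂ X : ℂ} {l : ℝ} (hu₁ : ‖u₁‖ = 1) (hu₂ : ‖u₂‖ = 1) :
    cp u₂ X - l * ‖u₁ - u₂‖ * ‖u₁ - u₂‖ - ‖u₁ - u₂‖ * ‖X - (2 * l : ℝ) * u₂‖ ≤ cp u₁ X := by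
  have n1 := normSq_of_norm hu₁
  have n2 := normSq_of_norm hu₂
  have n3 : ‖u₁ - u₂‖ * ‖u₁ - u₂‖ =
      (u₁.re - u₂.re) * (u₁.re - u₂.re) + (u₁.im - u₂.im) * (u₁.im - u₂.im) := by
    rw [← sq, Complex.sq_norm, Complex.normSq_apply, Complex.sub_re, Complex.sub_im]
  have a := abs_le.1 (Complex.abs_re_le_norm
    ((starRingEnd ℂ) (u₁ - u₂) * (X - (2 * l : ℝ) * u₂)))
  rw [norm_mul, Complex.norm_conj] at a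
  have e : cp u₁ X = cp u₂ X - l * (‖u₁ - u₂‖ * ‖u₁ - u₂‖) +
      ((starRingEnd ℂ) (u₁ - u₂) * (X - (2 * l : ℝ) * u₂)).re := by
    rw [n3]
    simp only [cp, Complex.mul_re, Complex.mul_im, Complex.conj_re, Complex.conj_im,
      Complex.sub_re, Complex.sub_im, Complex.ofReal_re, Complex.ofReal_im]
    linear_combination l * n1 - l * n2
  linarith [a.1]

lemma Pair_im {u X : ℂ} {l D s β : ℝ} (l0 : 0 ≤ l) (hD : ‖X - (2 * l : ℝ) * u‖ ≤ D)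
    (h : |u.im - s| ≤ β) : 2 * l * s - 2 * l * β - D ≤ X.im ∧ X.im ≤ 2 * l * s + 2 * l * β + D := by
  have a := abs_le.1 ((Complex.abs_im_le_norm _).trans hD)
  rw [Complex.sub_im, Complex.im_ofReal_mul] at a
  obtain ⟨b1, b2⟩ := abs_le.1 h
  have c1 := mul_le_mul_of_nonneg_left b1 l0
  have c2 := mul_le_mul_of_nonneg_left b2 l0
  constructor <;> linarith [a.1, a.2]

lemma Pair_conv {A B x y τ : ℝ} (τ0 : 0 ≤ τ) (τ1 : τ ≤ 1) (x1 : A ≤ x) (x2 : x ≤ B) (y1 : A ≤ y)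
    (y2 : y ≤ B) : A ≤ x + τ * (y - x) ∧ x + τ * (y - x) ≤ B := by
  have τ2 : 0 ≤ 1 - τ := by linarith
  have a1 := mul_le_mul_of_nonneg_left x1 τ2
  have a2 := mul_le_mul_of_nonneg_left x2 τ2
  have a3 := mul_le_mul_of_nonneg_left y1 τ0
  have a4 := mul_le_mul_of_nonneg_left y2 τ0
  constructor <;> linarith

lemma Pair_norm_le {X Y : ℂ} {τ L : ℝ} (τ0 : 0 ≤ τ) (τ1 : τ ≤ 1) (hX : ‖X‖ ≤ L) (hY : ‖Y‖ ≤ L) :
    ‖X + τ * (Y - X)‖ ≤ L := by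
  have τ2 : 0 ≤ 1 - τ := by linarith
  have e : X + τ * (Y - X) = ((1 - τ : ℝ) : ℂ) * X + τ * Y := by push_cast; ring
  have a := norm_add_le (((1 - τ : ℝ) : ℂ) * X) (τ * Y)
  rw [← e, norm_mul, norm_mul, Complex.norm_real, Complex.norm_real, Real.norm_of_nonneg τ2,
    Real.norm_of_nonneg τ0] at a
  have a1 := mul_le_mul_of_nonneg_left hX τ2
  have a2 := mul_le_mul_of_nonneg_left hY τ0
  linarith

lemma Pair_cp_ge {u X Y : ℂ} {τ A : ℝ} (τ0 : 0 ≤ τ) (τ1 : τ ≤ 1) (hX : A ≤ cp u X)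
    (hY : A ≤ cp u Y) : A ≤ cp u (X + τ * (Y - X)) := by
  have e : cp u (X + τ * (Y - X)) = cp u X + τ * (cp u Y - cp u X) := by
    simp only [cp, Complex.mul_re, Complex.mul_im, Complex.conj_re, Complex.conj_im,
      Complex.sub_re, Complex.sub_im, Complex.add_re, Complex.add_im, Complex.ofReal_re,
      Complex.ofReal_im]
    ring
  rw [e]
  exact (Pair_conv τ0 τ1 hX (le_max_left _ _) hY (le_max_right _ _)).1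

/-- Let `α = 100 / t`. `norm_sub_sq_le` gives `‖X_r - 2 l u_r‖ ^ 2 ≤ 4 l h ≤ 4 k h`, so
`D := ‖X_r - 2 l u_r‖ ≤ k / (10 ^ 4 t)`. With `dir_gap`, `‖X₂ - X₁‖` is within `2 D` of
`2 l ‖u₁ - u₂‖ ∈ [75 k / t, 300 k / t]`, and `k / t ≥ t`. For `Y = X₁ + τ (X₂ - X₁)`:
`‖Y‖ ≤ 2 l`; `cp u₁ X₁ ≥ 2 l - h`, and
`cp u₁ X₂ = cp u₂ X₂ + cp (u₁ - u₂) (2 l u₂) + cp (u₁ - u₂) (X₂ - 2 l u₂) ≥
2 l - h - l ‖u₁ - u₂‖ ^ 2 - ‖u₁ - u₂‖ D ≥ 2 l - 3 t` (use `k ≤ t ^ 3 / 10 ^ 5`), so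
`‖Y‖ ≥ cp u₁ Y ≥ 2 l - 3 t`. `Im Y ∈ [2 l (σ - α / 8) - D, 2 l (σ + 9 α / 8) + D]`. A point `z`
within `3 t` of `Y` has `|‖z‖ - 2 l| < 6 t`, and `D + 3 t + 6 t / 8 < 2 l * 5 α / 24`, where
`2 l α ≥ 100 k / t ≥ 100 t`. -/
theorem pair_geo {u₁ u₂ X₁ X₂ : ℂ} {k t h l σ : ℝ} (ht : 10 ^ 4 ≤ t) (hk : t ^ 2 ≤ k)
    (hk3 : k ≤ t ^ 3 / 10 ^ 5) (hh0 : 0 ≤ h) (hh : h ≤ t) (hth : t ^ 2 * h ≤ k / 10 ^ 10)
    (hl1 : k / 2 ≤ l) (hl2 : l ≤ 4 * k / 5) (hσ0 : 0 ≤ σ) (hσ : σ + 100 / t ≤ 1 / 10)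
    (hu₁ : ‖u₁‖ = 1) (hu₂ : ‖u₂‖ = 1) (hr₁ : 0 < u₁.re) (hr₂ : 0 < u₂.re)
    (h₁ : |u₁.im - σ| ≤ 100 / t / 8) (h₂ : |u₂.im - (σ + 100 / t)| ≤ 100 / t / 8)
    (hX₁ : ‖X₁‖ ≤ 2 * l) (hX₂ : ‖X₂‖ ≤ 2 * l) (hc₁ : 2 * l - h ≤ cp u₁ X₁)
    (hc₂ : 2 * l - h ≤ cp u₂ X₂) :
    t ≤ ‖X₂ - X₁‖ ∧ ‖X₂ - X₁‖ ≤ 700 * k / t ∧ tube X₁ X₂ (3 * t) ⊆ sect k σ (100 / t) ∧
      ∀ z ∈ tube X₁ X₂ (3 * t), 2 * l - 6 * t < ‖z‖ ∧ ‖z‖ < 2 * l + 3 * t := by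
  obtain ⟨t0, q1, q2, k0⟩ := Pair_basic ht hk
  have l0 : 0 ≤ l := by linarith
  have α0 : 0 < 100 / t := by positivity
  have α1 : 100 / t ≤ 1 / 100 := by rw [div_le_iff₀ t0]; linarith
  have m1 : 50 * (k / t) ≤ l * (100 / t) := by
    have := mul_le_mul_of_nonneg_right hl1 α0.le
    calc 50 * (k / t) = k / 2 * (100 / t) := by ring
      _ ≤ _ := this
  have m2 : l * (100 / t) ≤ 80 * (k / t) := by
    have := mul_le_mul_of_nonneg_right hl2 α0.le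
    calc _ ≤ _ := this
      _ = 80 * (k / t) := by ring
  have m3 : k / t * (100 / t) ≤ t / 1000 := by
    rw [show k / t * (100 / t) = 100 * k / t ^ 2 by field_simp, div_le_iff₀ (by positivity)]
    nlinarith
  have e7 : 700 * k / t = 700 * (k / t) := by ring
  have D₁ := Pair_dist t0 k0 hth hl2 l0 hh0 hu₁ hX₁ hc₁
  have D₂ := Pair_dist t0 k0 hth hl2 l0 hh0 hu₂ hX₂ hc₂
  obtain ⟨g1, g2⟩ := dir_gap hu₁ hu₂ hr₁ hr₂ α0.le α1 hσ0 hσ h₁ h₂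
  rw [e7]
  generalize k / t = q at *
  generalize 100 / t = α at *
  have g3 := mul_le_mul_of_nonneg_left g1 l0
  have g4 := mul_le_mul_of_nonneg_left g2 l0
  have n0 : ‖((2 * l : ℝ) : ℂ) * (u₁ - u₂)‖ = 2 * l * ‖u₁ - u₂‖ := by
    rw [norm_mul, Complex.norm_real, Real.norm_of_nonneg (by linarith)]
  have n1 : ‖X₂ - X₁‖ ≤ 2 * l * ‖u₁ - u₂‖ + q / 10 ^ 4 + q / 10 ^ 4 := by
    have e : X₂ - X₁ = (X₂ - (2 * l : ℝ) * u₂) - (X₁ - (2 * l : ℝ) * u₁) -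
        (2 * l : ℝ) * (u₁ - u₂) := by ring
    have a := norm_sub_le ((X₂ - (2 * l : ℝ) * u₂) - (X₁ - (2 * l : ℝ) * u₁))
      ((2 * l : ℝ) * (u₁ - u₂))
    have b := norm_sub_le (X₂ - (2 * l : ℝ) * u₂) (X₁ - (2 * l : ℝ) * u₁)
    rw [← e, n0] at a
    linarith
  have n2 : 2 * l * ‖u₁ - u₂‖ ≤ ‖X₂ - X₁‖ + q / 10 ^ 4 + q / 10 ^ 4 := by
    have e : ((2 * l : ℝ) : ℂ) * (u₁ - u₂) = (X₂ - (2 * l : ℝ) * u₂) - (X₁ - (2 * l : ℝ) * u₁) -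
        (X₂ - X₁) := by ring
    have a := norm_sub_le ((X₂ - (2 * l : ℝ) * u₂) - (X₁ - (2 * l : ℝ) * u₁)) (X₂ - X₁)
    have b := norm_sub_le (X₂ - (2 * l : ℝ) * u₂) (X₁ - (2 * l : ℝ) * u₁)
    rw [← e, n0] at a
    linarith
  have c2 : 2 * l - 3 * t ≤ cp u₁ X₂ := by
    have a := Pair_cp (u₁ := u₁) (X := X₂) (l := l) hu₁ hu₂
    have b1 : ‖u₁ - u₂‖ * ‖X₂ - (2 * l : ℝ) * u₂‖ ≤ 3 * α / 2 * (q / 10 ^ 4) :=
      mul_le_mul g2 D₂ (norm_nonneg _) (by linarith)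
    have b2 : l * ‖u₁ - u₂‖ * ‖u₁ - u₂‖ ≤ 120 * q * (3 * α / 2) :=
      mul_le_mul (by linarith) g2 (norm_nonneg _) (by linarith)
    linarith
  have i₁ := Pair_im l0 D₁ h₁
  have i₂ := Pair_im l0 D₂ h₂
  have main : ∀ z ∈ tube X₁ X₂ (3 * t), (2 * l - 6 * t < ‖z‖ ∧ ‖z‖ < 2 * l + 3 * t) ∧
      2 * l * σ - l * α / 4 - q / 10 ^ 4 - 3 * t < z.im ∧
      z.im < 2 * l * σ + 9 * (l * α) / 4 + q / 10 ^ 4 + 3 * t := by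
    rintro z ⟨τ, τ0, τ1, hz⟩
    have y1 := Pair_norm_le τ0 τ1 hX₁ hX₂
    have y2 := (Pair_cp_ge τ0 τ1 (by linarith) c2).trans (cp_le hu₁ (X₁ + τ * (X₂ - X₁)))
    have y3 := Pair_conv (A := 2 * l * σ - l * α / 4 - q / 10 ^ 4)
      (B := 2 * l * σ + 9 * (l * α) / 4 + q / 10 ^ 4) (x := X₁.im) (y := X₂.im) τ0 τ1
      (by linarith [i₁.1]) (by linarith [i₁.2]) (by linarith [i₂.1]) (by linarith [i₂.2])
    have y4 : (X₁ + τ * (X₂ - X₁)).im = X₁.im + τ * (X₂.im - X₁.im) := by simp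
    have y5 := abs_le.1 (abs_norm_sub_norm_le z (X₁ + τ * (X₂ - X₁)))
    have y6 := abs_le.1 (Complex.abs_im_le_norm (z - (X₁ + τ * (X₂ - X₁))))
    rw [Complex.sub_im, y4] at y6
    refine ⟨⟨?_, ?_⟩, ?_, ?_⟩ <;> linarith [y3.1, y3.2, y5.1, y5.2, y6.1, y6.2]
  refine ⟨by linarith, by linarith, fun z hz => ?_, fun z hz => (main z hz).1⟩
  obtain ⟨⟨z1, z2⟩, z3, z4⟩ := main z hz
  have w : ∀ s : ℝ, |s| ≤ 1 / 8 → |s * (‖z‖ - 2 * l)| ≤ 1 / 8 * (6 * t) := fun s hs => by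
    rw [abs_mul]
    exact mul_le_mul hs (abs_le.2 ⟨by linarith, by linarith⟩) (abs_nonneg _) (by norm_num)
  have w1 := abs_le.1 (w (σ - α / 3) (abs_le.2 ⟨by linarith, by linarith⟩))
  have w2 := abs_le.1 (w (σ + 4 * α / 3) (abs_le.2 ⟨by linarith, by linarith⟩))
  refine ⟨by linarith, ?_, ?_⟩ <;> linarith [w1.1, w1.2, w2.1, w2.2]

end Pool.Agent.Lib.MP_b07bdb_co.Nk
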