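import Pool.Agent.Lib.MP_b07bdb_co.Nk.Lat0

/-! Elementary facts on `Rel`, `Fit`, `Apx`, `RigAt`, `St`. -/

namespace Pool.Agent.Lib.MP_b07bdb_co.Nk

open Metric MeasureTheory

lemma Rel.mono {x a e a' e' : ℂ} {β σ β' σ' : ℝ} (h : Rel x β σ a e a' e') (hβ : β ≤ β')
    (hσ : σ ≤ σ') : Rel x β' σ' a e a' e' := by
  obtain ⟨ρ, b, h1, h2, h3, h4⟩ := h
  exact ⟨ρ, b, h1, h2.trans hβ, h3.trans hσ, h4⟩

lemma Rel.refl (x a e : ℂ) : Rel x 0 0 a e a e :=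
  ⟨1, 0, by simp, by simp, by simp, fun z hz => by simpa using hz⟩

lemma Rel.recenter {y a e a' e' : ℂ} {β σ : ℝ} (h : Rel y β σ a e a' e') (x : ℂ) :
    Rel x (β + σ * ‖x - y‖) σ a e a' e' := by
  obtain ⟨ρ, b, h1, h2, h3, h4⟩ := h
  refine ⟨ρ, b + (ρ - 1) * (x - y), h1, ?_, h3, fun z hz => ?_⟩
  · refine (norm_add_le _ _).trans (add_le_add h2 ?_)
    rw [norm_mul]
    exact mul_le_mul_of_nonneg_right h3 (norm_nonneg _)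
  · have := h4 z hz
    convert this using 1
    ring

lemma Rel.trans {x a e a' e' a'' e'' : ℂ} {β σ β' σ' : ℝ} (h : Rel x β σ a e a' e')
    (h' : Rel x β' σ' a' e' a'' e'') : Rel x (β + β') (σ + σ') a e a'' e'' := by
  obtain ⟨ρ, b, h1, h2, h3, h4⟩ := h
  obtain ⟨ρ', b', h1', h2', h3', h4'⟩ := h'
  refine ⟨ρ' * ρ, b' + ρ' * b, by rw [norm_mul, h1, h1', one_mul], ?_, ?_, fun z hz => ?_⟩
  · refine (norm_add_le _ _).trans ?_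
    rw [norm_mul, h1', one_mul]
    linarith
  · have e1 : ρ' * ρ - 1 = ρ' * (ρ - 1) + (ρ' - 1) := by ring
    rw [e1]
    refine (norm_add_le _ _).trans ?_
    rw [norm_mul, h1', one_mul]
    linarith
  · have := h4' _ (h4 z hz)
    convert this using 1
    ring

lemma Rel.isDir {x a e a' e' τ : ℂ} {β σ : ℝ} (h : Rel x β σ a e a' e') (hτ : IsDir e τ) :
    ∃ τ' : ℂ, IsDir e' τ' ∧ ‖τ' - τ‖ ≤ σ := by
  obtain ⟨ρ, b, h1, -, h3, h4⟩ := h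
  obtain ⟨hn, m, n, rfl⟩ := hτ
  obtain ⟨m1, n1, e1⟩ := h4 _ (lp_mem a e m n)
  obtain ⟨m0, n0, e0⟩ := h4 _ (self_mem_Lat a e)
  refine ⟨ρ * (e * (m + n * w6)), ⟨by rw [norm_mul, h1, hn, one_mul], m1 - m0, n1 - n0, ?_⟩, ?_⟩
  · have h5 := lp_sub a' e' m1 n1 m0 n0
    rw [← e1, ← e0] at h5
    simp only [lp] at h5
    linear_combination h5 / 2
  · have e2 : ρ * (e * (m + n * w6)) - e * (m + n * w6) = (ρ - 1) * (e * (m + n * w6)) := by ring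
    rw [e2, norm_mul, hn, mul_one]
    exact h3

lemma bad_mono (P : Finset ℂ) (a e : ℂ) (K : ℕ) {ε ε' : ℝ} (h : ε ≤ ε') :
    bad P a e K ε' ⊆ bad P a e K ε := by
  intro mn hmn
  simp only [bad, Finset.mem_filter] at hmn ⊢
  exact ⟨hmn.1, fun ⟨p, hp, h1⟩ => hmn.2 ⟨p, hp, h1.trans h⟩⟩

lemma mem_bad {P : Finset ℂ} {a e : ℂ} {K : ℕ} {ε : ℝ} {m n : ℤ} :
    (m, n) ∈ bad P a e K ε ↔
      (|m| ≤ K ∧ |n| ≤ K) ∧ ¬ ∃ p ∈ P, ‖p - lp a e m n‖ ≤ ε := by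
  simp only [bad, Finset.mem_filter, Finset.mem_product, Finset.mem_Icc, abs_le]

lemma Fit.mono {P : Finset ℂ} {a e x : ℂ} {t ε ε' : ℝ} (h : Fit P a e x t ε) (hε : ε ≤ ε') :
    Fit P a e x t ε' :=
  ⟨h.1, h.2.1, le_trans (by exact_mod_cast Finset.card_le_card (bad_mono P a e _ hε)) h.2.2⟩

lemma Apx.mono {P : Finset ℂ} {a e x : ℂ} {r r' η η' : ℝ} {X X' : Set ℂ}
    (h : Apx P a e x r X η) (hr : r' ≤ r) (hX : X ⊆ X') (hη : η ≤ η') : Apx P a e x r' X' η' := by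
  intro z hz h1 h2
  obtain ⟨p, hp, h3⟩ := h z hz (h1.trans hr) (fun hx => h2 (hX hx))
  exact ⟨p, hp, h3.trans hη⟩

lemma Cov.mono {X X' : Set ℂ} {R R' : ℝ} (h : Cov X R) (hX : X' ⊆ X) (hR : R ≤ R') :
    Cov X' R' := by
  obtain ⟨E, h1, h2, h3⟩ := h
  exact ⟨E, h1, h2.trans hR, fun z hz => h3 z (hX hz)⟩

lemma RigAt.mono {P : Finset ℂ} {a e x : ℂ} {t η R ε η' R' ε' : ℝ}
    (h : RigAt P a e x t η R ε) (hη : η ≤ η') (hR : R ≤ R') (hε : ε ≤ ε') :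
    RigAt P a e x t η' R' ε' := by
  obtain ⟨h1, X, h2, h3⟩ := h
  exact ⟨h1.mono hε, X, h2.mono subset_rfl hR, h3.mono le_rfl subset_rfl hη⟩

lemma St.mono {C t lam η η' : ℝ} (h : St C t lam η) (hη : η ≤ η') : St C t lam η' := by
  intro P w μ x hW hμ
  obtain ⟨a, e, h1⟩ := h P w μ x hW hμ
  exact ⟨a, e, h1.mono hη le_rfl le_rfl⟩

end Pool.Agent.Lib.MP_b07bdb_co.Nk
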