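import Pool.Agent.Lib.MP_b07bdb_co.Nk.Ori
import Pool.Agent.Lib.MP_b07bdb_co.Nk.Ovl

/-! Two straight chains with slightly different directions force waste between them. -/

namespace Pool.Agent.Lib.MP_b07bdb_co.Nk

open Metric MeasureTheory

lemma isOpen_tube (X Y : ℂ) (r : ℝ) : IsOpen (tube X Y r) := by
  have : tube X Y r = ⋃ τ : ℝ, ⋃ _ : 0 ≤ τ ∧ τ ≤ 1, ball (X + τ * (Y - X)) r := by
    ext z
    simp [tube, mem_ball, dist_eq_norm, and_assoc]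
  rw [this]
  exact isOpen_iUnion fun _ => isOpen_iUnion fun _ => isOpen_ball

lemma tube_subset_ball (X Y : ℂ) (r : ℝ) : tube X Y r ⊆ ball X (‖Y - X‖ + r) := by
  rintro z ⟨τ, h0, h1, h⟩
  rw [mem_ball, dist_eq_norm]
  have e : z - X = (z - (X + τ * (Y - X))) + τ * (Y - X) := by ring
  have h2 : ‖(τ : ℂ) * (Y - X)‖ ≤ ‖Y - X‖ := by
    rw [norm_mul, Complex.norm_real, Real.norm_of_nonneg h0]
    exact mul_le_of_le_one_left (norm_nonneg _) h1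
  rw [e]
  linarith [norm_add_le (z - (X + τ * (Y - X))) (τ * (Y - X))]

/-- The equally spaced points of the segment. -/
noncomputable def Slab_pt (X Y : ℂ) (N i : ℕ) : ℂ := X + (((i : ℝ) / N : ℝ) : ℂ) * (Y - X)

lemma Slab_dist (X Y : ℂ) (N i j : ℕ) :
    ‖Slab_pt X Y N i - Slab_pt X Y N j‖ = |(i : ℝ) - j| * (‖Y - X‖ / N) := by
  have e : Slab_pt X Y N i - Slab_pt X Y N j = ((((i : ℝ) - j) / N : ℝ) : ℂ) * (Y - X) := by
    simp only [Slab_pt]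
    push_cast
    ring
  rw [e, norm_mul, Complex.norm_real, Real.norm_eq_abs, abs_div, Nat.abs_cast]
  ring

lemma Slab_sub (X Y : ℂ) {N i : ℕ} (hi : i ≤ N) (r : ℝ) :
    ball (Slab_pt X Y N i) r ⊆ tube X Y r := by
  intro z hz
  rw [mem_ball, dist_eq_norm] at hz
  exact ⟨(i : ℝ) / N, by positivity, div_le_one_of_le₀ (by exact_mod_cast hi) (by positivity), hz⟩

open Classical in
lemma Slab_mult (X Y : ℂ) {N : ℕ} {t : ℝ} (ht : 0 < t) (hs : t / 51 ≤ ‖Y - X‖ / N) (z : ℂ) :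
    ((((Finset.range (N + 1)).filter fun i => z ∈ ball (Slab_pt X Y N i) (3 * t)).card : ℕ) : ℝ) ≤
      613 := by
  rcases ((Finset.range (N + 1)).filter
    fun i => z ∈ ball (Slab_pt X Y N i) (3 * t)).eq_empty_or_nonempty with h | ⟨k, hk⟩
  · rw [h]
    simp
  have hsub : ((Finset.range (N + 1)).filter fun i => z ∈ ball (Slab_pt X Y N i) (3 * t)) ⊆
      Finset.Icc (k - 306) (k + 306) := by
    intro i hi
    have h1 := (Finset.mem_filter.1 hi).2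
    have h2 := (Finset.mem_filter.1 hk).2
    have h3 : dist (Slab_pt X Y N i) (Slab_pt X Y N k) < 6 * t := by
      rw [mem_ball] at h1 h2
      linarith [dist_triangle_left (Slab_pt X Y N i) (Slab_pt X Y N k) z]
    rw [dist_eq_norm, Slab_dist] at h3
    have h4 : |(i : ℝ) - k| * (t / 51) < 306 * (t / 51) := by
      linarith [mul_le_mul_of_nonneg_left hs (abs_nonneg ((i : ℝ) - k))]
    have h5 := abs_lt.1 (lt_of_mul_lt_mul_right h4 (by positivity))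
    have h6 : (k : ℝ) < i + 306 := by linarith [h5.1]
    have h7 : (i : ℝ) < k + 306 := by linarith [h5.2]
    have h8 : k < i + 306 := by exact_mod_cast h6
    have h9 : i < k + 306 := by exact_mod_cast h7
    rw [Finset.mem_Icc]
    omega
  have h1 := Finset.card_le_card hsub
  rw [Nat.card_Icc] at h1
  exact_mod_cast h1.trans (by omega)

lemma Slab_chain {E : ℕ → ℂ} {s : ℕ → ℝ} {N : ℕ} {τ₀ : ℂ} (h0 : IsDir (E 0) τ₀)
    (hs : ∀ i < N, ∀ τ, IsDir (E i) τ → ∃ τ', IsDir (E (i + 1)) τ' ∧ ‖τ' - τ‖ ≤ s i) :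
    ∀ i ≤ N, ∃ τ, IsDir (E i) τ ∧ ‖τ - τ₀‖ ≤ ∑ j ∈ Finset.range i, s j := by
  intro i
  induction i with
  | zero => exact fun _ => ⟨τ₀, h0, by simp⟩
  | succ i ih =>
    intro hi
    obtain ⟨τ, h1, h2⟩ := ih (by omega)
    obtain ⟨τ', h3, h4⟩ := hs i (by omega) τ h1
    refine ⟨τ', h3, ?_⟩
    rw [Finset.sum_range_succ]
    have e : τ' - τ₀ = (τ' - τ) + (τ - τ₀) := by ring
    rw [e]
    linarith [norm_add_le (τ' - τ) (τ - τ₀)]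

lemma Slab_sum {ε : ℕ → ℝ} (h : ∀ i, 0 ≤ ε i) (N : ℕ) :
    ∑ j ∈ Finset.range N, (ε j + ε (j + 1)) ≤ 2 * ∑ j ∈ Finset.range (N + 1), ε j := by
  have h1 := Finset.sum_range_succ ε N
  have h2 := Finset.sum_range_succ' ε N
  rw [Finset.sum_add_distrib]
  linarith [h N, h 0]

lemma Slab_fin {e τ τ₀ τ' u₁ u₂ : ℂ} {s : ℝ} (he : ‖e‖ = 1) (h : IsDir e τ) (h' : IsDir e τ')
    (hs : s ≤ 1 / 10) (h1 : ‖τ - τ₀‖ ≤ s) (h2 : ‖τ₀ - u₁‖ ≤ s) (h3 : ‖τ' - u₂‖ ≤ s)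
    (hu : ‖u₁ - u₂‖ ≤ 1 / 2) : ‖u₁ - u₂‖ ≤ 3 * s := by
  have e1 : τ - τ' = (τ - τ₀) + (τ₀ - u₁) + (u₁ - u₂) - (τ' - u₂) := by ring
  have h4 : ‖τ - τ'‖ < 1 := by
    rw [e1]
    linarith [norm_sub_le ((τ - τ₀) + (τ₀ - u₁) + (u₁ - u₂)) (τ' - u₂),
      norm_add_le ((τ - τ₀) + (τ₀ - u₁)) (u₁ - u₂), norm_add_le (τ - τ₀) (τ₀ - u₁)]
  obtain rfl := IsDir.unique he h h' h4
  have e2 : u₁ - u₂ = (τ - u₂) - (τ - τ₀) - (τ₀ - u₁) := by ring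
  rw [e2]
  linarith [norm_sub_le ((τ - u₂) - (τ - τ₀)) (τ₀ - u₁), norm_sub_le (τ - u₂) (τ - τ₀)]

/-- Take `c = 1 / (10 ^ 4 * CL * C)`; `t ≤ c t ^ 2` gives `1 / t ≤ c`. Suppose
`μ.real (tube ..) ≤ lam t`. Let `ℓ = ‖X₂ - X₁‖`, `N = ⌈50 ℓ / t⌉₊ ≤ 51 ℓ / t ≤ 51 c t`,
`x i = X₁ + (i / N) (X₂ - X₁)` for `i ≤ N`, spacing `ℓ / N ∈ [t / 51, t / 50]`. The balls
`ball (x i) (3 t)` lie in the tube and overlap at most `601` times (the indices `i` with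
`z ∈ ball (x i) (3 t)` differ by less than `6 t * N / ℓ ≤ 306`; `card_le_of_interval`), so
`W i ≤ lam t` and `∑ W i ≤ 601 lam t` (`sum_real_le_of_overlap`). `Use` gives lattices `A i, E i`
with `Fit` error `ε i = C (W i + 1) / t ≤ 2 C c ≤ 1 / 40`. `LatSt` with `ε i + ε (i + 1)`
(`Fit.mono`) and `Rel.isDir` transport a direction: `orient` gives `τ 0` with `IsDir (E 0) (τ 0)`,
`‖τ 0 - u₁‖ ≤ 1 / t`, and inductively `τ i` with `IsDir (E i) (τ i)`,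
`‖τ i - τ 0‖ ≤ ∑ j < i, CL (ε j + ε (j + 1)) / t ≤ 2 CL C (601 c + 52 c) / t ≤ 1 / t`. `orient` at
`X₂` gives `τ'` with `‖τ' - u₂‖ ≤ 1 / t`; `‖τ N - τ'‖ ≤ 3 / t + 1 / 2 < 1`, so `τ N = τ'`
(`IsDir.unique`) and `‖u₁ - u₂‖ ≤ 3 / t`, a contradiction. -/
theorem slab_waste {C CL : ℝ} (hC : 1 ≤ C) (hL : 1 ≤ CL) (hLat : LatSt CL) :
    ∃ c : ℝ, 0 < c ∧ ∀ (P : Finset ℂ) (w : ℂ → ℝ) (μ : Measure ℂ) (X₁ X₂ u₁ u₂ : ℂ) (t lam : ℝ),
      Wst P w μ → 10 ^ 4 ≤ t → 0 ≤ lam → lam ≤ c → Use C t lam → ‖u₁‖ = 1 → ‖u₂‖ = 1 →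
      t ≤ ‖X₂ - X₁‖ → ‖X₂ - X₁‖ ≤ c * t ^ 2 → 3 / t < ‖u₁ - u₂‖ → ‖u₁ - u₂‖ ≤ 1 / 2 →
      Straight P X₁ u₁ t → Straight P X₂ u₂ t → lam * t < μ.real (tube X₁ X₂ (3 * t)) := by
  have hC0 : 0 < C := by linarith
  have hL0 : 0 < CL := by linarith
  obtain ⟨c, hc0, hc⟩ : ∃ c : ℝ, 0 < c ∧ CL * (C * c) = 1 / 10 ^ 4 :=
    ⟨1 / (10 ^ 4 * CL * C), by positivity, by field_simp⟩
  have hCc : C * c ≤ 1 / 10 ^ 4 := by
    rw [← hc]
    exact le_mul_of_one_le_left (by positivity) hL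
  refine ⟨c, hc0, fun P w μ X₁ X₂ u₁ u₂ t lam hW ht hl0 hl hU hu₁ hu₂ h1 h2 h3 h4 hS₁ hS₂ => ?_⟩
  by_contra hcon
  rw [not_lt] at hcon
  have ht0 : 0 < t := by linarith
  have hct : 1 ≤ c * t := by
    have : t * 1 ≤ t * (c * t) := by nlinarith
    exact le_of_mul_le_mul_left this ht0
  obtain ⟨N, hN1, hN2⟩ : ∃ N : ℕ, 50 * ‖X₂ - X₁‖ ≤ N * t ∧ N * t ≤ 51 * ‖X₂ - X₁‖ := by
    refine ⟨⌈50 * ‖X₂ - X₁‖ / t⌉₊, (div_le_iff₀ ht0).1 (Nat.le_ceil _), ?_⟩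
    have h5 := (Nat.ceil_lt_add_one (show 0 ≤ 50 * ‖X₂ - X₁‖ / t by positivity)).le
    have h6 := mul_le_mul_of_nonneg_right h5 ht0.le
    rw [add_mul, div_mul_cancel₀ _ ht0.ne'] at h6
    linarith
  have hN0 : (0 : ℝ) < N := by
    have : 0 < (N : ℝ) * t := by linarith
    exact (mul_pos_iff_of_pos_right ht0).1 this
  have hsp1 : t / 51 ≤ ‖X₂ - X₁‖ / N := by
    rw [div_le_div_iff₀ (by norm_num) hN0]
    linarith
  have hsp2 : ‖X₂ - X₁‖ / N ≤ t / 50 := by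
    rw [div_le_div_iff₀ hN0 (by norm_num)]
    linarith
  have hN3 : (N : ℝ) + 1 ≤ 52 * (c * t) := by
    have : (N : ℝ) * t ≤ 51 * (c * t) * t := by nlinarith
    linarith [le_of_mul_le_mul_right this ht0]
  have hfin : μ (tube X₁ X₂ (3 * t)) ≠ ⊤ :=
    ne_top_of_le_ne_top (hW.fin _ _) (measure_mono (tube_subset_ball _ _ _))
  have hlt : lam * t ≤ c * t := mul_le_mul_of_nonneg_right hl ht0.le
  have hWi : ∀ i ≤ N, μ.real (ball (Slab_pt X₁ X₂ N i) (3 * t)) ≤ lam * t := fun i hi =>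
    (measureReal_mono (Slab_sub X₁ X₂ hi _) hfin).trans hcon
  have hsum : ∑ i ∈ Finset.range (N + 1), μ.real (ball (Slab_pt X₁ X₂ N i) (3 * t)) ≤
      613 * (c * t) := by
    refine (sum_real_le_of_overlap μ _ (fun i => ball (Slab_pt X₁ X₂ N i) (3 * t)) _ 613
      (fun _ _ => measurableSet_ball) (isOpen_tube _ _ _).measurableSet
      (fun i hi => Slab_sub X₁ X₂ (Nat.lt_succ_iff.1 (Finset.mem_range.1 hi)) _) hfin
      (by norm_num) (Slab_mult X₁ X₂ ht0 hsp1)).trans ?_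
    linarith
  obtain ⟨ε, hε⟩ : ∃ ε : ℕ → ℝ,
      ∀ i, ε i = C * (μ.real (ball (Slab_pt X₁ X₂ N i) (3 * t)) + 1) / t := ⟨_, fun _ => rfl⟩
  have hε0 : ∀ i, 0 ≤ ε i := fun i => by
    rw [hε]
    positivity
  have hε1 : ∀ i ≤ N, ε i ≤ 1 / 40 := fun i hi => by
    rw [hε, div_le_iff₀ ht0]
    have h5 : C * (μ.real (ball (Slab_pt X₁ X₂ N i) (3 * t)) + 1) ≤ C * (2 * (c * t)) :=
      mul_le_mul_of_nonneg_left (by linarith [hWi i hi]) hC0.le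
    have h6 := mul_le_mul_of_nonneg_right hCc ht0.le
    linarith
  have hεs : ∑ i ∈ Finset.range (N + 1), ε i ≤ 665 * (C * c) := by
    simp only [hε]
    rw [← Finset.sum_div, ← Finset.mul_sum, Finset.sum_add_distrib, div_le_iff₀ ht0]
    simp only [Finset.sum_const, Finset.card_range, nsmul_eq_mul, mul_one, Nat.cast_add,
      Nat.cast_one]
    have h5 := mul_le_mul_of_nonneg_left (add_le_add hsum hN3) hC0.le
    linarith
  have hex : ∀ i, ∃ a e : ℂ, i ≤ N →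
      RigAt P a e (Slab_pt X₁ X₂ N i) t (1 / 20) (t / 10 ^ 9) (ε i) := fun i => by
    by_cases hi : i ≤ N
    · obtain ⟨a, e, h⟩ := hU P w μ _ hW (hWi i hi)
      exact ⟨a, e, fun _ => hε i ▸ h⟩
    · exact ⟨0, 0, fun h => absurd h hi⟩
  choose A E hAE using hex
  have hx0 : Slab_pt X₁ X₂ N 0 = X₁ := by simp [Slab_pt]
  have hxN : Slab_pt X₁ X₂ N N = X₂ := by
    simp only [Slab_pt, div_self hN0.ne']
    push_cast
    ring
  obtain ⟨hF0, Y₀, hY₀, hA₀⟩ := hAE 0 (Nat.zero_le _)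
  obtain ⟨hFN, YN, hYN, hAN⟩ := hAE N le_rfl
  rw [hx0] at hA₀
  rw [hxN] at hAN
  obtain ⟨τ₀, hd0, hτ₀⟩ := orient hW.loc.sep ht hF0.1 hu₁ hY₀ hA₀ hS₁
  obtain ⟨τ', hd', hτ'⟩ := orient hW.loc.sep ht hFN.1 hu₂ hYN hAN hS₂
  obtain ⟨τ, hd, hτ⟩ := Slab_chain (s := fun i => CL * (ε i + ε (i + 1)) / t) (N := N) hd0
    (fun i hi τ hτ => by
      refine (hLat P (Slab_pt X₁ X₂ N i) (Slab_pt X₁ X₂ N (i + 1)) (A i) (E i) (A (i + 1))
        (E (i + 1)) t _ hW.loc.sep ht ?_ (add_nonneg (hε0 _) (hε0 _)) ?_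
        ((hAE i hi.le).1.mono (le_add_of_nonneg_right (hε0 _)))
        ((hAE (i + 1) hi).1.mono (le_add_of_nonneg_left (hε0 _)))).isDir hτ
      · rw [Slab_dist]
        simpa using hsp2
      · linarith [hε1 i hi.le, hε1 (i + 1) hi]) N le_rfl
  have hτ1 : ‖τ - τ₀‖ ≤ 1 / t := by
    refine hτ.trans ?_
    rw [← Finset.sum_div, ← Finset.mul_sum]
    refine div_le_div_of_nonneg_right ?_ ht0.le
    have h5 := mul_le_mul_of_nonneg_left ((Slab_sum hε0 N).trans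
      (mul_le_mul_of_nonneg_left hεs (by norm_num))) hL0.le
    linarith
  have h5 := Slab_fin hFN.1 hd hd' (one_div_le_one_div_of_le (by norm_num) (by linarith)) hτ1 hτ₀
    hτ' h4
  rw [mul_one_div] at h5
  linarith

end Pool.Agent.Lib.MP_b07bdb_co.Nk
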