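import Pool.Agent.Lib.MP_b07bdb_co.Nk.Pair
import Pool.Agent.Lib.MP_b07bdb_co.Nk.Slab
import Pool.Agent.Lib.MP_b07bdb_co.Nk.Cap

/-! Every thin sector carries waste. -/

namespace Pool.Agent.Lib.MP_b07bdb_co.Nk

open Metric MeasureTheory

lemma Sect_fin {S : Finset ℂ} {w : ℂ → ℝ} {μ : Measure ℂ} (hW : Wst S w μ) (k σ α : ℝ) :
    μ (sect k σ α) ≠ ⊤ :=
  ne_top_of_le_ne_top (hW.fin 0 (2 * k)) (measure_mono (sect_subset_ball k σ α))

lemma Sect_cap {S : Finset ℂ} {w : ℂ → ℝ} {μ : Measure ℂ} (hW : Wst S w μ) {k t h σ s : ℝ}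
    (ht : 10 ^ 4 ≤ t) (hk : t ^ 2 ≤ k) (hh : 12 ≤ h) (hht : h ≤ t) (hs0 : 0 ≤ s)
    (hs : s ≤ 1 / 10) (h1 : σ ≤ s) (h2 : s ≤ σ + 100 / t)
    (hno : ∀ p ∈ S, |p.im - 2 * k * s| < 20 * k / t → 0 < p.re → ‖p‖ < 2 * k - h) :
    h * k / t / 5 ≤ μ.real (sect k σ (100 / t)) := by
  have ht0 : 0 < t := by linarith
  have hkt : 10 ^ 4 * t ≤ k := by nlinarith
  have h3 : 12 ≤ 20 * k / t := by
    rw [le_div_iff₀ ht0]
    linarith
  have h4 : 20 * k / t ≤ k / 100 := by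
    rw [div_le_iff₀ ht0]
    nlinarith
  have h5 := cap_waste hW h3 h4 hh (by linarith) hs0 hs hno
  have h6 := measureReal_mono (cap_subset_sect ht hk (by linarith) hht hs0 hs h1 h2)
    (Sect_fin hW k σ (100 / t))
  have h7 : h * k / t / 5 = h * (20 * k / t) / 100 := by ring
  rw [h7]
  exact h5.trans h6

/-- The integer parameters of the windows. -/
lemma Sect_par {k t h : ℝ} (ht : 10 ^ 4 ≤ t) (hk : t ^ 2 ≤ k) (hh : 12 ≤ h)
    (hth : t ^ 2 * h ≤ k / 10 ^ 10) :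
    ∃ T l₀ J : ℕ, 10 * t ≤ T ∧ k / 2 ≤ l₀ ∧ (l₀ : ℝ) + J * T ≤ 4 * k / 5 ∧ 0 < (J : ℝ) ∧
      k ≤ 88 * t * J ∧ 4 * T * (10 * h / J) ≤ 1 / 10 ^ 4 := by
  have ht0 : 0 < t := by linarith
  have hkt : 10 ^ 4 * t ≤ k := by nlinarith
  obtain ⟨T, hT1, hT2⟩ : ∃ T : ℕ, 10 * t ≤ T ∧ (T : ℝ) ≤ 11 * t :=
    ⟨⌈10 * t⌉₊, Nat.le_ceil _, by
      have := Nat.ceil_lt_add_one (show 0 ≤ 10 * t by linarith)
      linarith⟩
  obtain ⟨l₀, hl1, hl2⟩ : ∃ l₀ : ℕ, k / 2 ≤ l₀ ∧ (l₀ : ℝ) ≤ k / 2 + 1 :=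
    ⟨⌈k / 2⌉₊, Nat.le_ceil _, (Nat.ceil_lt_add_one (show 0 ≤ k / 2 by linarith)).le⟩
  have hT0 : (0 : ℝ) < T := by linarith
  obtain ⟨J, hJ1, hJ2⟩ : ∃ J : ℕ, (J : ℝ) * T ≤ k / 4 ∧ k / 4 ≤ (J + 1) * T := by
    refine ⟨⌊k / 4 / T⌋₊, ?_, ?_⟩
    · rw [← le_div_iff₀ hT0]
      exact Nat.floor_le (div_nonneg (by linarith) hT0.le)
    · rw [← div_le_iff₀ hT0]
      exact (Nat.lt_floor_add_one _).le
  have hJ3 : k / 8 ≤ J * T := by linarith
  have hJ0 : (0 : ℝ) < J := by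
    by_contra h0
    have : (J : ℝ) * T ≤ 0 := mul_nonpos_of_nonpos_of_nonneg (not_lt.1 h0) hT0.le
    linarith
  have hJ4 : (J : ℝ) * T ≤ J * (11 * t) := mul_le_mul_of_nonneg_left hT2 hJ0.le
  have hJ5 : k ≤ 88 * t * J := by linarith
  refine ⟨T, l₀, J, hT1, hl1, by linarith, hJ0, hJ5, ?_⟩
  have e : 4 * (T : ℝ) * (10 * h / J) = 40 * T * h / J := by ring
  rw [e, div_le_iff₀ hJ0]
  have h1 : (T : ℝ) * h ≤ 11 * t * h := mul_le_mul_of_nonneg_right hT2 (by linarith)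
  have h2 : t * (t * h) ≤ t * (88 * J / 10 ^ 10) := by linarith
  have h3 := le_of_mul_le_mul_left h2 ht0
  linarith

open Classical in
lemma Sect_card (J : ℕ) (A B : ℕ → Prop)
    (hA : (((Finset.range J).filter fun j => ¬ A j).card : ℝ) ≤ J / 10)
    (hB : (((Finset.range J).filter fun j => ¬ B j).card : ℝ) ≤ J / 10) :
    ∃ G : Finset ℕ, 8 * (J : ℝ) / 10 ≤ G.card ∧ ∀ j ∈ G, j < J ∧ A j ∧ B j := by
  refine ⟨(Finset.range J).filter fun j => A j ∧ B j, ?_, fun j hj => ?_⟩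
  · have h1 : Finset.range J ⊆ ((Finset.range J).filter fun j => A j ∧ B j) ∪
        (((Finset.range J).filter fun j => ¬ A j) ∪ ((Finset.range J).filter fun j => ¬ B j)) := by
      intro j hj
      simp only [Finset.mem_union, Finset.mem_filter]
      tauto
    have h2 := (Finset.card_le_card h1).trans ((Finset.card_union_le _ _).trans
      (Nat.add_le_add_left (Finset.card_union_le _ _) _))
    rw [Finset.card_range] at h2
    have h3 := (Nat.cast_le (α := ℝ)).2 h2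
    push_cast at h3
    linarith
  · have := Finset.mem_filter.1 hj
    exact ⟨Finset.mem_range.1 this.1, this.2⟩

/-- Let `c_s` be the constant of `slab_waste` and `c = min (c_s / 700) (1 / 10 ^ 5)`. Every
`p ∈ S` has `‖p‖ ≤ 2 k` (`Reach.norm_le`). If for `s = σ` or `s = σ + 100 / t` no `p ∈ S` has
`|Im p - 2 k s| < 20 k / t`, `0 < Re p`, `2 k - h ≤ ‖p‖`, use `cap_waste` with `v = 20 k / t` and
`cap_subset_sect` (`measureReal_mono`, finiteness from `sect_subset_ball`, `Wst.fin`): the waste is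
at least `h k / (5 t)`. Otherwise `dir_of_far`, `exists_chain` give chains `c₁, c₂` of lengths
`≥ k - h / 2`. Let `T = ⌈10 t⌉₊ ≤ 11 t`, `l₀ = ⌈k / 2⌉₊`, `J = ⌊k / (4 T)⌋₊ ≥ k / (8 T)`,
`h' = 10 h / J`; `l₀ + J T ≤ 4 k / 5 ≤ k - h / 2` and `4 T h' ≤ 320 T ^ 2 h / k ≤ 1 / 10 ^ 4`. By
`Chain.windows` at least `8 J / 10` indices `j < J` are good for both chains; for these
`Chain.straight`, `Chain.cp_ge`, `pair_geo`, `dir_gap`, `slab_waste` with `l = l₀ + j T` give a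
tube of waste more than `lam t` inside the sector; tubes with different `j` lie in disjoint
annuli (`2 T ≥ 9 t`). `sum_real_le_of_disjoint` gives at least
`(8 J / 10) lam t ≥ lam k / 110`. -/
theorem sect_waste {C CL : ℝ} (hC : 1 ≤ C) (hL : 1 ≤ CL) (hLat : LatSt CL) :
    ∃ c : ℝ, 0 < c ∧ ∀ (S : Finset ℂ) (k : ℕ) (w : ℂ → ℝ) (μ : Measure ℂ) (t h lam σ : ℝ),
      Good S k → Wst S w μ → 10 ^ 4 ≤ t → t ^ 2 ≤ k → (k : ℝ) ≤ c * t ^ 3 → 12 ≤ h → h ≤ t →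
      t ^ 2 * h ≤ k / 10 ^ 10 → 0 ≤ lam → lam ≤ c → Use C t lam → 0 ≤ σ →
      σ + 100 / t ≤ 1 / 10 →
      c * min (h * k / t) (lam * k) ≤ μ.real (sect k σ (100 / t)) := by
  obtain ⟨cs, hcs, hslab⟩ := slab_waste hC hL hLat
  refine ⟨min (cs / 700) (1 / 10 ^ 5), lt_min (by positivity) (by positivity), ?_⟩
  intro S k w μ t h lam σ hG hW ht hk hk3 hh hht hth hl0 hlc hU hσ0 hσ
  generalize hc : min (cs / 700) (1 / 10 ^ 5) = c at *
  have hc0 : 0 < c := hc ▸ lt_min (by positivity) (by positivity)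
  have hc1 : c ≤ cs / 700 := hc ▸ min_le_left _ _
  have hc2 : c ≤ 1 / 10 ^ 5 := hc ▸ min_le_right _ _
  clear hc
  have ht0 : 0 < t := by linarith
  have hk0 : (0 : ℝ) ≤ k := Nat.cast_nonneg k
  have hα0 : 0 < 100 / t := by positivity
  have hα1 : 100 / t ≤ 1 / 100 := by
    rw [div_le_iff₀ ht0]
    linarith
  have hcap : ∀ s, σ ≤ s → s ≤ σ + 100 / t →
      (∀ p ∈ S, |p.im - 2 * k * s| < 20 * k / t → 0 < p.re → ‖p‖ < 2 * k - h) →
      c * min (h * k / t) (lam * k) ≤ μ.real (sect k σ (100 / t)) := by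
    intro s h1 h2 hno
    refine le_trans ?_ (Sect_cap hW ht hk hh hht (by linarith) (by linarith) h1 h2 hno)
    have h3 : 0 ≤ h * k / t := div_nonneg (mul_nonneg (by linarith) hk0) ht0.le
    have h4 := mul_le_mul_of_nonneg_left (min_le_left (h * k / t) (lam * k)) hc0.le
    have h5 := mul_le_mul_of_nonneg_right hc2 h3
    linarith
  by_cases hA : ∀ p ∈ S, |p.im - 2 * k * σ| < 20 * k / t → 0 < p.re → ‖p‖ < 2 * k - h
  · exact hcap σ le_rfl (by linarith) hA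
  by_cases hB : ∀ p ∈ S, |p.im - 2 * k * (σ + 100 / t)| < 20 * k / t → 0 < p.re →
      ‖p‖ < 2 * k - h
  · exact hcap _ (by linarith) le_rfl hB
  clear hcap
  push Not at hA hB
  obtain ⟨p₁, hp₁, a1, a2, a3⟩ := hA
  obtain ⟨p₂, hp₂, b1, b2, b3⟩ := hB
  have hh0 : 0 ≤ h := by linarith
  obtain ⟨a4, a5, a6⟩ := dir_of_far ht hk hh0 hht hσ0 (by linarith) a3
    (Reach.norm_le (hG.2.2 _ hp₁)) a1 a2
  obtain ⟨b4, b5, b6⟩ := dir_of_far ht hk hh0 hht (by linarith) hσ b3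
    (Reach.norm_le (hG.2.2 _ hp₂)) b1 b2
  obtain ⟨n₁, c₁, -, a7, a8⟩ := exists_chain (hG.2.2 _ hp₁) hp₁ a4 a3
  obtain ⟨n₂, c₂, -, b7, b8⟩ := exists_chain (hG.2.2 _ hp₂) hp₂ b4 b3
  generalize (p₁ / ‖p₁‖ : ℂ) = u₁ at a5 a6 a8
  generalize (p₂ / ‖p₂‖ : ℂ) = u₂ at b5 b6 b8
  clear a1 a2 a3 a4 b1 b2 b3 b4 hp₁ hp₂ p₁ p₂
  obtain ⟨T, l₀, J, hT, hl₀, hJT, hJ0, hJk, hJh⟩ := Sect_par ht hk hh hth
  have hkt : 10 ^ 4 * t ≤ k := by nlinarith
  have hn₁ : l₀ + J * T ≤ n₁ := by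
    have : ((l₀ + J * T : ℕ) : ℝ) ≤ n₁ := by
      push_cast
      linarith
    exact_mod_cast this
  have hn₂ : l₀ + J * T ≤ n₂ := by
    have : ((l₀ + J * T : ℕ) : ℝ) ≤ n₂ := by
      push_cast
      linarith
    exact_mod_cast this
  have hh' : 0 < 10 * h / J := div_pos (by linarith) hJ0
  have e1 : h / (10 * h / J) = J / 10 := by
    have : h ≠ 0 := by linarith
    field_simp
  have w1 := a8.windows hn₁ hh'
  have w2 := b8.windows hn₂ hh'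
  rw [e1] at w1 w2
  obtain ⟨G, hGc, hGj⟩ := Sect_card J _ _ (by convert w1) (by convert w2)
  clear w1 w2 e1
  obtain ⟨g1, g2⟩ := dir_gap a8.unit b8.unit a5 b5 hα0.le hα1 hσ0 hσ a6 b6
  have g3 : 3 / t < ‖u₁ - u₂‖ := by
    have e2 : 3 / t = 3 * (100 / t) / 100 := by ring
    linarith
  have hk5 : (k : ℝ) ≤ t ^ 3 / 10 ^ 5 := by
    have := mul_le_mul_of_nonneg_right hc2 (pow_pos ht0 3).le
    linarith
  have hk6 : 700 * k / t ≤ cs * t ^ 2 := by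
    rw [div_le_iff₀ ht0]
    have := mul_le_mul_of_nonneg_right hc1 (pow_pos ht0 3).le
    have e2 : cs * t ^ 2 * t = cs * t ^ 3 := by ring
    linarith
  have key : ∀ j ∈ G, lam * t ≤ μ.real (tube (c₁ (l₀ + j * T)) (c₂ (l₀ + j * T)) (3 * t)) ∧
      tube (c₁ (l₀ + j * T)) (c₂ (l₀ + j * T)) (3 * t) ⊆ sect k σ (100 / t) ∧
      ∀ z ∈ tube (c₁ (l₀ + j * T)) (c₂ (l₀ + j * T)) (3 * t),
        2 * (l₀ + j * T : ℝ) - 6 * t < ‖z‖ ∧ ‖z‖ < 2 * (l₀ + j * T : ℝ) + 3 * t := by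
    intro j hj
    obtain ⟨j1, j2, j3⟩ := hGj j hj
    have j4 : l₀ + j * T + T ≤ l₀ + J * T := by
      have := Nat.mul_le_mul_right T (Nat.succ_le_of_lt j1)
      rw [Nat.succ_mul] at this
      omega
    have j5 : ((l₀ + j * T : ℕ) : ℝ) ≤ 4 * k / 5 := by
      have : ((l₀ + j * T : ℕ) : ℝ) ≤ (l₀ + J * T : ℕ) := by
        exact_mod_cast le_trans (Nat.le_add_right _ _) j4
      push_cast at this ⊢
      linarith
    have j6 : (k : ℝ) / 2 ≤ ((l₀ + j * T : ℕ) : ℝ) := by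
      have : (l₀ : ℝ) ≤ (l₀ + j * T : ℕ) := by exact_mod_cast Nat.le_add_right _ _
      linarith
    have s1 := a8.straight (j4.trans hn₁) (t := t) (by linarith) hh'.le j2 hJh
    have s2 := b8.straight (j4.trans hn₂) (t := t) (by linarith) hh'.le j3 hJh
    obtain ⟨q1, q2⟩ := a8.cp_ge (l := l₀ + j * T) (by omega)
    obtain ⟨q3, q4⟩ := b8.cp_ge (l := l₀ + j * T) (by omega)
    obtain ⟨r1, r2, r3, r4⟩ := pair_geo ht hk hk5 hh0 hht hth j6 j5 hσ0 hσ a8.unit b8.unit a5 b5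
      a6 b6 q1 q3 q2 q4
    refine ⟨(hslab S w μ _ _ u₁ u₂ t lam hW ht hl0 (by linarith) hU a8.unit b8.unit r1
      (r2.trans hk6) g3 (by linarith) s1 s2).le, r3, fun z hz => ?_⟩
    have := r4 z hz
    push_cast at this
    exact this
  have hsum := sum_real_le_of_disjoint μ G
    (fun j => tube (c₁ (l₀ + j * T)) (c₂ (l₀ + j * T)) (3 * t)) (sect k σ (100 / t))
    (fun j _ => (isOpen_tube _ _ _).measurableSet) (fun j hj => (key j hj).2.1)
    (Sect_fin hW _ _ _) (by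
      have aux : ∀ i ∈ G, ∀ j ∈ G, i < j →
          Disjoint (tube (c₁ (l₀ + i * T)) (c₂ (l₀ + i * T)) (3 * t))
            (tube (c₁ (l₀ + j * T)) (c₂ (l₀ + j * T)) (3 * t)) := by
        intro i hi j hj hij
        refine Set.disjoint_left.2 fun z h1 h2 => ?_
        have h3 := ((key i hi).2.2 z h1).2
        have h4 := ((key j hj).2.2 z h2).1
        have h5 : (i : ℝ) + 1 ≤ j := by exact_mod_cast hij
        have h6 := mul_le_mul_of_nonneg_right h5 (Nat.cast_nonneg (α := ℝ) T)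
        linarith
      intro i hi j hj hij
      rcases lt_or_gt_of_ne hij with h1 | h1
      · exact aux i hi j hj h1
      · exact (aux j hj i hi h1).symm)
  have hlow := Finset.card_nsmul_le_sum G _ _ fun j hj => (key j hj).1
  rw [nsmul_eq_mul] at hlow
  refine le_trans ?_ (hlow.trans hsum)
  clear hlow hsum key hGj hslab
  have h3 : 0 ≤ lam * k := mul_nonneg hl0 hk0
  have h4 := mul_le_mul_of_nonneg_left (min_le_right (h * k / t) (lam * k)) hc0.le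
  have h5 := mul_le_mul_of_nonneg_right hc2 h3
  have h6 := mul_le_mul_of_nonneg_right hGc (mul_nonneg hl0 ht0.le)
  have h7 := mul_le_mul_of_nonneg_left hJk hl0
  linarith

end Pool.Agent.Lib.MP_b07bdb_co.Nk
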