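import Pool.Agent.Lib.MP_b07bdb_co.Nk.Defs

/-! Visibility past finitely many small discs. -/

namespace Pool.Agent.Lib.MP_b07bdb_co.Nk

open Metric MeasureTheory

/-- Finitely many sets of reals, each inside an interval of length `d i`, with total length less
than `v - u`, do not cover `[u, v]` (Lebesgue measure: `measure_biUnion_finset_le`,
`Real.volume_Icc`; a nonempty set whose points are within `d i` of each other lies in
`Icc (sInf _) (sInf _ + d i)`, or crudely use `Real.volume_le_diam`). -/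
lemma exists_notMem_of_diam {ι : Type*} (I : Finset ι) (A : ι → Set ℝ) (d : ι → ℝ) (u v : ℝ)
    (hd0 : ∀ i ∈ I, 0 ≤ d i) (hd : ∀ i ∈ I, ∀ s ∈ A i, ∀ s' ∈ A i, |s - s'| ≤ d i)
    (h : ∑ i ∈ I, d i < v - u) : ∃ s : ℝ, u ≤ s ∧ s ≤ v ∧ ∀ i ∈ I, s ∉ A i := by
  by_contra hc
  have hsub : Set.Icc u v ⊆ ⋃ i ∈ I, A i := by
    intro s hs
    by_contra hn
    refine hc ⟨s, hs.1, hs.2, fun i hi hA => hn ?_⟩
    exact Set.mem_biUnion hi hA
  have h1 : ∀ i ∈ I, volume (A i) ≤ ENNReal.ofReal (d i) := fun i hi =>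
    (Real.volume_le_diam _).trans (Metric.ediam_le fun s hs s' hs' => by
      rw [edist_dist, Real.dist_eq]
      exact ENNReal.ofReal_le_ofReal (hd i hi s hs s' hs'))
  have h2 : ENNReal.ofReal (v - u) ≤ ENNReal.ofReal (∑ i ∈ I, d i) := by
    rw [← Real.volume_Icc, ENNReal.ofReal_sum_of_nonneg hd0]
    exact (measure_mono hsub).trans ((measure_biUnion_finset_le _ _).trans (Finset.sum_le_sum h1))
  exact absurd ((ENNReal.ofReal_le_ofReal_iff (Finset.sum_nonneg hd0)).1 h2) (not_le.2 h)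

/-- A horizontal line at height between `2.2 t` and `2.4 t` above `x` that avoids the discs of
radius `r` about the points of `S` (`exists_notMem_of_diam` with
`A b = {s | |(b - x).im - s| < r}`, `d b = 2 r`). -/
lemma exists_clear_height (S : Finset ℂ) (x : ℂ) (t r : ℝ) (hr : 0 ≤ r)
    (h : 2 * r * S.card < t / 5) :
    ∃ h₀ : ℝ, 11 / 5 * t ≤ h₀ ∧ h₀ ≤ 12 / 5 * t ∧ ∀ b ∈ S, r ≤ |(b - x).im - h₀| := by
  obtain ⟨s, h1, h2, h3⟩ := exists_notMem_of_diam S (fun b => {s | |(b - x).im - s| < r})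
    (fun _ => 2 * r) (11 / 5 * t) (12 / 5 * t) (fun _ _ => by positivity)
    (fun b _ s hs s' hs' => by
      have a1 := abs_lt.1 (show |(b - x).im - s| < r from hs)
      have a2 := abs_lt.1 (show |(b - x).im - s'| < r from hs')
      rw [abs_le]; constructor <;> linarith [a1.1, a1.2, a2.1, a2.2])
    (by rw [Finset.sum_const, nsmul_eq_mul]; linarith)
  exact ⟨s, h1, h2, fun b hb => not_lt.1 (h3 b hb)⟩

lemma Shadow_real {t r τ τ' D c₁ c₂ ξ ξ' a d : ℝ} (ht : 0 < t) (hr : 0 < r) (h0 : 0 ≤ τ)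
    (hD : 19 / 100 * t ≤ D) (ha : |ξ' - a| ≤ 301 / 100 * t) (a1 : |c₁ - τ * (ξ - a)| < r)
    (a2 : |c₂ - τ * D| < r) (a3 : |c₁ - τ' * (ξ' - a)| < r) (a4 : |c₂ - τ' * D| < r)
    (hd : d ≤ 2 * (τ * (742 / 100 * t))) : |ξ - ξ'| * d ≤ 510 * r * t := by
  have hD0 : 0 < D := by linarith
  have b1 : |τ - τ'| * D ≤ 2 * r := by
    rw [← abs_of_pos hD0, ← abs_mul, abs_le]
    obtain ⟨u1, u2⟩ := abs_lt.1 a2
    obtain ⟨u3, u4⟩ := abs_lt.1 a4
    constructor <;> linarith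
  have b2 : |τ - τ'| * t ≤ 200 / 19 * r := by
    nlinarith [mul_le_mul_of_nonneg_left hD (abs_nonneg (τ - τ'))]
  have b3 : |(τ - τ') * (ξ' - a)| ≤ 32 * r := by
    rw [abs_mul]
    nlinarith [mul_le_mul_of_nonneg_left ha (abs_nonneg (τ - τ'))]
  have b4 : τ * |ξ - ξ'| ≤ 34 * r := by
    rw [← abs_of_nonneg h0, ← abs_mul, abs_le]
    obtain ⟨u1, u2⟩ := abs_lt.1 a1
    obtain ⟨u3, u4⟩ := abs_lt.1 a3
    obtain ⟨u5, u6⟩ := abs_le.1 b3
    constructor <;> linarith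
  have b5 := mul_le_mul_of_nonneg_left hd (abs_nonneg (ξ - ξ'))
  have b6 := mul_le_mul_of_nonneg_right b4 ht.le
  have b7 := mul_pos hr ht
  nlinarith

/-- A point `z` sees a point of the line. For `b ∈ S` with `d = ‖b - z‖ ≥ 2 r` let `A b` be the set
of `ξ ∈ [-t, t]` whose segment from `z` to `q ξ = x + ξ + h₀ I` comes within `< r` of `b`. With
`D = h₀ - (z - x).im ≥ 0.19 t` and `‖q ξ - z‖ ≤ 4.7 t`: a near point with parameter `τ` has
`τ * 4.7 t ≥ d / 2`; two near points with `(τ, ξ), (τ', ξ')` are within `2 r`, so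
`|τ - τ'| D ≤ 2 r` and `τ |ξ - ξ'| ≤ 2 r + |τ - τ'| * 3.01 t ≤ 34 r`; so
`|ξ - ξ'| ≤ 640 r t / d`. The total is at most `0.64 t < 2 t`. -/
lemma exists_visible (S : Finset ℂ) (x z : ℂ) (t r h₀ : ℝ) (ht : 100 ≤ t) (hr : 0 < r)
    (hz : ‖z - x‖ ≤ 2 * t + 1) (h1 : 11 / 5 * t ≤ h₀) (h2 : h₀ ≤ 12 / 5 * t)
    (hd : ∀ b ∈ S, 2 * r ≤ ‖b - z‖) (hs : 1000 * r * ∑ b ∈ S, 1 / ‖b - z‖ ≤ 1) :
    ∃ ξ : ℝ, |ξ| ≤ t ∧ ∀ τ : ℝ, 0 ≤ τ → τ ≤ 1 → ∀ b ∈ S,
      r ≤ ‖b - (z + τ * (x + ξ + h₀ * Complex.I - z))‖ := by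
  have hzr : |(z - x).re| ≤ 2 * t + 1 := (Complex.abs_re_le_norm _).trans hz
  have hzi : |(z - x).im| ≤ 2 * t + 1 := (Complex.abs_im_le_norm _).trans hz
  obtain ⟨r1, r2⟩ := abs_le.1 hzr
  obtain ⟨i1, i2⟩ := abs_le.1 hzi
  have hv : ∀ ξ : ℝ, (x + ξ + h₀ * Complex.I - z).re = ξ - (z - x).re ∧
      (x + ξ + h₀ * Complex.I - z).im = h₀ - (z - x).im := fun ξ => by
    constructor <;> simp <;> ring
  obtain ⟨ξ, k1, k2, k3⟩ := exists_notMem_of_diam S
    (fun b => {ξ : ℝ | |ξ| ≤ t ∧ ∃ τ : ℝ, 0 ≤ τ ∧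
      ‖b - (z + τ * (x + ξ + h₀ * Complex.I - z))‖ < r})
    (fun b => 510 * r * t * (1 / ‖b - z‖)) (-t) t (fun _ _ => by positivity)
    (by
      rintro b hb ξ ⟨e1, τ, t0, hτ⟩ ξ' ⟨e2, τ', -, hτ'⟩
      have hb0 : 0 < ‖b - z‖ := lt_of_lt_of_le (by positivity) (hd b hb)
      have hre : ∀ (ξ τ : ℝ), (b - (z + τ * (x + ξ + h₀ * Complex.I - z))).re =
          (b - z).re - τ * (ξ - (z - x).re) := fun ξ τ => by
        rw [← (hv ξ).1]; simp; ring
      have him : ∀ (ξ τ : ℝ), (b - (z + τ * (x + ξ + h₀ * Complex.I - z))).im =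
          (b - z).im - τ * (h₀ - (z - x).im) := fun ξ τ => by
        rw [← (hv ξ).2]; simp; ring
      have a1 := (Complex.abs_re_le_norm _).trans_lt hτ
      have a2 := (Complex.abs_im_le_norm _).trans_lt hτ
      have a3 := (Complex.abs_re_le_norm _).trans_lt hτ'
      have a4 := (Complex.abs_im_le_norm _).trans_lt hτ'
      rw [hre] at a1 a3
      rw [him] at a2 a4
      obtain ⟨e11, e12⟩ := abs_le.1 e1
      obtain ⟨e21, e22⟩ := abs_le.1 e2
      have hn : ‖x + ξ + h₀ * Complex.I - z‖ ≤ 742 / 100 * t := by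
        refine (Complex.norm_le_abs_re_add_abs_im _).trans ?_
        rw [(hv ξ).1, (hv ξ).2]
        have b1 : |ξ - (z - x).re| ≤ 301 / 100 * t := abs_le.2 ⟨by linarith, by linarith⟩
        have b2 : |h₀ - (z - x).im| ≤ 441 / 100 * t := abs_le.2 ⟨by linarith, by linarith⟩
        linarith
      have hc : ‖b - z‖ ≤ r + τ * (742 / 100 * t) := by
        have c1 : b - z = (b - (z + τ * (x + ξ + h₀ * Complex.I - z))) +
            τ * (x + ξ + h₀ * Complex.I - z) := by ring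
        rw [c1]
        refine (norm_add_le _ _).trans (add_le_add hτ.le ?_)
        rw [norm_mul, Complex.norm_real, Real.norm_eq_abs, abs_of_nonneg t0]
        exact mul_le_mul_of_nonneg_left hn t0
      rw [mul_one_div, le_div_iff₀ hb0]
      exact Shadow_real (by linarith) hr t0 (by linarith) (abs_le.2 ⟨by linarith, by linarith⟩)
        a1 a2 a3 a4 (by linarith [hd b hb]))
    (by
      rw [← Finset.mul_sum]
      have ht0 : 0 < t := by linarith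
      nlinarith [mul_le_mul_of_nonneg_left hs ht0.le])
  exact ⟨ξ, abs_le.2 ⟨k1, k2⟩, fun τ t0 _ b hb =>
    not_lt.1 fun hlt => k3 b hb ⟨abs_le.2 ⟨k1, k2⟩, τ, t0, hlt⟩⟩

end Pool.Agent.Lib.MP_b07bdb_co.Nk
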