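import Pool.Agent.Lib.MP_b07bdb_co.Nk.Cartan
import Pool.Agent.Lib.MP_b07bdb_co.Nk.Shadow

/-! Connecting almost all good net points to one hub. -/

namespace Pool.Agent.Lib.MP_b07bdb_co.Nk

open Metric MeasureTheory

/-- Transport along a clear segment. Subdivide the segment from `u` to `v` into `L` equal pieces
of length at most `s / 100`; each subdivision point has a net point within `s / 200`, which is
not in `S` because the segment stays `s / 100` away from `S`; use `y` at the start and `y'` at the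
end. Consecutive net points are within `s / 50`. Recentre each relation at `x`
(`Rel.recenter`, the net points are within `r` of `x`) and compose (`Rel.trans`, induction). -/
lemma rel_along (x u v y y' : ℂ) (s r β : ℝ) (L : ℕ) (N S : Finset ℂ) (A E : ℂ → ℂ)
    (hs : 0 < s) (hβ : 0 ≤ β) (hL : 1 ≤ L) (huv : ‖v - u‖ ≤ L * (s / 100))
    (hN : ∀ y ∈ N, ‖y - x‖ ≤ r)
    (hnet : ∀ τ : ℝ, 0 ≤ τ → τ ≤ 1 → ∃ y ∈ N, ‖y - (u + τ * (v - u))‖ ≤ s / 200)
    (hclear : ∀ τ : ℝ, 0 ≤ τ → τ ≤ 1 → ∀ b ∈ S, s / 100 ≤ ‖b - (u + τ * (v - u))‖)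
    (hy : y ∈ N) (hyu : ‖y - u‖ ≤ s / 200) (hy' : y' ∈ N) (hyv : ‖y' - v‖ ≤ s / 200)
    (hrel : ∀ y ∈ N, ∀ y' ∈ N, y ∉ S → y' ∉ S → ‖y - y'‖ ≤ s / 50 →
      Rel y β (β / s) (A y) (E y) (A y') (E y')) :
    Rel x (L * (β + β / s * r)) (L * (β / s)) (A y) (E y) (A y') (E y') := by
  have hL0 : (0 : ℝ) < L := by exact_mod_cast hL
  have hτ : ∀ i : ℕ, i ≤ L → (0 : ℝ) ≤ i / L ∧ (i / L : ℝ) ≤ 1 := fun i hi =>
    ⟨by positivity, (div_le_one hL0).2 (by exact_mod_cast hi)⟩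
  have hout : ∀ i : ℕ, i ≤ L → ∀ p : ℂ, ‖p - (u + ((i / L : ℝ) : ℂ) * (v - u))‖ ≤ s / 200 →
      p ∉ S := fun i hi p hp hS => by
    have := hclear _ (hτ i hi).1 (hτ i hi).2 p hS
    linarith
  have step : ∀ i : ℕ, i + 1 ≤ L → ∀ p ∈ N, ∀ q ∈ N,
      ‖p - (u + ((i / L : ℝ) : ℂ) * (v - u))‖ ≤ s / 200 →
      ‖q - (u + ((((i + 1 : ℕ) : ℝ) / L : ℝ) : ℂ) * (v - u))‖ ≤ s / 200 →
      Rel x (β + β / s * r) (β / s) (A p) (E p) (A q) (E q) := fun i hi p hp q hq h1 h2 => by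
    have h3 : ‖((1 / L : ℝ) : ℂ) * (v - u)‖ ≤ s / 100 := by
      rw [norm_mul, Complex.norm_real, Real.norm_of_nonneg (by positivity), one_div,
        inv_mul_le_iff₀ hL0]
      exact huv
    have h4 : p - q = (p - (u + ((i / L : ℝ) : ℂ) * (v - u))) -
        (q - (u + ((((i + 1 : ℕ) : ℝ) / L : ℝ) : ℂ) * (v - u))) - ((1 / L : ℝ) : ℂ) * (v - u) := by
      push_cast
      ring
    have h5 : ‖p - q‖ ≤ s / 50 := by
      rw [h4]
      refine (norm_sub_le _ _).trans ((add_le_add (norm_sub_le _ _) h3).trans ?_)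
      linarith
    refine ((hrel p hp q hq (hout i (by omega) p h1) (hout _ hi q h2) h5).recenter x).mono ?_
      le_rfl
    rw [norm_sub_rev]
    have := mul_le_mul_of_nonneg_left (hN p hp) (by positivity : 0 ≤ β / s)
    linarith
  have key : ∀ i : ℕ, i ≤ L → ∃ p ∈ N, ‖p - (u + ((i / L : ℝ) : ℂ) * (v - u))‖ ≤ s / 200 ∧
      Rel x (i * (β + β / s * r)) (i * (β / s)) (A y) (E y) (A p) (E p) := fun i => by
    induction i with
    | zero => exact fun _ => ⟨y, hy, by simpa using hyu, by simpa using Rel.refl x (A y) (E y)⟩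
    | succ i ih =>
      intro hi
      obtain ⟨p, hp, h1, h2⟩ := ih (by omega)
      obtain ⟨q, hq, h3⟩ := hnet _ (hτ _ hi).1 (hτ _ hi).2
      refine ⟨q, hq, h3, (h2.trans (step i hi p hp q hq h1 h3)).mono ?_ ?_⟩ <;>
        exact le_of_eq (by push_cast; ring)
  obtain ⟨i, rfl⟩ : ∃ i, L = i + 1 := ⟨L - 1, by omega⟩
  obtain ⟨p, hp, h1, h2⟩ := key i (by omega)
  refine (h2.trans (step i le_rfl p hp y' hy' h1 ?_)).mono ?_ ?_
  · rw [div_self hL0.ne']
    simpa using hyv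
  · exact le_of_eq (by push_cast; ring)
  · exact le_of_eq (by push_cast; ring)

lemma StepA_seg {x u v : ℂ} {ρ τ : ℝ} (hu : ‖u - x‖ ≤ ρ) (hv : ‖v - x‖ ≤ ρ) (h0 : 0 ≤ τ)
    (h1 : τ ≤ 1) : ‖u + τ * (v - u) - x‖ ≤ ρ := by
  have e : u + τ * (v - u) - x = ((1 - τ : ℝ) : ℂ) * (u - x) + τ * (v - x) := by
    push_cast
    ring
  rw [e]
  refine (norm_add_le _ _).trans ?_
  rw [norm_mul, norm_mul, Complex.norm_real, Complex.norm_real, Real.norm_of_nonneg h0,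
    Real.norm_of_nonneg (by linarith)]
  nlinarith [mul_le_mul_of_nonneg_left hu (by linarith : 0 ≤ 1 - τ),
    mul_le_mul_of_nonneg_left hv h0]

lemma StepA_norm {x : ℂ} {ξ h t : ℝ} (ht : 0 ≤ t) (h1 : |ξ| ≤ t) (h2 : 0 ≤ h)
    (h3 : h ≤ 12 / 5 * t) : ‖x + ξ + h * Complex.I - x‖ ≤ 27 / 10 * t := by
  have e : x + ξ + h * Complex.I - x = ξ + h * Complex.I := by ring
  rw [e, Complex.norm_add_mul_I]
  refine Real.sqrt_le_iff.2 ⟨by positivity, ?_⟩
  have := abs_le.1 h1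
  nlinarith

/-- Let `t = M s`, `r = s / 100`, `h = 10 s (1 + log M)`. `cartan S h` gives `X`;
`exists_clear_height` gives `h₀` (`2 r card S ≤ t / 50`); the hub `y₀` is a net point near
`x + h₀ I`. For `z ∉ X`, `exists_visible` gives `ξ` (`log (card S) ≤ log M`, also if `S` is empty).
Apply `rel_along` on the segment from `x + h₀ I` to `q = x + ξ + h₀ I` (clear because its height
is `h₀`) and on the segment from `q` to `z` (the reverse of the visible segment), each with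
`L = ⌈500 M⌉₊ ≤ 501 M`; all points of both segments are within `27 / 10 * t` of `x` (convexity).
Total: `1002 M (β + 28 / 10 * M β) ≤ 5000 M ^ 2 β` and `1002 M β / s ≤ 5000 M ^ 2 β / t`. -/
theorem reach_all (x : ℂ) (s M β : ℝ) (N S : Finset ℂ) (A E : ℂ → ℂ) (hs : 10 ^ 4 ≤ s)
    (hM : 1000 ≤ M) (hβ : 0 ≤ β)
    (hnet : ∀ z : ℂ, ‖z - x‖ ≤ 27 / 10 * (M * s) → ∃ y ∈ N, ‖y - z‖ ≤ s / 200)
    (hN : ∀ y ∈ N, ‖y - x‖ ≤ 28 / 10 * (M * s)) (hS : (S.card : ℝ) ≤ M)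
    (hrel : ∀ y ∈ N, ∀ y' ∈ N, y ∉ S → y' ∉ S → ‖y - y'‖ ≤ s / 50 →
      Rel y β (β / s) (A y) (E y) (A y') (E y')) :
    ∃ y₀ ∈ N, y₀ ∉ S ∧ ∃ X : Set ℂ, Cov X (50 * s * (1 + Real.log M) * S.card) ∧
      ∀ z : ℂ, ‖z - x‖ ≤ 2 * (M * s) + 1 → z ∉ X → ∃ y ∈ N, y ∉ S ∧ ‖y - z‖ ≤ s / 200 ∧
        Rel x (5000 * M ^ 2 * β) (5000 * M ^ 2 * β / (M * s)) (A y₀) (E y₀) (A y) (E y) := by
  have hs0 : 0 < s := by linarith
  have hM0 : 0 < M := by linarith
  have hlog : 0 ≤ Real.log M := Real.log_nonneg (by linarith)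
  obtain ⟨t, ht⟩ : ∃ t, t = M * s := ⟨_, rfl⟩
  have ht1 : 10 ^ 4 ≤ t := by rw [ht]; nlinarith
  have hh : s ≤ 10 * s * (1 + Real.log M) := by nlinarith
  obtain ⟨X, hX, hX'⟩ := cartan S (10 * s * (1 + Real.log M)) (by linarith)
  obtain ⟨h₀, k1, k2, k3⟩ := exists_clear_height S x t (s / 100) (by positivity) (by
    rw [ht]; nlinarith)
  obtain ⟨L, hL⟩ : ∃ L : ℕ, L = ⌈500 * M⌉₊ := ⟨_, rfl⟩
  have hL1 : 500 * M ≤ L := hL ▸ Nat.le_ceil _
  have hL2 : (L : ℝ) ≤ 501 * M := by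
    have := Nat.ceil_lt_add_one (by positivity : 0 ≤ 500 * M)
    rw [hL]; linarith
  have hL3 : 1 ≤ L := by
    have : (1 : ℝ) ≤ L := by linarith
    exact_mod_cast this
  have hL4 : 5 * t ≤ L * (s / 100) := by rw [ht]; nlinarith
  rw [← ht] at hnet
  have hq : ∀ ξ : ℝ, |ξ| ≤ t → ‖x + ξ + h₀ * Complex.I - x‖ ≤ 27 / 10 * t := fun ξ h =>
    StepA_norm (by linarith) h (by linarith) k2
  have hline : ∀ ξ : ℝ, ∀ b ∈ S, s / 100 ≤ ‖b - (x + ξ + h₀ * Complex.I)‖ := fun ξ b hb => by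
    refine (k3 b hb).trans (le_trans (le_of_eq ?_) (Complex.abs_im_le_norm _))
    congr 1
    simp
    ring
  have hu := hq 0 (by rw [abs_zero]; linarith)
  obtain ⟨y₀, hy₀, hy₀'⟩ := hnet _ hu
  refine ⟨y₀, hy₀, fun h => by linarith [hline 0 y₀ h], X,
    hX.mono subset_rfl (le_of_eq (by ring)), fun z hz hzX => ?_⟩
  rw [← ht] at hz
  obtain ⟨c1, c2⟩ := hX' z hzX
  have hlc : Real.log S.card ≤ Real.log M := by
    rcases Nat.eq_zero_or_pos S.card with h | h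
    · rw [h]; simpa using hlog
    · exact Real.log_le_log (by exact_mod_cast h) hS
  obtain ⟨ξ, d1, d2⟩ := exists_visible S x z t (s / 100) h₀ (by linarith) (by positivity) hz k1 k2
    (fun b hb => by linarith [c1 b hb]) (by
      have h1 : (1 + Real.log S.card) / (10 * s * (1 + Real.log M)) ≤ 1 / (10 * s) := by
        rw [div_le_div_iff₀ (by positivity) (by positivity)]
        nlinarith
      have h2 := mul_le_mul_of_nonneg_left (c2.trans h1) (by positivity : 0 ≤ 10 * s)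
      rw [mul_one_div_cancel (by positivity)] at h2
      linarith)
  have hz' : ‖z - x‖ ≤ 27 / 10 * t := by linarith
  obtain ⟨y₁, hy₁, hy₁'⟩ := hnet _ (hq ξ d1)
  obtain ⟨y, hy, hy'⟩ := hnet _ hz'
  have r1 := rel_along x _ _ y₀ y₁ s _ β L N S A E hs0 hβ hL3 (by
      have e : x + ξ + h₀ * Complex.I - (x + (0 : ℝ) + h₀ * Complex.I) = ξ := by
        push_cast; ring
      rw [e, Complex.norm_real, Real.norm_eq_abs]
      linarith) hN (fun τ h0 h1 => hnet _ (StepA_seg hu (hq ξ d1) h0 h1))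
    (fun τ _ _ b hb => by
      have e : x + (0 : ℝ) + h₀ * Complex.I + τ * (x + ξ + h₀ * Complex.I -
          (x + (0 : ℝ) + h₀ * Complex.I)) = x + (τ * ξ : ℝ) + h₀ * Complex.I := by
        push_cast; ring
      rw [e]
      exact hline _ b hb) hy₀ hy₀' hy₁ hy₁' hrel
  have hq2 : ‖x + ξ + h₀ * Complex.I - x‖ ≤ 29 / 10 * t := by linarith [hq ξ d1]
  have r2 := rel_along x _ _ y₁ y s _ β L N S A E hs0 hβ hL3 (by
      have e : z - (x + ξ + h₀ * Complex.I) = (z - x) - (x + ξ + h₀ * Complex.I - x) := by ring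
      rw [e]
      refine (norm_sub_le _ _).trans ?_
      linarith) hN (fun τ h0 h1 => hnet _ (StepA_seg (hq ξ d1) hz' h0 h1))
    (fun τ h0 h1 b hb => by
      have e : x + ξ + h₀ * Complex.I + τ * (z - (x + ξ + h₀ * Complex.I)) =
          z + ((1 - τ : ℝ) : ℂ) * (x + ξ + h₀ * Complex.I - z) := by
        push_cast; ring
      rw [e]
      exact d2 _ (by linarith) (by linarith) b hb) hy₁ hy₁' hy hy' hrel
  refine ⟨y, hy, fun h => by linarith [c1 y h], hy', (r1.trans r2).mono ?_ ?_⟩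
  · have e : β + β / s * (28 / 10 * (M * s)) = β * (1 + 28 / 10 * M) := by field_simp
    rw [e]
    have h1 : L * (β * (1 + 28 / 10 * M)) ≤ 501 * M * (β * (3 * M)) :=
      mul_le_mul hL2 (mul_le_mul_of_nonneg_left (by linarith) hβ) (by positivity) (by positivity)
    nlinarith [mul_nonneg hβ (sq_nonneg M)]
  · have e : 5000 * M ^ 2 * β / (M * s) = 5000 * M * (β / s) := by field_simp
    rw [e]
    have h1 : 0 ≤ β / s := by positivity
    nlinarith [mul_le_mul_of_nonneg_right hL2 h1, mul_nonneg hM0.le h1]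

end Pool.Agent.Lib.MP_b07bdb_co.Nk
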