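import Pool.Agent.Lib.MP_b07bdb_co.Nk.StepA
import Pool.Agent.Lib.MP_b07bdb_co.Nk.Glue
import Pool.Agent.Lib.MP_b07bdb_co.Nk.Ovl

/-! The induction step from scale `s` to scale `M s`. -/

namespace Pool.Agent.Lib.MP_b07bdb_co.Nk

open Metric MeasureTheory

/-- The wastes of the net balls add up to at most `1201 ^ 2` times the waste of the big ball. -/
lemma StepF_sum (μ : Measure ℂ) (x : ℂ) (s t : ℝ) (N : Finset ℂ) (hs : 0 < s) (ht : 1000 * s ≤ t)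
    (hfin : μ (ball x (3 * t)) ≠ ⊤) (hN : ∀ y ∈ N, ‖y - x‖ ≤ 28 / 10 * t)
    (hcount : ∀ z : ℂ, ((N.filter fun y => ‖y - z‖ ≤ 3 * s).card : ℝ) ≤
      (2 * (3 * s) / (s / 200) + 1) ^ 2) :
    ∑ y ∈ N, μ.real (ball y (3 * s)) ≤ 1201 ^ 2 * μ.real (ball x (3 * t)) := by
  classical
  refine sum_real_le_of_overlap μ N (fun y => ball y (3 * s)) (ball x (3 * t)) (1201 ^ 2)
    (fun _ _ => measurableSet_ball) measurableSet_ball (fun y hy z hz => ?_) hfin (by positivity)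
    fun z => ?_
  · rw [mem_ball, dist_eq_norm] at hz ⊢
    have h1 := hN y hy
    have h2 : ‖z - x‖ ≤ ‖z - y‖ + ‖y - x‖ := norm_sub_le_norm_sub_add_norm_sub z y x
    linarith
  · have h1 := hcount z
    have h2 : (2 * (3 * s) / (s / 200) + 1) = 1201 := by
      field_simp
      norm_num
    rw [h2] at h1
    refine le_trans ?_ h1
    refine Nat.cast_le.2 (Finset.card_le_card fun y hy => ?_)
    rw [Finset.mem_filter] at hy ⊢
    refine ⟨hy.1, ?_⟩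
    have h3 := hy.2
    rw [mem_ball, dist_comm, dist_eq_norm] at h3
    exact h3.le

/-- The error terms. -/
lemma StepF_err {C₁ CL M κ : ℝ} (h₁ : 1 ≤ C₁) (hL : 1 ≤ CL) (hM : 1000 ≤ M) (hκ : 0 ≤ κ) :
    C₁ * κ ≤ CL * C₁ ^ 2 * M ^ 2 * κ ∧ C₁ * (C₁ * κ) ≤ CL * C₁ ^ 2 * M ^ 2 * κ ∧
      M ^ 2 * (CL * (C₁ * κ)) ≤ CL * C₁ ^ 2 * M ^ 2 * κ := by
  have hM2 : 1 ≤ M ^ 2 := one_le_pow₀ (by linarith)
  have h0 : 0 ≤ C₁ * κ := by positivity
  have h1 : C₁ * κ ≤ C₁ * (C₁ * κ) := le_mul_of_one_le_left h0 h₁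
  have h2 : 1 ≤ CL * M ^ 2 := one_le_mul_of_one_le_of_one_le hL hM2
  have h3 : C₁ * (C₁ * κ) ≤ CL * M ^ 2 * (C₁ * (C₁ * κ)) :=
    le_mul_of_one_le_left (by positivity) h2
  have h4 : CL * M ^ 2 * (C₁ * κ) ≤ CL * M ^ 2 * (C₁ * (C₁ * κ)) :=
    mul_le_mul_of_nonneg_left h1 (by positivity)
  have e : CL * M ^ 2 * (C₁ * (C₁ * κ)) = CL * C₁ ^ 2 * M ^ 2 * κ := by ring
  refine ⟨by linarith, by linarith, ?_⟩
  calc M ^ 2 * (CL * (C₁ * κ)) = CL * M ^ 2 * (C₁ * κ) := by ring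
    _ ≤ _ := by linarith

/-- The total radius. -/
lemma StepF_rad {C₂ L W lam s c Sg : ℝ} (hC : 10 ^ 18 ≤ C₂) (hL : 1 ≤ L) (hW : 0 ≤ W)
    (hlam : 0 < lam) (hc : c * (lam * s) ≤ 1201 ^ 2 * W) (hS : Sg ≤ 1201 ^ 2 * W) :
    2 * (50 * s * L * c + 2 * (Sg / (10 ^ 9 * lam))) ≤ W / (10 ^ 9 * (lam / (C₂ * L))) := by
  have hC0 : 0 < C₂ := by linarith [show (0 : ℝ) < 10 ^ 18 by positivity]
  have hL0 : 0 < L := by linarith
  have e1 : W / (10 ^ 9 * (lam / (C₂ * L))) = C₂ * (L * W) / 10 ^ 9 / lam := by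
    field_simp
  have e2 : 2 * (50 * s * L * c + 2 * (Sg / (10 ^ 9 * lam))) =
      (100 * (L * (c * (lam * s))) + 4 * Sg / 10 ^ 9) / lam := by
    field_simp
    ring
  rw [e1, e2]
  refine div_le_div_of_nonneg_right ?_ hlam.le
  have h1 : L * (c * (lam * s)) ≤ L * (1201 ^ 2 * W) := mul_le_mul_of_nonneg_left hc hL0.le
  have h2 : W ≤ L * W := le_mul_of_one_le_left hW hL
  have h3 : 10 ^ 18 * (L * W) ≤ C₂ * (L * W) := mul_le_mul_of_nonneg_right hC (by positivity)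
  have h4 : L * (1201 ^ 2 * W) = 1201 ^ 2 * (L * W) := by ring
  rw [h4] at h1
  linarith

/-- Take `C₂ = 10 ^ 18 * CL * C₁ ^ 2`. Let `t = M s`, `W = μ.real (ball x (3 t)) ≤ lam' t`,
`lam' = lam / (C₂ (1 + log M))`, `κ = lam + 1 / s`. `exists_net x (s / 200) (27 / 10 * t)` gives
`N`; `W y = μ.real (ball y (3 s))`; the balls lie in `ball x (3 t)` and overlap at most `1201 ^ 2`
times, so `∑ y ∈ N, W y ≤ 1201 ^ 2 W` (`sum_real_le_of_overlap`, `Wst.fin`). Let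
`S = N.filter (lam * s < W y)`, `G = N.filter (W y ≤ lam * s)`; `card S * (lam s) ≤ 1201 ^ 2 W`, so
`card S ≤ M`. For `y ∈ G` the hypothesis `St` gives `A y, E y, Xy y` (choose; arbitrary values
off `G`) with `Fit` for `ε = C₁ κ ≤ 1 / 20` (`Fit.mono`) and `r y = W y / (10 ^ 9 lam)`. `LatSt`
gives the hypothesis of `reach_all` with `β = CL ε`; put `γ = 5000 M ^ 2 β` and apply `glue`, then
`FitSt` with `η + 4 γ`, `ζ = ε + 4 γ`,
`R = 50 s (1 + log M) card S + 2 ∑ r y ≤ 1201 ^ 2 * 51 * (1 + log M) W / lam`, so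
`2 R ≤ W / (10 ^ 9 lam') ≤ t / 10 ^ 9`. Finally `(W + 1) / t ≤ κ` and
`4 γ + C₁ (ε + 4 γ + κ) ≤ 10 ^ 5 M ^ 2 CL C₁ ^ 2 κ`; finish with `RigAt.mono`. -/
theorem step_st {C₁ CL : ℝ} (h₁ : 1 ≤ C₁) (hL : 1 ≤ CL) (hF : FitSt C₁) (hLat : LatSt CL) :
    ∃ C₂ : ℝ, 2 ≤ C₂ ∧ ∀ M s lam η : ℝ, 1000 ≤ M → 10 ^ 4 ≤ s → 0 < lam → 0 ≤ η →
      η + C₂ * M ^ 2 * (lam + 1 / s) ≤ 1 / 20 → St C₁ s lam η →
      St C₁ (M * s) (lam / (C₂ * (1 + Real.log M))) (η + C₂ * M ^ 2 * (lam + 1 / s)) := by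
  have hC₂ : (10 : ℝ) ^ 18 ≤ 10 ^ 18 * CL * C₁ ^ 2 := by
    have h1 : 1 ≤ CL * C₁ ^ 2 := one_le_mul_of_one_le_of_one_le hL (one_le_pow₀ h₁)
    linarith
  refine ⟨10 ^ 18 * CL * C₁ ^ 2, by linarith, ?_⟩
  intro M s lam η hM hs hlam hη hsm hSt P w μ x hW hμ
  classical
  obtain ⟨C₂, hC₂e⟩ : ∃ C₂ : ℝ, C₂ = 10 ^ 18 * CL * C₁ ^ 2 := ⟨_, rfl⟩
  rw [← hC₂e] at hC₂ hsm hμ ⊢
  have hs0 : 0 < s := by linarith
  have hL1 : 1 ≤ 1 + Real.log M := by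
    have := Real.log_nonneg (show (1 : ℝ) ≤ M by linarith)
    linarith
  have ht : 1000 * s ≤ M * s := mul_le_mul_of_nonneg_right hM hs0.le
  have ht0 : 0 < M * s := by linarith
  have hκ0 : 0 ≤ lam + 1 / s := by positivity
  obtain ⟨κ, hκ⟩ : ∃ κ : ℝ, κ = lam + 1 / s := ⟨_, rfl⟩
  rw [← hκ] at hsm hκ0 ⊢
  obtain ⟨q1, q2, q3⟩ := StepF_err h₁ hL hM hκ0
  obtain ⟨q, hq⟩ : ∃ q : ℝ, q = CL * C₁ ^ 2 * M ^ 2 * κ := ⟨_, rfl⟩
  have hq' : C₂ * M ^ 2 * κ = 10 ^ 18 * q := by rw [hC₂e, hq]; ring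
  rw [← hq] at q1 q2 q3
  rw [hq'] at hsm ⊢
  have hε0 : 0 ≤ C₁ * κ := by positivity
  have hq0 : 0 ≤ q := hε0.trans q1
  have hW0 : 0 ≤ μ.real (ball x (3 * (M * s))) := measureReal_nonneg
  have hQ : 10 ^ 18 ≤ C₂ * (1 + Real.log M) := hC₂.trans (le_mul_of_one_le_right (by linarith) hL1)
  have hQ0 : 0 < C₂ * (1 + Real.log M) := by linarith
  have hl0 : 0 < lam / (C₂ * (1 + Real.log M)) := div_pos hlam hQ0
  have hl1 : 1201 ^ 2 * (lam / (C₂ * (1 + Real.log M))) ≤ lam := by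
    rw [← mul_div_assoc, div_le_iff₀ hQ0, mul_comm]
    exact mul_le_mul_of_nonneg_left (by linarith) hlam.le
  -- the net
  obtain ⟨N, hnet, hN', hcount⟩ := exists_net x (s / 200) (27 / 10 * (M * s)) (by positivity)
    (by positivity)
  have hN : ∀ y ∈ N, ‖y - x‖ ≤ 28 / 10 * (M * s) := fun y hy => by
    have := hN' y hy
    linarith
  have hsum := StepF_sum μ x s (M * s) N hs0 ht (hW.fin _ _) hN fun z =>
    by convert hcount z (3 * s) (by positivity)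
  let S : Finset ℂ := N.filter fun y => lam * s < μ.real (ball y (3 * s))
  let G : Finset ℂ := N.filter fun y => μ.real (ball y (3 * s)) ≤ lam * s
  have hGS : ∀ y ∈ N, y ∉ S → y ∈ G := fun y hy h =>
    Finset.mem_filter.2 ⟨hy, not_lt.1 fun h' => h (Finset.mem_filter.2 ⟨hy, h'⟩)⟩
  have hSc : (S.card : ℝ) * (lam * s) ≤ 1201 ^ 2 * μ.real (ball x (3 * (M * s))) := by
    refine le_trans ?_ hsum
    calc (S.card : ℝ) * (lam * s) = ∑ _y ∈ S, lam * s := by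
          rw [Finset.sum_const, nsmul_eq_mul]
      _ ≤ ∑ y ∈ S, μ.real (ball y (3 * s)) :=
          Finset.sum_le_sum fun y hy => (Finset.mem_filter.1 hy).2.le
      _ ≤ _ := Finset.sum_le_sum_of_subset_of_nonneg (Finset.filter_subset _ _)
          fun _ _ _ => measureReal_nonneg
  have hGs : ∑ y ∈ G, μ.real (ball y (3 * s)) ≤ 1201 ^ 2 * μ.real (ball x (3 * (M * s))) :=
    le_trans (Finset.sum_le_sum_of_subset_of_nonneg (Finset.filter_subset _ _)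
      fun _ _ _ => measureReal_nonneg) hsum
  have hSM : (S.card : ℝ) ≤ M := by
    have h1 : 1201 ^ 2 * (lam / (C₂ * (1 + Real.log M))) * (M * s) ≤ lam * (M * s) :=
      mul_le_mul_of_nonneg_right hl1 ht0.le
    have h2 : (S.card : ℝ) * (lam * s) ≤ M * (lam * s) := by
      calc (S.card : ℝ) * (lam * s) ≤ _ := hSc
        _ ≤ 1201 ^ 2 * (lam / (C₂ * (1 + Real.log M)) * (M * s)) :=
          mul_le_mul_of_nonneg_left hμ (by positivity)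
        _ = 1201 ^ 2 * (lam / (C₂ * (1 + Real.log M))) * (M * s) := by ring
        _ ≤ lam * (M * s) := h1
        _ = M * (lam * s) := by ring
    exact le_of_mul_le_mul_right h2 (by positivity)
  -- the local pictures
  have hex : ∀ y : ℂ, ∃ (a e : ℂ) (X : Set ℂ), y ∈ G → Fit P a e y s (C₁ * κ) ∧
      Cov X (μ.real (ball y (3 * s)) / (10 ^ 9 * lam)) ∧ Apx P a e y (2 * s) X η := by
    intro y
    by_cases hy : y ∈ G
    · have hy2 := (Finset.mem_filter.1 hy).2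
      obtain ⟨a, e, h1, X, h2, h3⟩ := hSt P w μ y hW hy2
      refine ⟨a, e, X, fun _ => ⟨h1.mono ?_, h2, h3⟩⟩
      rw [mul_div_assoc]
      refine mul_le_mul_of_nonneg_left ?_ (by linarith)
      rw [hκ, add_div]
      exact add_le_add ((div_le_iff₀ hs0).2 hy2) le_rfl
    · exact ⟨0, 0, ∅, fun h => absurd h hy⟩
  choose A E Xy hloc using hex
  have hβ0 : 0 ≤ CL * (C₁ * κ) := by positivity
  obtain ⟨y₀, hy₀, hy₀S, X₀, hX₀, hreach⟩ := reach_all x s M (CL * (C₁ * κ)) N S A E hs hM hβ0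
    hnet hN hSM fun y hy y' hy' h h' hd => hLat P y y' _ _ _ _ s (C₁ * κ) hW.loc.sep hs hd hε0
      (by linarith) (hloc y (hGS y hy h)).1 (hloc y' (hGS y' hy' h')).1
  obtain ⟨γ, hγ⟩ : ∃ γ : ℝ, γ = 5000 * M ^ 2 * (CL * (C₁ * κ)) := ⟨_, rfl⟩
  rw [← hγ] at hreach
  have hγ0 : 0 ≤ γ := by rw [hγ]; positivity
  have hγ1 : γ ≤ 5000 * q := by rw [hγ, mul_assoc]; linarith
  have hγ2 : C₁ * γ = 5000 * q := by rw [hγ, hq]; ring
  obtain ⟨X, Z, hX, hA, hZ, hZ'⟩ := glue P x (A y₀) (E y₀) s (M * s) η (C₁ * κ) γ _ G A E Xy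
    (fun y => μ.real (ball y (3 * s)) / (10 ^ 9 * lam)) X₀ hs ht hγ0 (by linarith) hloc hX₀
    (fun z hz hz' => by
      obtain ⟨y, hy, hyS, h1, h2⟩ := hreach z hz hz'
      exact ⟨y, hGS y hy hyS, h1, h2⟩)
    (fun z ρ hρ => by
      refine le_trans (Nat.cast_le.2 (Finset.card_le_card fun y hy => ?_)) (hcount z ρ hρ)
      rw [Finset.mem_filter] at hy ⊢
      exact ⟨(Finset.mem_filter.1 hy.1).1, hy.2⟩)
  rw [← Finset.sum_div] at hX
  have hR := StepF_rad hC₂ hL1 hW0 hlam hSc hGs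
  have hR0 := hX.nonneg
  have hR1 : μ.real (ball x (3 * (M * s))) / (10 ^ 9 * (lam / (C₂ * (1 + Real.log M)))) ≤
      M * s / 10 ^ 9 := by
    rw [div_le_iff₀ (by positivity)]
    calc _ ≤ _ := hμ
      _ = _ := by ring
  have hWt : (μ.real (ball x (3 * (M * s))) + 1) / (M * s) ≤ κ := by
    rw [hκ, add_div]
    refine add_le_add (((div_le_iff₀ ht0).2 hμ).trans (by linarith)) ?_
    exact one_div_le_one_div_of_le hs0 (by linarith)
  have hWt' : C₁ * ((μ.real (ball x (3 * (M * s))) + 1) / (M * s)) ≤ q :=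
    (mul_le_mul_of_nonneg_left hWt (by linarith)).trans q1
  have hζ : C₁ * (C₁ * κ + 4 * γ) ≤ 20001 * q := by
    have : C₁ * (C₁ * κ + 4 * γ) = C₁ * (C₁ * κ) + 4 * (C₁ * γ) := by ring
    linarith
  obtain ⟨a', e', hrig⟩ := hF P w μ x (A y₀) (E y₀) (M * s) (η + 4 * γ) (C₁ * κ + 4 * γ) _ X Z hW
    (by linarith) (hloc y₀ (hGS y₀ hy₀ hy₀S)).1.1 hX (by linarith) hA (by linarith) (by linarith)
    (by linarith) (by
      rw [← mul_div_assoc, div_le_iff₀ ht0] at hWt'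
      exact hWt'.trans (mul_le_of_le_one_left ht0.le (by linarith))) hZ hZ'
  refine ⟨a', e', hrig.mono ?_ hR le_rfl⟩
  rw [mul_add C₁ (C₁ * κ + 4 * γ)]
  linarith

end Pool.Agent.Lib.MP_b07bdb_co.Nk
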