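import Pool.Agent.Lib.MP_b07bdb_co.Nk.Newton
import Pool.Agent.Lib.MP_b07bdb_co.Step

/-! Transfer between packings of the Euclidean plane and finite sets of complex numbers. -/

namespace Pool.Agent.Lib.MP_b07bdb_co.Nk

open Metric

theorem good_to_packing {S : Finset ℂ} {k n : ℕ} (h : Good S k) (hn : n + 1 ≤ S.card) :
    ∃ P : Set Plane, IsPacking P ∧ ∃ A : P, (n : ℕ∞) ≤ (neighborsUpTo P A k).encard := by
  classical
  set φ := Complex.orthonormalBasisOneI.repr with hφ
  refine ⟨φ '' S, ?_, ⟨φ 0, 0, h.1, rfl⟩, ?_⟩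
  · rintro _ ⟨x, hx, rfl⟩ _ ⟨y, hy, rfl⟩ hne
    rw [interior_closedBall _ one_ne_zero, interior_closedBall _ one_ne_zero]
    apply ball_disjoint_ball
    rw [φ.dist_map]
    have := h.2.1 x hx y hy (fun e => hne (by rw [e]))
    linarith
  · set A : (φ '' S : Set Plane) := ⟨φ 0, 0, h.1, rfl⟩ with hA
    have key : ∀ j, ∀ x (hx : x ∈ S), Reach S j x →
        (contactGraph (φ '' S)).edist A ⟨φ x, x, hx, rfl⟩ ≤ j := by
      intro j
      induction j with
      | zero =>
        intro x hx hr
        have : x = 0 := hr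
        subst this
        simp [hA]
      | succ j ih =>
        intro x hx hr
        rcases hr with hr | ⟨y, hy, h1, h2⟩
        · exact le_trans (ih x hx hr) (by exact_mod_cast Nat.le_succ j)
        · have hadj : (contactGraph (φ '' S)).Adj ⟨φ y, y, hy, rfl⟩ ⟨φ x, x, hx, rfl⟩ := by
            rw [contactGraph, SimpleGraph.fromRel_adj]
            refine ⟨fun e => ?_, Or.inr (by simp only; rw [φ.dist_map, h2])⟩
            have : y = x := φ.injective (congrArg Subtype.val e)
            rw [this, dist_self] at h2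
            linarith
          refine le_trans (SimpleGraph.edist_triangle (v := ⟨φ y, y, hy, rfl⟩)) ?_
          rw [SimpleGraph.edist_eq_one_iff_adj.2 hadj]
          push_cast
          exact add_le_add (ih y hy h1) le_rfl
    have hsub : φ '' (S.erase 0 : Finset ℂ) ⊆ Subtype.val '' neighborsUpTo (φ '' S) A k := by
      rintro _ ⟨x, hx, rfl⟩
      obtain ⟨hx0, hxS⟩ := Finset.mem_erase.1 hx
      refine ⟨⟨φ x, x, hxS, rfl⟩, ?_, rfl⟩
      have h1 := key k x hxS (h.2.2 x hxS)
      obtain ⟨j, hj⟩ := ENat.ne_top_iff_exists.1 (ne_top_of_le_ne_top (ENat.natCast_ne_top k) h1)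
      refine ⟨j, ?_, ?_, hj.symm⟩
      · by_contra hc
        have : j = 0 := by omega
        rw [this] at hj
        have := SimpleGraph.edist_eq_zero_iff.1 hj.symm
        exact hx0 (φ.injective (congrArg Subtype.val this)).symm
      · rw [← hj] at h1
        exact_mod_cast h1
    have h1 := Set.encard_le_encard hsub
    rw [φ.injective.encard_image, Subtype.val_injective.encard_image,
      Set.encard_coe_eq_coe_finsetCard, Finset.card_erase_of_mem h.1] at h1
    exact le_trans (by exact_mod_cast (by omega : n ≤ S.card - 1)) h1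

/-- A bounded set of complex numbers with mutual distances at least `2` is finite (it is totally
bounded: finitely many balls of radius `1` cover it and each contains at most one point). -/
lemma finite_of_sep (T : Set ℂ) (r : ℝ) (hb : ∀ z ∈ T, ‖z‖ ≤ r)
    (hs : ∀ x ∈ T, ∀ y ∈ T, x ≠ y → 2 ≤ dist x y) : T.Finite := by
  have htb : TotallyBounded T := (isCompact_closedBall (0 : ℂ) r).totallyBounded.subset
    fun z hz => by simpa using hb z hz
  obtain ⟨t, ht, hsub⟩ := Metric.totallyBounded_iff.1 htb 1 one_pos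
  have h1 : T ⊆ ⋃ y ∈ t, T ∩ ball y 1 := fun z hz => by
    obtain ⟨y, hy, hzy⟩ := Set.mem_iUnion₂.1 (hsub hz)
    exact Set.mem_iUnion₂.2 ⟨y, hy, hz, hzy⟩
  refine (ht.biUnion fun y _ => Set.Subsingleton.finite ?_).subset h1
  intro a ha b hb'
  by_contra hne
  have h2 := hs a ha.1 b hb'.1 hne
  have h3 := dist_triangle_right a b y
  have h4 := mem_ball.1 ha.2
  have h5 := mem_ball.1 hb'.2
  linarith

/-- Distinct centres of a packing are at distance at least `2` (otherwise the midpoint lies in
both open discs; `interior_closedBall`, `disjoint_ball_ball_iff`). -/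
lemma IsPacking.two_le {P : Set Plane} (hP : IsPacking P) {p q : Plane} (hp : p ∈ P) (hq : q ∈ P)
    (hne : p ≠ q) : 2 ≤ dist p q := by
  have h : Disjoint (interior (closedBall p 1)) (interior (closedBall q 1)) := hP hp hq hne
  rw [interior_closedBall _ one_ne_zero, interior_closedBall _ one_ne_zero,
    disjoint_ball_ball_iff one_pos one_pos] at h
  linarith

lemma Transfer_step {V : Type*} {G : SimpleGraph V} {A B : V} {j : ℕ}
    (h : G.edist A B ≤ (j + 1 : ℕ)) : B = A ∨ ∃ B', G.edist A B' ≤ j ∧ G.Adj B B' := by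
  obtain ⟨p, hp⟩ := SimpleGraph.exists_walk_of_edist_ne_top (G := G) (u := B) (v := A)
    (by rw [SimpleGraph.edist_comm]; exact ne_top_of_le_ne_top (ENat.natCast_ne_top _) h)
  rw [SimpleGraph.edist_comm, ← hp] at h
  cases p with
  | nil => exact Or.inl rfl
  | cons hadj q =>
    refine Or.inr ⟨_, ?_, hadj⟩
    rw [SimpleGraph.edist_comm]
    refine (SimpleGraph.edist_le q).trans ?_
    rw [SimpleGraph.Walk.length_cons] at h
    exact_mod_cast (by have := Nat.cast_le.1 h; omega : q.length ≤ j)

lemma Transfer_adj {P : Set Plane} {B B' : P} (h : (contactGraph P).Adj B B') :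
    dist (B : Plane) B' = 2 := by
  rw [contactGraph, SimpleGraph.fromRel_adj] at h
  rcases h.2 with h | h
  · exact h
  · rw [dist_comm]; exact h

lemma Transfer_reach_zero (S : Finset ℂ) : ∀ j, Reach S j 0
  | 0 => rfl
  | j + 1 => Or.inl (Transfer_reach_zero S j)

/-- Let `ψ B = φ.symm (B - A)` with `φ = Complex.orthonormalBasisOneI.repr` (an isometry up to the
translation) and `T = ψ '' {B | edist A B ≤ k}`. By induction on `j`: if `edist A B ≤ j` then
`‖ψ B‖ ≤ 2 j` (a shortest walk, `SimpleGraph.exists_walk_of_edist_ne_top`, or: `edist A B ≤ j + 1`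
implies `B = A` or `B` is adjacent to some `B'` with `edist A B' ≤ j`); so `T` is finite
(`finite_of_sep`); with `S = T.toFinset` the same induction gives `Reach S j (ψ B)` for `j ≤ k`.
`ψ` maps `neighborsUpTo P A k` injectively into `S`. -/
theorem packing_to_good {P : Set Plane} (hP : IsPacking P) (A : P) (k : ℕ) :
    ∃ S : Finset ℂ, Good S k ∧ (neighborsUpTo P A k).encard ≤ (S.card : ℕ∞) := by
  classical
  set φ := Complex.orthonormalBasisOneI.repr with hφ
  set ψ : P → ℂ := fun B => φ.symm ((B : Plane) - A) with hψ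
  have hd : ∀ B B' : P, dist (ψ B) (ψ B') = dist (B : Plane) B' := fun B B' => by
    simp only [hψ]
    rw [φ.symm.dist_map, dist_sub_right]
  have hA : ψ A = 0 := by simp [hψ]
  have hinj : Function.Injective ψ := fun B B' e => by
    have := hd B B'
    rw [e, dist_self] at this
    exact Subtype.ext (dist_eq_zero.1 this.symm)
  have hnorm : ∀ j : ℕ, ∀ B : P, (contactGraph P).edist A B ≤ j → ‖ψ B‖ ≤ 2 * j := by
    intro j
    induction j with
    | zero =>
      intro B hB
      have : A = B := by simpa using hB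
      rw [← this, hA]
      simp
    | succ j ih =>
      intro B hB
      rcases Transfer_step hB with rfl | ⟨B', h1, h2⟩
      · rw [hA, norm_zero]; positivity
      · have h3 := ih B' h1
        have h4 := hd B B'
        rw [Transfer_adj h2, dist_eq_norm] at h4
        have h5 := norm_le_norm_add_norm_sub' (ψ B) (ψ B')
        push_cast
        linarith
  set T : Set ℂ := ψ '' {B | (contactGraph P).edist A B ≤ k} with hT
  have hsep : ∀ x ∈ T, ∀ y ∈ T, x ≠ y → 2 ≤ dist x y := by
    rintro _ ⟨B, -, rfl⟩ _ ⟨B', -, rfl⟩ hne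
    rw [hd]
    exact IsPacking.two_le hP B.2 B'.2 fun e => hne (by rw [Subtype.ext e])
  have hfin : T.Finite := finite_of_sep T (2 * k) (by
    rintro _ ⟨B, hB, rfl⟩
    exact hnorm k B hB) hsep
  have hreach : ∀ j : ℕ, j ≤ k → ∀ B : P, (contactGraph P).edist A B ≤ j →
      Reach hfin.toFinset j (ψ B) := by
    intro j
    induction j with
    | zero =>
      intro _ B hB
      have : A = B := by simpa using hB
      rw [← this, hA]
      rfl
    | succ j ih =>
      intro hj B hB
      rcases Transfer_step hB with rfl | ⟨B', h1, h2⟩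
      · rw [hA]; exact Transfer_reach_zero _ _
      · refine Or.inr ⟨ψ B', hfin.mem_toFinset.2 ⟨B', ?_, rfl⟩, ih (by omega) B' h1, ?_⟩
        · exact h1.trans (by exact_mod_cast (by omega : j ≤ k))
        · rw [hd, Transfer_adj h2]
  refine ⟨hfin.toFinset, ⟨hfin.mem_toFinset.2 ⟨A, by simp, hA⟩, fun x hx y hy =>
    hsep x (hfin.mem_toFinset.1 hx) y (hfin.mem_toFinset.1 hy), fun x hx => ?_⟩, ?_⟩
  · obtain ⟨B, hB, rfl⟩ := hfin.mem_toFinset.1 hx
    exact hreach k le_rfl B hB
  · rw [← hinj.encard_image, ← Set.encard_coe_eq_coe_finsetCard, hfin.coe_toFinset]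
    refine Set.encard_le_encard (Set.image_mono ?_)
    rintro B ⟨j, -, hj, e⟩
    show (contactGraph P).edist A B ≤ k
    rw [e]
    exact_mod_cast hj

end Pool.Agent.Lib.MP_b07bdb_co.Nk
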