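import Pool.Agent.Lib.MP_b07bdb_co.Nk.Defs

/-! The local waste of a centre of a packing and the almost hexagonal shape of its
neighbourhood. -/

namespace Pool.Agent.Lib.MP_b07bdb_co.Nk

open Metric MeasureTheory Real

/-- The open arc of directions with centre `φ` and half length `θ`. -/
def WArc (φ θ x : ℝ) : Prop := ∃ k : ℤ, |x - φ - k * (2 * π)| < θ

/-- Disjoint arcs have total length at most that of the circle. -/
theorem warc_sum {ι : Type*} (s : Finset ι) (φ θ : ι → ℝ) (h0 : ∀ i ∈ s, 0 ≤ θ i)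
    (h1 : ∀ i ∈ s, θ i ≤ π)
    (hd : ∀ i ∈ s, ∀ j ∈ s, i ≠ j → ∀ x, WArc (φ i) (θ i) x → ¬ WArc (φ j) (θ j) x)
    {c ρ : ℝ} (r0 : 0 ≤ ρ) (r1 : ρ ≤ π) (hJ : ∀ i ∈ s, ∀ x, WArc c ρ x → ¬ WArc (φ i) (θ i) x) :
    ρ + ∑ i ∈ s, θ i ≤ π := by
  have : Fact (0 < 2 * π) := ⟨two_pi_pos⟩
  have mem : ∀ a t x : ℝ, (x : AddCircle (2 * π)) ∈ ball (a : AddCircle (2 * π)) t →
      WArc a t x := by
    intro a t x h
    rw [mem_ball, dist_eq_norm, ← AddCircle.coe_sub, AddCircle.norm_eq] at h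
    exact ⟨_, h⟩
  have vol : ∀ a t : ℝ, 0 ≤ t → t ≤ π → volume.real (ball (a : AddCircle (2 * π)) t) = 2 * t := by
    intro a t t0 t1
    rw [← measureReal_congr AddCircle.closedBall_ae_eq_ball, measureReal_def,
      AddCircle.volume_closedBall, min_eq_right (by linarith), ENNReal.toReal_ofReal (by linarith)]
  have dis : ∀ a t b u : ℝ, (∀ x, WArc a t x → ¬ WArc b u x) →
      Disjoint (ball (a : AddCircle (2 * π)) t) (ball (b : AddCircle (2 * π)) u) := by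
    intro a t b u h
    rw [Set.disjoint_left]
    intro y y1 y2
    obtain ⟨x, rfl⟩ := QuotientAddGroup.mk_surjective y
    exact h x (mem _ _ _ y1) (mem _ _ _ y2)
  have e1 : volume.real (⋃ i ∈ s, ball (φ i : AddCircle (2 * π)) (θ i)) = ∑ i ∈ s, 2 * θ i := by
    rw [measureReal_biUnion_finset (fun i hi j hj ij => dis _ _ _ _ (hd i hi j hj ij))
      fun _ _ => measurableSet_ball]
    exact Finset.sum_congr rfl fun i hi => vol _ _ (h0 i hi) (h1 i hi)
  have e2 := measureReal_union (μ := volume) (s₁ := ball (c : AddCircle (2 * π)) ρ)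
    (s₂ := ⋃ i ∈ s, ball (φ i : AddCircle (2 * π)) (θ i))
    (Set.disjoint_iUnion₂_right.2 fun i hi => dis _ _ _ _ (hJ i hi))
    (Finset.measurableSet_biUnion _ fun _ _ => measurableSet_ball) (measure_ne_top _ _)
    (measure_ne_top _ _)
  have e3 := measureReal_mono (μ := volume) (Set.subset_univ (ball (c : AddCircle (2 * π)) ρ ∪
    ⋃ i ∈ s, ball (φ i : AddCircle (2 * π)) (θ i)))
  rw [e2, e1, vol _ _ r0 r1, measureReal_def, AddCircle.measure_univ,
    ENNReal.toReal_ofReal two_pi_pos.le, ← Finset.mul_sum] at e3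
  linarith

/-- Half the angle under which the disc of radius `2 / √3` about `v` cuts the circle of the same
radius about the origin. -/
noncomputable def wth (v : ℂ) : ℝ := arccos (√3 * ‖v‖ / 4)

/-- The area of a circular segment of the unit disc. -/
noncomputable def whh (θ : ℝ) : ℝ := θ - sin θ * cos θ

/-- The local waste. -/
noncomputable def wst (P : Finset ℂ) (p : ℂ) : ℝ :=
  4 / 3 * π - 2 * √3 - 4 / 3 * ∑ q ∈ P.erase p, whh (wth (q - p))

/-- The distance of a half angle from the nearer good value. -/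
noncomputable def wmm (θ : ℝ) : ℝ := if π / 12 < θ then π / 6 - θ else θ

theorem ws3 : 1.732 < √3 ∧ √3 < 1.733 ∧ √3 * √3 = 3 :=
  ⟨Real.lt_sqrt_of_sq_lt (by norm_num), (Real.sqrt_lt' (by norm_num)).2 (by norm_num),
    Real.mul_self_sqrt (by norm_num)⟩

theorem wth_nonneg (v : ℂ) : 0 ≤ wth v := arccos_nonneg _

theorem wth_le {v : ℂ} (h : 2 ≤ ‖v‖) : wth v ≤ π / 6 := by
  have := pi_pos
  rw [← arccos_cos (x := π / 6) (by positivity) (by linarith), cos_pi_div_six]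
  refine arccos_le_arccos ?_
  have := ws3.1
  nlinarith

theorem wth_cos {v : ℂ} (h : √3 * ‖v‖ / 4 ≤ 1) : cos (wth v) = √3 * ‖v‖ / 4 :=
  cos_arccos ((by norm_num : (-1 : ℝ) ≤ 0).trans (by positivity)) h

theorem wth_cos' {v : ℂ} (h : 0 < wth v) : cos (wth v) = √3 * ‖v‖ / 4 :=
  wth_cos (arccos_pos.1 h).le

theorem wth_big {v : ℂ} (h : ‖v‖ ≤ 21 / 10) : π / 12 < wth v := by
  by_contra hc
  have h0 := wth_nonneg v
  have h1 := ws3.2.1
  have h2 : √3 * ‖v‖ ≤ 1.733 * (21 / 10) := by gcongr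
  have h3 := wth_cos (v := v) (by linarith)
  have h4 := one_sub_sq_div_two_le_cos (x := wth v)
  have h5 := pi_lt_d2
  have h6 : wth v ≤ 0.27 := by linarith
  nlinarith

theorem wth_norm {v : ℂ} (h : 2 ≤ ‖v‖) (hb : π / 12 < wth v) :
    ‖v‖ ≤ 2 + 7 / 3 * (π / 6 - wth v) := by
  have h0 := pi_pos
  have h1 := wth_cos' (v := v) (by linarith)
  have h2 := (le_abs_self _).trans (abs_cos_sub_cos_le (wth v) (π / 6))
  have h3 := wth_le h
  rw [abs_of_nonpos (by linarith), h1, cos_pi_div_six] at h2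
  have h4 := ws3.1
  nlinarith

theorem warc_mem {v : ℂ} {x : ℝ} (hv : v ≠ 0) (h : WArc v.arg (wth v) x) :
    √3 * (v.re ^ 2 + v.im ^ 2) < 4 * (cos x * v.re + sin x * v.im) := by
  obtain ⟨k, hk⟩ := h
  have h0 : 0 < wth v := (abs_nonneg _).trans_lt hk
  have h1 := cos_lt_cos_of_nonneg_of_le_pi (abs_nonneg _) (arccos_le_pi _) hk
  change cos (wth v) < _ at h1
  rw [wth_cos' h0, cos_abs, cos_sub_int_mul_two_pi, cos_sub] at h1
  have h2 := norm_pos_iff.2 hv
  have h3 : ‖v‖ ^ 2 = v.re ^ 2 + v.im ^ 2 := by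
    rw [Complex.sq_norm, Complex.normSq_apply]; ring
  rw [← h3, ← Complex.norm_mul_cos_arg v, ← Complex.norm_mul_sin_arg v]
  have := mul_lt_mul_of_pos_left h1 h2
  linarith

theorem warc_disj {v v' : ℂ} (h : 2 ≤ ‖v‖) (h' : 2 ≤ ‖v'‖) (hd : 2 ≤ ‖v - v'‖) (x : ℝ)
    (a : WArc v.arg (wth v) x) : ¬ WArc v'.arg (wth v') x := by
  intro a'
  have b := warc_mem (norm_pos_iff.1 (by linarith)) a
  have b' := warc_mem (norm_pos_iff.1 (by linarith)) a'
  rw [two_le_norm] at h h' hd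
  rw [Complex.sub_re, Complex.sub_im] at hd
  obtain ⟨s1, -, s3⟩ := ws3
  have s0 : 0 < √3 := by linarith
  have c := mul_lt_mul_of_pos_left b s0
  have c' := mul_lt_mul_of_pos_left b' s0
  rw [← mul_assoc, s3] at c c'
  have e : (2 * √3 * cos x - (v.re + v'.re)) ^ 2 + (2 * √3 * sin x - (v.im + v'.im)) ^ 2 =
      12 - √3 * (4 * (cos x * v.re + sin x * v.im)) - √3 * (4 * (cos x * v'.re + sin x * v'.im)) +
        (v.re + v'.re) ^ 2 + (v.im + v'.im) ^ 2 := by
    linear_combination 4 * (cos x ^ 2 + sin x ^ 2) * s3 + 12 * cos_sq_add_sin_sq x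
  nlinarith [sq_nonneg (2 * √3 * cos x - (v.re + v'.re)),
    sq_nonneg (2 * √3 * sin x - (v.im + v'.im))]

theorem wmm_nonneg {θ : ℝ} (h0 : 0 ≤ θ) (h1 : θ ≤ π / 6) : 0 ≤ wmm θ := by
  unfold wmm; split_ifs <;> linarith

theorem wc_bd : 0.82 ≤ 3 * √3 / (2 * π) ∧ 3 * √3 / (2 * π) ≤ 0.83 := by
  obtain ⟨s1, s2, -⟩ := ws3
  have p1 := pi_gt_d2
  have p2 := pi_lt_d2
  rw [le_div_iff₀ two_pi_pos, div_le_iff₀ two_pi_pos]
  constructor <;> linarith

theorem wg_ge {θ : ℝ} (h0 : 0 ≤ θ) (h1 : θ ≤ π / 6) :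
    wmm θ / 12 ≤ (1 - 3 * √3 / (2 * π)) * θ - whh θ := by
  obtain ⟨c1, c2⟩ := wc_bd
  have ce : 3 * √3 / (2 * π) * (π / 6) = √3 / 4 := by field_simp; ring
  generalize 3 * √3 / (2 * π) = c at c1 c2 ce
  have p2 := pi_lt_d4
  have e : sin θ * cos θ = sin (2 * θ) / 2 := by rw [sin_two_mul]; ring
  unfold wmm whh
  rw [e]
  split_ifs with h
  · obtain ⟨t, rfl⟩ : ∃ t, θ = π / 6 - t := ⟨π / 6 - θ, by ring⟩
    have t0 : 0 ≤ t := by linarith
    have t1 : t ≤ 0.262 := by linarith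
    rw [show 2 * (π / 6 - t) = π / 3 - 2 * t by ring, sin_sub, sin_pi_div_three, cos_pi_div_three]
    have a1 := one_sub_sq_div_two_le_cos (x := 2 * t)
    have a2 := sin_le (x := 2 * t) (by linarith)
    obtain ⟨s1, s2, -⟩ := ws3
    have a3 : √3 / 2 * (1 - (2 * t) ^ 2 / 2) ≤ √3 / 2 * cos (2 * t) := by gcongr
    have a4 : √3 * t ≤ 1.733 * 0.262 := by gcongr
    have a5 : √3 * t * t ≤ 1.733 * 0.262 * t := by gcongr
    have a6 : 0.82 * t ≤ c * t := by gcongr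
    nlinarith
  · have a1 := sin_ge_sub_cube (x := 2 * θ) (by linarith)
    have t1 : θ ≤ 0.262 := by linarith
    have a2 : θ * θ ≤ 0.262 * 0.262 := by gcongr
    have a3 : θ * θ * θ ≤ 0.262 * 0.262 * θ := by gcongr
    have a4 : c * θ ≤ 0.83 * θ := by gcongr
    nlinarith

variable {P : Finset ℂ} {p q q' : ℂ}

theorem Sep.norm (hP : Sep P) (hp : p ∈ P) (hq : q ∈ P) (h : q ≠ p) : 2 ≤ ‖q - p‖ :=
  dist_eq_norm q p ▸ hP q hq p hp h

theorem Sep.norm' (hP : Sep P) (hp : p ∈ P) (hq : q ∈ P.erase p) : 2 ≤ ‖q - p‖ :=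
  hP.norm hp (Finset.mem_of_mem_erase hq) (Finset.ne_of_mem_erase hq)

theorem Sep.disj (hP : Sep P) (hp : p ∈ P) (hq : q ∈ P.erase p) (hq' : q' ∈ P.erase p)
    (h : q ≠ q') (x : ℝ) (a : WArc (q - p).arg (wth (q - p)) x) :
    ¬ WArc (q' - p).arg (wth (q' - p)) x :=
  warc_disj (hP.norm' hp hq) (hP.norm' hp hq') (by
    rw [sub_sub_sub_cancel_right]
    exact hP.norm (Finset.mem_of_mem_erase hq') (Finset.mem_of_mem_erase hq) h) x a

theorem wth_sum (hP : Sep P) (hp : p ∈ P) : ∑ q ∈ P.erase p, wth (q - p) ≤ π := by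
  have := warc_sum (P.erase p) (fun q => (q - p).arg) (fun q => wth (q - p))
    (fun _ _ => wth_nonneg _) (fun _ _ => arccos_le_pi _)
    (fun _ hq _ hq' h => hP.disj hp hq hq' h) (c := 0) le_rfl pi_pos.le
    fun _ _ _ ⟨_, h⟩ => absurd h (abs_nonneg _).not_gt
  simpa using this

theorem wst_key (hP : Sep P) (hp : p ∈ P) :
    π - ∑ q ∈ P.erase p, wth (q - p) + ∑ q ∈ P.erase p, wmm (wth (q - p)) ≤ 9 * wst P p := by
  have h1 := wth_sum hP hp
  have h2 := Finset.sum_le_sum fun q (hq : q ∈ P.erase p) =>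
    wg_ge (wth_nonneg (q - p)) (wth_le (hP.norm' hp hq))
  rw [Finset.sum_sub_distrib, ← Finset.mul_sum, ← Finset.sum_div] at h2
  have c2 := wc_bd.2
  have ce : 3 * √3 / (2 * π) * π = 3 * √3 / 2 := by field_simp
  generalize 3 * √3 / (2 * π) = c at c2 ce h2
  have h3 := mul_le_mul_of_nonneg_right c2 (sub_nonneg.2 h1)
  unfold wst
  nlinarith

theorem wmm_sum (hP : Sep P) (hp : p ∈ P) :
    ∑ q ∈ P.erase p, wmm (wth (q - p)) ≤ 9 * wst P p := by
  have := wst_key hP hp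
  have := wth_sum hP hp
  linarith

theorem wst_nonneg (hP : Sep P) (hp : p ∈ P) : 0 ≤ wst P p := by
  have h1 := wmm_sum hP hp
  have h2 := Finset.sum_nonneg fun q (hq : q ∈ P.erase p) =>
    wmm_nonneg (wth_nonneg (q - p)) (wth_le (hP.norm' hp hq))
  linarith

theorem wth_near (hP : Sep P) (hp : p ∈ P) (hq : q ∈ P.erase p) (hb : π / 12 < wth (q - p)) :
    π / 6 - wth (q - p) ≤ 9 * wst P p := by
  have h1 := wmm_sum hP hp
  have h2 := Finset.single_le_sum (f := fun q => wmm (wth (q - p)))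
    (fun q hq => wmm_nonneg (wth_nonneg (q - p)) (wth_le (hP.norm' hp hq))) hq
  simp only [wmm, if_pos hb] at h2
  exact h2.trans h1

theorem wst_norm (hP : Sep P) (hp : p ∈ P) (hq : q ∈ P.erase p) (hb : π / 12 < wth (q - p)) :
    ‖q - p‖ ≤ 2 + 21 * wst P p := by
  have := wth_near hP hp hq hb
  have := wth_norm (hP.norm' hp hq) hb
  linarith

theorem wst_gap (hP : Sep P) (hp : p ∈ P) :
    π - ∑ q ∈ (P.erase p).filter fun q => π / 12 < wth (q - p), wth (q - p) ≤ 9 * wst P p := by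
  have h1 := wst_key hP hp
  have h2 : ∑ q ∈ P.erase p, wth (q - p) ≤ ∑ q ∈ P.erase p,
      ((if π / 12 < wth (q - p) then wth (q - p) else 0) + wmm (wth (q - p))) := by
    refine Finset.sum_le_sum fun q hq => ?_
    have := wth_le (hP.norm' hp hq)
    unfold wmm
    split_ifs <;> linarith
  rw [Finset.sum_add_distrib, ← Finset.sum_filter] at h2
  linarith

theorem w6_eq : w6 = Complex.exp ((π / 3 : ℝ) * Complex.I) :=
  Complex.ext (by rw [Complex.exp_ofReal_mul_I_re, cos_pi_div_three]; rfl)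
    (by rw [Complex.exp_ofReal_mul_I_im, sin_pi_div_three]; rfl)

theorem wexp_lip (a b : ℝ) :
    ‖Complex.exp (a * Complex.I) - Complex.exp (b * Complex.I)‖ ≤ |a - b| := by
  have e : Complex.exp (a * Complex.I) - Complex.exp (b * Complex.I) =
      Complex.exp (b * Complex.I) * (Complex.exp (Complex.I * (a - b : ℝ)) - 1) := by
    rw [mul_sub, ← Complex.exp_add, mul_one]
    congr 2
    push_cast; ring
  rw [e, norm_mul, Complex.norm_exp_ofReal_mul_I, one_mul]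
  exact norm_exp_I_mul_ofReal_sub_one_le

theorem wrot_est (v v' : ℂ) (m : ℤ) :
    ‖v' - w6 * v‖ ≤ |‖v'‖ - ‖v‖| + ‖v‖ * |v'.arg + m * (2 * π) - (v.arg + π / 3)| := by
  have e1 : v' = ‖v'‖ * Complex.exp ((v'.arg + m * (2 * π) : ℝ) * Complex.I) := by
    have := Complex.exp_int_mul_two_pi_mul_I m
    push_cast
    rw [add_mul, Complex.exp_add, mul_assoc (m : ℂ), this, mul_one,
      Complex.norm_mul_exp_arg_mul_I]
  have e2 : w6 * v = ‖v‖ * Complex.exp ((v.arg + π / 3 : ℝ) * Complex.I) := by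
    rw [Complex.ofReal_add, add_mul, Complex.exp_add, ← mul_assoc,
      Complex.norm_mul_exp_arg_mul_I, w6_eq, mul_comm]
  generalize v'.arg + m * (2 * π) = a at e1
  generalize v.arg + π / 3 = b at e2
  have e3 : v' - w6 * v = ((‖v'‖ - ‖v‖ : ℝ) : ℂ) * Complex.exp (a * Complex.I) +
      ‖v‖ * (Complex.exp (a * Complex.I) - Complex.exp (b * Complex.I)) := by
    rw [e2]; push_cast; linear_combination e1
  rw [e3]
  refine (norm_add_le _ _).trans (add_le_add ?_ ?_)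
  · rw [norm_mul, Complex.norm_exp_ofReal_mul_I, mul_one, Complex.norm_real, norm_eq_abs]
  · rw [norm_mul, Complex.norm_real, norm_norm]
    gcongr
    exact wexp_lip a b

theorem wst_rot (hP : Sep P) (hp : p ∈ P) (hw : wst P p ≤ 1 / 1000) (hq : q ∈ P.erase p)
    (hd : ‖q - p‖ ≤ 21 / 10) {ε : ℝ} (e0 : 0 < ε) (e1 : ε ≤ 1) :
    ∃ q' ∈ P.erase p, ‖q' - p‖ ≤ 21 / 10 ∧ ‖q' - p - w6 * (q - p)‖ ≤ 100 * wst P p + 5 * ε := by
  have w0 := wst_nonneg hP hp
  have p1 := pi_gt_three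
  have gap := wst_gap hP hp
  obtain ⟨q', hq', x, ⟨k, hk⟩, k', hk'⟩ :
      ∃ q' ∈ (P.erase p).filter fun q => π / 12 < wth (q - p), ∃ x,
        WArc ((q - p).arg + π / 6 + (9 * wst P p + ε)) (9 * wst P p + ε) x ∧
          WArc (q' - p).arg (wth (q' - p)) x := by
    by_contra hc
    have := warc_sum ((P.erase p).filter fun q => π / 12 < wth (q - p)) (fun q => (q - p).arg)
      (fun q => wth (q - p)) (fun _ _ => wth_nonneg _) (fun _ _ => arccos_le_pi _)
      (fun _ hq _ hq' h => hP.disj hp (Finset.mem_filter.1 hq).1 (Finset.mem_filter.1 hq').1 h)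
      (c := (q - p).arg + π / 6 + (9 * wst P p + ε)) (ρ := 9 * wst P p + ε) (by linarith)
      (by linarith) fun i hi x a b => hc ⟨i, hi, x, a, b⟩
    linarith
  obtain ⟨hq', hb'⟩ := Finset.mem_filter.1 hq'
  have hb := wth_big hd
  have n1 := wst_norm hP hp hq hb
  have n2 := wst_norm hP hp hq' hb'
  have n3 := hP.norm' hp hq
  have n4 := hP.norm' hp hq'
  have t1 := wth_near hP hp hq hb
  have t2 := wth_near hP hp hq' hb'
  have t3 := wth_le n4
  refine ⟨q', hq', by linarith, (wrot_est _ _ (k' - k)).trans ?_⟩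
  obtain ⟨ψ, hψ⟩ : ∃ ψ, ψ = (q' - p).arg + ((k' - k : ℤ) : ℝ) * (2 * π) := ⟨_, rfl⟩
  rw [← hψ]
  have hψ' := hψ
  push_cast at hψ'
  obtain ⟨k1, k2⟩ := abs_lt.1 hk
  obtain ⟨k3, k4⟩ := abs_lt.1 hk'
  have l0 : (q - p).arg < ψ := by linarith
  have l1 : ψ < (q - p).arg + π / 3 + (18 * wst P p + 2 * ε) := by linarith
  have l2 : (q - p).arg + π / 3 - 18 * wst P p ≤ ψ := by
    by_contra hc
    have hne : q ≠ q' := by
      rintro rfl
      have a1 : (0 : ℝ) < ((k' - k : ℤ) : ℝ) := by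
        by_contra a
        nlinarith
      have a2 : (1 : ℝ) ≤ ((k' - k : ℤ) : ℝ) := by exact_mod_cast Int.cast_pos.1 a1
      nlinarith
    refine hP.disj hp hq hq' hne (((q - p).arg + ψ) / 2) ⟨0, abs_lt.2 ⟨?_, ?_⟩⟩
      ⟨k' - k, abs_lt.2 ⟨?_, ?_⟩⟩ <;> push_cast <;> linarith
  have a1 : |‖q' - p‖ - ‖q - p‖| ≤ 21 * wst P p := abs_le.2 ⟨by linarith, by linarith⟩
  have a2 : |ψ - ((q - p).arg + π / 3)| ≤ 18 * wst P p + 2 * ε := abs_le.2 ⟨by linarith, by linarith⟩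
  have a3 : ‖q - p‖ * |ψ - ((q - p).arg + π / 3)| ≤ 21 / 10 * (18 * wst P p + 2 * ε) := by gcongr
  linarith

theorem loc_wst (hP : Sep P) : Loc P (wst P) := by
  refine ⟨hP, fun p hp => wst_nonneg hP hp, fun p hp q hq h hd => ?_, fun p hp hw => ?_,
    fun p hp hw q hq h hd => ?_⟩
  · have := wst_norm hP hp (Finset.mem_erase.2 ⟨h, hq⟩) (wth_big hd)
    have := wst_nonneg hP hp
    linarith
  · have gap := wst_gap hP hp
    rcases ((P.erase p).filter fun q => π / 12 < wth (q - p)).eq_empty_or_nonempty with e | ⟨q, hq⟩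
    · rw [e, Finset.sum_empty] at gap
      have := pi_gt_three
      linarith
    · obtain ⟨hq, hb⟩ := Finset.mem_filter.1 hq
      have := wst_norm hP hp hq hb
      exact ⟨q, Finset.mem_of_mem_erase hq, Finset.ne_of_mem_erase hq, by linarith⟩
  · have hq' : q ∈ P.erase p := Finset.mem_erase.2 ⟨h, hq⟩
    obtain ⟨r, hr, hm⟩ := ((P.erase p).filter fun r => ‖r - p‖ ≤ 21 / 10).exists_min_image
      (fun r => ‖r - p - w6 * (q - p)‖) ⟨q, Finset.mem_filter.2 ⟨hq', hd⟩⟩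
    obtain ⟨hr, hr'⟩ := Finset.mem_filter.1 hr
    refine ⟨r, Finset.mem_of_mem_erase hr, Finset.ne_of_mem_erase hr, hr',
      le_of_forall_pos_le_add fun ε hε => ?_⟩
    obtain ⟨s, hs, h1, h2⟩ := wst_rot hP hp hw hq' hd (ε := min 1 (ε / 5)) (by positivity)
      (min_le_left _ _)
    have h3 := hm s (Finset.mem_filter.2 ⟨hs, h1⟩)
    have h4 := min_le_right 1 (ε / 5)
    linarith

end Pool.Agent.Lib.MP_b07bdb_co.Nk
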